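import Pool.Agent.H558.TW.Stm

set_option autoImplicit false

/-! # ADD: sections are additive -/

namespace Pool.Agent.H874.TWADD

open PowerSeries Finset Pool.Agent.R836.PP Pool.Agent.H558.KK Pool.Agent.H558.PP Pool.Agent.H558.TW
open Pool.Agent.K7.H72.MT hiding W few dis DD dis_stable dis_vary DD_stable DD_sum DD_block few_bad
  dis_le DD_le base count

theorem step_add (G : S) (b e : ℕ) (U U' : S) :
    step G b e (U + U') = step G b e U + step G b e U' := by
  unfold step
  rw [add_mul]
  ext n
  simp [sec]

theorem node_add (G : S) (k : ℕ) : ∀ (b t : ℕ) (U U' : S),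
    node G k b t (U + U') = node G k b t U + node G k b t U' := by
  induction k with
  | zero =>
    intro b t U U'
    rfl
  | succ k ih =>
    intro b t U U'
    rw [node, node, node, step_add, ih]

theorem add : S_ADD := fun k b t U U' => node_add P2 k b t U U'

end Pool.Agent.H874.TWADD
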