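import Pool.Agent.H558.TW.Stm2

set_option autoImplicit false

/-!
# Joint parity of two patterns for almost all 2-adic `t` (AEN of the project TW of helper558;
helper788, after AE.lean of helper388)
-/

namespace Pool.Agent.H788.TWAEN

open PowerSeries Finset MeasureTheory Pool.Agent.R836.PP Pool.Agent.H558.KK Pool.Agent.H558.PP
  Pool.Agent.H558.TW
open Pool.Agent.K7.H72.MT hiding W few dis DD dis_stable dis_vary DD_stable DD_sum DD_block few_bad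
  dis_le DD_le base count

theorem pat_eq {L : ℕ} (c : Fin (L + 1) → ZMod 2) (t : ℤ_[2]) {n x K : ℕ} (hx : x + L < 2 ^ K)
    (hn : n < x + 1) : ∑ i : Fin (L + 1), c i * pz t (n + i) = pat c (P2 ^ t.appr K) n := by
  unfold pat
  refine sum_congr rfl fun i _ => ?_
  have hi := i.2
  rw [pz_eq t (show n + (i : ℕ) < 2 ^ K by omega)]

theorem cZZ_eq (M ρ : ℕ) {L : ℕ} (c c' : Fin (L + 1) → ZMod 2) (w0 w1 : ℕ → ZMod 2) (t : ℤ_[2])
    {x K : ℕ} (hx : x + L < 2 ^ K) :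
    cZZ M ρ c c' w0 w1 t x = cPP M ρ c c' w0 w1 (t.appr K) x := by
  unfold cZZ cPP
  congr 1
  ext n
  rw [mem_filter, mem_filter]
  refine and_congr_right fun hn => and_congr_right fun _ => ?_
  rw [mem_range] at hn
  rw [pat_eq c t hx hn, pat_eq c' t hx hn]

/-- two patterns, one progression -/
theorem ae_one (hcl : S_CLN) (b' ρ L : ℕ) (c c' : Fin (L + 1) → ZMod 2) (hc0 : c ≠ 0)
    (hc1 : c' ≠ 0) (hc2 : c + c' ≠ 0) (w0 w1 : ℕ → ZMod 2)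
    [MeasurableSpace ℤ_[2]] [BorelSpace ℤ_[2]] (μ : Measure ℤ_[2])
    [IsProbabilityMeasure μ] [μ.IsAddLeftInvariant] :
    ∀ᵐ t ∂μ, t.appr 1 = 1 → ∃ δ : ℝ, 0 < δ ∧ ∀ x₁ : ℕ, ∃ x : ℕ, x₁ ≤ x ∧
      δ * x ≤ cZZ (2 ^ b') ρ c c' w0 w1 t x := by
  classical
  -- the exceptional set
  let B : Set ℤ_[2] := {t | ¬ (t.appr 1 = 1 → ∃ δ : ℝ, 0 < δ ∧ ∀ x₁ : ℕ, ∃ x : ℕ, x₁ ≤ x ∧
      δ * x ≤ cZZ (2 ^ b') ρ c c' w0 w1 t x)}
  have hB : ∀ n : ℕ, μ B ≤ ENNReal.ofReal (1 / ((n : ℝ) + 1)) := by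
    intro n
    obtain ⟨δ, hδ, hc⟩ := hcl b' (1 / ((n : ℝ) + 1)) (by positivity)
    obtain ⟨x0, hx0⟩ := hc ρ L c c' hc0 hc1 hc2
    let A : ℕ → Set ℤ_[2] := fun j => {t | t.appr 1 = 1 ∧
      (cZZ (2 ^ b') ρ c c' w0 w1 t (2 ^ j) : ℝ) < δ * ((2 ^ j : ℕ) : ℝ)}
    have hA : ∀ j, x0 ≤ 2 ^ j → μ (A j) ≤ ENNReal.ofReal (1 / ((n : ℝ) + 1)) := by
      intro j hj
      set K := j + L + 1 with hK
      have hxK : 2 ^ j + L < 2 ^ K := by
        have h1 : L < 2 ^ L := Nat.lt_two_pow_self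
        have h2 : 1 ≤ 2 ^ L := Nat.one_le_two_pow
        have h3 : 2 ^ K = 2 ^ j * 2 ^ L + 2 ^ j * 2 ^ L := by rw [hK]; ring
        have h4 : 1 ≤ 2 ^ j := Nat.one_le_two_pow
        rw [h3]
        nlinarith
      have hsub : A j ⊆ {t : ℤ_[2] | t.appr K ∈ ({t ∈ range (2 ^ K) | t % 2 = 1 ∧
          (cPP (2 ^ b') ρ c c' w0 w1 t (2 ^ j) : ℝ) < δ * ((2 ^ j : ℕ) : ℝ)} : Finset ℕ)} := by
        intro t ht
        obtain ⟨h1, h2⟩ := ht
        change t.appr K ∈ ({t ∈ range (2 ^ K) | t % 2 = 1 ∧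
          (cPP (2 ^ b') ρ c c' w0 w1 t (2 ^ j) : ℝ) < δ * ((2 ^ j : ℕ) : ℝ)} : Finset ℕ)
        rw [mem_filter, mem_range]
        refine ⟨PadicInt.appr_lt t K, ?_, ?_⟩
        · have h3 := appr_modEq t (show 1 ≤ K by omega)
          rw [pow_one] at h3
          have h4 : t.appr 1 % 2 = t.appr K % 2 := h3
          rw [← h4, h1]
        · rw [← cZZ_eq (2 ^ b') ρ c c' w0 w1 t hxK]
          exact h2
      refine (measure_mono hsub).trans ?_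
      refine (measure_finset μ K _ (filter_subset _ _)).trans ?_
      apply ENNReal.ofReal_le_ofReal
      rw [div_le_iff₀ (by positivity)]
      exact hx0 w0 w1 (2 ^ j) K hj (by omega)
    let C : ℕ → Set ℤ_[2] := fun j0 => {t | ∀ j, j0 ≤ j → t ∈ A j}
    have hsub : B ⊆ ⋃ j0, C j0 := by
      intro t ht
      have ht' : ¬ (t.appr 1 = 1 → ∃ δ : ℝ, 0 < δ ∧ ∀ x₁ : ℕ, ∃ x : ℕ, x₁ ≤ x ∧
        δ * x ≤ cZZ (2 ^ b') ρ c c' w0 w1 t x) := ht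
      rw [Classical.not_imp] at ht'
      obtain ⟨h1, h2⟩ := ht'
      have h3 : ¬ ∀ x₁ : ℕ, ∃ x : ℕ, x₁ ≤ x ∧ δ * x ≤ cZZ (2 ^ b') ρ c c' w0 w1 t x :=
        fun h => h2 ⟨δ, hδ, h⟩
      rw [not_forall] at h3
      obtain ⟨x₁, hx₁⟩ := h3
      refine Set.mem_iUnion.2 ⟨x₁, fun j hj => ⟨h1, ?_⟩⟩
      by_contra hcon
      apply hx₁
      refine ⟨2 ^ j, hj.trans Nat.lt_two_pow_self.le, ?_⟩
      exact not_lt.1 hcon
    have hmono : Monotone C := fun i j hij t ht k hk => ht k (hij.trans hk)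
    refine (measure_mono hsub).trans ?_
    rw [hmono.measure_iUnion]
    refine iSup_le fun j0 => ?_
    have h5 : C j0 ⊆ A (max j0 x0) := fun t ht => ht _ (le_max_left _ _)
    refine (measure_mono h5).trans (hA _ ?_)
    exact (le_max_right j0 x0).trans Nat.lt_two_pow_self.le
  have h0 : μ B = 0 := by
    refine le_antisymm ?_ (zero_le)
    have h1 : Filter.Tendsto (fun n : ℕ => ENNReal.ofReal (1 / ((n : ℝ) + 1))) Filter.atTop
        (nhds 0) := by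
      have h2 := ENNReal.tendsto_ofReal (tendsto_one_div_add_atTop_nhds_zero_nat (𝕜 := ℝ))
      rwa [ENNReal.ofReal_zero] at h2
    exact ge_of_tendsto' h1 hB
  exact h0

theorem aen (hcl : S_CLN) : S_AEN := by
  intro w0 w1 _ _ μ _ _
  have h : ∀ᵐ t ∂μ, ∀ (b' ρ L : ℕ) (c c' : Fin (L + 1) → ZMod 2), c ≠ 0 → c' ≠ 0 → c + c' ≠ 0 →
      t.appr 1 = 1 → ∃ δ : ℝ, 0 < δ ∧ ∀ x₁ : ℕ, ∃ x : ℕ, x₁ ≤ x ∧
        δ * x ≤ cZZ (2 ^ b') ρ c c' w0 w1 t x := by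
    rw [MeasureTheory.ae_all_iff]
    intro b'
    rw [MeasureTheory.ae_all_iff]
    intro ρ
    rw [MeasureTheory.ae_all_iff]
    intro L
    rw [MeasureTheory.ae_all_iff]
    intro c
    rw [MeasureTheory.ae_all_iff]
    intro c'
    by_cases hh : c ≠ 0 ∧ c' ≠ 0 ∧ c + c' ≠ 0
    · filter_upwards [ae_one hcl b' ρ L c c' hh.1 hh.2.1 hh.2.2 w0 w1 μ] with t ht _ _ _
      exact ht
    · exact Filter.Eventually.of_forall fun t h1 h2 h3 => absurd ⟨h1, h2, h3⟩ hh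
  filter_upwards [h] with t ht h1 b' ρ L c c' hc0 hc1 hc2
  exact ht b' ρ L c c' hc0 hc1 hc2 h1

end Pool.Agent.H788.TWAEN
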