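import Pool.Agent.H558.TW.Stm3

set_option autoImplicit false

/-!
# Joint parity of two patterns: a constant which does not depend on `t` (AEU of the project TW of
helper558; helper539, after AEN.lean of helper788)
-/

namespace Pool.Agent.H539.TWAEU

open PowerSeries Finset MeasureTheory Pool.Agent.R836.PP Pool.Agent.H558.KK Pool.Agent.H558.PP
  Pool.Agent.H558.TW
open Pool.Agent.K7.H72.MT hiding W few dis DD dis_stable dis_vary DD_stable DD_sum DD_block few_bad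
  dis_le DD_le base count

theorem pat_eq {L : ℕ} (c : Fin (L + 1) → ZMod 2) (t : ℤ_[2]) {n x K : ℕ} (hx : x + L < 2 ^ K)
    (hn : n < x + 1) : ∑ i : Fin (L + 1), c i * pz t (n + i) = pat c (P2 ^ t.appr K) n := by
  unfold pat
  refine sum_congr rfl fun i _ => ?_
  have hi := i.2
  rw [pz_eq t (show n + (i : ℕ) < 2 ^ K by omega)]

theorem cZZ_eq (M ρ : ℕ) {L : ℕ} (c c' : Fin (L + 1) → ZMod 2) (w0 w1 : ℕ → ZMod 2) (t : ℤ_[2])
    {x K : ℕ} (hx : x + L < 2 ^ K) :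
    cZZ M ρ c c' w0 w1 t x = cPP M ρ c c' w0 w1 (t.appr K) x := by
  unfold cZZ cPP
  congr 1
  ext n
  rw [mem_filter, mem_filter]
  refine and_congr_right fun hn => and_congr_right fun _ => ?_
  rw [mem_range] at hn
  rw [pat_eq c t hx hn, pat_eq c' t hx hn]

/-- two patterns, one progression -/
theorem aeu_one (hzo : S_ZO) (b' : ℕ) (κ : ℝ) (ρ L : ℕ) (c c' : Fin (L + 1) → ZMod 2)
    (hcu : ∀ l a : ℕ, b' + 1 ≤ l → a < 2 ^ l → a % 2 = 1 → ∃ j0 : ℕ,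
      ∀ (w0 w1 : ℕ → ZMod 2) (j K : ℕ), j0 ≤ j → 2 ^ j + L < 2 ^ K →
        (#{t ∈ range (2 ^ K) | t % 2 ^ l = a ∧
          (cPP (2 ^ b') ρ c c' w0 w1 t (2 ^ j) : ℝ) < κ * 2 ^ j} : ℝ) ≤ 2 / 3 * 2 ^ (K - l))
    (w0 w1 : ℕ → ZMod 2) [MeasurableSpace ℤ_[2]] [BorelSpace ℤ_[2]] (μ : Measure ℤ_[2])
    [IsProbabilityMeasure μ] [μ.IsAddLeftInvariant] :
    ∀ᵐ t ∂μ, t.appr 1 = 1 → ∀ x₁ : ℕ, ∃ x : ℕ, x₁ ≤ x ∧
      κ * x ≤ cZZ (2 ^ b') ρ c c' w0 w1 t x := by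
  classical
  -- the exceptional set
  let B : Set ℤ_[2] := {t | ¬ (t.appr 1 = 1 → ∀ x₁ : ℕ, ∃ x : ℕ, x₁ ≤ x ∧
      κ * x ≤ cZZ (2 ^ b') ρ c c' w0 w1 t x)}
  let A : ℕ → Set ℤ_[2] := fun x₁ => {t | t.appr 1 = 1 ∧ ∀ x, x₁ ≤ x →
      (cZZ (2 ^ b') ρ c c' w0 w1 t x : ℝ) < κ * x}
  have hBA : B ⊆ ⋃ x₁, A x₁ := by
    intro t ht
    have ht' : ¬ (t.appr 1 = 1 → ∀ x₁ : ℕ, ∃ x : ℕ, x₁ ≤ x ∧
      κ * x ≤ cZZ (2 ^ b') ρ c c' w0 w1 t x) := ht
    rw [Classical.not_imp] at ht'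
    obtain ⟨h1, h2⟩ := ht'
    rw [not_forall] at h2
    obtain ⟨x₁, hx₁⟩ := h2
    refine Set.mem_iUnion.2 ⟨x₁, h1, fun x hx => ?_⟩
    by_contra hcon
    exact hx₁ ⟨x, hx, not_lt.1 hcon⟩
  have hmono : Monotone A := fun i j hij t ht => ⟨ht.1, fun x hx => ht.2 x (hij.trans hx)⟩
  have h0 : μ B = 0 := by
    refine hzo μ B (b' + 1) (2 / 3) (by norm_num) (by norm_num) fun l hl a ha => ?_
    by_cases hodd : a % 2 = 1
    · obtain ⟨j0, hj0⟩ := hcu l a hl ha hodd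
      have hsub : B ∩ {t : ℤ_[2] | t.appr l = a} ⊆ ⋃ x₁, (A x₁ ∩ {t : ℤ_[2] | t.appr l = a}) := by
        rw [← Set.iUnion_inter]
        exact Set.inter_subset_inter_left _ hBA
      have hmono' : Monotone fun x₁ => (A x₁ ∩ {t : ℤ_[2] | t.appr l = a}) :=
        fun i j hij => Set.inter_subset_inter_left _ (hmono hij)
      refine (measure_mono hsub).trans ?_
      rw [hmono'.measure_iUnion]
      refine iSup_le fun x₁ => ?_
      set j := max j0 x₁ with hj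
      set K := j + L + 1 + l with hK
      have hlK : l ≤ K := by omega
      have hxK : 2 ^ j + L < 2 ^ K := by
        have h1 : L < 2 ^ L := Nat.lt_two_pow_self
        have h2 : 1 ≤ 2 ^ L := Nat.one_le_two_pow
        have h3 : 2 ^ (j + L + 1) = 2 ^ j * 2 ^ L + 2 ^ j * 2 ^ L := by ring
        have h4 : 1 ≤ 2 ^ j := Nat.one_le_two_pow
        have h5 : 2 ^ (j + L + 1) ≤ 2 ^ K := Nat.pow_le_pow_right (by norm_num) (by omega)
        refine lt_of_lt_of_le ?_ h5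
        rw [h3]
        nlinarith
      have hsub2 : A x₁ ∩ {t : ℤ_[2] | t.appr l = a} ⊆
          {t : ℤ_[2] | t.appr K ∈ ({t ∈ range (2 ^ K) | t % 2 ^ l = a ∧
            (cPP (2 ^ b') ρ c c' w0 w1 t (2 ^ j) : ℝ) < κ * 2 ^ j} : Finset ℕ)} := by
        rintro t ⟨⟨h1, h2⟩, h3⟩
        change t.appr K ∈ ({t ∈ range (2 ^ K) | t % 2 ^ l = a ∧
            (cPP (2 ^ b') ρ c c' w0 w1 t (2 ^ j) : ℝ) < κ * 2 ^ j} : Finset ℕ)
        rw [mem_filter, mem_range]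
        refine ⟨PadicInt.appr_lt t K, ?_, ?_⟩
        · have h4 : t.appr l % 2 ^ l = t.appr K % 2 ^ l := appr_modEq t hlK
          have h5 : t.appr l = a := h3
          rw [← h4, h5, Nat.mod_eq_of_lt ha]
        · rw [← cZZ_eq (2 ^ b') ρ c c' w0 w1 t hxK]
          have h4 := h2 (2 ^ j) ((le_max_right j0 x₁).trans Nat.lt_two_pow_self.le)
          push_cast at h4
          exact h4
      refine (measure_mono hsub2).trans ?_
      refine (measure_finset μ K _ (filter_subset _ _)).trans ?_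
      apply ENNReal.ofReal_le_ofReal
      rw [div_le_iff₀ (by positivity)]
      refine (hj0 w0 w1 j K (le_max_left _ _) hxK).trans (le_of_eq ?_)
      rw [pow_sub₀ (2 : ℝ) two_ne_zero hlK]
      ring
    · have hem : B ∩ {t : ℤ_[2] | t.appr l = a} = ∅ := by
        ext t
        simp only [Set.mem_inter_iff, Set.mem_empty_iff_false, iff_false, not_and]
        intro htB hta
        apply hodd
        obtain ⟨x₁, h1, -⟩ := Set.mem_iUnion.1 (hBA htB)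
        have h4 : t.appr 1 % 2 ^ 1 = t.appr l % 2 ^ 1 := appr_modEq t (show 1 ≤ l by omega)
        have h5 : t.appr l = a := hta
        rw [h1, h5, pow_one] at h4
        exact h4.symm
      rw [hem, measure_empty]
      exact zero_le
  exact h0

theorem aeu (hcu : S_CU) (hzo : S_ZO) : S_AEU := by
  intro b'
  obtain ⟨κ, hκ, H⟩ := hcu b'
  refine ⟨κ, hκ, ?_⟩
  intro w0 w1 _ _ μ _ _
  have h : ∀ᵐ t ∂μ, ∀ (ρ L : ℕ) (c c' : Fin (L + 1) → ZMod 2), c ≠ 0 → c' ≠ 0 → c + c' ≠ 0 →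
      t.appr 1 = 1 → ∀ x₁ : ℕ, ∃ x : ℕ, x₁ ≤ x ∧
        κ * x ≤ cZZ (2 ^ b') ρ c c' w0 w1 t x := by
    rw [MeasureTheory.ae_all_iff]
    intro ρ
    rw [MeasureTheory.ae_all_iff]
    intro L
    rw [MeasureTheory.ae_all_iff]
    intro c
    rw [MeasureTheory.ae_all_iff]
    intro c'
    by_cases hh : c ≠ 0 ∧ c' ≠ 0 ∧ c + c' ≠ 0
    · filter_upwards [aeu_one hzo b' κ ρ L c c' (H ρ L c c' hh.1 hh.2.1 hh.2.2) w0 w1 μ]
        with t ht _ _ _
      exact ht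
    · exact Filter.Eventually.of_forall fun t h1 h2 h3 => absurd ⟨h1, h2, h3⟩ hh
  filter_upwards [h] with t ht h1 ρ L c c' hc0 hc1 hc2
  exact ht ρ L c c' hc0 hc1 hc2 h1

end Pool.Agent.H539.TWAEU
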