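import Pool.Agent.H558.TW.Stm3

set_option autoImplicit false

/-!
# One pattern, the constant does not depend on `t` (AEU1 of the project TW of helper558; helper388)
-/

namespace Pool.Agent.H388.TWAEU1

open PowerSeries Finset MeasureTheory Pool.Agent.R836.PP Pool.Agent.H558.KK Pool.Agent.H558.PP
  Pool.Agent.H558.TW
open Pool.Agent.K7.H72.MT hiding W few dis DD dis_stable dis_vary DD_stable DD_sum DD_block few_bad
  dis_le DD_le base count

/-- one pattern, one progression -/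
theorem aeu1_one (hzo : S_ZO) (M ρ L : ℕ) (c : Fin (L + 1) → ZMod 2) (κ : ℝ) (l1 : ℕ)
    (h : ∀ l a : ℕ, l1 ≤ l → a < 2 ^ l → a % 2 = 1 → ∃ j0 : ℕ,
      ∀ (w : ℕ → ZMod 2) (j K : ℕ), j0 ≤ j → 2 ^ j + L < 2 ^ K →
        (#{t ∈ range (2 ^ K) | t % 2 ^ l = a ∧ (cntP M ρ c w t (2 ^ j) : ℝ) < κ * 2 ^ j} : ℝ) ≤
          2 / 3 * 2 ^ (K - l))
    (w : ℕ → ZMod 2) [MeasurableSpace ℤ_[2]] [BorelSpace ℤ_[2]] (μ : Measure ℤ_[2])
    [IsProbabilityMeasure μ] [μ.IsAddLeftInvariant] :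
    ∀ᵐ t ∂μ, t.appr 1 = 1 → ∀ x₁ : ℕ, ∃ x : ℕ, x₁ ≤ x ∧ κ * x ≤ cntZ M ρ c w t x := by
  classical
  -- the exceptional set
  let B : Set ℤ_[2] := {t | ¬ (t.appr 1 = 1 → ∀ x₁ : ℕ, ∃ x : ℕ, x₁ ≤ x ∧
      κ * x ≤ cntZ M ρ c w t x)}
  let C : ℕ → Set ℤ_[2] := fun j0 => {t | t.appr 1 = 1 ∧ ∀ j, j0 ≤ j →
    (cntZ M ρ c w t (2 ^ j) : ℝ) < κ * 2 ^ j}
  have hBC : ∀ t ∈ B, ∃ x₁, t ∈ C x₁ := by
    intro t ht
    have ht' : ¬ (t.appr 1 = 1 → ∀ x₁ : ℕ, ∃ x : ℕ, x₁ ≤ x ∧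
      κ * x ≤ cntZ M ρ c w t x) := ht
    rw [Classical.not_imp] at ht'
    obtain ⟨h1, h2⟩ := ht'
    rw [not_forall] at h2
    obtain ⟨x₁, hx₁⟩ := h2
    refine ⟨x₁, h1, fun j hj => ?_⟩
    by_contra hcon
    apply hx₁
    refine ⟨2 ^ j, hj.trans Nat.lt_two_pow_self.le, ?_⟩
    push_cast
    exact not_lt.1 hcon
  have hmono : Monotone C := fun i j hij t ht => ⟨ht.1, fun k hk => ht.2 k (hij.trans hk)⟩
  have h0 : μ B = 0 := by
    refine hzo μ B (max l1 1) (2 / 3) (by norm_num) (by norm_num) fun l hl a ha => ?_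
    have hl1 : l1 ≤ l := (le_max_left _ _).trans hl
    have hl2 : 1 ≤ l := (le_max_right _ _).trans hl
    by_cases hodd : a % 2 = 1
    · obtain ⟨j0, hj0⟩ := h l a hl1 ha hodd
      let D : ℕ → Set ℤ_[2] := fun x₁ => C x₁ ∩ {t : ℤ_[2] | t.appr l = a}
      have hDm : Monotone D := fun i j hij t ht => ⟨hmono hij ht.1, ht.2⟩
      have hsub : B ∩ {t : ℤ_[2] | t.appr l = a} ⊆ ⋃ x₁, D x₁ := by
        rintro t ⟨ht, hta⟩
        obtain ⟨x₁, hx₁⟩ := hBC t ht
        exact Set.mem_iUnion.2 ⟨x₁, hx₁, hta⟩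
      refine (measure_mono hsub).trans ?_
      rw [hDm.measure_iUnion]
      refine iSup_le fun x₁ => ?_
      set j := max x₁ j0 with hj
      set K := j + L + 1 + l with hK
      have hxK : 2 ^ j + L < 2 ^ K := by
        have h1 : L < 2 ^ L := Nat.lt_two_pow_self
        have h2 : 1 ≤ 2 ^ L := Nat.one_le_two_pow
        have h3 : 2 ^ (j + L + 1) = 2 ^ j * 2 ^ L + 2 ^ j * 2 ^ L := by ring
        have h4 : 1 ≤ 2 ^ j := Nat.one_le_two_pow
        have h5 : 2 ^ (j + L + 1) ≤ 2 ^ K := Nat.pow_le_pow_right (by norm_num) (by omega)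
        have h6 : 2 ^ j + L < 2 ^ (j + L + 1) := by
          rw [h3]
          nlinarith
        omega
      have hDsub : D x₁ ⊆ {t : ℤ_[2] | t.appr K ∈ ({t ∈ range (2 ^ K) | t % 2 ^ l = a ∧
          (cntP M ρ c w t (2 ^ j) : ℝ) < κ * 2 ^ j} : Finset ℕ)} := by
        rintro t ⟨⟨h1, h2⟩, h3⟩
        change t.appr K ∈ ({t ∈ range (2 ^ K) | t % 2 ^ l = a ∧
          (cntP M ρ c w t (2 ^ j) : ℝ) < κ * 2 ^ j} : Finset ℕ)
        rw [mem_filter, mem_range]
        refine ⟨PadicInt.appr_lt t K, ?_, ?_⟩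
        · have h4 := appr_modEq t (show l ≤ K by omega)
          have h5 : t.appr l % 2 ^ l = t.appr K % 2 ^ l := h4
          have h6 : t.appr l = a := h3
          rw [← h5, h6, Nat.mod_eq_of_lt ha]
        · rw [← cntZ_eq M ρ c w t hxK]
          exact h2 j (le_max_left _ _)
      refine (measure_mono hDsub).trans ?_
      refine (measure_finset μ K _ (filter_subset _ _)).trans ?_
      apply ENNReal.ofReal_le_ofReal
      rw [div_le_iff₀ (by positivity)]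
      refine (hj0 w j K (le_max_right _ _) hxK).trans (le_of_eq ?_)
      have h7 : (2 : ℝ) ^ K = 2 ^ (K - l) * 2 ^ l := by
        rw [← pow_add]
        congr 1
        omega
      rw [h7]
      field_simp
    · have hempty : B ∩ {t : ℤ_[2] | t.appr l = a} = ∅ := by
        rw [Set.eq_empty_iff_forall_notMem]
        rintro t ⟨ht, hta⟩
        obtain ⟨x₁, h1, -⟩ := hBC t ht
        apply hodd
        have h3 := appr_modEq t hl2
        rw [pow_one] at h3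
        have h4 : t.appr 1 % 2 = t.appr l % 2 := h3
        have h5 : t.appr l = a := hta
        rw [h5, h1] at h4
        omega
      rw [hempty, measure_empty]
      exact zero_le
  exact h0

/-- AEU1: one pattern, all moduli, the constant does not depend on `t` and `c`. -/
theorem aeu1 (hcu : S_CU1) (hzo : S_ZO) : S_AEU1 := by
  intro M hM
  obtain ⟨κ, hκ, l1, h⟩ := hcu M hM
  refine ⟨κ, hκ, ?_⟩
  intro w _ _ μ _ _
  have h2 : ∀ᵐ t ∂μ, ∀ (ρ L : ℕ) (c : Fin (L + 1) → ZMod 2), c ≠ 0 →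
      t.appr 1 = 1 → ∀ x₁ : ℕ, ∃ x : ℕ, x₁ ≤ x ∧ κ * x ≤ cntZ M ρ c w t x := by
    rw [MeasureTheory.ae_all_iff]
    intro ρ
    rw [MeasureTheory.ae_all_iff]
    intro L
    rw [MeasureTheory.ae_all_iff]
    intro c
    by_cases hc : c ≠ 0
    · filter_upwards [aeu1_one hzo M ρ L c κ l1 (h ρ L c hc) w μ] with t ht _
      exact ht
    · exact Filter.Eventually.of_forall fun t h => absurd h hc
  filter_upwards [h2] with t ht h1 ρ L c hc
  exact ht ρ L c hc h1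

end Pool.Agent.H388.TWAEU1
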