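import Pool.Agent.H558.TW.Stm2

set_option autoImplicit false

/-!
# The mean number of dead sections is small (D2N)
-/

namespace Pool.Agent.H350.TWD2N

open PowerSeries Finset Pool.Agent.R836.PP Pool.Agent.H558.KK Pool.Agent.H558.PP
  Pool.Agent.H558.TW
open Pool.Agent.K7.H72.MT hiding W few dis DD dis_stable dis_vary DD_stable DD_sum DD_block few_bad
  dis_le DD_le base count

theorem d2n (h3 : S_T3) (h4 : S_T4) : S_D2N := by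
  classical
  intro η hη
  obtain ⟨L0, hL0, hS⟩ := h3
  obtain ⟨N, hN⟩ := exists_nat_ge (2 / η)
  obtain ⟨m0, hm0d⟩ : ∃ m0 : ℕ, m0 = L0 + N + 2 := ⟨_, rfl⟩
  have hm0 : L0 ≤ m0 := by omega
  have hη2 : 2 / (((m0 : ℝ) - 1) ^ 2 * 2 ^ (Nat.log 2 m0) ^ 3) ≤ η := by
    have hN0 : (0 : ℝ) ≤ N := Nat.cast_nonneg _
    have h5 : (N : ℝ) + 1 ≤ (m0 : ℝ) - 1 := by
      rw [hm0d]
      push_cast
      have : (0 : ℝ) ≤ L0 := Nat.cast_nonneg _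
      linarith
    have h6 : 2 ≤ N * η := by rwa [div_le_iff₀ hη] at hN
    have h7 : (1 : ℝ) ≤ 2 ^ (Nat.log 2 m0) ^ 3 := one_le_pow₀ (by norm_num)
    have h8 : (N : ℝ) ≤ ((m0 : ℝ) - 1) ^ 2 := by nlinarith
    have h9 : (0 : ℝ) < ((m0 : ℝ) - 1) ^ 2 := by
      have : (0 : ℝ) < (m0 : ℝ) - 1 := by linarith
      positivity
    have h10 : (N : ℝ) ≤ ((m0 : ℝ) - 1) ^ 2 * 2 ^ (Nat.log 2 m0) ^ 3 :=
      h8.trans (le_mul_of_one_le_right h9.le h7)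
    rw [div_le_iff₀ (by positivity)]
    calc (2 : ℝ) ≤ N * η := h6
      _ ≤ (((m0 : ℝ) - 1) ^ 2 * 2 ^ (Nat.log 2 m0) ^ 3) * η :=
        mul_le_mul_of_nonneg_right h10 hη.le
      _ = _ := mul_comm _ _
  refine ⟨8 * 8 ^ m0, fun U hU => ?_⟩
  choose i hi using hU
  obtain ⟨V0, hV0d⟩ : ∃ V0 : ℕ, V0 = ∑ m ∈ range m0, ∑ b ∈ range (2 ^ m0),
    ∑ t ∈ range (2 ^ m0), (i m b t + 1) := ⟨_, rfl⟩
  have hV0 : ∀ m < m0, ∀ b < 2 ^ m0, ∀ t < 2 ^ m0, i m b t < V0 := by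
    intro m hm b hb t ht
    calc i m b t < i m b t + 1 := Nat.lt_succ_self _
      _ ≤ ∑ t ∈ range (2 ^ m0), (i m b t + 1) :=
        single_le_sum (f := fun t => i m b t + 1) (fun _ _ => Nat.zero_le _) (mem_range.2 ht)
      _ ≤ ∑ b ∈ range (2 ^ m0), ∑ t ∈ range (2 ^ m0), (i m b t + 1) :=
        single_le_sum (f := fun b => ∑ t ∈ range (2 ^ m0), (i m b t + 1))
          (fun _ _ => Nat.zero_le _) (mem_range.2 hb)
      _ ≤ ∑ m ∈ range m0, ∑ b ∈ range (2 ^ m0), ∑ t ∈ range (2 ^ m0), (i m b t + 1) :=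
        single_le_sum (f := fun m => ∑ b ∈ range (2 ^ m0), ∑ t ∈ range (2 ^ m0), (i m b t + 1))
          (fun _ _ => Nat.zero_le _) (mem_range.2 hm)
      _ = V0 := hV0d.symm
  refine ⟨(V0 - m0) * V0, fun k hk => ?_⟩
  obtain ⟨m, T, h1, h2, hT, h5⟩ := h4 L0 hL0 hS m0 hm0 V0 V0
    (Nat.lt_pow_self (by norm_num)).le k hk
  have h6 := h5 U
  have h7 : #{p ∈ range (2 ^ k) ×ˢ range (2 ^ k) | ¬ Gv (8 * 8 ^ m0) (node P2 k p.2 p.1 U)} ≤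
      XX k (8 * 8 ^ m0) m T U := by
    unfold XX
    apply card_le_card
    intro p hp
    rw [mem_filter] at hp ⊢
    have hle : 2 ^ m ≤ 2 ^ m0 := Nat.pow_le_pow_right (by norm_num) h1.le
    have hb : p.2 % 2 ^ m < 2 ^ m0 := lt_of_lt_of_le (Nat.mod_lt _ (by positivity)) hle
    have ht : p.1 % 2 ^ m < 2 ^ m0 := lt_of_lt_of_le (Nat.mod_lt _ (by positivity)) hle
    have h8 := hV0 m h1 _ hb _ ht
    exact ⟨hp.1, hp.2, i m (p.2 % 2 ^ m) (p.1 % 2 ^ m), by omega, hi _ _ _⟩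
  have h8 : (#{p ∈ range (2 ^ k) ×ˢ range (2 ^ k) | ¬ Gv (8 * 8 ^ m0) (node P2 k p.2 p.1 U)} : ℝ) ≤
      XX k (8 * 8 ^ m0) m T U := by exact_mod_cast h7
  refine (h8.trans h6).trans ?_
  exact mul_le_mul_of_nonneg_right hη2 (by positivity)

end Pool.Agent.H350.TWD2N
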