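import Pool.Agent.H558.TW.Stm2

set_option autoImplicit false

/-! # CON: three good sections at once, for most `t` -/

namespace Pool.Agent.H382.TWCON

open PowerSeries Finset Pool.Agent.R836.PP Pool.Agent.H558.KK Pool.Agent.H558.PP Pool.Agent.H558.TW
open Pool.Agent.K7.H72.MT hiding W few dis DD dis_stable dis_vary DD_stable DD_sum DD_block few_bad
  dis_le DD_le base count

open scoped Classical in
/-- the number of the dead sections in the row `t` -/
noncomputable def dead (V k t : ℕ) (U : S) : ℕ := #{b ∈ range (2 ^ k) | ¬ Gv V (node P2 k b t U)}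

open scoped Classical in
theorem sum_dead (V k : ℕ) (U : S) : ∑ t ∈ range (2 ^ k), dead V k t U =
    #{p ∈ range (2 ^ k) ×ˢ range (2 ^ k) | ¬ Gv V (node P2 k p.2 p.1 U)} := by
  unfold dead
  rw [card_filter, sum_product]
  refine sum_congr rfl fun t _ => ?_
  rw [card_filter]

open scoped Classical in
/-- Markov's inequality for sums -/
theorem markov (s : Finset ℕ) (f : ℕ → ℝ) (hf : ∀ t ∈ s, 0 ≤ f t) (c : ℝ) :
    (#{t ∈ s | c < f t} : ℝ) * c ≤ ∑ t ∈ s, f t := by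
  calc (#{t ∈ s | c < f t} : ℝ) * c = ∑ t ∈ s with c < f t, c := by
        rw [sum_const, nsmul_eq_mul]
    _ ≤ ∑ t ∈ s with c < f t, f t := by
        refine sum_le_sum fun t ht => ?_
        rw [mem_filter] at ht
        exact ht.2.le
    _ ≤ ∑ t ∈ s, f t := sum_le_sum_of_subset_of_nonneg (filter_subset _ _) fun t ht _ => hf t ht

open scoped Classical in
theorem few_dead {V k : ℕ} {U : S} {η : ℝ}
    (h : (#{p ∈ range (2 ^ k) ×ˢ range (2 ^ k) | ¬ Gv V (node P2 k p.2 p.1 U)} : ℝ) ≤ η * 4 ^ k) :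
    (#{t ∈ range (2 ^ k) | 1 / 6 * (2 : ℝ) ^ k < (dead V k t U : ℝ)} : ℝ) ≤ 6 * η * 2 ^ k := by
  have h1 := markov (range (2 ^ k)) (fun t => (dead V k t U : ℝ)) (fun t _ => Nat.cast_nonneg _)
    (1 / 6 * (2 : ℝ) ^ k)
  have h2 : ∑ t ∈ range (2 ^ k), (dead V k t U : ℝ) ≤ η * 4 ^ k := by
    rw [← Nat.cast_sum, sum_dead]
    exact h
  have h3 : (4 : ℝ) ^ k = 2 ^ k * 2 ^ k := by
    rw [← mul_pow]
    norm_num
  have h4 : (0 : ℝ) < 2 ^ k := by positivity
  have h5 := h1.trans h2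
  rw [h3] at h5
  have h6 : (#{t ∈ range (2 ^ k) | 1 / 6 * (2 : ℝ) ^ k < (dead V k t U : ℝ)} : ℝ) * 2 ^ k ≤
      (6 * η * 2 ^ k) * 2 ^ k := by
    nlinarith
  exact le_of_mul_le_mul_right h6 h4

open scoped Classical in
theorem good_three (V k t : ℕ) (U0 U1 : S) :
    2 ^ k ≤ #{b ∈ range (2 ^ k) | G3 V k b t U0 U1} + (dead V k t U0 + dead V k t U1 +
      dead V k t (U0 + U1)) := by
  have h1 : range (2 ^ k) ⊆ {b ∈ range (2 ^ k) | G3 V k b t U0 U1} ∪
      (({b ∈ range (2 ^ k) | ¬ Gv V (node P2 k b t U0)} ∪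
        {b ∈ range (2 ^ k) | ¬ Gv V (node P2 k b t U1)}) ∪
        {b ∈ range (2 ^ k) | ¬ Gv V (node P2 k b t (U0 + U1))}) := by
    intro b hb
    simp only [mem_union, mem_filter]
    by_cases e0 : Gv V (node P2 k b t U0)
    · by_cases e1 : Gv V (node P2 k b t U1)
      · by_cases e2 : Gv V (node P2 k b t (U0 + U1))
        · exact Or.inl ⟨hb, e0, e1, e2⟩
        · exact Or.inr (Or.inr ⟨hb, e2⟩)
      · exact Or.inr (Or.inl (Or.inr ⟨hb, e1⟩))
    · exact Or.inr (Or.inl (Or.inl ⟨hb, e0⟩))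
  have h2 := card_le_card h1
  rw [card_range] at h2
  refine h2.trans ((card_union_le _ _).trans (Nat.add_le_add_left ?_ _))
  refine (card_union_le _ _).trans (Nat.add_le_add_right ?_ _)
  exact card_union_le _ _

theorem con (_hadd : S_ADD) (hd : S_D2N) : S_CON := by
  classical
  intro ε hε
  obtain ⟨V, hV⟩ := hd (ε / 18) (by positivity)
  refine ⟨V, fun U0 U1 h0 h1 h2 => ?_⟩
  obtain ⟨k0, hk0⟩ := hV U0 h0
  obtain ⟨k1, hk1⟩ := hV U1 h1
  obtain ⟨k2, hk2⟩ := hV (U0 + U1) h2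
  refine ⟨max k0 (max k1 k2), fun k hk => ?_⟩
  have a0 := few_dead (hk0 k ((le_max_left _ _).trans hk))
  have a1 := few_dead (hk1 k (((le_max_left _ _).trans (le_max_right _ _)).trans hk))
  have a2 := few_dead (hk2 k (((le_max_right _ _).trans (le_max_right _ _)).trans hk))
  have hsub : {t ∈ range (2 ^ k) |
      (#{b ∈ range (2 ^ k) | G3 V k b t U0 U1} : ℝ) < 1 / 2 * 2 ^ k} ⊆
      ({t ∈ range (2 ^ k) | 1 / 6 * (2 : ℝ) ^ k < (dead V k t U0 : ℝ)} ∪
        {t ∈ range (2 ^ k) | 1 / 6 * (2 : ℝ) ^ k < (dead V k t U1 : ℝ)}) ∪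
        {t ∈ range (2 ^ k) | 1 / 6 * (2 : ℝ) ^ k < (dead V k t (U0 + U1) : ℝ)} := by
    intro t ht
    rw [mem_filter] at ht
    obtain ⟨ht, hlt⟩ := ht
    by_contra hcon
    simp only [mem_union, mem_filter, not_or, not_and, not_lt] at hcon
    obtain ⟨⟨c0, c1⟩, c2⟩ := hcon
    have d0 := c0 ht
    have d1 := c1 ht
    have d2 := c2 ht
    have d3 : ((2 ^ k : ℕ) : ℝ) ≤ ((#{b ∈ range (2 ^ k) | G3 V k b t U0 U1} +
        (dead V k t U0 + dead V k t U1 + dead V k t (U0 + U1)) : ℕ) : ℝ) :=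
      Nat.cast_le.2 (good_three V k t U0 U1)
    push_cast at d3
    linarith
  have h3 : (#{t ∈ range (2 ^ k) |
      (#{b ∈ range (2 ^ k) | G3 V k b t U0 U1} : ℝ) < 1 / 2 * 2 ^ k} : ℝ) ≤
      (#{t ∈ range (2 ^ k) | 1 / 6 * (2 : ℝ) ^ k < (dead V k t U0 : ℝ)} : ℝ) +
        (#{t ∈ range (2 ^ k) | 1 / 6 * (2 : ℝ) ^ k < (dead V k t U1 : ℝ)} : ℝ) +
        (#{t ∈ range (2 ^ k) | 1 / 6 * (2 : ℝ) ^ k < (dead V k t (U0 + U1) : ℝ)} : ℝ) := by
    have h4 := (card_le_card hsub).trans ((card_union_le _ _).trans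
      (Nat.add_le_add_right (card_union_le _ _) _))
    exact_mod_cast h4
  refine h3.trans ?_
  have h5 : (0 : ℝ) < 2 ^ k := by positivity
  nlinarith

end Pool.Agent.H382.TWCON
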