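import Pool.Agent.H558.TW.Stm

set_option autoImplicit false

/-! Project TW (helper558): all four pairs of values at one place. -/

namespace Pool.Agent.H387.TWLOC

open PowerSeries Finset Pool.Agent.R836.PP Pool.Agent.H558.KK Pool.Agent.H558.PP Pool.Agent.H558.TW
open Pool.Agent.K7.H72.MT hiding W few dis DD dis_stable dis_vary DD_stable DD_sum DD_block few_bad
  dis_le DD_le base count

/-- the two series in echelon form -/
theorem core (V j : ℕ) (hV : V ≤ 2 ^ j) (X Y : S) (u0 : ℕ) (hX0 : ∀ i < u0, coeff i X = 0)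
    (hX : coeff u0 X = 1) (hY0 : ∀ i ≤ u0, coeff i Y = 0) (hY : Gv V Y) (x y : ZMod 2) :
    ∃ τ < 2 ^ (j + 1), coeff (u0 + 2 ^ j) (X * P2 ^ τ) = x ∧ coeff (u0 + 2 ^ j) (Y * P2 ^ τ) = y := by
  classical
  obtain ⟨u, hu, hc⟩ := hY
  have hex : ∃ i, coeff i Y ≠ 0 := ⟨u, hc⟩
  obtain ⟨u1, hu1, hc1, hm1⟩ : ∃ u1, u1 < V ∧ coeff u1 Y = 1 ∧ ∀ i < u1, coeff i Y = 0 := by
    refine ⟨Nat.find hex, (Nat.find_min' hex hc).trans_lt hu, eq_one_of_ne (Nat.find_spec hex), ?_⟩
    intro i hi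
    have := Nat.find_min hex hi
    push Not at this
    exact this
  have h01 : u0 < u1 := by
    by_contra h
    rw [hY0 u1 (by omega)] at hc1
    exact zero_ne_one hc1
  have hp : (2 : ℕ) ^ (j + 1) = 2 ^ j + 2 ^ j := by
    rw [pow_succ]
    ring
  obtain ⟨τ, hτ, h4⟩ := vary isP_P2 0 j Y u1 hm1 hc1 (u0 + 2 ^ j - u1) (by omega) (by omega) y
  have hm : u1 + 2 ^ 0 * (u0 + 2 ^ j - u1) = u0 + 2 ^ j := by
    rw [pow_zero, one_mul]
    omega
  rw [hm, pow_zero, one_mul] at h4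
  have hcase : ∀ a b : ZMod 2, a = b ∨ a + 1 = b := by decide
  rcases hcase (coeff (u0 + 2 ^ j) (X * P2 ^ τ)) x with h5 | h5
  · exact ⟨τ, by omega, h5, h4⟩
  · refine ⟨τ + 2 ^ j, by omega, ?_, ?_⟩
    · have hf := coeff_flip isP_P2.zero isP_P2.one (X * P2 ^ τ) j u0 (u0 + 2 ^ j) (coeff_lt hX0)
        (by omega) (by omega)
      have h6 : coeff u0 (X * P2 ^ τ) = 1 := by
        rw [coeff_low hX0 (coeff_zero_pow isP_P2.zero τ)]
        exact hX
      rw [Nat.add_sub_cancel, h6, h5] at hf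
      rw [pow_add, ← mul_assoc]
      exact hf
    · have hs := coeff_stable isP_P2.zero (Y * P2 ^ τ) j 1 (u0 + 2 ^ j) u1 (coeff_lt hm1) (by omega)
      rw [mul_one, h4] at hs
      rw [pow_add, ← mul_assoc]
      exact hs

theorem loc : S_LOC := by
  classical
  intro V j hV H0 H1 g0 g1 g2
  have hex : ∃ i, coeff i H0 ≠ 0 ∨ coeff i H1 ≠ 0 := by
    obtain ⟨u, -, hc⟩ := g0
    exact ⟨u, Or.inl hc⟩
  have hlt : Nat.find hex < V := by
    obtain ⟨u, hu, hc⟩ := g0
    exact (Nat.find_min' hex (Or.inl hc)).trans_lt hu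
  have hmin : ∀ i < Nat.find hex, coeff i H0 = 0 ∧ coeff i H1 = 0 := by
    intro i hi
    have := Nat.find_min hex hi
    push Not at this
    exact this
  have hsp := Nat.find_spec hex
  set u0 := Nat.find hex with hu0
  have hp : (2 : ℕ) ^ (j + 1) = 2 ^ j + 2 ^ j := by
    rw [pow_succ]
    ring
  refine ⟨u0 + 2 ^ j, by omega, ?_⟩
  intro e0 e1
  by_cases a0 : coeff u0 H0 = 0
  · have a1 : coeff u0 H1 = 1 := by
      rcases hsp with h | h
      · exact absurd a0 h
      · exact eq_one_of_ne h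
    obtain ⟨τ, hτ, h1, h2⟩ := core V j hV H1 H0 u0 (fun i hi => (hmin i hi).2) a1 (by
      intro i hi
      rcases hi.lt_or_eq with h | h
      · exact (hmin i h).1
      · rw [h]; exact a0) g0 e1 e0
    exact ⟨τ, hτ, h2, h1⟩
  · have a0' := eq_one_of_ne a0
    by_cases a1 : coeff u0 H1 = 0
    · exact core V j hV H0 H1 u0 (fun i hi => (hmin i hi).1) a0' (by
        intro i hi
        rcases hi.lt_or_eq with h | h
        · exact (hmin i h).2
        · rw [h]; exact a1) g1 e0 e1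
    · have a1' := eq_one_of_ne a1
      obtain ⟨τ, hτ, h1, h2⟩ := core V j hV H0 (H0 + H1) u0 (fun i hi => (hmin i hi).1) a0' (by
        intro i hi
        rw [map_add]
        rcases hi.lt_or_eq with h | h
        · rw [(hmin i h).1, (hmin i h).2, add_zero]
        · rw [h, a0', a1']; decide) g2 e0 (e0 + e1)
      refine ⟨τ, hτ, h1, ?_⟩
      rw [add_mul, map_add, h1] at h2
      exact add_left_cancel h2

end Pool.Agent.H387.TWLOC
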