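import Pool.Agent.H558.TW.Stm2

set_option autoImplicit false

/-! Task NZC of project TW2 (helper558): all sections of patterns of odd powers are nonzero. -/

namespace Pool.Agent.H894.TWNZC

open PowerSeries Finset Pool.Agent.R836.PP Pool.Agent.H558.KK Pool.Agent.H558.PP
open Pool.Agent.K7.H72.MT hiding W few dis DD dis_stable dis_vary DD_stable DD_sum DD_block few_bad
  dis_le DD_le base count
open Pool.Agent.H558.TW

theorem comb_lt {b m x y : ℕ} (hx : x < 2 ^ b) (hy : y < 2 ^ m) : x + 2 ^ b * y < 2 ^ (b + m) := by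
  calc x + 2 ^ b * y < 2 ^ b + 2 ^ b * y := by omega
    _ = 2 ^ b * (y + 1) := by ring
    _ ≤ 2 ^ b * 2 ^ m := Nat.mul_le_mul_left _ hy
    _ = 2 ^ (b + m) := (pow_add 2 b m).symm

theorem comb_div {b x y : ℕ} (hx : x < 2 ^ b) : (x + 2 ^ b * y) / 2 ^ b = y := by
  have hq : 0 < 2 ^ b := by positivity
  rw [Nat.add_mul_div_left _ _ hq, Nat.div_eq_of_lt hx, zero_add]

theorem comb_mod {b x y : ℕ} (hx : x < 2 ^ b) : (x + 2 ^ b * y) % 2 ^ b = x := by
  rw [Nat.add_mul_mod_self_left, Nat.mod_eq_of_lt hx]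

theorem nzc (hN1 : S_N1) : S_NZC := by
  intro b β t₀ L c hc hb hβ ht ht2 m b' t'
  have hm : 0 < 2 ^ m := by positivity
  have hb' : b' % 2 ^ m < 2 ^ m := Nat.mod_lt _ hm
  have ht' : t' % 2 ^ m < 2 ^ m := Nat.mod_lt _ hm
  have h1 := (hN1 P2 b m (β + 2 ^ b * (b' % 2 ^ m)) (t₀ + 2 ^ b * (t' % 2 ^ m)) (CC c)).1
  rw [comb_div hβ, comb_mod hβ, comb_div ht2, comb_mod ht2,
    (hN1 P2 m 0 b' t' (node P2 b β t₀ (CC c))).2] at h1
  rw [← h1]
  refine node_ne c hc (comb_lt hβ hb') ?_ (comb_lt ht2 ht')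
  have h2 : 2 ^ b = 2 * 2 ^ (b - 1) := by
    rw [← pow_succ']
    congr 1
    omega
  rw [h2, mul_assoc, Nat.add_mul_mod_self_left]
  exact ht

end Pool.Agent.H894.TWNZC
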