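import Pool.Agent.H558.TW.Stm2

set_option autoImplicit false

/-! Task SCN of project TW2 (helper558): one scale (helper860; after the proof of SC by helper980). -/

namespace Pool.Agent.H860.TWSCN

open PowerSeries Finset Pool.Agent.R836.PP Pool.Agent.H558.KK Pool.Agent.H558.PP
open Pool.Agent.K7.H72.MT hiding W few dis DD dis_stable dis_vary DD_stable DD_sum DD_block few_bad
  dis_le DD_le base count
open Pool.Agent.H558.TW

/-- the number only depends on `t` modulo `2 ^ e` -/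
lemma N2_mod (e : ℕ) (U0 U1 : S) (w0 w1 : ℕ → ZMod 2) (t : ℕ) :
    N2 (2 ^ e) U0 U1 w0 w1 (t % 2 ^ e) = N2 (2 ^ e) U0 U1 w0 w1 t := by
  unfold N2
  congr 1
  apply Finset.filter_congr
  intro n hn
  rw [mem_range] at hn
  have h := Nat.mod_modEq t (2 ^ e)
  rw [coeff_congr isP_P2.zero U0 hn h, coeff_congr isP_P2.zero U1 hn h]

lemma N2_mono {X Y : ℕ} (h : X ≤ Y) (U0 U1 : S) (w0 w1 : ℕ → ZMod 2) (t : ℕ) :
    N2 X U0 U1 w0 w1 t ≤ N2 Y U0 U1 w0 w1 t := by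
  unfold N2
  apply card_le_card
  intro n hn
  rw [mem_filter, mem_range] at hn ⊢
  exact ⟨hn.1.trans_le h, hn.2⟩

/-- counting the residues -/
lemma cnt_mod {K i : ℕ} (hi : i ≤ K) (p : ℕ → Prop) [DecidablePred p] :
    #{t ∈ range (2 ^ K) | p (t % 2 ^ i)} ≤ #{a ∈ range (2 ^ i) | p a} * 2 ^ (K - i) := by
  have h1 : #{t ∈ range (2 ^ K) | p (t % 2 ^ i)} ≤
      #(({a ∈ range (2 ^ i) | p a}) ×ˢ range (2 ^ (K - i))) := by
    apply card_le_card_of_injOn (fun t => (t % 2 ^ i, t / 2 ^ i))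
    · intro t ht
      rw [mem_coe, mem_filter, mem_range] at ht
      rw [mem_coe, mem_product, mem_filter, mem_range, mem_range]
      refine ⟨⟨Nat.mod_lt _ (by positivity), ht.2⟩, ?_⟩
      rw [Nat.div_lt_iff_lt_mul (by positivity), ← pow_add, Nat.sub_add_cancel hi]
      exact ht.1
    · intro t _ t' _ h
      simp only [Prod.mk.injEq] at h
      rw [← Nat.mod_add_div t (2 ^ i), ← Nat.mod_add_div t' (2 ^ i), h.1, h.2]
  rwa [card_product, card_range] at h1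

open scoped Classical in
theorem scn (hco : S_CON) (hst : S_ST) (htr : S_TR) : S_SCN := by
  intro ε hε
  obtain ⟨V, hCO⟩ := hco (ε / 4) (by positivity)
  obtain ⟨δ1, hδe⟩ : ∃ δ1 : ℝ, δ1 = 1 / 2 := ⟨_, rfl⟩
  have hδ1 : 0 < δ1 := by
    rw [hδe]
    norm_num
  rw [← hδe] at hCO
  obtain ⟨J, hJ⟩ : ∃ J : ℕ, J = V + 1 := ⟨_, rfl⟩
  have hr0 : (0 : ℝ) ≤ 1 - 1 / 2 ^ J := by
    have : (1 : ℝ) / 2 ^ J ≤ 1 := by
      rw [div_le_one (by positivity)]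
      exact one_le_pow₀ (by norm_num)
    linarith
  have hr1 : (1 : ℝ) - 1 / 2 ^ J < 1 := by
    have : (0 : ℝ) < 1 / 2 ^ J := by positivity
    linarith
  obtain ⟨M0, hM0⟩ := exists_pow_lt_of_lt_one (show (0 : ℝ) < ε / 2 by positivity) hr1
  obtain ⟨M, hM⟩ : ∃ M : ℕ, M = M0 + 1 := ⟨_, rfl⟩
  have hMε : ((1 : ℝ) - 1 / 2 ^ J) ^ M ≤ ε / 2 := by
    rw [hM]
    exact (pow_le_pow_of_le_one hr0 hr1.le (Nat.le_succ M0)).trans hM0.le
  refine ⟨δ1 / 2 ^ (J + J * (2 * M)), by positivity, ?_⟩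
  intro U0 U1 hU0 hU1 hG
  obtain ⟨k0, hk0⟩ := hCO U0 U1 hU0 hU1 hG
  refine ⟨k0 + J * (2 * M), ?_⟩
  intro w0 w1 K i hi hiK
  obtain ⟨k, hk⟩ : ∃ k : ℕ, k = i - J * (2 * M) := ⟨_, rfl⟩
  have hki : k + J * (2 * M) = i := by omega
  have hkk0 : k0 ≤ k := by omega
  obtain ⟨E, hE⟩ : ∃ E : ℕ → ℕ → Prop, E = fun s a => δ1 * 2 ^ (k + J * s) ≤
      (#{b ∈ range (2 ^ (k + J * s)) | G3 V (k + J * s) b a U0 U1} : ℝ) := ⟨_, rfl⟩
  obtain ⟨F, hF⟩ : ∃ F : ℕ → ℕ → Prop, F = fun s a => δ1 / 2 ^ J * 2 ^ (k + J * s) ≤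
      (N2 (2 ^ (k + J * (s + 1))) U0 U1 w0 w1 a : ℝ) := ⟨_, rfl⟩
  have h1 := htr J M k (ε / 4) (by omega) (by omega) E F ?_ ?_
  · have hbad : ∀ t ∈ range (2 ^ K), (N2 (2 ^ i) U0 U1 w0 w1 t : ℝ) < δ1 / 2 ^ (J + J * (2 * M)) * 2 ^ i →
        ∀ s < 2 * M, ¬ (E s (t % 2 ^ i % 2 ^ (k + J * s)) ∧ F s (t % 2 ^ i % 2 ^ (k + J * (s + 1)))) := by
      intro t _ hlt s hs hc
      have h2 := hc.2
      rw [hF] at h2
      have hsi : k + J * (s + 1) ≤ i := by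
        rw [← hki]
        exact Nat.add_le_add_left (Nat.mul_le_mul_left J (by omega)) k
      rw [Nat.mod_mod_of_dvd _ (pow_dvd_pow 2 hsi), N2_mod] at h2
      have h3 : (N2 (2 ^ (k + J * (s + 1))) U0 U1 w0 w1 t : ℝ) ≤ N2 (2 ^ i) U0 U1 w0 w1 t := by
        exact_mod_cast N2_mono (Nat.pow_le_pow_right (by norm_num) hsi) U0 U1 w0 w1 t
      have h4 : δ1 / 2 ^ (J + J * (2 * M)) * 2 ^ i ≤ δ1 / 2 ^ J * 2 ^ (k + J * s) := by
        have e1 : δ1 / 2 ^ (J + J * (2 * M)) * 2 ^ i = δ1 / 2 ^ J * 2 ^ k := by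
          rw [← hki, pow_add, pow_add]
          field_simp
        rw [e1]
        apply mul_le_mul_of_nonneg_left _ (by positivity)
        exact pow_le_pow_right₀ (by norm_num) (by omega)
      linarith
    have h2 : #{t ∈ range (2 ^ K) | (N2 (2 ^ i) U0 U1 w0 w1 t : ℝ) < δ1 / 2 ^ (J + J * (2 * M)) * 2 ^ i} ≤
        #{t ∈ range (2 ^ K) | ∀ s < 2 * M,
          ¬ (E s (t % 2 ^ i % 2 ^ (k + J * s)) ∧ F s (t % 2 ^ i % 2 ^ (k + J * (s + 1))))} := by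
      apply card_le_card
      intro t ht
      rw [mem_filter] at ht ⊢
      exact ⟨ht.1, hbad t ht.1 ht.2⟩
    have h3 := cnt_mod hiK (fun a => ∀ s < 2 * M,
      ¬ (E s (a % 2 ^ (k + J * s)) ∧ F s (a % 2 ^ (k + J * (s + 1)))))
    rw [hki] at h1
    have h4 : ((#{t ∈ range (2 ^ K) |
        (N2 (2 ^ i) U0 U1 w0 w1 t : ℝ) < δ1 / 2 ^ (J + J * (2 * M)) * 2 ^ i} : ℕ) : ℝ) ≤
        (#{a ∈ range (2 ^ i) | ∀ s < 2 * M,
          ¬ (E s (a % 2 ^ (k + J * s)) ∧ F s (a % 2 ^ (k + J * (s + 1))))} : ℝ) * 2 ^ (K - i) := by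
      exact_mod_cast h2.trans h3
    refine h4.trans ?_
    calc _ ≤ (2 * (ε / 4) + (1 - 1 / 2 ^ J) ^ M) * 2 ^ i * 2 ^ (K - i) :=
          mul_le_mul_of_nonneg_right h1 (by positivity)
      _ = (2 * (ε / 4) + (1 - 1 / 2 ^ J) ^ M) * 2 ^ K := by
          rw [mul_assoc, ← pow_add, Nat.add_sub_cancel' hiK]
      _ ≤ ε * 2 ^ K := by
          apply mul_le_mul_of_nonneg_right _ (by positivity)
          linarith
  · intro s hs
    have h2 := hk0 (k + J * s) (by omega)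
    rw [hE]
    simp only [not_le]
    exact h2
  · intro s hs a ha hEa
    rw [hE] at hEa
    obtain ⟨s', hs', h2⟩ := hst V V (k + J * s) (Nat.lt_two_pow_self).le U0 U1 w0 w1 a ha
    refine ⟨s', by rw [hJ]; exact hs', ?_⟩
    rw [hF]
    change δ1 / 2 ^ J * 2 ^ (k + J * s) ≤
      (N2 (2 ^ (k + J * (s + 1))) U0 U1 w0 w1 (a + 2 ^ (k + J * s) * s') : ℝ)
    have e1 : k + J * s + (V + 1) = k + J * (s + 1) := by
      rw [mul_add, mul_one, ← hJ]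
      ring
    rw [e1] at h2
    have h3 : (#{b ∈ range (2 ^ (k + J * s)) | G3 V (k + J * s) b a U0 U1} : ℝ) ≤
        2 ^ J * (N2 (2 ^ (k + J * (s + 1))) U0 U1 w0 w1 (a + 2 ^ (k + J * s) * s') : ℝ) := by
      rw [hJ] at h2 ⊢
      exact_mod_cast h2
    have h4 := hEa.trans h3
    rw [div_mul_eq_mul_div, div_le_iff₀ (by positivity)]
    linarith

end Pool.Agent.H860.TWSCN
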