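import Pool.Agent.H558.TW.Stm

set_option autoImplicit false

/-!
# Joint parity of `p_t(n)` and `p_t(n + h)`: one step (helper909 for helper558)
-/

namespace Pool.Agent.H909.TWST

open PowerSeries Finset Pool.Agent.R836.PP Pool.Agent.H558.KK Pool.Agent.H558.PP
open Pool.Agent.K7.H72.MT hiding W few dis DD dis_stable dis_vary DD_stable DD_sum DD_block few_bad
  dis_le DD_le base count
open Pool.Agent.H558.TW

theorem coeff_shift {k b a : ℕ} (m s : ℕ) (U : S) (hb : b < 2 ^ k) (ha : a < 2 ^ k) :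
    coeff (b + 2 ^ k * m) (U * P2 ^ (a + 2 ^ k * s)) = coeff m (node P2 k b a U * P2 ^ s) := by
  rw [coeff_node P2 k b (a + 2 ^ k * s) m U hb, ← node_mod P2 k b (a + 2 ^ k * s) U,
    Nat.add_mul_mod_self_left, Nat.mod_eq_of_lt ha, Nat.add_mul_div_left _ _ (by positivity),
    Nat.div_eq_of_lt ha, zero_add]

theorem add_one_ne' (x : ZMod 2) : x + 1 ≠ x := by
  revert x
  decide

theorem st (hadd : S_ADD) (hloc : S_LOC) : S_ST := by
  classical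
  intro V j k hVj U0 U1 w0 w1 a ha
  set Gd : Finset ℕ := (range (2 ^ k)).filter fun b => G3 V k b a U0 U1 with hGd
  have key : ∀ b ∈ Gd, ∃ p : ℕ × ℕ, p.1 < 2 ^ (j + 1) ∧ p.2 < 2 ^ (k + (j + 1)) ∧
      p.2 % 2 ^ k = b ∧ coeff p.2 (U0 * P2 ^ (a + 2 ^ k * p.1)) ≠ w0 p.2 ∧
      coeff p.2 (U1 * P2 ^ (a + 2 ^ k * p.1)) ≠ w1 p.2 := by
    intro b hb
    rw [hGd, mem_filter, mem_range] at hb
    obtain ⟨hbk, hg0, hg1, hg2⟩ := hb
    rw [hadd] at hg2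
    obtain ⟨m, hm, hτ⟩ := hloc V j hVj _ _ hg0 hg1 hg2
    obtain ⟨τ, hτ1, hτ2, hτ3⟩ := hτ (w0 (b + 2 ^ k * m) + 1) (w1 (b + 2 ^ k * m) + 1)
    refine ⟨(τ, b + 2 ^ k * m), hτ1, ?_, ?_, ?_, ?_⟩
    · show b + 2 ^ k * m < 2 ^ (k + (j + 1))
      rw [pow_add]
      calc b + 2 ^ k * m < 2 ^ k + 2 ^ k * m := Nat.add_lt_add_right hbk _
        _ = 2 ^ k * (m + 1) := by ring
        _ ≤ 2 ^ k * 2 ^ (j + 1) := Nat.mul_le_mul_left _ hm
    · show (b + 2 ^ k * m) % 2 ^ k = b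
      rw [Nat.add_mul_mod_self_left, Nat.mod_eq_of_lt hbk]
    · show coeff (b + 2 ^ k * m) (U0 * P2 ^ (a + 2 ^ k * τ)) ≠ w0 (b + 2 ^ k * m)
      rw [coeff_shift m τ U0 hbk ha, hτ2]
      exact add_one_ne' _
    · show coeff (b + 2 ^ k * m) (U1 * P2 ^ (a + 2 ^ k * τ)) ≠ w1 (b + 2 ^ k * m)
      rw [coeff_shift m τ U1 hbk ha, hτ3]
      exact add_one_ne' _
  choose! F hF using key
  have hsum : Gd.card ≤ ∑ s ∈ range (2 ^ (j + 1)),
      N2 (2 ^ (k + (j + 1))) U0 U1 w0 w1 (a + 2 ^ k * s) := by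
    unfold N2
    rw [← card_sigma]
    apply card_le_card_of_injOn (fun b => (⟨(F b).1, (F b).2⟩ : Σ _ : ℕ, ℕ))
    · intro b hb
      obtain ⟨h1, h2, -, h4, h5⟩ := hF b hb
      rw [mem_coe, mem_sigma]
      refine ⟨mem_range.2 h1, ?_⟩
      rw [mem_filter]
      exact ⟨mem_range.2 h2, h4, h5⟩
    · intro b hb b' hb' hbb
      have h1 : (F b).2 = (F b').2 := congrArg Sigma.snd hbb
      rw [← (hF b hb).2.2.1, h1, (hF b' hb').2.2.1]
  by_contra hcon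
  push Not at hcon
  have h1 : ∀ s ∈ range (2 ^ (j + 1)),
      2 ^ (j + 1) * N2 (2 ^ (k + (j + 1))) U0 U1 w0 w1 (a + 2 ^ k * s) < Gd.card :=
    fun s hs => hcon s (mem_range.1 hs)
  have h2 := sum_lt_sum_of_nonempty (nonempty_range_iff.2 (by positivity)) h1
  rw [← mul_sum, sum_const, card_range, smul_eq_mul] at h2
  exact absurd hsum (not_le.2 (lt_of_mul_lt_mul_left h2 (Nat.zero_le _)))

end Pool.Agent.H909.TWST
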