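import Pool.Agent.H558.TW.Stm

set_option autoImplicit false

/-!
# Project TW (helper558), S_TR: repeated trials along the binary digits
-/

namespace Pool.Agent.H105.TWTR

open Finset
open scoped Classical

/-- sums over blocks -/
theorem sum_blocks (f : ℕ → ℝ) (N Q : ℕ) :
    ∑ t ∈ range (N * Q), f t = ∑ a ∈ range N, ∑ s ∈ range Q, f (a + N * s) := by
  induction Q with
  | zero => simp
  | succ Q ih =>
    rw [Nat.mul_succ, sum_range_add, ih, ← sum_add_distrib]
    refine sum_congr rfl (fun a _ => ?_)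
    rw [sum_range_succ, add_comm (N * Q) a]

/-- no success before time `i` -/
def ok (N : ℕ → ℕ) (E F : ℕ → ℕ → Prop) (i a : ℕ) : Prop :=
  ∀ i' < i, ¬ (E i' (a % N i') ∧ F i' (a % N (i' + 1)))

/-- the number of the trials before time `i` -/
noncomputable def cn (N : ℕ → ℕ) (E : ℕ → ℕ → Prop) (i a : ℕ) : ℕ :=
  #{i' ∈ range i | E i' (a % N i')}

/-- the weights -/
noncomputable def wt (N : ℕ → ℕ) (E F : ℕ → ℕ → Prop) (r : ℝ) (i a : ℕ) : ℝ :=
  if ok N E F i a then r⁻¹ ^ cn N E i a else 0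

section

variable {N : ℕ → ℕ} {D : ℕ} {E F : ℕ → ℕ → Prop}

theorem dvd_N (hN : ∀ i, N (i + 1) = N i * D) {i' i : ℕ} (h : i' ≤ i) : N i' ∣ N i := by
  induction i, h using Nat.le_induction with
  | base => exact dvd_rfl
  | succ i _ ih =>
    rw [hN]
    exact ih.mul_right D

theorem mod_N (hN : ∀ i, N (i + 1) = N i * D) {i' i : ℕ} (h : i' ≤ i) (a s : ℕ) :
    (a + N i * s) % N i' = a % N i' := by
  obtain ⟨c, hc⟩ := dvd_N hN h
  rw [hc, mul_assoc, Nat.add_mul_mod_self_left]

theorem lt_N (hN : ∀ i, N (i + 1) = N i * D) {i a s : ℕ} (ha : a < N i) (hs : s < D) :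
    a + N i * s < N (i + 1) := by
  rw [hN]
  calc a + N i * s < N i + N i * s := by omega
    _ = N i * (s + 1) := by ring
    _ ≤ N i * D := Nat.mul_le_mul_left _ hs

theorem ok_succ (hN : ∀ i, N (i + 1) = N i * D) {i a s : ℕ} (ha : a < N i) (hs : s < D) :
    ok N E F (i + 1) (a + N i * s) ↔ ok N E F i a ∧ ¬ (E i a ∧ F i (a + N i * s)) := by
  have h1 : (a + N i * s) % N i = a := by
    rw [mod_N hN le_rfl, Nat.mod_eq_of_lt ha]
  have h2 : (a + N i * s) % N (i + 1) = a + N i * s := Nat.mod_eq_of_lt (lt_N hN ha hs)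
  constructor
  · intro h
    refine ⟨fun i' hi' => ?_, ?_⟩
    · have h3 := h i' (by omega)
      rw [mod_N hN (by omega : i' ≤ i), mod_N hN (by omega : i' + 1 ≤ i)] at h3
      exact h3
    · have h3 := h i (by omega)
      rw [h1, h2] at h3
      exact h3
  · rintro ⟨h3, h4⟩ i' hi'
    rcases Nat.lt_succ_iff_lt_or_eq.1 hi' with h5 | rfl
    · rw [mod_N hN (by omega : i' ≤ i), mod_N hN (by omega : i' + 1 ≤ i)]
      exact h3 i' h5
    · rw [h1, h2]
      exact h4

theorem cn_succ (hN : ∀ i, N (i + 1) = N i * D) {i a : ℕ} (s : ℕ) (ha : a < N i) :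
    cn N E (i + 1) (a + N i * s) = cn N E i a + if E i a then 1 else 0 := by
  have h1 : (a + N i * s) % N i = a := by
    rw [mod_N hN le_rfl, Nat.mod_eq_of_lt ha]
  unfold cn
  rw [card_filter, card_filter, sum_range_succ, h1]
  congr 1
  refine sum_congr rfl (fun i' hi' => ?_)
  rw [mod_N hN (le_of_lt (mem_range.1 hi'))]

/-- one step -/
theorem step_le (hN : ∀ i, N (i + 1) = N i * D) (hD : 2 ≤ D) {r : ℝ} (hr : r = 1 - 1 / (D : ℝ))
    {i a : ℕ} (ha : a < N i) (hF : E i a → ∃ s < D, F i (a + N i * s)) :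
    ∑ s ∈ range D, wt N E F r (i + 1) (a + N i * s) ≤ (D : ℝ) * wt N E F r i a := by
  have hD0 : (0 : ℝ) < D := by
    have : 0 < D := by omega
    exact_mod_cast this
  have hr0 : 0 < r := by
    have h1 : (2 : ℝ) ≤ D := by exact_mod_cast hD
    have h2 : 1 / (D : ℝ) ≤ 1 / 2 := one_div_le_one_div_of_le (by norm_num) h1
    linarith
  by_cases hok : ok N E F i a
  · by_cases hEa : E i a
    · obtain ⟨s₀, hs₀, hFs⟩ := hF hEa
      have h1 : ∀ s ∈ range D, wt N E F r (i + 1) (a + N i * s) ≤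
          if s = s₀ then 0 else r⁻¹ ^ (cn N E i a + 1) := by
        intro s hs
        have hs' := mem_range.1 hs
        unfold wt
        rw [cn_succ hN s ha, if_pos hEa]
        by_cases hss : s = s₀
        · subst hss
          rw [if_pos rfl, if_neg]
          rw [ok_succ hN ha hs']
          exact fun h => h.2 ⟨hEa, hFs⟩
        · rw [if_neg hss]
          split_ifs
          · exact le_rfl
          · positivity
      refine (sum_le_sum h1).trans ?_
      have h2 : ∑ s ∈ range D, (if s = s₀ then (0 : ℝ) else r⁻¹ ^ (cn N E i a + 1)) =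
          ((D : ℝ) - 1) * r⁻¹ ^ (cn N E i a + 1) := by
        have h3 : ∀ s ∈ range D, (if s = s₀ then (0 : ℝ) else r⁻¹ ^ (cn N E i a + 1)) =
            r⁻¹ ^ (cn N E i a + 1) - if s = s₀ then r⁻¹ ^ (cn N E i a + 1) else 0 := by
          intro s _
          split_ifs <;> ring
        rw [sum_congr rfl h3, sum_sub_distrib, sum_const, card_range, nsmul_eq_mul,
          sum_ite_eq' , if_pos (mem_range.2 hs₀)]
        ring
      rw [h2]
      unfold wt
      rw [if_pos hok, pow_succ]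
      have h4 : ((D : ℝ) - 1) * r⁻¹ = D := by
        have h5 : (D : ℝ) - 1 = D * r := by
          rw [hr]
          field_simp
        rw [h5, mul_assoc, mul_inv_cancel₀ hr0.ne', mul_one]
      apply le_of_eq
      calc ((D : ℝ) - 1) * (r⁻¹ ^ cn N E i a * r⁻¹) =
          (((D : ℝ) - 1) * r⁻¹) * r⁻¹ ^ cn N E i a := by ring
        _ = _ := by rw [h4]
    · have h1 : ∀ s ∈ range D, wt N E F r (i + 1) (a + N i * s) ≤ wt N E F r i a := by
        intro s hs
        unfold wt
        rw [cn_succ hN s ha, if_neg hEa, add_zero, if_pos hok]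
        split_ifs
        · exact le_rfl
        · positivity
      refine (sum_le_sum h1).trans (le_of_eq ?_)
      rw [sum_const, card_range, nsmul_eq_mul]
  · have h1 : ∀ s ∈ range D, wt N E F r (i + 1) (a + N i * s) = 0 := by
      intro s hs
      unfold wt
      rw [if_neg]
      rw [ok_succ hN ha (mem_range.1 hs)]
      exact fun h => hok h.1
    rw [sum_eq_zero h1]
    unfold wt
    rw [if_neg hok, mul_zero]

/-- the total weight -/
theorem total (hN : ∀ i, N (i + 1) = N i * D) (hD : 2 ≤ D) {r : ℝ} (hr : r = 1 - 1 / (D : ℝ))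
    (n : ℕ) (hF : ∀ i < n, ∀ a < N i, E i a → ∃ s < D, F i (a + N i * s)) :
    ∑ a ∈ range (N n), wt N E F r n a ≤ (N n : ℝ) := by
  induction n with
  | zero =>
    have h1 : ∀ a ∈ range (N 0), wt N E F r 0 a = 1 := by
      intro a _
      have h0 : ok N E F 0 a := fun i' hi' => absurd hi' (Nat.not_lt_zero _)
      unfold wt cn
      rw [if_pos h0, range_zero, filter_empty, card_empty, pow_zero]
    rw [sum_congr rfl h1, sum_const, card_range, nsmul_eq_mul, mul_one]
  | succ n ih =>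
    rw [hN, sum_blocks]
    calc ∑ a ∈ range (N n), ∑ s ∈ range D, wt N E F r (n + 1) (a + N n * s)
        ≤ ∑ a ∈ range (N n), (D : ℝ) * wt N E F r n a :=
          sum_le_sum fun a ha => step_le hN hD hr (mem_range.1 ha)
            (hF n (Nat.lt_succ_self n) a (mem_range.1 ha))
      _ = (D : ℝ) * ∑ a ∈ range (N n), wt N E F r n a := (mul_sum _ _ _).symm
      _ ≤ (D : ℝ) * N n := by
          refine mul_le_mul_of_nonneg_left ?_ (Nat.cast_nonneg _)
          exact ih fun i hi => hF i (Nat.lt_succ_of_lt hi)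
      _ = ((N n * D : ℕ) : ℝ) := by push_cast; ring

/-- counting residues -/
theorem count_mod (hN : ∀ i, N (i + 1) = N i * D) {i n : ℕ} (hin : i ≤ n) (P : ℕ → Prop)
    [DecidablePred P] (ε : ℝ) (hP : (#{a ∈ range (N i) | P a} : ℝ) ≤ ε * N i) :
    (#{t ∈ range (N n) | P (t % N i)} : ℝ) ≤ ε * N n := by
  obtain ⟨c, hc⟩ := dvd_N hN hin
  have h1 : (#{t ∈ range (N n) | P (t % N i)} : ℝ) =
      ∑ t ∈ range (N n), if P (t % N i) then (1 : ℝ) else 0 := by
    rw [sum_boole]
  have h2 : (#{a ∈ range (N i) | P a} : ℝ) = ∑ a ∈ range (N i), if P a then (1 : ℝ) else 0 := by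
    rw [sum_boole]
  rw [h1, hc, sum_blocks]
  have h3 : ∀ a ∈ range (N i), ∑ s ∈ range c, (if P ((a + N i * s) % N i) then (1 : ℝ) else 0) =
      c * if P a then (1 : ℝ) else 0 := by
    intro a ha
    rw [← nsmul_eq_mul, ← card_range c, ← sum_const, card_range]
    refine sum_congr rfl (fun s _ => ?_)
    rw [Nat.add_mul_mod_self_left, Nat.mod_eq_of_lt (mem_range.1 ha)]
  rw [sum_congr rfl h3, ← mul_sum, ← h2]
  calc (c : ℝ) * (#{a ∈ range (N i) | P a} : ℝ) ≤ c * (ε * N i) :=
        mul_le_mul_of_nonneg_left hP (Nat.cast_nonneg _)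
    _ = ε * ((N i * c : ℕ) : ℝ) := by push_cast; ring

/-- the main estimate -/
theorem main (hN : ∀ i, N (i + 1) = N i * D) (hD : 2 ≤ D) {r : ℝ} (hr : r = 1 - 1 / (D : ℝ))
    (M : ℕ) (hM : 1 ≤ M) (ε : ℝ)
    (hE : ∀ i < 2 * M, (#{a ∈ range (N i) | ¬ E i a} : ℝ) ≤ ε * N i)
    (hF : ∀ i < 2 * M, ∀ a < N i, E i a → ∃ s < D, F i (a + N i * s)) :
    (#{t ∈ range (N (2 * M)) | ok N E F (2 * M) t} : ℝ) ≤ (2 * ε + r ^ M) * N (2 * M) := by
  have hD0 : (0 : ℝ) < D := by
    have : 0 < D := by omega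
    exact_mod_cast this
  have h2D : 1 / (D : ℝ) ≤ 1 / 2 :=
    one_div_le_one_div_of_le (by norm_num) (by exact_mod_cast hD)
  have h1D : 0 < 1 / (D : ℝ) := by positivity
  have hr0 : 0 < r := by linarith
  have hr1 : r ≤ 1 := by linarith
  have hri : 1 ≤ r⁻¹ := (one_le_inv₀ hr0).2 hr1
  have hM0 : (0 : ℝ) < M := by exact_mod_cast hM
  -- the set is contained in the union of two sets
  have hsub : (range (N (2 * M))).filter (fun t => ok N E F (2 * M) t) ⊆
      ((range (N (2 * M))).filter (fun t => ok N E F (2 * M) t ∧ M ≤ cn N E (2 * M) t)) ∪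
      ((range (N (2 * M))).filter (fun t => cn N E (2 * M) t < M)) := by
    intro t ht
    rw [mem_filter] at ht
    rw [mem_union, mem_filter, mem_filter]
    rcases le_or_gt M (cn N E (2 * M) t) with h | h
    · exact Or.inl ⟨ht.1, ht.2, h⟩
    · exact Or.inr ⟨ht.1, h⟩
  have hcard : (#{t ∈ range (N (2 * M)) | ok N E F (2 * M) t} : ℝ) ≤
      (#{t ∈ range (N (2 * M)) | ok N E F (2 * M) t ∧ M ≤ cn N E (2 * M) t} : ℝ) +
      (#{t ∈ range (N (2 * M)) | cn N E (2 * M) t < M} : ℝ) := by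
    have h1 := (card_le_card hsub).trans (card_union_le _ _)
    exact_mod_cast h1
  -- many trials
  have hA : (#{t ∈ range (N (2 * M)) | ok N E F (2 * M) t ∧ M ≤ cn N E (2 * M) t} : ℝ) ≤
      r ^ M * N (2 * M) := by
    have h1 := total (E := E) (F := F) hN hD hr (2 * M) hF
    have h2 : (#{t ∈ range (N (2 * M)) | ok N E F (2 * M) t ∧ M ≤ cn N E (2 * M) t} : ℝ) *
        r⁻¹ ^ M ≤ ∑ a ∈ range (N (2 * M)), wt N E F r (2 * M) a := by
      have h3 : (#{t ∈ range (N (2 * M)) | ok N E F (2 * M) t ∧ M ≤ cn N E (2 * M) t} : ℝ) *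
          r⁻¹ ^ M = ∑ a ∈ range (N (2 * M)),
            if ok N E F (2 * M) a ∧ M ≤ cn N E (2 * M) a then r⁻¹ ^ M else 0 := by
        rw [← sum_filter, sum_const, nsmul_eq_mul]
      rw [h3]
      refine sum_le_sum (fun a _ => ?_)
      unfold wt
      by_cases hok : ok N E F (2 * M) a
      · rw [if_pos hok]
        by_cases hc : M ≤ cn N E (2 * M) a
        · rw [if_pos ⟨hok, hc⟩]
          exact pow_le_pow_right₀ hri hc
        · rw [if_neg (fun h => hc h.2)]
          positivity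
      · rw [if_neg hok, if_neg (fun h => hok h.1)]
    have h4 := h2.trans h1
    rw [inv_pow, ← div_eq_mul_inv, div_le_iff₀ (by positivity)] at h4
    exact h4.trans (le_of_eq (mul_comm _ _))
  -- few trials
  have hB : (#{t ∈ range (N (2 * M)) | cn N E (2 * M) t < M} : ℝ) ≤ 2 * ε * N (2 * M) := by
    have h1 : (#{t ∈ range (N (2 * M)) | cn N E (2 * M) t < M} : ℝ) * M ≤
        ∑ t ∈ range (N (2 * M)), ∑ i ∈ range (2 * M), if ¬ E i (t % N i) then (1 : ℝ) else 0 := by
      have h2 : (#{t ∈ range (N (2 * M)) | cn N E (2 * M) t < M} : ℝ) * M =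
          ∑ t ∈ range (N (2 * M)), if cn N E (2 * M) t < M then (M : ℝ) else 0 := by
        rw [← sum_filter, sum_const, nsmul_eq_mul]
      rw [h2]
      refine sum_le_sum (fun t _ => ?_)
      rw [sum_boole]
      split_ifs with hc
      · have h3 : #{i ∈ range (2 * M) | E i (t % N i)} + #{i ∈ range (2 * M) | ¬ E i (t % N i)} =
            2 * M := by
          rw [card_filter_add_card_filter_not, card_range]
        have h4 : #{i ∈ range (2 * M) | E i (t % N i)} < M := hc
        have h5 : M ≤ #{i ∈ range (2 * M) | ¬ E i (t % N i)} := by omega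
        exact_mod_cast h5
      · exact Nat.cast_nonneg _
    rw [sum_comm] at h1
    have h6 : ∑ i ∈ range (2 * M), ∑ t ∈ range (N (2 * M)),
        (if ¬ E i (t % N i) then (1 : ℝ) else 0) ≤ ∑ i ∈ range (2 * M), ε * N (2 * M) := by
      refine sum_le_sum (fun i hi => ?_)
      rw [sum_boole]
      exact count_mod hN (le_of_lt (mem_range.1 hi)) (fun a => ¬ E i a) ε
        (hE i (mem_range.1 hi))
    have h7 := h1.trans h6
    rw [sum_const, card_range, nsmul_eq_mul] at h7
    push_cast at h7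
    have h8 : (#{t ∈ range (N (2 * M)) | cn N E (2 * M) t < M} : ℝ) * M ≤
        (2 * ε * N (2 * M)) * M := by linarith
    exact le_of_mul_le_mul_right h8 hM0
  calc (#{t ∈ range (N (2 * M)) | ok N E F (2 * M) t} : ℝ)
      ≤ r ^ M * N (2 * M) + 2 * ε * N (2 * M) := hcard.trans (add_le_add hA hB)
    _ = _ := by ring

end

end Pool.Agent.H105.TWTR

namespace Pool.Agent.H105.TWTR

open Finset Pool.Agent.H558.TW
open scoped Classical

theorem tr : S_TR := by
  intro J M k ε hJ hM E F hE hF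
  have hN : ∀ i, 2 ^ (k + J * (i + 1)) = 2 ^ (k + J * i) * 2 ^ J := by
    intro i
    rw [← pow_add]
    congr 1
    ring
  have hD : 2 ≤ 2 ^ J := by
    calc 2 = 2 ^ 1 := (pow_one 2).symm
      _ ≤ 2 ^ J := Nat.pow_le_pow_right (by norm_num) hJ
  have h1 := main (N := fun i => 2 ^ (k + J * i)) (D := 2 ^ J) (E := E) (F := F) hN hD
    (r := 1 - 1 / 2 ^ J) (by push_cast; rfl) M hM ε
    (fun i hi => by
      have := hE i hi
      push_cast
      exact this)
    hF
  have h2 : (range (2 ^ (k + J * (2 * M)))).filter (fun t => ∀ i < 2 * M,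
      ¬ (E i (t % 2 ^ (k + J * i)) ∧ F i (t % 2 ^ (k + J * (i + 1))))) ⊆
      (range (2 ^ (k + J * (2 * M)))).filter
        (fun t => ok (fun i => 2 ^ (k + J * i)) E F (2 * M) t) := by
    intro t ht
    rw [mem_filter] at ht ⊢
    exact ⟨ht.1, ht.2⟩
  have h3 := card_le_card h2
  push_cast at h1
  refine le_trans ?_ h1
  exact_mod_cast h3

end Pool.Agent.H105.TWTR
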