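import Pool.Agent.H558.TW.Stm2

set_option autoImplicit false

/-!
# TRI: seven of the eight triples of parities
-/

namespace Pool.Agent.H975.TWTRI

open PowerSeries Finset Pool.Agent.R836.PP Pool.Agent.H558.KK Pool.Agent.H558.PP
open Pool.Agent.K7.H72.MT hiding W few dis DD dis_stable dis_vary DD_stable DD_sum DD_block few_bad
  dis_le DD_le base count
open Pool.Agent.H558.TW

/-- the linear form -/
def dot (e y : Fin 3 → ZMod 2) : ZMod 2 := e 0 * y 0 + e 1 * y 1 + e 2 * y 2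

theorem exists_forms : ∀ v : Fin 3 → ZMod 2, v ≠ 0 → ∃ e e' : Fin 3 → ZMod 2, e ≠ 0 ∧ e' ≠ 0 ∧
    e + e' ≠ 0 ∧ ∀ y : Fin 3 → ZMod 2, dot e y = 0 → dot e' y = 0 → y = 0 ∨ y = v := by
  unfold dot
  decide +kernel

/-- the pattern of a linear form -/
def cc (h₁ h₂ : ℕ) (e : Fin 3 → ZMod 2) : Fin (h₂ + 1) → ZMod 2 := fun i =>
  if (i : ℕ) = 0 then e 0 else if (i : ℕ) = h₁ then e 1 else if (i : ℕ) = h₂ then e 2 else 0

theorem cc_add (h₁ h₂ : ℕ) (e e' : Fin 3 → ZMod 2) : cc h₁ h₂ (e + e') = cc h₁ h₂ e + cc h₁ h₂ e' := by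
  funext i
  simp only [cc, Pi.add_apply]
  split_ifs <;> simp

theorem cc_ne {h₁ h₂ : ℕ} (h0 : 0 < h₁) (h1 : h₁ < h₂) {e : Fin 3 → ZMod 2} (he : e ≠ 0) :
    cc h₁ h₂ e ≠ 0 := by
  intro h
  apply he
  have e0 := congrFun h ⟨0, by omega⟩
  have e1 := congrFun h ⟨h₁, by omega⟩
  have e2 := congrFun h ⟨h₂, by omega⟩
  simp only [cc, Pi.zero_apply, if_true] at e0 e1 e2
  rw [if_neg h0.ne'] at e1
  rw [if_neg (by omega), if_neg h1.ne'] at e2
  funext i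
  fin_cases i
  · exact e0
  · exact e1
  · exact e2

theorem cc_sum {h₁ h₂ : ℕ} (h0 : 0 < h₁) (h1 : h₁ < h₂) (e : Fin 3 → ZMod 2) (a : ℕ → ZMod 2)
    (n : ℕ) : ∑ i : Fin (h₂ + 1), cc h₁ h₂ e i * a (n + i) =
      dot e ![a n, a (n + h₁), a (n + h₂)] := by
  have hs : ∀ i : Fin (h₂ + 1), cc h₁ h₂ e i * a (n + i) =
      (if i = ⟨0, by omega⟩ then e 0 * a n else 0) +
      (if i = ⟨h₁, by omega⟩ then e 1 * a (n + h₁) else 0) +
      (if i = ⟨h₂, by omega⟩ then e 2 * a (n + h₂) else 0) := by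
    intro i
    obtain ⟨i, hi⟩ := i
    simp only [cc, Fin.mk.injEq]
    by_cases e0 : i = 0
    · subst e0
      rw [if_pos rfl, if_pos rfl, if_neg (by omega), if_neg (by omega), add_zero, add_zero,
        add_zero]
    · rw [if_neg e0, if_neg e0]
      by_cases e1 : i = h₁
      · subst e1
        rw [if_pos rfl, if_pos rfl, if_neg (by omega), zero_add, add_zero]
      · rw [if_neg e1, if_neg e1]
        by_cases e2 : i = h₂
        · subst e2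
          rw [if_pos rfl, if_pos rfl, zero_add, zero_add]
        · rw [if_neg e2, if_neg e2, zero_mul, zero_add, zero_add]
  rw [Finset.sum_congr rfl fun i _ => hs i, Finset.sum_add_distrib, Finset.sum_add_distrib,
    Finset.sum_ite_eq' Finset.univ, Finset.sum_ite_eq' Finset.univ, Finset.sum_ite_eq' Finset.univ,
    if_pos (Finset.mem_univ _), if_pos (Finset.mem_univ _), if_pos (Finset.mem_univ _)]
  rfl

theorem dot_ne {e u y : Fin 3 → ZMod 2} (h : dot e y ≠ dot e u + 1) : dot e (y + u) = 0 := by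
  have h1 : dot e (y + u) = dot e y + dot e u := by
    simp only [dot, Pi.add_apply]
    ring
  rw [h1]
  clear h1
  generalize dot e y = p at *
  generalize dot e u = q at *
  revert p q
  decide

theorem cZZ_le {b' ρ h₁ h₂ : ℕ} (h0 : 0 < h₁) (h1 : h₁ < h₂) {u u' e e' : Fin 3 → ZMod 2}
    (hk : ∀ y : Fin 3 → ZMod 2, dot e y = 0 → dot e' y = 0 → y = 0 ∨ y = u + u') (t : ℤ_[2])
    (x : ℕ) :
    cZZ (2 ^ b') ρ (cc h₁ h₂ e) (cc h₁ h₂ e') (fun _ => dot e u + 1) (fun _ => dot e' u + 1) t x ≤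
      cT (pz t) (2 ^ b') ρ h₁ h₂ u x + cT (pz t) (2 ^ b') ρ h₁ h₂ u' x := by
  classical
  unfold cZZ cT
  refine le_trans (Finset.card_le_card ?_) (Finset.card_union_le _ _)
  intro n hn
  rw [Finset.mem_filter] at hn
  obtain ⟨hn1, hn2, hn3, hn4⟩ := hn
  rw [cc_sum h0 h1] at hn3 hn4
  rw [Finset.mem_union, Finset.mem_filter, Finset.mem_filter]
  have hadd : ∀ z w : Fin 3 → ZMod 2, z + w = 0 → z = w := by decide +kernel
  have hadd2 : ∀ z w w' : Fin 3 → ZMod 2, z + w = w + w' → z = w' := by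
    intro z w w' h
    have : z + w = w' + w := by rw [h, add_comm]
    exact add_right_cancel this
  rcases hk _ (dot_ne hn3) (dot_ne hn4) with h | h
  · left
    have h2 := hadd _ _ h
    rw [← h2]
    exact ⟨hn1, hn2, rfl, rfl, rfl⟩
  · right
    have h2 := hadd2 _ _ _ h
    rw [← h2]
    exact ⟨hn1, hn2, rfl, rfl, rfl⟩

theorem tri (hae : S_AEN) : S_TRI := by
  intro _ _ μ _ _
  have hall : ∀ᵐ t ∂μ, ∀ α β : ZMod 2, t.appr 1 = 1 → ∀ (b' ρ L : ℕ)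
      (c c' : Fin (L + 1) → ZMod 2), c ≠ 0 → c' ≠ 0 → c + c' ≠ 0 → ∃ δ : ℝ, 0 < δ ∧
        ∀ x₁ : ℕ, ∃ x : ℕ, x₁ ≤ x ∧
          δ * x ≤ cZZ (2 ^ b') ρ c c' (fun _ => α) (fun _ => β) t x := by
    rw [MeasureTheory.ae_all_iff]
    intro α
    rw [MeasureTheory.ae_all_iff]
    intro β
    exact hae (fun _ => α) (fun _ => β) μ
  filter_upwards [hall] with t ht h1 b' ρ h₁ h₂ hp hlt
  -- two exceptions are impossible
  have key : ∀ u u' : Fin 3 → ZMod 2,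
      (¬ ∃ δ : ℝ, 0 < δ ∧ ∀ x₁ : ℕ, ∃ x : ℕ, x₁ ≤ x ∧
        δ * x ≤ cT (pz t) (2 ^ b') ρ h₁ h₂ u x) →
      (¬ ∃ δ : ℝ, 0 < δ ∧ ∀ x₁ : ℕ, ∃ x : ℕ, x₁ ≤ x ∧
        δ * x ≤ cT (pz t) (2 ^ b') ρ h₁ h₂ u' x) → u = u' := by
    intro u u' hu hu'
    by_contra hne
    have hv : u + u' ≠ 0 := by
      have hadd : ∀ z w : Fin 3 → ZMod 2, z + w = 0 → z = w := by decide +kernel
      exact fun h => hne (hadd _ _ h)
    obtain ⟨e, e', he, he', hee, hk⟩ := exists_forms _ hv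
    obtain ⟨δ, hδ, hx⟩ := ht (dot e u + 1) (dot e' u + 1) h1 b' ρ h₂ (cc h₁ h₂ e) (cc h₁ h₂ e')
      (cc_ne hp hlt he) (cc_ne hp hlt he') (by rw [← cc_add]; exact cc_ne hp hlt hee)
    push Not at hu hu'
    obtain ⟨x1, hx1⟩ := hu (δ / 2) (by positivity)
    obtain ⟨x2, hx2⟩ := hu' (δ / 2) (by positivity)
    obtain ⟨x, hxx, hle⟩ := hx (max x1 x2)
    have a1 := hx1 x ((le_max_left _ _).trans hxx)
    have a2 := hx2 x ((le_max_right _ _).trans hxx)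
    have a3 := cZZ_le (b' := b') (ρ := ρ) hp hlt hk t x
    have a4 : (cZZ (2 ^ b') ρ (cc h₁ h₂ e) (cc h₁ h₂ e') (fun _ => dot e u + 1)
        (fun _ => dot e' u + 1) t x : ℝ) ≤ cT (pz t) (2 ^ b') ρ h₁ h₂ u x +
          cT (pz t) (2 ^ b') ρ h₁ h₂ u' x := by exact_mod_cast a3
    linarith
  by_cases hex : ∃ u : Fin 3 → ZMod 2, ¬ ∃ δ : ℝ, 0 < δ ∧ ∀ x₁ : ℕ, ∃ x : ℕ, x₁ ≤ x ∧
      δ * x ≤ cT (pz t) (2 ^ b') ρ h₁ h₂ u x
  · obtain ⟨u₀, hu₀⟩ := hex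
    refine ⟨u₀, fun u hu => ?_⟩
    by_contra hc
    exact hu (key u u₀ hc hu₀)
  · push Not at hex
    refine ⟨0, fun u _ => ?_⟩
    exact hex u

end Pool.Agent.H975.TWTRI
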