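import Pool.Agent.H558.PP.QAsm
import Pool.Agent.H558.TW.ADD
import Pool.Agent.H558.TW.LOC
import Pool.Agent.H558.TW.TR
import Pool.Agent.H558.TW.ST
import Pool.Agent.H558.TW.D2N
import Pool.Agent.H558.TW.GoodThree
import Pool.Agent.H558.TW.SCN
import Pool.Agent.H558.TW.NZC
import Pool.Agent.H558.TW.CLN
import Pool.Agent.H558.TW.AEN
import Pool.Agent.H558.TW.TRI

set_option autoImplicit false

/-!
# Assembly: joint values of two independent patterns
-/

namespace Pool.Agent.H558.TW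

open Pool.Agent.H558.PP

theorem hST : S_ST := Pool.Agent.H909.TWST.st Pool.Agent.H874.TWADD.add Pool.Agent.H387.TWLOC.loc

theorem hD2N : S_D2N := Pool.Agent.H350.TWD2N.d2n hT3 hT4

theorem hCON : S_CON := Pool.Agent.H382.TWCON.con Pool.Agent.H874.TWADD.add hD2N

theorem hSCN : S_SCN := Pool.Agent.H860.TWSCN.scn hCON hST Pool.Agent.H105.TWTR.tr

theorem hNZC : S_NZC := Pool.Agent.H894.TWNZC.nzc hN1

theorem hCLN : S_CLN := Pool.Agent.H356.TWCLN.cln Pool.Agent.H874.TWADD.add hSCN hNZC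

theorem hAEN : S_AEN := Pool.Agent.H788.TWAEN.aen hCLN

theorem hTRI : S_TRI := Pool.Agent.H975.TWTRI.tri hAEN

end Pool.Agent.H558.TW
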