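import Pool.Agent.H558.TW.Stm3

set_option autoImplicit false

/-!
# Two patterns: conditional version (helper323, for helper558)
-/

namespace Pool.Agent.H323.TWCU

open PowerSeries Finset Pool.Agent.R836.PP Pool.Agent.H558.KK Pool.Agent.H558.PP
open Pool.Agent.H558.TW
open Pool.Agent.K7.H72.MT hiding W few dis DD dis_stable dis_vary DD_stable DD_sum DD_block few_bad
  dis_le DD_le base count

theorem CC_add {L : ℕ} (c c' : Fin (L + 1) → ZMod 2) : CC (c + c') = CC c + CC c' := by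
  unfold CC
  rw [← sum_add_distrib]
  refine sum_congr rfl fun i _ => ?_
  rw [Pi.add_apply, add_smul]

/-- comparison of the counts -/
theorem sum_N2 {b b' l β ρ L t a i x : ℕ} (hb : b' ≤ b) (hbl : b ≤ l)
    (hβ : β = (ρ + L) % 2 ^ b) (ht : t % 2 ^ l = a) (hx : 2 ^ (l + i) ≤ x)
    (c c' : Fin (L + 1) → ZMod 2) (w0 w1 : ℕ → ZMod 2) :
    ∑ e ∈ range (2 ^ (l - b)), N2 (2 ^ i) (node P2 l (β + 2 ^ b * e) a (CC c))
      (node P2 l (β + 2 ^ b * e) a (CC c')) (fun m => w0 (β + 2 ^ b * e + 2 ^ l * m - L))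
      (fun m => w1 (β + 2 ^ b * e + 2 ^ l * m - L)) (t / 2 ^ l) ≤
      L + cPP (2 ^ b') ρ c c' w0 w1 t x := by
  classical
  have hP : 0 < 2 ^ b := by positivity
  have hPl : 0 < 2 ^ l := by positivity
  have hlb : 2 ^ l = 2 ^ b * 2 ^ (l - b) := by
    rw [← pow_add, Nat.add_sub_cancel' hbl]
  have hβlt : β < 2 ^ b := by
    rw [hβ]
    exact Nat.mod_lt _ hP
  have hB : ∀ e < 2 ^ (l - b), β + 2 ^ b * e < 2 ^ l := by
    intro e he
    have h1 : 2 ^ b * (e + 1) ≤ 2 ^ b * 2 ^ (l - b) := Nat.mul_le_mul_left _ he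
    rw [← hlb] at h1
    have h2 : 2 ^ b * (e + 1) = 2 ^ b * e + 2 ^ b := by ring
    omega
  unfold N2 cPP
  rw [← card_sigma]
  set T : Finset ℕ := {n ∈ range (x + 1) | n % 2 ^ b' = ρ % 2 ^ b' ∧ pat c (P2 ^ t) n ≠ w0 n ∧
    pat c' (P2 ^ t) n ≠ w1 n} with hT
  have hY : #(range L ∪ T.image fun n => n + L) ≤ L + #T := by
    have h1 := card_union_le (range L) (T.image fun n => n + L)
    have h2 := card_image_le (s := T) (f := fun n => n + L)
    rw [card_range] at h1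
    omega
  refine le_trans ?_ hY
  refine card_le_card_of_injOn (fun p => β + 2 ^ b * p.1 + 2 ^ l * p.2) ?_ ?_
  · rintro ⟨e, m⟩ hp
    rw [mem_coe, mem_sigma] at hp
    obtain ⟨he, hm⟩ := hp
    simp only at he hm
    rw [mem_range] at he
    obtain ⟨h1, h2, h3⟩ := mem_filter.1 hm
    rw [mem_range] at h1
    have hBe := hB e he
    rw [mem_coe, mem_union]
    change β + 2 ^ b * e + 2 ^ l * m ∈ range L ∨ β + 2 ^ b * e + 2 ^ l * m ∈
      T.image fun n => n + L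
    rcases Nat.lt_or_ge (β + 2 ^ b * e + 2 ^ l * m) L with h4 | h4
    · exact Or.inl (mem_range.2 h4)
    · right
      rw [mem_image]
      have h6 : 2 ^ l * (m + 1) ≤ 2 ^ l * 2 ^ i := Nat.mul_le_mul_left _ h1
      rw [← pow_add] at h6
      have h6' : 2 ^ l * (m + 1) = 2 ^ l * m + 2 ^ l := by ring
      have h7 : β + 2 ^ b * e + 2 ^ l * m - L + L = β + 2 ^ b * e + 2 ^ l * m := by omega
      refine ⟨β + 2 ^ b * e + 2 ^ l * m - L, ?_, h7⟩
      rw [hT, mem_filter, mem_range]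
      refine ⟨by omega, ?_, ?_, ?_⟩
      · have g0 : (β + 2 ^ b * e + 2 ^ l * m - L + L) % 2 ^ b = (ρ + L) % 2 ^ b := by
          have e1 : β + 2 ^ b * e + 2 ^ l * m = β + 2 ^ b * (e + 2 ^ (l - b) * m) := by
            rw [hlb]
            ring
          rw [h7, e1, Nat.add_mul_mod_self_left, Nat.mod_eq_of_lt hβlt, hβ]
        have g1 : β + 2 ^ b * e + 2 ^ l * m - L + L ≡ ρ + L [MOD 2 ^ b] := g0
        exact (Nat.ModEq.add_right_cancel' L g1).of_dvd (pow_dvd_pow 2 hb)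
      · rw [← coeff_CC, h7, coeff_node P2 l (β + 2 ^ b * e) t m (CC c) hBe, ← node_mod, ht]
        exact h2
      · rw [← coeff_CC, h7, coeff_node P2 l (β + 2 ^ b * e) t m (CC c') hBe, ← node_mod, ht]
        exact h3
  · rintro ⟨e, m⟩ hp ⟨e', m'⟩ hp' h
    rw [mem_coe, mem_sigma] at hp hp'
    have he : e < 2 ^ (l - b) := mem_range.1 hp.1
    have he' : e' < 2 ^ (l - b) := mem_range.1 hp'.1
    have h1 : β + 2 ^ b * e + 2 ^ l * m = β + 2 ^ b * e' + 2 ^ l * m' := h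
    have h2 := congrArg (fun n => n % 2 ^ l) h1
    simp only [Nat.add_mul_mod_self_left, Nat.mod_eq_of_lt (hB e he),
      Nat.mod_eq_of_lt (hB e' he')] at h2
    have h3 : 2 ^ b * e = 2 ^ b * e' := by omega
    have h4 : e = e' := Nat.eq_of_mul_eq_mul_left hP h3
    subst h4
    have h5 : 2 ^ l * m = 2 ^ l * m' := by omega
    have h6 : m = m' := Nat.eq_of_mul_eq_mul_left hPl h5
    subst h6
    rfl

/-- **CU** -/
theorem cu (hadd : S_ADD) (hsc : S_SCN) (hnz : S_NZC) : S_CU := by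
  classical
  intro b'
  obtain ⟨δ, hδ, hSC⟩ := hsc (1 / 2) (by norm_num)
  set b : ℕ := b' + 1 with hb
  have hP : 0 < 2 ^ b := by positivity
  have hbb : b' ≤ b := by omega
  refine ⟨δ / 2 ^ (b + 3), by positivity, ?_⟩
  set κ : ℝ := δ / 2 ^ (b + 3) with hκ
  have hκ0 : 0 < κ := by positivity
  intro ρ L c c' hc hc' hcc l a hbl hal ha2
  set β : ℕ := (ρ + L) % 2 ^ b with hβ
  have hβlt : β < 2 ^ b := Nat.mod_lt _ hP
  have hPl : 0 < 2 ^ l := by positivity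
  have hlb : 2 ^ l = 2 ^ b * 2 ^ (l - b) := by
    rw [← pow_add, Nat.add_sub_cancel' hbl]
  have hB : ∀ e < 2 ^ (l - b), β + 2 ^ b * e < 2 ^ l := by
    intro e he
    have h1 : 2 ^ b * (e + 1) ≤ 2 ^ b * 2 ^ (l - b) := Nat.mul_le_mul_left _ he
    rw [← hlb] at h1
    have h2 : 2 ^ b * (e + 1) = 2 ^ b * e + 2 ^ b := by ring
    omega
  have hex : ∀ e : ℕ, ∃ i0 : ℕ, e < 2 ^ (l - b) → ∀ (w0 w1 : ℕ → ZMod 2) (K i : ℕ),
      i0 ≤ i → i ≤ K → (#{t ∈ range (2 ^ K) | (N2 (2 ^ i)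
        (node P2 l (β + 2 ^ b * e) a (CC c)) (node P2 l (β + 2 ^ b * e) a (CC c'))
        w0 w1 t : ℝ) < δ * 2 ^ i} : ℝ) ≤ 1 / 2 * 2 ^ K := by
    intro e
    by_cases he : e < 2 ^ (l - b)
    · have hs : node P2 l (β + 2 ^ b * e) a (CC c) + node P2 l (β + 2 ^ b * e) a (CC c') =
          node P2 l (β + 2 ^ b * e) a (CC (c + c')) := by
        rw [CC_add, hadd]
      obtain ⟨i0, hi0⟩ := hSC (node P2 l (β + 2 ^ b * e) a (CC c))
        (node P2 l (β + 2 ^ b * e) a (CC c'))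
        (hnz l _ a L c hc (by omega) (hB e he) ha2 hal)
        (hnz l _ a L c' hc' (by omega) (hB e he) ha2 hal)
        (by rw [hs]; exact hnz l _ a L (c + c') hcc (by omega) (hB e he) ha2 hal)
      exact ⟨i0, fun _ w0 w1 K i h3 h4 => hi0 w0 w1 K i h3 h4⟩
    · exact ⟨0, fun h => absurd h he⟩
  choose I hI using hex
  obtain ⟨n1, hn1⟩ := exists_nat_gt ((L : ℝ) / κ)
  refine ⟨l + (∑ e ∈ range (2 ^ (l - b)), I e) + n1, ?_⟩
  intro w0 w1 j K hj hjK
  obtain ⟨i, hi⟩ := Nat.exists_eq_add_of_le (show l ≤ j by omega)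
  have hjK' : j < K := by
    have : 2 ^ j < 2 ^ K := by omega
    exact (Nat.pow_lt_pow_iff_right (by norm_num)).1 this
  have hL : (L : ℝ) ≤ κ * 2 ^ j := by
    have h1 : (n1 : ℝ) ≤ 2 ^ j := by
      have h2 : n1 ≤ j := by omega
      have h3 : n1 ≤ 2 ^ j := h2.trans (Nat.lt_two_pow_self).le
      exact_mod_cast h3
    rw [div_lt_iff₀ hκ0] at hn1
    nlinarith
  -- the counting function
  obtain ⟨Nf, hNf⟩ : ∃ Nf : ℕ → ℕ → ℕ, Nf = fun e t => N2 (2 ^ i)
      (node P2 l (β + 2 ^ b * e) a (CC c)) (node P2 l (β + 2 ^ b * e) a (CC c'))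
      (fun m => w0 (β + 2 ^ b * e + 2 ^ l * m - L))
      (fun m => w1 (β + 2 ^ b * e + 2 ^ l * m - L)) t := ⟨_, rfl⟩
  have hNe : ∀ e < 2 ^ (l - b), (#{t ∈ range (2 ^ (K - l)) | (Nf e t : ℝ) < δ * 2 ^ i} : ℝ) ≤
      1 / 2 * 2 ^ (K - l) := by
    intro e he
    have h3 : I e ≤ i := by
      have h4 : I e ≤ ∑ e ∈ range (2 ^ (l - b)), I e :=
        single_le_sum (f := I) (fun _ _ => Nat.zero_le _) (mem_range.2 he)
      omega
    rw [hNf]
    exact hI e he (fun m => w0 (β + 2 ^ b * e + 2 ^ l * m - L))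
      (fun m => w1 (β + 2 ^ b * e + 2 ^ l * m - L)) (K - l) i h3 (by omega)
  obtain ⟨E, hE⟩ : ∃ E : ℝ, E = 2 ^ (l - b) := ⟨_, rfl⟩
  have hE0 : 0 < E := by rw [hE]; positivity
  -- double counting
  set bd : ℕ → ℕ := fun t => #{e ∈ range (2 ^ (l - b)) | (Nf e t : ℝ) < δ * 2 ^ i} with hbd
  have hdc : (∑ t ∈ range (2 ^ (K - l)), bd t : ℕ) =
      ∑ e ∈ range (2 ^ (l - b)), #{t ∈ range (2 ^ (K - l)) | (Nf e t : ℝ) < δ * 2 ^ i} := by
    rw [hbd]
    simp only [card_filter]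
    exact sum_comm
  have hsum : ((∑ t ∈ range (2 ^ (K - l)), bd t : ℕ) : ℝ) ≤ E * (1 / 2 * 2 ^ (K - l)) := by
    rw [hdc]
    push_cast
    refine (sum_le_card_nsmul _ _ _ fun e he => hNe e (mem_range.1 he)).trans ?_
    rw [card_range, nsmul_eq_mul, hE]
    push_cast
    exact le_rfl
  set Fs : Finset ℕ := {t ∈ range (2 ^ (K - l)) | 3 / 4 * E ≤ (bd t : ℝ)} with hFs
  have hF : (#Fs : ℝ) ≤ 2 / 3 * 2 ^ (K - l) := by
    have h1 : (#Fs : ℝ) * (3 / 4 * E) ≤ ((∑ t ∈ range (2 ^ (K - l)), bd t : ℕ) : ℝ) := by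
      rw [← nsmul_eq_mul]
      push_cast
      refine le_trans (card_nsmul_le_sum Fs (fun t => (bd t : ℝ)) _ fun t ht =>
        (mem_filter.1 ht).2) ?_
      exact sum_le_sum_of_subset_of_nonneg (filter_subset _ _) fun t _ _ => Nat.cast_nonneg _
    have h2 := h1.trans hsum
    have h3 : (#Fs : ℝ) * (3 / 4) * E ≤ (1 / 2 * 2 ^ (K - l)) * E := by linarith
    have h4 := le_of_mul_le_mul_right h3 hE0
    linarith
  refine le_trans ?_ hF
  have hcard : #{t ∈ range (2 ^ K) | t % 2 ^ l = a ∧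
      (cPP (2 ^ b') ρ c c' w0 w1 t (2 ^ j) : ℝ) < κ * 2 ^ j} ≤ #Fs := by
    refine card_le_card_of_injOn (fun t => t / 2 ^ l) ?_ ?_
    · intro t ht
      obtain ⟨htK, ht0, h3⟩ := mem_filter.1 (mem_coe.1 ht)
      rw [mem_range] at htK
      have hKl : 2 ^ K = 2 ^ l * 2 ^ (K - l) := by
        rw [← pow_add]
        congr 1
        omega
      rw [mem_coe, hFs, mem_filter, mem_range]
      refine ⟨Nat.div_lt_of_lt_mul (by rw [← hKl]; exact htK), ?_⟩
      by_contra hlt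
      push Not at hlt
      have h4 := sum_N2 (i := i) (x := 2 ^ j) hbb hbl hβ ht0 (by rw [hi]) c c' w0 w1
      have h5 : ((∑ e ∈ range (2 ^ (l - b)), Nf e (t / 2 ^ l) : ℕ) : ℝ) ≤
          L + cPP (2 ^ b') ρ c c' w0 w1 t (2 ^ j) := by
        rw [hNf]
        exact_mod_cast h4
      -- the good `e`
      have h6 : (#{e ∈ range (2 ^ (l - b)) | ¬ (Nf e (t / 2 ^ l) : ℝ) < δ * 2 ^ i} : ℝ) =
          E - bd (t / 2 ^ l) := by
        have h7 := card_filter_add_card_filter_not (s := range (2 ^ (l - b)))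
          (fun e => (Nf e (t / 2 ^ l) : ℝ) < δ * 2 ^ i)
        rw [card_range] at h7
        have h8 : ((2 ^ (l - b) : ℕ) : ℝ) = E := by
          rw [hE]
          push_cast
          rfl
        have h9 := congrArg (fun n : ℕ => (n : ℝ)) h7
        simp only [Nat.cast_add] at h9
        rw [h8] at h9
        have h10 : (bd (t / 2 ^ l) : ℝ) =
            (#{e ∈ range (2 ^ (l - b)) | (Nf e (t / 2 ^ l) : ℝ) < δ * 2 ^ i} : ℝ) := rfl
        rw [h10]
        linarith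
      have h7 : (E / 4) * (δ * 2 ^ i) ≤ ((∑ e ∈ range (2 ^ (l - b)), Nf e (t / 2 ^ l) : ℕ) : ℝ) := by
        have h8 : (#{e ∈ range (2 ^ (l - b)) | ¬ (Nf e (t / 2 ^ l) : ℝ) < δ * 2 ^ i} : ℝ) *
            (δ * 2 ^ i) ≤ ((∑ e ∈ range (2 ^ (l - b)), Nf e (t / 2 ^ l) : ℕ) : ℝ) := by
          rw [← nsmul_eq_mul]
          push_cast
          refine le_trans (card_nsmul_le_sum _ (fun e => (Nf e (t / 2 ^ l) : ℝ)) _ fun e he =>
            not_lt.1 (mem_filter.1 he).2) ?_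
          exact sum_le_sum_of_subset_of_nonneg (filter_subset _ _) fun e _ _ => Nat.cast_nonneg _
        refine le_trans ?_ h8
        refine mul_le_mul_of_nonneg_right ?_ (by positivity)
        rw [h6]
        linarith
      have h8 : (E / 4) * (δ * 2 ^ i) = 2 * κ * 2 ^ j := by
        rw [hκ, hE, hi, pow_add 2 l i]
        have h9 : (2 : ℝ) ^ l = 2 ^ b * 2 ^ (l - b) := by
          rw [← pow_add, Nat.add_sub_cancel' hbl]
        rw [h9, pow_add 2 b 3]
        field_simp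
        ring
      linarith
    · intro t1 h1 t2 h2 h
      have h1' := (mem_filter.1 (mem_coe.1 h1)).2.1
      have h2' := (mem_filter.1 (mem_coe.1 h2)).2.1
      simp only at h
      rw [← Nat.mod_add_div t1 (2 ^ l), ← Nat.mod_add_div t2 (2 ^ l), h, h1', h2']
  exact_mod_cast hcard

end Pool.Agent.H323.TWCU
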