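import Pool.Agent.H558.TW.Stm3
import Pool.Agent.H558.TW.TRI

set_option autoImplicit false

/-!
# TRIU: seven of the eight triples of parities, with a constant which does not depend on `t`
-/

namespace Pool.Agent.H134.TWTRIU

open PowerSeries Finset Pool.Agent.R836.PP Pool.Agent.H558.KK Pool.Agent.H558.PP
open Pool.Agent.K7.H72.MT hiding W few dis DD dis_stable dis_vary DD_stable DD_sum DD_block few_bad
  dis_le DD_le base count
open Pool.Agent.H558.TW Pool.Agent.H975.TWTRI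

theorem triu (hae : S_AEU) : S_TRIU := by
  intro b'
  obtain ⟨κ, hκ, hκ1⟩ := hae b'
  refine ⟨κ / 2, by positivity, ?_⟩
  intro _ _ μ _ _
  have hall : ∀ᵐ t ∂μ, ∀ α β : ZMod 2, t.appr 1 = 1 → ∀ (ρ L : ℕ)
      (c c' : Fin (L + 1) → ZMod 2), c ≠ 0 → c' ≠ 0 → c + c' ≠ 0 →
        ∀ x₁ : ℕ, ∃ x : ℕ, x₁ ≤ x ∧
          κ * x ≤ cZZ (2 ^ b') ρ c c' (fun _ => α) (fun _ => β) t x := by
    rw [MeasureTheory.ae_all_iff]
    intro α
    rw [MeasureTheory.ae_all_iff]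
    intro β
    exact hκ1 (fun _ => α) (fun _ => β) μ
  filter_upwards [hall] with t ht h1 ρ h₁ h₂ hp hlt
  -- two exceptions are impossible
  have key : ∀ u u' : Fin 3 → ZMod 2,
      (¬ ∀ x₁ : ℕ, ∃ x : ℕ, x₁ ≤ x ∧ κ / 2 * x ≤ cT (pz t) (2 ^ b') ρ h₁ h₂ u x) →
      (¬ ∀ x₁ : ℕ, ∃ x : ℕ, x₁ ≤ x ∧ κ / 2 * x ≤ cT (pz t) (2 ^ b') ρ h₁ h₂ u' x) → u = u' := by
    intro u u' hu hu'
    by_contra hne
    have hv : u + u' ≠ 0 := by
      have hadd : ∀ z w : Fin 3 → ZMod 2, z + w = 0 → z = w := by decide +kernel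
      exact fun h => hne (hadd _ _ h)
    obtain ⟨e, e', he, he', hee, hk⟩ := exists_forms _ hv
    have hx := ht (dot e u + 1) (dot e' u + 1) h1 ρ h₂ (cc h₁ h₂ e) (cc h₁ h₂ e')
      (cc_ne hp hlt he) (cc_ne hp hlt he') (by rw [← cc_add]; exact cc_ne hp hlt hee)
    push Not at hu hu'
    obtain ⟨x1, hx1⟩ := hu
    obtain ⟨x2, hx2⟩ := hu'
    obtain ⟨x, hxx, hle⟩ := hx (max x1 x2)
    have a1 := hx1 x ((le_max_left _ _).trans hxx)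
    have a2 := hx2 x ((le_max_right _ _).trans hxx)
    have a3 := cZZ_le (b' := b') (ρ := ρ) hp hlt hk t x
    have a4 : (cZZ (2 ^ b') ρ (cc h₁ h₂ e) (cc h₁ h₂ e') (fun _ => dot e u + 1)
        (fun _ => dot e' u + 1) t x : ℝ) ≤ cT (pz t) (2 ^ b') ρ h₁ h₂ u x +
          cT (pz t) (2 ^ b') ρ h₁ h₂ u' x := by exact_mod_cast a3
    linarith
  by_cases hex : ∃ u : Fin 3 → ZMod 2,
      ¬ ∀ x₁ : ℕ, ∃ x : ℕ, x₁ ≤ x ∧ κ / 2 * x ≤ cT (pz t) (2 ^ b') ρ h₁ h₂ u x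
  · obtain ⟨u₀, hu₀⟩ := hex
    refine ⟨u₀, fun u hu => ?_⟩
    by_contra hc
    exact hu (key u u₀ hc hu₀)
  · refine ⟨0, fun u _ => ?_⟩
    by_contra hc
    exact hex ⟨u, hc⟩

end Pool.Agent.H134.TWTRIU
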