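import Pool.Agent.H558.TW.Stm3

set_option autoImplicit false

/-! Zero-one law on the 2-adic integers -/

namespace Pool.Agent.H824.TWZO

open PowerSeries Finset Pool.Agent.R836.PP Pool.Agent.H558.KK Pool.Agent.H558.PP
open Pool.Agent.K7.H72.MT hiding W few dis DD dis_stable dis_vary DD_stable DD_sum DD_block few_bad
  dis_le DD_le base count
open MeasureTheory Pool.Agent.H558.TW

/-- the norm of a difference -/
theorem appr_eq_iff (l : ℕ) (s t : ℤ_[2]) :
    s.appr l = t.appr l ↔ ‖s - t‖ ≤ (2 : ℝ) ^ (-(l : ℤ)) := by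
  have h0 := mem_cyl (PadicInt.appr_lt t l) s
  have h1 : ‖t - ((t.appr l : ℕ) : ℤ_[2])‖ ≤ (2 : ℝ) ^ (-(l : ℤ)) :=
    (mem_cyl (PadicInt.appr_lt t l) t).1 rfl
  have h2 : s ∈ cyl l (t.appr l) ↔ s.appr l = t.appr l := Iff.rfl
  rw [← h2, h0]
  constructor
  · intro h
    have e : s - t = (s - ((t.appr l : ℕ) : ℤ_[2])) + (((t.appr l : ℕ) : ℤ_[2]) - t) := by ring
    rw [e]
    refine (PadicInt.nonarchimedean _ _).trans (max_le h ?_)
    rw [norm_sub_rev]
    exact h1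
  · intro h
    have e : s - ((t.appr l : ℕ) : ℤ_[2]) = (s - t) + (t - ((t.appr l : ℕ) : ℤ_[2])) := by ring
    rw [e]
    exact (PadicInt.nonarchimedean _ _).trans (max_le h h1)

section measure

variable [MeasurableSpace ℤ_[2]] [BorelSpace ℤ_[2]]
variable (μ : Measure ℤ_[2]) [IsProbabilityMeasure μ] [μ.IsAddLeftInvariant]

theorem one_le_cyl (l : ℕ) : 1 ≤ (2 ^ l : ENNReal) * μ (cyl l 0) := by
  have h1 : (Set.univ : Set ℤ_[2]) = ⋃ a ∈ range (2 ^ l), cyl l a := by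
    ext t
    simp only [Set.mem_univ, Set.mem_iUnion, exists_prop, true_iff]
    exact ⟨t.appr l, mem_range.2 (PadicInt.appr_lt t l), rfl⟩
  have h2 : ∑ a ∈ range (2 ^ l), μ (cyl l a) = (2 ^ l : ENNReal) * μ (cyl l 0) := by
    rw [sum_congr rfl fun a ha => measure_cyl μ (mem_range.1 ha), sum_const, card_range,
      nsmul_eq_mul]
    push_cast
    rfl
  rw [← h2]
  calc (1 : ENNReal) = μ Set.univ := measure_univ.symm
    _ = μ (⋃ a ∈ range (2 ^ l), cyl l a) := by rw [← h1]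
    _ ≤ _ := measure_biUnion_finset_le _ _

theorem cyl_ge {l a : ℕ} (ha : a < 2 ^ l) : ENNReal.ofReal (1 / 2 ^ l) ≤ μ (cyl l a) := by
  rw [measure_cyl μ ha]
  have h := one_le_cyl μ l
  have h1 : ENNReal.ofReal (1 / 2 ^ l) = (2 ^ l : ENNReal)⁻¹ := by
    rw [one_div, ENNReal.ofReal_inv_of_pos (by positivity), ENNReal.ofReal_pow (by norm_num)]
    norm_num
  rw [h1]
  have h2 : (2 ^ l : ENNReal) ≠ 0 := pow_ne_zero _ (by norm_num)
  have h3 : (2 ^ l : ENNReal) ≠ ⊤ := ENNReal.pow_ne_top (by norm_num)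
  calc (2 ^ l : ENNReal)⁻¹ = (2 ^ l : ENNReal)⁻¹ * 1 := (mul_one _).symm
    _ ≤ (2 ^ l : ENNReal)⁻¹ * ((2 ^ l : ENNReal) * μ (cyl l 0)) := by gcongr
    _ = μ (cyl l 0) := by rw [← mul_assoc, ENNReal.inv_mul_cancel h2 h3, one_mul]

open Classical in
/-- the bound for the inner cylinders -/
theorem inner_le {B U : Set ℤ_[2]} {l : ℕ} {θ : ℝ} (hθ : 0 ≤ θ)
    (h : ∀ a < 2 ^ l, μ (B ∩ {t : ℤ_[2] | t.appr l = a}) ≤ ENNReal.ofReal (θ / 2 ^ l)) :
    μ (B ∩ {t | cyl l (t.appr l) ⊆ U}) ≤ ENNReal.ofReal θ * μ U := by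
  set E := (range (2 ^ l)).filter (fun a => cyl l a ⊆ U) with hE
  have h1 : B ∩ {t | cyl l (t.appr l) ⊆ U} ⊆ ⋃ a ∈ E, (B ∩ cyl l a) := by
    rintro t ⟨ht, ht2⟩
    simp only [Set.mem_iUnion, exists_prop]
    exact ⟨t.appr l, mem_filter.2 ⟨mem_range.2 (PadicInt.appr_lt t l), ht2⟩, ht, rfl⟩
  have h2 : μ (⋃ a ∈ E, cyl l a) = ∑ a ∈ E, μ (cyl l a) := by
    apply measure_biUnion_finset
    · intro a _ b _ hab
      rw [Function.onFun, Set.disjoint_left]
      intro t h1 h2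
      exact hab (h1.symm.trans h2)
    · intro a ha
      exact measurable_cyl (mem_range.1 (mem_filter.1 ha).1)
  have h3 : (⋃ a ∈ E, cyl l a) ⊆ U := by
    refine Set.iUnion₂_subset fun a ha => (mem_filter.1 ha).2
  calc μ (B ∩ {t | cyl l (t.appr l) ⊆ U}) ≤ μ (⋃ a ∈ E, (B ∩ cyl l a)) := measure_mono h1
    _ ≤ ∑ a ∈ E, μ (B ∩ cyl l a) := measure_biUnion_finset_le _ _
    _ ≤ ∑ a ∈ E, ENNReal.ofReal θ * μ (cyl l a) := by
        refine sum_le_sum fun a ha => ?_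
        have ha1 := mem_range.1 (mem_filter.1 ha).1
        refine (h a ha1).trans ?_
        rw [div_eq_mul_one_div, ENNReal.ofReal_mul hθ]
        gcongr
        exact cyl_ge μ ha1
    _ = ENNReal.ofReal θ * μ (⋃ a ∈ E, cyl l a) := by rw [h2, mul_sum]
    _ ≤ ENNReal.ofReal θ * μ U := by
        gcongr

end measure

/-- **ZO.** -/
theorem zo : S_ZO := by
  intro _ _ μ _ _ B l1 θ hθ0 hθ1 h
  -- the bound by an open set
  have key : ∀ U : Set ℤ_[2], IsOpen U → B ⊆ U → μ B ≤ ENNReal.ofReal θ * μ U := by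
    intro U hU hBU
    set V : ℕ → Set ℤ_[2] := fun l => B ∩ {t | cyl (l1 + l) (t.appr (l1 + l)) ⊆ U} with hV
    have hmono : Monotone V := by
      intro l l' hll t ht
      refine ⟨ht.1, fun s hs => ht.2 ?_⟩
      have hs' : s.appr (l1 + l') = t.appr (l1 + l') := hs
      show s.appr (l1 + l) = t.appr (l1 + l)
      rw [appr_eq_iff] at hs' ⊢
      refine hs'.trans (zpow_le_zpow_right₀ (by norm_num) ?_)
      push_cast
      omega
    have hun : B ⊆ ⋃ l, V l := by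
      intro t ht
      obtain ⟨ε, hε, hb⟩ := Metric.isOpen_iff.1 hU t (hBU ht)
      obtain ⟨k, hk⟩ := exists_pow_lt_of_lt_one hε (show (1 / 2 : ℝ) < 1 by norm_num)
      refine Set.mem_iUnion.2 ⟨k, ht, fun s hs => hb ?_⟩
      have hs' : s.appr (l1 + k) = t.appr (l1 + k) := hs
      rw [appr_eq_iff] at hs'
      rw [Metric.mem_ball, dist_eq_norm]
      refine lt_of_le_of_lt hs' (lt_of_le_of_lt ?_ hk)
      rw [zpow_neg, zpow_natCast, one_div, inv_pow]
      refine inv_anti₀ (by positivity) (pow_le_pow_right₀ (by norm_num) (by omega))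
    calc μ B ≤ μ (⋃ l, V l) := measure_mono hun
      _ = ⨆ l, μ (V l) := hmono.measure_iUnion
      _ ≤ ENNReal.ofReal θ * μ U :=
          iSup_le fun l => inner_le μ hθ0 (h (l1 + l) (by omega))
  have hfin : μ B ≠ ⊤ := measure_ne_top μ B
  have main : ∀ ε : ℝ, 0 < ε → (μ B).toReal ≤ θ * ((μ B).toReal + ε) := by
    intro ε hε
    obtain ⟨U, hBU, hU, hUm⟩ := B.exists_isOpen_le_add μ
      (show ENNReal.ofReal ε ≠ 0 by rw [Ne, ENNReal.ofReal_eq_zero, not_le]; exact hε)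
    have h1 := (key U hU hBU).trans (mul_le_mul_right hUm (ENNReal.ofReal θ))
    have h2 := ENNReal.toReal_mono (ENNReal.mul_ne_top ENNReal.ofReal_ne_top
      (ENNReal.add_ne_top.2 ⟨hfin, ENNReal.ofReal_ne_top⟩)) h1
    rw [ENNReal.toReal_mul, ENNReal.toReal_add hfin ENNReal.ofReal_ne_top,
      ENNReal.toReal_ofReal hθ0, ENNReal.toReal_ofReal hε.le] at h2
    exact h2
  have hm : (μ B).toReal ≤ 0 := by
    refine le_of_forall_pos_le_add fun δ hδ => ?_
    have h1 := main (δ * (1 - θ)) (mul_pos hδ (by linarith))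
    have h2 : 0 < 1 - θ := by linarith
    have h3 : (μ B).toReal * (1 - θ) ≤ δ * (1 - θ) := by
      have h4 : θ * (δ * (1 - θ)) ≤ 1 * (δ * (1 - θ)) :=
        mul_le_mul_of_nonneg_right hθ1.le (by positivity)
      linarith
    have h5 := le_of_mul_le_mul_right h3 h2
    linarith
  have h0 : (μ B).toReal = 0 := le_antisymm hm ENNReal.toReal_nonneg
  rcases (ENNReal.toReal_eq_zero_iff _).1 h0 with h1 | h1
  · exact h1
  · exact absurd h1 hfin

end Pool.Agent.H824.TWZO
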