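import Pool.Agent.H558.TW.Asm
import Pool.Agent.H558.TW.ZO
import Pool.Agent.H558.TW.CU
import Pool.Agent.H558.TW.AEU
import Pool.Agent.H558.TW.TRIU

set_option autoImplicit false

/-!
# Assembly: constants which do not depend on `t` and on the patterns
-/

namespace Pool.Agent.H558.TW

open Pool.Agent.H558.PP

theorem hCU : S_CU := Pool.Agent.H323.TWCU.cu Pool.Agent.H874.TWADD.add hSCN hNZC

theorem hAEU : S_AEU := Pool.Agent.H539.TWAEU.aeu hCU Pool.Agent.H824.TWZO.zo

theorem hTRIU : S_TRIU := Pool.Agent.H134.TWTRIU.triu hAEU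

end Pool.Agent.H558.TW
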