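import Pool.Agent.H558.TW.Stm4
import Pool.Agent.H558.PP.D4

set_option autoImplicit false

/-!
# D4Q: the mean over the levels of the part of the good sections, with 3/4
-/

namespace Pool.Agent.H8.TWD4Q

open PowerSeries Finset Pool.Agent.R836.PP Pool.Agent.H558.KK Pool.Agent.H558.PP
open Pool.Agent.H558.TW Pool.Agent.H122.PPD4
open Pool.Agent.K7.H72.MT hiding W few dis DD dis_stable dis_vary DD_stable DD_sum DD_block few_bad
  dis_le DD_le base count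

open scoped Classical in
theorem d4q (h3 : S_T3) (h2 : S_D2) (hd3 : S_D3) (hv : S_VAR) : S_D4Q := by
  obtain ⟨L0, hL0, hStp⟩ := h3
  refine ⟨8 * 8 ^ L0, ?_⟩
  intro C
  obtain ⟨A2, hA2⟩ := h2 L0 hL0 hStp C
  obtain ⟨X, hX⟩ : ∃ X : ℕ, X = 16 * (1 + A2 + A2 ^ 2) + L0 + 2 := ⟨_, rfl⟩
  refine ⟨1312 + (X : ℝ) ^ 8, by positivity, ?_⟩
  intro U hU K N hK hKN
  have hKr : (1 : ℝ) ≤ K := by exact_mod_cast hK
  have hK0 : (0 : ℝ) < K := by linarith
  obtain ⟨r, hr⟩ : ∃ r : ℝ, r = (K : ℝ) ^ (1 / 4 : ℝ) := ⟨_, rfl⟩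
  have hr0 : 0 < r := by rw [hr]; positivity
  have hr4 : r ^ 4 = K := by
    rw [hr, ← Real.rpow_natCast, ← Real.rpow_mul hK0.le]
    norm_num
  have hr1 : 1 ≤ r := by
    by_contra hlt
    push Not at hlt
    have : r ^ 4 < 1 := pow_lt_one₀ hr0.le hlt (by norm_num)
    linarith
  have hrinv : (K : ℝ) ^ (-(1 / 4) : ℝ) = 1 / r := by
    have h1 : (K : ℝ) ^ (-(1 / 4) : ℝ) = ((K : ℝ) ^ (1 / 4 : ℝ))⁻¹ := Real.rpow_neg hK0.le _
    rw [h1, ← hr]
    exact (one_div r).symm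
  rw [hrinv]
  have h2N : (0 : ℝ) < 2 ^ N := by positivity
  by_cases hsm : K < X ^ 8
  · -- small `K`
    have h1 : (#{t ∈ range (2 ^ N) | ∑ k ∈ range K, Yf (8 * 8 ^ L0) U k t < 3 / 4 * K} : ℝ) ≤
        2 ^ N := by
      have h1 := card_filter_le (range (2 ^ N))
        (fun t => ∑ k ∈ range K, Yf (8 * 8 ^ L0) U k t < 3 / 4 * K)
      rw [card_range] at h1
      exact_mod_cast h1
    refine h1.trans ?_
    have h2 : (K : ℝ) ≤ (X : ℝ) ^ 8 := by exact_mod_cast hsm.le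
    have h3 : r ≤ (X : ℝ) ^ 8 := by
      calc r = r * 1 := (mul_one r).symm
        _ ≤ r * r ^ 3 := by gcongr; exact one_le_pow₀ hr1
        _ = K := by rw [← hr4]; ring
        _ ≤ _ := h2
    have h4 : 1 ≤ (1312 + (X : ℝ) ^ 8) * (1 / r) := by
      rw [mul_one_div, le_div_iff₀ hr0]
      linarith
    calc (2 : ℝ) ^ N = 1 * 2 ^ N := (one_mul _).symm
      _ ≤ (1312 + (X : ℝ) ^ 8) * (1 / r) * 2 ^ N := by gcongr
  · -- large `K`
    rw [not_lt] at hsm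
    obtain ⟨L, hL1, hL2⟩ := d4_root K
    have hLX : X ≤ L := by
      by_contra hlt
      have h1 : (L + 1) ^ 8 ≤ X ^ 8 := Nat.pow_le_pow_left (by omega) 8
      omega
    obtain ⟨J, hJ⟩ : ∃ J, J = L - L0 := ⟨_, rfl⟩
    have hLJ : L0 + J = L := by omega
    obtain ⟨g, hg, hD3⟩ := hd3 L0 hL0 hStp L0 J le_rfl
    obtain ⟨G, hG⟩ : ∃ G, G = Gl L0 J := ⟨_, rfl⟩
    rw [← hG] at hg hD3
    have hGle : G ≤ L ^ 2 := by
      have := (d4_Gl L0 J).1
      rwa [hLJ, ← hG] at this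
    have hG1 : 1 ≤ G := by
      have := (d4_Gl L0 J).2 (by omega)
      omega
    obtain ⟨η, hη⟩ : ∃ η : ℝ, η = 1 / ((L0 : ℝ) - 1) ^ 2 := ⟨_, rfl⟩
    have hη1 : η ≤ 1 / 16 := by
      rw [hη]
      have h1 : (6 : ℝ) ≤ L0 := by exact_mod_cast hL0
      have h2 : (16 : ℝ) ≤ ((L0 : ℝ) - 1) ^ 2 := by nlinarith
      exact one_div_le_one_div_of_le (by norm_num) h2
    rw [← hη, hLJ] at hD3
    -- the first exceptional set
    have hB1 := hv N K G (fun k t => Zf (8 * 8 ^ L0) (8 * 8 ^ L) g U k t) η (1 / 16) hG1 hK hKN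
      (by norm_num) (fun k t => d4_Zf01 _ _ _ _ _ _) (fun k t => d4_Zfmod _ _ _ _ _ _)
      (fun k hk a ha => hD3 U k hk a ha)
    obtain ⟨k1, hk1⟩ : ∃ k1, k1 = G + A2 * (L + A2) := ⟨_, rfl⟩
    have hLr : (0 : ℝ) < L := by
      have : 0 < L := by omega
      exact_mod_cast this
    have hk1K : 16 * k1 ≤ K := by
      have h1 : 16 * k1 ≤ 16 * (1 + A2 + A2 ^ 2) * L ^ 2 := by
        have h5 : 1 ≤ L := by omega
        have h6 : L ≤ L ^ 2 := by nlinarith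
        have h7 : 1 ≤ L ^ 2 := by nlinarith
        have h8 : A2 * L ≤ A2 * L ^ 2 := Nat.mul_le_mul_left _ h6
        have h9 : A2 ^ 2 * 1 ≤ A2 ^ 2 * L ^ 2 := Nat.mul_le_mul_left _ h7
        rw [hk1]
        nlinarith
      have h2 : 16 * (1 + A2 + A2 ^ 2) ≤ L := by omega
      have h3 : 16 * (1 + A2 + A2 ^ 2) * L ^ 2 ≤ L * L ^ 2 := Nat.mul_le_mul_right _ h2
      have h4 : L * L ^ 2 ≤ L ^ 8 := by
        have : L * L ^ 2 = L ^ 3 := by ring
        rw [this]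
        exact Nat.pow_le_pow_right (by omega) (by norm_num)
      omega
    obtain ⟨E, hE⟩ : ∃ E : ℝ, E = 2 / ((L : ℝ) - 1) ^ 2 := ⟨_, rfl⟩
    have hE0 : 0 ≤ E := by rw [hE]; positivity
    have hWsum : ∀ k ∈ Ico k1 K, ∑ t ∈ range (2 ^ N), d4W (8 * 8 ^ L) g U k t ≤ E * 2 ^ N := by
      intro k hk
      obtain ⟨h4, h5⟩ := mem_Ico.1 hk
      apply d4_sumW _ _ _ _ _ _ (by omega)
      rw [hE]
      exact hA2 L (by omega) (k - g) (by omega) U hU
    -- the second exceptional set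
    have hB2 : (#{t ∈ range (2 ^ N) | (K : ℝ) / 16 < ∑ k ∈ Ico k1 K, d4W (8 * 8 ^ L) g U k t} : ℝ) ≤
        16 * E * 2 ^ N := by
      have h1 : (#{t ∈ range (2 ^ N) | (K : ℝ) / 16 <
          ∑ k ∈ Ico k1 K, d4W (8 * 8 ^ L) g U k t} : ℝ) * ((K : ℝ) / 16) ≤
          ∑ t ∈ range (2 ^ N), ∑ k ∈ Ico k1 K, d4W (8 * 8 ^ L) g U k t := by
        rw [← nsmul_eq_mul, ← sum_const]
        refine le_trans (sum_le_sum fun t ht => (mem_filter.1 ht).2.le) ?_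
        exact sum_le_sum_of_subset_of_nonneg (filter_subset _ _) fun t _ _ =>
          sum_nonneg fun k _ => d4W_nonneg _ _ _ _ _
      rw [sum_comm] at h1
      have h2 : ∑ k ∈ Ico k1 K, ∑ t ∈ range (2 ^ N), d4W (8 * 8 ^ L) g U k t ≤
          K * (E * 2 ^ N) := by
        refine (sum_le_sum hWsum).trans ?_
        rw [sum_const, nsmul_eq_mul, Nat.card_Ico]
        have h3 : ((K - k1 : ℕ) : ℝ) ≤ K := by exact_mod_cast Nat.sub_le _ _
        gcongr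
      have h3 := h1.trans h2
      have h4 : (#{t ∈ range (2 ^ N) | (K : ℝ) / 16 <
          ∑ k ∈ Ico k1 K, d4W (8 * 8 ^ L) g U k t} : ℝ) * ((K : ℝ) / 16) ≤
          (16 * E * 2 ^ N) * ((K : ℝ) / 16) := by
        refine h3.trans (le_of_eq ?_)
        ring
      exact le_of_mul_le_mul_right h4 (by positivity)
    -- the inclusion
    have hsub : {t ∈ range (2 ^ N) | ∑ k ∈ range K, Yf (8 * 8 ^ L0) U k t < 3 / 4 * K} ⊆
        {t ∈ range (2 ^ N) | (η + 1 / 16) * K <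
          ∑ k ∈ Ico G (K + 1), Zf (8 * 8 ^ L0) (8 * 8 ^ L) g U k t} ∪
        {t ∈ range (2 ^ N) | (K : ℝ) / 16 < ∑ k ∈ Ico k1 K, d4W (8 * 8 ^ L) g U k t} := by
      intro t ht
      obtain ⟨ht1, ht2⟩ := mem_filter.1 ht
      by_contra hne
      rw [mem_union, not_or] at hne
      obtain ⟨hn1, hn2⟩ := hne
      have hn1' : ∑ k ∈ Ico G (K + 1), Zf (8 * 8 ^ L0) (8 * 8 ^ L) g U k t ≤
          (η + 1 / 16) * K := by
        by_contra hh
        exact hn1 (mem_filter.2 ⟨ht1, not_le.1 hh⟩)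
      have hn2' : ∑ k ∈ Ico k1 K, d4W (8 * 8 ^ L) g U k t ≤ (K : ℝ) / 16 := by
        by_contra hh
        exact hn2 (mem_filter.2 ⟨ht1, not_le.1 hh⟩)
      have h5 : ∑ k ∈ Ico k1 K, Zf (8 * 8 ^ L0) (8 * 8 ^ L) g U k t ≤ (η + 1 / 16) * K := by
        refine le_trans ?_ hn1'
        refine sum_le_sum_of_subset_of_nonneg ?_ fun k _ _ => (d4_Zf01 _ _ _ _ _ _).1
        intro k hk
        obtain ⟨h6, h7⟩ := mem_Ico.1 hk
        exact mem_Ico.2 ⟨by omega, by omega⟩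
      have h6 : ∑ k ∈ Ico k1 K, (1 - Yf (8 * 8 ^ L0) U k t) ≤
          (η + 1 / 16) * K + K / 16 := by
        refine (sum_le_sum fun k _ => d4_split (8 * 8 ^ L0) (8 * 8 ^ L) g U k t).trans ?_
        rw [sum_add_distrib]
        exact add_le_add h5 hn2'
      rw [sum_sub_distrib, sum_const, nsmul_eq_mul, Nat.card_Ico, mul_one] at h6
      have h7 : ((K - k1 : ℕ) : ℝ) = K - k1 := by
        rw [Nat.cast_sub (by omega)]
      rw [h7] at h6
      have h8 : ∑ k ∈ Ico k1 K, Yf (8 * 8 ^ L0) U k t ≤ ∑ k ∈ range K, Yf (8 * 8 ^ L0) U k t := by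
        refine sum_le_sum_of_subset_of_nonneg ?_ fun k _ _ => d4_Yf0 _ _ _ _
        intro k hk
        exact mem_range.2 (mem_Ico.1 hk).2
      have h9 : (k1 : ℝ) ≤ K / 16 := by
        rw [le_div_iff₀ (by norm_num)]
        exact_mod_cast (by omega : k1 * 16 ≤ K)
      have h10 : η * K ≤ 1 / 16 * K := by gcongr
      linarith
    have hcard := card_le_card hsub
    have hcard2 : (#{t ∈ range (2 ^ N) | ∑ k ∈ range K, Yf (8 * 8 ^ L0) U k t < 3 / 4 * K} : ℝ) ≤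
        4 * G / ((1 / 16) ^ 2 * K) * 2 ^ N + 16 * E * 2 ^ N := by
      refine le_trans ?_ (add_le_add hB1 hB2)
      exact_mod_cast hcard.trans (card_union_le _ _)
    refine hcard2.trans ?_
    -- numbers
    have hLr2 : (L : ℝ) ^ 2 ≤ r := by
      have h1 : ((L : ℝ) ^ 2) ^ 4 ≤ r ^ 4 := by
        rw [hr4, ← pow_mul]
        exact_mod_cast hL1
      exact le_of_pow_le_pow_left₀ (by norm_num) hr0.le h1
    have hrL : r ≤ ((L : ℝ) + 1) ^ 2 := by
      have h1 : r ^ 4 ≤ (((L : ℝ) + 1) ^ 2) ^ 4 := by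
        rw [hr4, ← pow_mul]
        exact_mod_cast hL2.le
      exact le_of_pow_le_pow_left₀ (by norm_num) (by positivity) h1
    have hGr : (G : ℝ) ≤ r := by
      have : (G : ℝ) ≤ (L : ℝ) ^ 2 := by exact_mod_cast hGle
      linarith
    have c1 : 4 * (G : ℝ) / ((1 / 16) ^ 2 * K) ≤ 1024 * (1 / r) := by
      rw [← hr4, mul_one_div, div_le_div_iff₀ (by positivity) hr0]
      have h1 : r ^ 2 ≤ r ^ 4 := pow_le_pow_right₀ hr1 (by norm_num)
      have h2 : (G : ℝ) * r ≤ r * r := mul_le_mul_of_nonneg_right hGr hr0.le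
      linarith
    have hL18 : (18 : ℝ) ≤ L := by
      have : 18 ≤ L := by omega
      exact_mod_cast this
    have c2 : 16 * E ≤ 288 * (1 / r) := by
      rw [hE, mul_one_div, mul_div_assoc', div_le_div_iff₀ (by nlinarith) hr0]
      have h1 : ((L : ℝ) + 1) ^ 2 ≤ 9 * ((L : ℝ) - 1) ^ 2 := by nlinarith
      have h2 : r ≤ 9 * ((L : ℝ) - 1) ^ 2 := hrL.trans h1
      linarith
    have c3 : (0 : ℝ) ≤ (X : ℝ) ^ 8 * (1 / r) := by positivity
    calc 4 * (G : ℝ) / ((1 / 16) ^ 2 * K) * 2 ^ N + 16 * E * 2 ^ N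
        ≤ 1024 * (1 / r) * 2 ^ N + 288 * (1 / r) * 2 ^ N := by gcongr
      _ ≤ (1312 + (X : ℝ) ^ 8) * (1 / r) * 2 ^ N := by
          have : 0 ≤ (X : ℝ) ^ 8 * (1 / r) * 2 ^ N := by positivity
          linarith

end Pool.Agent.H8.TWD4Q
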