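import Pool.Agent.H558.TW.Stm4

set_option autoImplicit false

/-!
# D5P: two equal values of `p_t` at one place, mean over the scales (helper16 for helper558)
-/

namespace Pool.Agent.H16.TWD5P

open PowerSeries Finset Pool.Agent.R836.PP Pool.Agent.H558.KK Pool.Agent.H558.PP
open Pool.Agent.K7.H72.MT hiding W few dis DD dis_stable dis_vary DD_stable DD_sum DD_block few_bad
  dis_le DD_le base count
open Pool.Agent.H558.TW

theorem coeff_shift {k b a : ℕ} (m s : ℕ) (U : S) (hb : b < 2 ^ k) (ha : a < 2 ^ k) :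
    coeff (b + 2 ^ k * m) (U * P2 ^ (a + 2 ^ k * s)) = coeff m (node P2 k b a U * P2 ^ s) := by
  rw [coeff_node P2 k b (a + 2 ^ k * s) m U hb, ← node_mod P2 k b (a + 2 ^ k * s) U,
    Nat.add_mul_mod_self_left, Nat.mod_eq_of_lt ha, Nat.add_mul_div_left _ _ (by positivity),
    Nat.div_eq_of_lt ha, zero_add]

/-- both sections are good -/
def gd (V k t : ℕ) (U0 U1 : S) (b : ℕ) : Prop :=
  Gv V (node P2 k b t U0) ∧ Gv V (node P2 k b t U1)

/-- both values are the prescribed one at some place of the class -/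
def hit (J k t : ℕ) (U0 U1 : S) (w : ℕ → ZMod 2) (b : ℕ) : Prop :=
  ∃ m < 2 ^ J, coeff (b + 2 ^ k * m) (U0 * P2 ^ t) = w (b + 2 ^ k * m) ∧
    coeff (b + 2 ^ k * m) (U1 * P2 ^ t) = w (b + 2 ^ k * m)

open scoped Classical in
/-- the number of the good classes -/
noncomputable def gdc (V k t : ℕ) (U0 U1 : S) : ℕ := #{b ∈ range (2 ^ k) | gd V k t U0 U1 b}

open scoped Classical in
/-- the number of the good classes with a hit -/
noncomputable def htc (V J k t : ℕ) (U0 U1 : S) (w : ℕ → ZMod 2) : ℕ :=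
  #{b ∈ range (2 ^ k) | gd V k t U0 U1 b ∧ hit J k t U0 U1 w b}

theorem mod_mod_pow (t k J : ℕ) : t % 2 ^ (k + J) % 2 ^ k = t % 2 ^ k := by
  rw [pow_add]
  exact Nat.mod_mul_right_mod _ _ _

theorem gd_congr (V k : ℕ) (U0 U1 : S) (b : ℕ) {t t' : ℕ} (h : t % 2 ^ k = t' % 2 ^ k) :
    gd V k t U0 U1 b = gd V k t' U0 U1 b := by
  unfold gd
  rw [← node_mod P2 k b t U0, ← node_mod P2 k b t U1, h, node_mod, node_mod]

theorem hit_mod (J k t : ℕ) (U0 U1 : S) (w : ℕ → ZMod 2) (b : ℕ) (hb : b < 2 ^ k) :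
    hit J k (t % 2 ^ (k + J)) U0 U1 w b ↔ hit J k t U0 U1 w b := by
  have key : ∀ m < 2 ^ J, ∀ U : S, coeff (b + 2 ^ k * m) (U * P2 ^ (t % 2 ^ (k + J))) =
      coeff (b + 2 ^ k * m) (U * P2 ^ t) := by
    intro m hm U
    have hn : b + 2 ^ k * m < 2 ^ (k + J) := by
      rw [pow_add]
      calc b + 2 ^ k * m < 2 ^ k + 2 ^ k * m := Nat.add_lt_add_right hb _
        _ = 2 ^ k * (m + 1) := by ring
        _ ≤ 2 ^ k * 2 ^ J := Nat.mul_le_mul_left _ hm
    exact coeff_congr isP_P2.zero U hn (Nat.mod_modEq _ _)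
  unfold hit
  constructor
  · rintro ⟨m, hm, h0, h1⟩
    rw [key m hm] at h0 h1
    exact ⟨m, hm, h0, h1⟩
  · rintro ⟨m, hm, h0, h1⟩
    rw [← key m hm] at h0 h1
    exact ⟨m, hm, h0, h1⟩

theorem gdc_congr (V k : ℕ) (U0 U1 : S) {t t' : ℕ} (h : t % 2 ^ k = t' % 2 ^ k) :
    gdc V k t U0 U1 = gdc V k t' U0 U1 := by
  classical
  unfold gdc
  congr 1
  exact filter_congr fun b _ => by rw [gd_congr V k U0 U1 b h]

theorem htc_mod (V J k t : ℕ) (U0 U1 : S) (w : ℕ → ZMod 2) :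
    htc V J k (t % 2 ^ (k + J)) U0 U1 w = htc V J k t U0 U1 w := by
  classical
  unfold htc
  congr 1
  refine filter_congr fun b hb => ?_
  rw [gd_congr V k U0 U1 b (mod_mod_pow t k J), hit_mod J k t U0 U1 w b (mem_range.1 hb)]

theorem gdc_le (V k t : ℕ) (U0 U1 : S) : gdc V k t U0 U1 ≤ 2 ^ k := by
  classical
  unfold gdc
  exact (card_filter_le _ _).trans (card_range _).le

theorem htc_le (V J k t : ℕ) (U0 U1 : S) (w : ℕ → ZMod 2) : htc V J k t U0 U1 w ≤ 2 ^ k := by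
  classical
  unfold htc
  exact (card_filter_le _ _).trans (card_range _).le

/-- the hits are counted -/
theorem htc_NE2 (V J k t : ℕ) (U0 U1 : S) (w : ℕ → ZMod 2) :
    htc V J k t U0 U1 w ≤ NE2 (2 ^ (k + J)) U0 U1 w t := by
  classical
  unfold htc NE2
  refine le_trans (card_le_card ?_) (card_image_le (f := fun n => n % 2 ^ k))
  intro b hb
  rw [mem_filter, mem_range] at hb
  obtain ⟨hbk, -, m, hm, h0, h1⟩ := hb
  rw [mem_image]
  refine ⟨b + 2 ^ k * m, ?_, ?_⟩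
  · rw [mem_filter, mem_range]
    refine ⟨?_, h0, h1⟩
    rw [pow_add]
    calc b + 2 ^ k * m < 2 ^ k + 2 ^ k * m := Nat.add_lt_add_right hbk _
      _ = 2 ^ k * (m + 1) := by ring
      _ ≤ 2 ^ k * 2 ^ J := Nat.mul_le_mul_left _ hm
  · show (b + 2 ^ k * m) % 2 ^ k = b
    rw [Nat.add_mul_mod_self_left, Nat.mod_eq_of_lt hbk]

/-- every good class has a hit for one of the digits -/
theorem sum_htc (hl : S_LOC2) (V k : ℕ) (U0 U1 : S) (w : ℕ → ZMod 2) (a : ℕ) (ha : a < 2 ^ k) :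
    gdc V k a U0 U1 ≤
      ∑ s ∈ range (2 ^ (V + 1)), htc V (V + 1) k (a + 2 ^ k * s) U0 U1 w := by
  classical
  unfold gdc htc
  refine le_trans (card_le_card ?_) card_biUnion_le
  intro b hb
  rw [mem_filter, mem_range] at hb
  obtain ⟨hbk, hg0, hg1⟩ := hb
  obtain ⟨m, hm, hτ⟩ := hl V V Nat.lt_two_pow_self _ _ hg0 hg1
  obtain ⟨τ, hτ1, hτ2, hτ3⟩ := hτ (w (b + 2 ^ k * m))
  rw [mem_biUnion]
  refine ⟨τ, mem_range.2 hτ1, ?_⟩
  rw [mem_filter, mem_range]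
  refine ⟨hbk, ?_, m, hm, ?_, ?_⟩
  · rw [gd_congr V k U0 U1 b (t' := a) (Nat.add_mul_mod_self_left _ _ _)]
    exact ⟨hg0, hg1⟩
  · rw [coeff_shift m τ U0 hbk ha, hτ2]
  · rw [coeff_shift m τ U1 hbk ha, hτ3]

/-- many classes are good for both series -/
theorem gdc_ge (V k t : ℕ) (U0 U1 : S) :
    Yf V U0 k t + Yf V U1 k t - 1 ≤ (gdc V k t U0 U1 : ℝ) / 2 ^ k := by
  classical
  have h1 : #{b ∈ range (2 ^ k) | Gv V (node P2 k b t U0)} +
      #{b ∈ range (2 ^ k) | Gv V (node P2 k b t U1)} ≤ gdc V k t U0 U1 + 2 ^ k := by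
    unfold gdc gd
    rw [← card_union_add_card_inter, ← filter_and, add_comm]
    refine Nat.add_le_add (le_of_eq (by congr)) ?_
    refine (card_le_card (union_subset (filter_subset _ _) (filter_subset _ _))).trans ?_
    exact (card_range _).le
  have h2 : ((#{b ∈ range (2 ^ k) | Gv V (node P2 k b t U0)} : ℕ) : ℝ) +
      (#{b ∈ range (2 ^ k) | Gv V (node P2 k b t U1)} : ℕ) ≤ gdc V k t U0 U1 + 2 ^ k := by
    exact_mod_cast h1
  unfold Yf
  rw [← add_div, sub_le_iff_le_add, div_le_iff₀ (by positivity), add_mul, one_mul,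
    div_mul_cancel₀ _ (by positivity)]
  exact h2

/-- the function for the law of large numbers -/
noncomputable def ff (V J : ℕ) (U0 U1 : S) (w : ℕ → ZMod 2) (k t : ℕ) : ℝ :=
  if J ≤ k then (1 + (gdc V (k - J) t U0 U1 : ℝ) / 2 ^ k -
    (htc V J (k - J) t U0 U1 w : ℝ) / 2 ^ (k - J)) / 2 else 0

theorem ff_bd (V J : ℕ) (U0 U1 : S) (w : ℕ → ZMod 2) (k t : ℕ) :
    0 ≤ ff V J U0 U1 w k t ∧ ff V J U0 U1 w k t ≤ 1 := by
  unfold ff
  split_ifs with h
  · have h1 : (gdc V (k - J) t U0 U1 : ℝ) ≤ 2 ^ (k - J) := by exact_mod_cast gdc_le _ _ _ _ _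
    have h2 : (htc V J (k - J) t U0 U1 w : ℝ) ≤ 2 ^ (k - J) := by
      exact_mod_cast htc_le _ _ _ _ _ _ _
    have h3 : (2 : ℝ) ^ (k - J) ≤ 2 ^ k := pow_le_pow_right₀ (by norm_num) (Nat.sub_le _ _)
    have h4 : (gdc V (k - J) t U0 U1 : ℝ) / 2 ^ k ≤ 1 := by
      rw [div_le_one (by positivity)]
      exact h1.trans h3
    have h5 : (htc V J (k - J) t U0 U1 w : ℝ) / 2 ^ (k - J) ≤ 1 := by
      rw [div_le_one (by positivity)]
      exact h2
    have h6 : (0 : ℝ) ≤ (gdc V (k - J) t U0 U1 : ℝ) / 2 ^ k := by positivity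
    have h7 : (0 : ℝ) ≤ (htc V J (k - J) t U0 U1 w : ℝ) / 2 ^ (k - J) := by positivity
    constructor <;> linarith
  · exact ⟨le_rfl, zero_le_one⟩

theorem ff_mod (V J : ℕ) (U0 U1 : S) (w : ℕ → ZMod 2) (k t : ℕ) :
    ff V J U0 U1 w k (t % 2 ^ k) = ff V J U0 U1 w k t := by
  unfold ff
  split_ifs with h
  · obtain ⟨m, rfl⟩ : ∃ m, k = m + J := ⟨k - J, by omega⟩
    rw [Nat.add_sub_cancel, htc_mod, gdc_congr V m U0 U1 (mod_mod_pow t m J)]
  · rfl

theorem ff_block (hl : S_LOC2) (V : ℕ) (U0 U1 : S) (w : ℕ → ZMod 2) (k : ℕ) (hk : V + 1 ≤ k)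
    (a : ℕ) (ha : a < 2 ^ (k - (V + 1))) :
    ∑ s ∈ range (2 ^ (V + 1)), ff V (V + 1) U0 U1 w k (a + 2 ^ (k - (V + 1)) * s) ≤
      1 / 2 * 2 ^ (V + 1) := by
  obtain ⟨m, rfl⟩ : ∃ m, k = m + (V + 1) := ⟨k - (V + 1), by omega⟩
  rw [Nat.add_sub_cancel] at ha ⊢
  have h1 : ∀ s ∈ range (2 ^ (V + 1)), ff V (V + 1) U0 U1 w (m + (V + 1)) (a + 2 ^ m * s) =
      (1 + (gdc V m a U0 U1 : ℝ) / 2 ^ (m + (V + 1)) -
        (htc V (V + 1) m (a + 2 ^ m * s) U0 U1 w : ℝ) / 2 ^ m) / 2 := by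
    intro s _
    unfold ff
    rw [if_pos hk, Nat.add_sub_cancel, gdc_congr V m U0 U1 (t' := a) (Nat.add_mul_mod_self_left _ _ _)]
  rw [sum_congr rfl h1, ← sum_div, sum_sub_distrib, ← sum_div, sum_const, card_range, nsmul_eq_mul]
  have h2 : (gdc V m a U0 U1 : ℝ) ≤
      ∑ s ∈ range (2 ^ (V + 1)), (htc V (V + 1) m (a + 2 ^ m * s) U0 U1 w : ℝ) := by
    exact_mod_cast sum_htc hl V m U0 U1 w a ha
  have h3 : (gdc V m a U0 U1 : ℝ) / 2 ^ m ≤
      (∑ s ∈ range (2 ^ (V + 1)), (htc V (V + 1) m (a + 2 ^ m * s) U0 U1 w : ℝ)) / 2 ^ m :=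
    div_le_div_of_nonneg_right h2 (by positivity)
  have h4 : (((2 ^ (V + 1) : ℕ) : ℝ)) * (1 + (gdc V m a U0 U1 : ℝ) / 2 ^ (m + (V + 1))) =
      2 ^ (V + 1) + (gdc V m a U0 U1 : ℝ) / 2 ^ m := by
    push_cast
    rw [mul_add, mul_one]
    congr 1
    rw [pow_add 2 m (V + 1)]
    field_simp
  rw [h4]
  linarith

theorem step_le (V J : ℕ) (U0 U1 : S) (w : ℕ → ZMod 2) (k t : ℕ) :
    (1 + (Yf V U0 k t + Yf V U1 k t - 1) / 2 ^ J - 2 * ff V J U0 U1 w (k + J) t) / 2 ^ J ≤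
      (NE2 (2 ^ (k + J)) U0 U1 w t : ℝ) / 2 ^ (k + J) := by
  have h1 : ff V J U0 U1 w (k + J) t = (1 + (gdc V k t U0 U1 : ℝ) / 2 ^ (k + J) -
      (htc V J k t U0 U1 w : ℝ) / 2 ^ k) / 2 := by
    unfold ff
    rw [if_pos (Nat.le_add_left _ _), Nat.add_sub_cancel]
  have h2 := gdc_ge V k t U0 U1
  have h3 : (htc V J k t U0 U1 w : ℝ) ≤ NE2 (2 ^ (k + J)) U0 U1 w t := by
    exact_mod_cast htc_NE2 V J k t U0 U1 w
  have h4 : (Yf V U0 k t + Yf V U1 k t - 1) / 2 ^ J ≤ (gdc V k t U0 U1 : ℝ) / 2 ^ (k + J) := by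
    rw [pow_add, ← div_div]
    exact div_le_div_of_nonneg_right h2 (by positivity)
  have h5 : (htc V J k t U0 U1 w : ℝ) / 2 ^ k ≤ (NE2 (2 ^ (k + J)) U0 U1 w t : ℝ) / 2 ^ k :=
    div_le_div_of_nonneg_right h3 (by positivity)
  have h6 : (NE2 (2 ^ (k + J)) U0 U1 w t : ℝ) / 2 ^ (k + J) =
      (NE2 (2 ^ (k + J)) U0 U1 w t : ℝ) / 2 ^ k / 2 ^ J := by
    rw [div_div, ← pow_add]
  rw [h1, h6]
  apply div_le_div_of_nonneg_right _ (by positivity)
  linarith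

theorem rpow_quarter {K : ℕ} (hK : 1 ≤ K) : (1 : ℝ) / K ≤ (K : ℝ) ^ (-(1 / 4) : ℝ) := by
  have h1 : (1 : ℝ) ≤ K := by exact_mod_cast hK
  rw [one_div, ← Real.rpow_neg_one]
  exact Real.rpow_le_rpow_of_exponent_le h1 (by norm_num)

theorem d5p (h4 : S_D4Q) (hv : S_VAR) (hl : S_LOC2) : S_D5P := by
  classical
  obtain ⟨V, H4⟩ := h4
  obtain ⟨J, hJ⟩ : ∃ J, J = V + 1 := ⟨_, rfl⟩
  obtain ⟨Q, hQ⟩ : ∃ Q : ℝ, Q = 2 ^ J := ⟨_, rfl⟩
  have hQ1 : 1 ≤ Q := by
    rw [hQ]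
    exact one_le_pow₀ (by norm_num)
  have hQ0 : 0 < Q := by linarith
  refine ⟨J, 1 / (4 * Q * Q), by positivity, fun C => ?_⟩
  obtain ⟨A4, hA4, H⟩ := H4 C
  have hV0 : (0 : ℝ) ≤ V := Nat.cast_nonneg _
  have hJ1 : (1 : ℝ) ≤ J := by
    rw [hJ]
    push_cast
    linarith
  refine ⟨2 * A4 + 1024 * J * Q ^ 2 + 16 * V * Q, by positivity, ?_⟩
  intro U0 U1 w hU0 hU1 K N hK hKN
  have hK1 : (1 : ℝ) ≤ K := by exact_mod_cast hK
  have hq := rpow_quarter hK
  obtain ⟨q, hqd⟩ : ∃ q : ℝ, q = (K : ℝ) ^ (-(1 / 4) : ℝ) := ⟨_, rfl⟩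
  have hq0 : (0 : ℝ) < q := by
    rw [hqd]
    exact Real.rpow_pos_of_pos (by linarith) _
  have hK0 : (0 : ℝ) < K := by linarith
  have hq' : 1 ≤ K * q := by
    rw [← hqd] at hq
    have := (div_le_iff₀ hK0).1 hq
    linarith
  rw [← hqd]
  rcases lt_or_ge (K : ℝ) (16 * V * Q) with hKg | hKg
  · -- small `K`
    have h2 : (1 : ℝ) ≤ (2 * A4 + 1024 * J * Q ^ 2 + 16 * V * Q) * q := by
      refine hq'.trans (mul_le_mul_of_nonneg_right ?_ hq0.le)
      have : 0 ≤ 2 * A4 + 1024 * J * Q ^ 2 := by positivity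
      linarith
    have h3 : (#{t ∈ range (2 ^ N) |
        ∑ k ∈ range K, (NE2 (2 ^ (k + J)) U0 U1 w t : ℝ) / 2 ^ (k + J) <
          1 / (4 * Q * Q) * K} : ℝ) ≤ 2 ^ N := by
      have := card_filter_le (range (2 ^ N)) (fun t =>
        ∑ k ∈ range K, (NE2 (2 ^ (k + J)) U0 U1 w t : ℝ) / 2 ^ (k + J) < 1 / (4 * Q * Q) * K)
      rw [card_range] at this
      exact_mod_cast this
    refine h3.trans ?_
    calc (2 : ℝ) ^ N = 1 * 2 ^ N := (one_mul _).symm
      _ ≤ _ := mul_le_mul_of_nonneg_right h2 (by positivity)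
  · have hV := hv N (K + V) J (ff V J U0 U1 w) (1 / 2) (1 / (16 * Q)) (by omega) (by omega)
      (by omega) (by positivity) (fun k t => ff_bd _ _ _ _ _ _ _)
      (fun k t => ff_mod _ _ _ _ _ _ _) (by
        intro k hk a ha
        subst hJ
        exact ff_block hl V U0 U1 w k hk a ha)
    have hD0 := H U0 hU0 K N hK (by omega)
    have hD1 := H U1 hU1 K N hK (by omega)
    have hsub : (#{t ∈ range (2 ^ N) |
        ∑ k ∈ range K, (NE2 (2 ^ (k + J)) U0 U1 w t : ℝ) / 2 ^ (k + J) <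
          1 / (4 * Q * Q) * K} : ℝ) ≤
        (#{t ∈ range (2 ^ N) | ∑ k ∈ range K, Yf V U0 k t < 3 / 4 * K} : ℝ) +
        (#{t ∈ range (2 ^ N) | ∑ k ∈ range K, Yf V U1 k t < 3 / 4 * K} : ℝ) +
        (#{t ∈ range (2 ^ N) | (1 / 2 + 1 / (16 * Q) : ℝ) * ((K + V : ℕ) : ℝ) <
          ∑ k ∈ Ico J (K + V + 1), ff V J U0 U1 w k t} : ℝ) := by
      have : #{t ∈ range (2 ^ N) |
          ∑ k ∈ range K, (NE2 (2 ^ (k + J)) U0 U1 w t : ℝ) / 2 ^ (k + J) <
            1 / (4 * Q * Q) * K} ≤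
          #{t ∈ range (2 ^ N) | ∑ k ∈ range K, Yf V U0 k t < 3 / 4 * K} +
          #{t ∈ range (2 ^ N) | ∑ k ∈ range K, Yf V U1 k t < 3 / 4 * K} +
          #{t ∈ range (2 ^ N) | (1 / 2 + 1 / (16 * Q) : ℝ) * ((K + V : ℕ) : ℝ) <
            ∑ k ∈ Ico J (K + V + 1), ff V J U0 U1 w k t} := by
        refine le_trans (card_le_card ?_) ((card_union_le _ _).trans
          (Nat.add_le_add_right (card_union_le _ _) _))
        intro t ht
        rw [mem_filter] at ht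
        rw [mem_union, mem_union, mem_filter, mem_filter, mem_filter]
        by_contra hne
        push Not at hne
        have h1 := hne.1.1 ht.1
        have h2 := hne.1.2 ht.1
        have h3 := hne.2 ht.1
        have e1 : ∑ k ∈ Ico J (K + V + 1), ff V J U0 U1 w k t =
            ∑ k ∈ range K, ff V J U0 U1 w (k + J) t := by
          rw [sum_Ico_eq_sum_range]
          have : K + V + 1 - J = K := by omega
          rw [this]
          exact sum_congr rfl fun k _ => by rw [add_comm]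
        rw [e1] at h3
        have h5 : ∑ k ∈ range K,
            (1 + (Yf V U0 k t + Yf V U1 k t - 1) / 2 ^ J - 2 * ff V J U0 U1 w (k + J) t) / 2 ^ J ≤
            ∑ k ∈ range K, (NE2 (2 ^ (k + J)) U0 U1 w t : ℝ) / 2 ^ (k + J) :=
          sum_le_sum fun k _ => step_le V J U0 U1 w k t
        rw [← hQ, ← sum_div, sum_sub_distrib, sum_add_distrib, ← sum_div, sum_sub_distrib,
          sum_add_distrib, ← mul_sum, sum_const, card_range, nsmul_eq_mul, mul_one] at h5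
        have h6 := h5.trans_lt ht.2
        rw [div_lt_iff₀ hQ0] at h6
        have h7 : 1 / (4 * Q * Q) * (K : ℝ) * Q = K / (4 * Q) := by
          field_simp
        rw [h7] at h6
        push_cast at h3
        have h8 : (K : ℝ) / 2 / Q ≤ (∑ k ∈ range K, Yf V U0 k t + ∑ k ∈ range K, Yf V U1 k t - K) / Q :=
          div_le_div_of_nonneg_right (by linarith) hQ0.le
        have h9 : (1 / 2 + 1 / (16 * Q)) * ((K : ℝ) + V) =
            K / 2 + V / 2 + K / (16 * Q) + V / (16 * Q) := by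
          field_simp
          ring
        rw [h9] at h3
        have h10 : (K : ℝ) / 2 / Q = 8 * (K / (16 * Q)) := by
          field_simp
          norm_num
        have h11 : (K : ℝ) / (4 * Q) = 4 * (K / (16 * Q)) := by
          field_simp
          norm_num
        have h12 : (V : ℝ) ≤ K / (16 * Q) := by
          rw [le_div_iff₀ (by positivity)]
          linarith
        have h13 : (V : ℝ) / (16 * Q) ≤ V / 16 := by
          rw [div_le_div_iff₀ (by positivity) (by norm_num)]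
          nlinarith
        rw [h10] at h8
        rw [h11] at h6
        linarith
      exact_mod_cast this
    refine hsub.trans ((add_le_add (add_le_add hD0 hD1) hV).trans ?_)
    rw [← hqd]
    have h7 : 4 * (J : ℝ) / ((1 / (16 * Q)) ^ 2 * ((K + V : ℕ) : ℝ)) ≤ 1024 * J * Q ^ 2 * q := by
      have e1 : 4 * (J : ℝ) / ((1 / (16 * Q)) ^ 2 * ((K + V : ℕ) : ℝ)) =
          1024 * J * Q ^ 2 * (1 / ((K + V : ℕ) : ℝ)) := by
        have : (0 : ℝ) < ((K + V : ℕ) : ℝ) := by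
          push_cast
          linarith
        field_simp
        norm_num
      rw [e1]
      apply mul_le_mul_of_nonneg_left _ (by positivity)
      rw [div_le_iff₀ (by push_cast; linarith)]
      push_cast
      nlinarith
    have h8 : (0 : ℝ) ≤ 16 * V * Q * q := by positivity
    calc A4 * q * 2 ^ N + A4 * q * 2 ^ N +
        4 * (J : ℝ) / ((1 / (16 * Q)) ^ 2 * ((K + V : ℕ) : ℝ)) * 2 ^ N ≤
        A4 * q * 2 ^ N + A4 * q * 2 ^ N + 1024 * J * Q ^ 2 * q * 2 ^ N := by gcongr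
      _ ≤ A4 * q * 2 ^ N + A4 * q * 2 ^ N + 1024 * J * Q ^ 2 * q * 2 ^ N +
          16 * V * Q * q * 2 ^ N := by
        have : (0 : ℝ) ≤ 16 * V * Q * q * 2 ^ N := by positivity
        linarith
      _ = (2 * A4 + 1024 * J * Q ^ 2 + 16 * V * Q) * q * 2 ^ N := by ring

end Pool.Agent.H16.TWD5P
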