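import Pool.Agent.H558.TW.Stm4
import Pool.Agent.H558.PP.D6

set_option autoImplicit false

/-!
# Residue classes modulo a power of two, logarithmic mean, two equal values at distance `h`
-/

namespace Pool.Agent.H914.TWD6P

open PowerSeries Finset Pool.Agent.R836.PP Pool.Agent.H558.KK Pool.Agent.H558.PP
open Pool.Agent.H558.TW
open Pool.Agent.K7.H72.MT hiding W few dis DD dis_stable dis_vary DD_stable DD_sum DD_block few_bad
  dis_le DD_le base count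

/-- the sum over the scales and the logarithmic mean -/
theorem sum_NE2 (U0 U1 : S) (w : ℕ → ZMod 2) (t Y K : ℕ) :
    ∑ k ∈ range K, (NE2 (2 ^ (k + Y)) U0 U1 w t : ℝ) / 2 ^ (k + Y) ≤
      ∑ n ∈ range (2 ^ (K + Y)) with coeff n (U0 * P2 ^ t) = w n ∧ coeff n (U1 * P2 ^ t) = w n,
        2 / ((n : ℝ) + 1) := by
  have h1 : ∀ k ∈ range K, (NE2 (2 ^ (k + Y)) U0 U1 w t : ℝ) / 2 ^ (k + Y) =
      ∑ n ∈ range (2 ^ (K + Y)) with coeff n (U0 * P2 ^ t) = w n ∧ coeff n (U1 * P2 ^ t) = w n,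
        if n < 2 ^ (k + Y) then 1 / (2 : ℝ) ^ (k + Y) else 0 := by
    intro k hk
    rw [mem_range] at hk
    have h3 : 2 ^ (k + Y) ≤ 2 ^ (K + Y) := Nat.pow_le_pow_right (by norm_num) (by omega)
    rw [← sum_filter, sum_const, nsmul_eq_mul, filter_filter]
    have h4 : NE2 (2 ^ (k + Y)) U0 U1 w t = #{n ∈ range (2 ^ (K + Y)) |
        (coeff n (U0 * P2 ^ t) = w n ∧ coeff n (U1 * P2 ^ t) = w n) ∧ n < 2 ^ (k + Y)} := by
      unfold NE2
      congr 1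
      ext n
      simp only [mem_filter, mem_range]
      constructor
      · rintro ⟨g1, g2⟩
        exact ⟨by omega, g2, g1⟩
      · rintro ⟨-, g2, g1⟩
        exact ⟨g1, g2⟩
    rw [h4]
    ring
  rw [sum_congr rfl h1, sum_comm]
  exact sum_le_sum fun n _ => Pool.Agent.H627.PPD6.geo Y n K

/-- one residue class modulo `2 ^ b` -/
theorem cls2 {b b' β β1 s h ρ : ℕ} (hβ : β = ρ % 2 ^ b) (hβ1 : β1 < 2 ^ b)
    (hs : β + h = β1 + 2 ^ b * s) (hb : b' ≤ b) (w : ℕ → ZMod 2) (t J : ℕ) :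
    ∑ v ∈ range (2 ^ J) with
      coeff v (((X : S) ^ s * node P2 b β (t % 2 ^ b) 1) * P2 ^ (t / 2 ^ b)) =
        w (β + 2 ^ b * (v - s)) ∧
      coeff v (node P2 b β1 (t % 2 ^ b) 1 * P2 ^ (t / 2 ^ b)) = w (β + 2 ^ b * (v - s)),
        2 / ((v : ℝ) + 1) ≤
      2 * s + 2 * 2 ^ b * ∑ n ∈ range (2 ^ (J + b)) with n % 2 ^ b' = ρ % 2 ^ b' ∧
        coeff n (P2 ^ t) = w n ∧ coeff (n + h) (P2 ^ t) = w n, 1 / ((n : ℝ) + 1) := by
  have hP : 0 < 2 ^ b := by positivity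
  have hβlt : β < 2 ^ b := by
    rw [hβ]
    exact Nat.mod_lt _ hP
  rw [← sum_filter_add_sum_filter_not _ (fun v => v < s)]
  refine add_le_add ?_ ?_
  · refine (sum_le_sum_of_subset_of_nonneg (t := range s) ?_ fun v _ _ => by positivity).trans ?_
    · intro v hv
      rw [mem_filter] at hv
      exact mem_range.2 hv.2
    · refine (sum_le_sum (g := fun _ => (2 : ℝ)) fun v _ => ?_).trans ?_
      · rw [div_le_iff₀ (by positivity)]
        have h1 : (0 : ℝ) ≤ v := Nat.cast_nonneg v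
        linarith
      · rw [sum_const, card_range, nsmul_eq_mul, mul_comm]
  · have h1 : ∀ v : ℕ, (2 : ℝ) / ((v : ℝ) + 1) ≤
        2 * 2 ^ b * (1 / (((β + 2 ^ b * (v - s) : ℕ) : ℝ) + 1)) := by
      intro v
      rw [mul_one_div, div_le_div_iff₀ (by positivity) (by positivity)]
      have h2 : (((β + 2 ^ b * (v - s) : ℕ) : ℝ) + 1) ≤ 2 ^ b * ((v : ℝ) + 1) := by
        have h3 : β + 2 ^ b * (v - s) + 1 ≤ 2 ^ b * (v + 1) := by
          have h4 : 2 ^ b * (v - s) ≤ 2 ^ b * v := Nat.mul_le_mul_left _ (Nat.sub_le _ _)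
          rw [mul_add, mul_one]
          omega
        exact_mod_cast h3
      linarith
    refine (sum_le_sum fun v _ => h1 v).trans ?_
    rw [← mul_sum]
    refine mul_le_mul_of_nonneg_left ?_ (by positivity)
    have hinj : Set.InjOn (fun v : ℕ => β + 2 ^ b * (v - s)) {v | ¬ v < s} := by
      intro a ha a' ha' hh
      simp only [Set.mem_ofPred_eq] at hh ha ha'
      have h2 : 2 ^ b * (a - s) = 2 ^ b * (a' - s) := by omega
      have h3 := Nat.eq_of_mul_eq_mul_left hP h2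
      omega
    rw [← sum_image (f := fun n : ℕ => 1 / ((n : ℝ) + 1)) (g := fun v : ℕ => β + 2 ^ b * (v - s))
      (hinj.mono (by
        intro v hv
        exact (mem_filter.1 (mem_coe.1 hv)).2))]
    refine sum_le_sum_of_subset_of_nonneg ?_ fun n _ _ => by positivity
    intro n hn
    rw [mem_image] at hn
    obtain ⟨v, hv, rfl⟩ := hn
    rw [mem_filter, mem_filter, mem_range] at hv
    obtain ⟨⟨hvJ, hc0, hc1⟩, hvs⟩ := hv
    obtain ⟨a, rfl⟩ : ∃ a, v = a + s := ⟨v - s, by omega⟩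
    rw [Nat.add_sub_cancel] at hc0 hc1 ⊢
    rw [mem_filter, mem_range]
    refine ⟨?_, ?_, ?_, ?_⟩
    · rw [add_comm J b, pow_add]
      calc β + 2 ^ b * a < 2 ^ b * (a + 1) := by
            rw [mul_add, mul_one]
            omega
        _ ≤ 2 ^ b * 2 ^ J := Nat.mul_le_mul_left _ (by omega)
    · have : β + 2 ^ b * a ≡ ρ [MOD 2 ^ b] := by
        change (β + 2 ^ b * a) % 2 ^ b = ρ % 2 ^ b
        rw [Nat.add_mul_mod_self_left, hβ, Nat.mod_mod]
      exact this.of_dvd (pow_dvd_pow 2 hb)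
    · have h5 := coeff_node P2 b β t a 1 hβlt
      rw [one_mul] at h5
      rw [h5, ← node_mod]
      rw [mul_assoc, coeff_X_pow_mul] at hc0
      exact hc0
    · have h5 := coeff_node P2 b β1 t (a + s) 1 hβ1
      rw [one_mul] at h5
      have h6 : β + 2 ^ b * a + h = β1 + 2 ^ b * (a + s) := by
        rw [mul_add]
        omega
      rw [h6, h5, ← node_mod]
      exact hc1

theorem tame_mono {C C' : ℕ} {U : S} (h : Tame C U) (hC : C ≤ C') : Tame C' U :=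
  fun m b t => (h m b t).mono (Nat.mul_le_mul_right _ hC)

/-- **D6P** -/
theorem d6p (h5 : S_D5P) (hA : S_A) (hs : S_TSH) : S_D6P := by
  obtain ⟨Y, c5, hc5, h5⟩ := h5
  intro b'
  set b : ℕ := b' + 1 with hb
  have hP : 0 < 2 ^ b := by positivity
  have h2b : 2 ∣ 2 ^ b := dvd_pow_self 2 (by omega)
  refine ⟨c5 / (8 * 2 ^ b), by positivity, ?_⟩
  intro ρ h _
  obtain ⟨β, hβ⟩ : ∃ β, β = ρ % 2 ^ b := ⟨_, rfl⟩
  obtain ⟨β1, hβ1⟩ : ∃ β1, β1 = (β + h) % 2 ^ b := ⟨_, rfl⟩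
  obtain ⟨s, hs'⟩ : ∃ s, s = (β + h) / 2 ^ b := ⟨_, rfl⟩
  have hβlt : β < 2 ^ b := by
    rw [hβ]
    exact Nat.mod_lt _ hP
  have hβ1lt : β1 < 2 ^ b := by
    rw [hβ1]
    exact Nat.mod_lt _ hP
  have hsum : β + h = β1 + 2 ^ b * s := by
    rw [hβ1, hs']
    exact (Nat.mod_add_div _ _).symm
  obtain ⟨A5, hA5, h5⟩ := h5 (5 * 4 ^ b + s)
  obtain ⟨K0, hK0⟩ : ∃ K0 : ℕ, K0 = 2 * (b + Y) + ⌈8 * s / c5⌉₊ := ⟨_, rfl⟩
  refine ⟨2 * A5 + (K0 : ℝ) + 1, by positivity, ?_⟩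
  intro w K N hK hKN
  have hKr : (1 : ℝ) ≤ K := by exact_mod_cast hK
  rcases Nat.lt_or_ge K K0 with hsmall | hbig
  · have h1 : (#{t ∈ range (2 ^ N) | t % 2 = 1 ∧
        ∑ n ∈ range (2 ^ K) with n % 2 ^ b' = ρ % 2 ^ b' ∧ coeff n (P2 ^ t) = w n ∧
          coeff (n + h) (P2 ^ t) = w n, 1 / ((n : ℝ) + 1) < c5 / (8 * 2 ^ b) * K} : ℝ) ≤
        2 ^ N := by
      have := card_filter_le (range (2 ^ N)) (fun t => t % 2 = 1 ∧
        ∑ n ∈ range (2 ^ K) with n % 2 ^ b' = ρ % 2 ^ b' ∧ coeff n (P2 ^ t) = w n ∧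
          coeff (n + h) (P2 ^ t) = w n, 1 / ((n : ℝ) + 1) < c5 / (8 * 2 ^ b) * K)
      rw [card_range] at this
      exact_mod_cast this
    refine h1.trans ?_
    have h2 : (1 : ℝ) ≤ (2 * A5 + (K0 : ℝ) + 1) * (K : ℝ) ^ (-(1 / 4) : ℝ) := by
      rw [Real.rpow_neg (by positivity), ← div_eq_mul_inv, le_div_iff₀ (by positivity), one_mul]
      have h3 : (K : ℝ) ^ (1 / 4 : ℝ) ≤ (K : ℝ) ^ (1 : ℝ) :=
        Real.rpow_le_rpow_of_exponent_le hKr (by norm_num)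
      rw [Real.rpow_one] at h3
      have h4 : (K : ℝ) ≤ (K0 : ℝ) := by exact_mod_cast hsmall.le
      linarith
    have h3 : (0 : ℝ) < 2 ^ N := by positivity
    nlinarith
  · set K' : ℕ := K - b - Y with hK'
    have hKK : K ≤ 2 * K' := by omega
    have hK1 : 1 ≤ K' := by omega
    have hKX : K' + Y + b = K := by omega
    have hbN : b ≤ N := by omega
    have hNb : 2 ^ N = 2 ^ b * 2 ^ (N - b) := by
      rw [← pow_add]
      congr 1
      omega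
    have hKKr : (K : ℝ) ≤ 2 * K' := by exact_mod_cast hKK
    have hKs : 2 * (s : ℝ) ≤ c5 * K / 4 := by
      have h6 : 8 * (s : ℝ) / c5 ≤ (⌈8 * s / c5⌉₊ : ℝ) := Nat.le_ceil _
      have h7 : (⌈8 * s / c5⌉₊ : ℝ) ≤ K := by
        have : ⌈8 * s / c5⌉₊ ≤ K := by omega
        exact_mod_cast this
      have h8 := h6.trans h7
      rw [div_le_iff₀ hc5] at h8
      linarith
    have hcl : ∀ t₀, t₀ % 2 = 1 → t₀ < 2 ^ b → (#{t ∈ range (2 ^ N) | t % 2 ^ b = t₀ ∧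
        ∑ n ∈ range (2 ^ K) with n % 2 ^ b' = ρ % 2 ^ b' ∧ coeff n (P2 ^ t) = w n ∧
          coeff (n + h) (P2 ^ t) = w n, 1 / ((n : ℝ) + 1) < c5 / (8 * 2 ^ b) * K} : ℝ) ≤
          A5 * (K' : ℝ) ^ (-(1 / 4) : ℝ) * 2 ^ (N - b) := by
      intro t₀ h1 h2
      have h6 := h5 ((X : S) ^ s * node P2 b β t₀ 1) (node P2 b β1 t₀ 1)
        (fun v => w (β + 2 ^ b * (v - s)))
        (hs _ s _ (hA b β t₀ (by omega) hβlt h1))
        (tame_mono (hA b β1 t₀ (by omega) hβ1lt h1) (Nat.le_add_right _ _)) K' (N - b) hK1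
        (by omega)
      refine le_trans ?_ h6
      have hcard : #{t ∈ range (2 ^ N) | t % 2 ^ b = t₀ ∧
          ∑ n ∈ range (2 ^ K) with n % 2 ^ b' = ρ % 2 ^ b' ∧ coeff n (P2 ^ t) = w n ∧
            coeff (n + h) (P2 ^ t) = w n, 1 / ((n : ℝ) + 1) < c5 / (8 * 2 ^ b) * K} ≤
          #{t ∈ range (2 ^ (N - b)) | ∑ k ∈ range K', (NE2 (2 ^ (k + Y))
            ((X : S) ^ s * node P2 b β t₀ 1) (node P2 b β1 t₀ 1)
            (fun v => w (β + 2 ^ b * (v - s))) t : ℝ) / 2 ^ (k + Y) < c5 * K'} := by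
        refine card_le_card_of_injOn (fun t => t / 2 ^ b) ?_ ?_
        · intro t ht
          obtain ⟨htN, ht0, h3⟩ := mem_filter.1 (mem_coe.1 ht)
          rw [mem_range, hNb] at htN
          rw [mem_coe, mem_filter, mem_range]
          refine ⟨Nat.div_lt_of_lt_mul htN, ?_⟩
          have h7 := sum_NE2 ((X : S) ^ s * node P2 b β t₀ 1) (node P2 b β1 t₀ 1)
            (fun v => w (β + 2 ^ b * (v - s))) (t / 2 ^ b) Y K'
          have h8 := cls2 hβ hβ1lt hsum (show b' ≤ b by omega) w t (K' + Y)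
          rw [ht0, hKX] at h8
          have h9 : (0 : ℝ) < 2 * 2 ^ b := by positivity
          have h10 := mul_lt_mul_of_pos_left h3 h9
          have h11 : 2 * 2 ^ b * (c5 / (8 * 2 ^ b) * (K : ℝ)) = c5 * K / 4 := by
            field_simp
            ring
          rw [h11] at h10
          have h12 : c5 * (K : ℝ) / 2 ≤ c5 * K' := by
            have := mul_le_mul_of_nonneg_left hKKr hc5.le
            linarith
          refine lt_of_le_of_lt h7 (lt_of_le_of_lt h8 ?_)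
          linarith
        · intro t1 h1 t2 h2 hh
          have h1' := (mem_filter.1 (mem_coe.1 h1)).2.1
          have h2' := (mem_filter.1 (mem_coe.1 h2)).2.1
          simp only at hh
          rw [← Nat.mod_add_div t1 (2 ^ b), ← Nat.mod_add_div t2 (2 ^ b), hh, h1', h2']
      exact_mod_cast hcard
    have hsub : {t ∈ range (2 ^ N) | t % 2 = 1 ∧
        ∑ n ∈ range (2 ^ K) with n % 2 ^ b' = ρ % 2 ^ b' ∧ coeff n (P2 ^ t) = w n ∧
          coeff (n + h) (P2 ^ t) = w n, 1 / ((n : ℝ) + 1) < c5 / (8 * 2 ^ b) * K} ⊆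
        ({t₀ ∈ range (2 ^ b) | t₀ % 2 = 1}).biUnion fun t₀ => {t ∈ range (2 ^ N) | t % 2 ^ b = t₀ ∧
          ∑ n ∈ range (2 ^ K) with n % 2 ^ b' = ρ % 2 ^ b' ∧ coeff n (P2 ^ t) = w n ∧
            coeff (n + h) (P2 ^ t) = w n, 1 / ((n : ℝ) + 1) < c5 / (8 * 2 ^ b) * K} := by
      intro t ht
      obtain ⟨h1, h2, h3⟩ := mem_filter.1 ht
      rw [mem_biUnion]
      refine ⟨t % 2 ^ b, ?_, ?_⟩
      · rw [mem_filter, mem_range]
        refine ⟨Nat.mod_lt _ hP, ?_⟩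
        rw [Nat.mod_mod_of_dvd _ h2b]
        exact h2
      · rw [mem_filter]
        exact ⟨h1, rfl, h3⟩
    have h1 := (card_le_card hsub).trans card_biUnion_le
    have hK4 : (K' : ℝ) ^ (-(1 / 4) : ℝ) ≤ 2 * (K : ℝ) ^ (-(1 / 4) : ℝ) := by
      have hK'p : (0 : ℝ) < K' := by exact_mod_cast hK1
      have hKp : (0 : ℝ) < K := by linarith
      have g1 : (K' : ℝ) ^ (-(1 / 4) : ℝ) ≤ ((K : ℝ) / 2) ^ (-(1 / 4) : ℝ) :=
        Real.rpow_le_rpow_of_nonpos (by positivity) (by linarith) (by norm_num)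
      have g2 : ((K : ℝ) / 2) ^ (-(1 / 4) : ℝ) =
          (K : ℝ) ^ (-(1 / 4) : ℝ) * (2 : ℝ) ^ (1 / 4 : ℝ) := by
        rw [Real.div_rpow hKp.le (by norm_num), Real.rpow_neg (by norm_num : (0 : ℝ) ≤ 2),
          div_inv_eq_mul]
      have g3 : (2 : ℝ) ^ (1 / 4 : ℝ) ≤ (2 : ℝ) ^ (1 : ℝ) :=
        Real.rpow_le_rpow_of_exponent_le (by norm_num) (by norm_num)
      rw [Real.rpow_one] at g3
      have g4 : (0 : ℝ) < (K : ℝ) ^ (-(1 / 4) : ℝ) := by positivity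
      rw [g2] at g1
      nlinarith
    calc (#{t ∈ range (2 ^ N) | t % 2 = 1 ∧
        ∑ n ∈ range (2 ^ K) with n % 2 ^ b' = ρ % 2 ^ b' ∧ coeff n (P2 ^ t) = w n ∧
          coeff (n + h) (P2 ^ t) = w n, 1 / ((n : ℝ) + 1) < c5 / (8 * 2 ^ b) * K} : ℝ) ≤
        ((∑ t₀ ∈ range (2 ^ b) with t₀ % 2 = 1, #{t ∈ range (2 ^ N) | t % 2 ^ b = t₀ ∧
          ∑ n ∈ range (2 ^ K) with n % 2 ^ b' = ρ % 2 ^ b' ∧ coeff n (P2 ^ t) = w n ∧
            coeff (n + h) (P2 ^ t) = w n, 1 / ((n : ℝ) + 1) < c5 / (8 * 2 ^ b) * K} : ℕ) : ℝ) := by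
          exact_mod_cast h1
      _ = ∑ t₀ ∈ range (2 ^ b) with t₀ % 2 = 1, (#{t ∈ range (2 ^ N) | t % 2 ^ b = t₀ ∧
          ∑ n ∈ range (2 ^ K) with n % 2 ^ b' = ρ % 2 ^ b' ∧ coeff n (P2 ^ t) = w n ∧
            coeff (n + h) (P2 ^ t) = w n, 1 / ((n : ℝ) + 1) < c5 / (8 * 2 ^ b) * K} : ℝ) := by
          push_cast
          rfl
      _ ≤ ∑ t₀ ∈ range (2 ^ b) with t₀ % 2 = 1,
          A5 * (K' : ℝ) ^ (-(1 / 4) : ℝ) * 2 ^ (N - b) := by
          refine sum_le_sum fun t₀ ht => ?_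
          rw [mem_filter, mem_range] at ht
          exact hcl t₀ ht.2 ht.1
      _ ≤ ∑ t₀ ∈ range (2 ^ b), A5 * (K' : ℝ) ^ (-(1 / 4) : ℝ) * 2 ^ (N - b) := by
          refine sum_le_sum_of_subset_of_nonneg (filter_subset _ _) fun t₀ _ _ => ?_
          positivity
      _ = A5 * (K' : ℝ) ^ (-(1 / 4) : ℝ) * 2 ^ N := by
          rw [sum_const, card_range, nsmul_eq_mul]
          push_cast
          have h7 : (2 : ℝ) ^ N = 2 ^ b * 2 ^ (N - b) := by exact_mod_cast hNb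
          rw [h7]
          ring
      _ ≤ A5 * (2 * (K : ℝ) ^ (-(1 / 4) : ℝ)) * 2 ^ N := by gcongr
      _ ≤ (2 * A5 + (K0 : ℝ) + 1) * (K : ℝ) ^ (-(1 / 4) : ℝ) * 2 ^ N := by
          have g4 : (0 : ℝ) < (K : ℝ) ^ (-(1 / 4) : ℝ) := by positivity
          have g5 : (0 : ℝ) ≤ (K0 : ℝ) := by positivity
          refine mul_le_mul_of_nonneg_right ?_ (by positivity)
          nlinarith

end Pool.Agent.H914.TWD6P
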