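import Pool.Agent.H558.TW.Stm4

set_option autoImplicit false

/-!
# [H558 TW4] S_D7P from S_D6P: Borel-Cantelli over the scales `2 ^ (2 ^ r)` (helper881 for helper558)
-/

namespace Pool.Agent.H881.TWD7P

open PowerSeries Finset MeasureTheory Pool.Agent.R836.PP Pool.Agent.H558.KK Pool.Agent.H558.PP
  Pool.Agent.H558.TW
open Pool.Agent.K7.H72.MT hiding W few dis DD dis_stable dis_vary DD_stable DD_sum DD_block few_bad
  dis_le DD_le base count

open scoped Classical in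
/-- the sum of `1 / (n + 1)` over the `n < x` in the residue class at which both values are equal to
the prescribed one -/
noncomputable def SE (M ρ h : ℕ) (w : ℕ → ZMod 2) (t : ℤ_[2]) (x : ℕ) : ℝ :=
  ∑ n ∈ range x with n % M = ρ % M ∧ pz t n = w n ∧ pz t (n + h) = w n, 1 / ((n : ℝ) + 1)

theorem SE_mono (M ρ h : ℕ) (w : ℕ → ZMod 2) (t : ℤ_[2]) {x y : ℕ} (hxy : x ≤ y) :
    SE M ρ h w t x ≤ SE M ρ h w t y := by
  classical
  unfold SE
  apply sum_le_sum_of_subset_of_nonneg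
  · apply filter_subset_filter
    rw [range_subset_range]
    exact hxy
  · intro n _ _
    positivity

theorem q_pow (r : ℕ) : (((2 ^ r : ℕ) : ℝ)) ^ (-(1 / 4) : ℝ) = ((2 : ℝ) ^ (-(1 / 4) : ℝ)) ^ r := by
  push_cast
  rw [← Real.rpow_natCast, ← Real.rpow_natCast, ← Real.rpow_mul (by norm_num),
    ← Real.rpow_mul (by norm_num), mul_comm]

/-- the shift stays below `2 ^ (K + h)` -/
theorem shift_lt {K n : ℕ} (h : ℕ) (hn : n < 2 ^ K) : n + h < 2 ^ (K + h) := by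
  have h1 : h < 2 ^ h := Nat.lt_two_pow_self
  have h2 : 1 ≤ 2 ^ K := Nat.one_le_two_pow
  have h3 : 1 ≤ 2 ^ h := Nat.one_le_two_pow
  rw [pow_add]
  nlinarith

/-- one residue class and one distance -/
theorem ae_one (M : ℕ) (c : ℝ) (hc : 0 < c) (ρ h : ℕ) (A : ℝ)
    (hh : ∀ (w : ℕ → ZMod 2) (K N : ℕ), 1 ≤ K → K ≤ N →
      (#{t ∈ range (2 ^ N) | t % 2 = 1 ∧
        (∑ n ∈ range (2 ^ K) with n % M = ρ % M ∧ coeff n (P2 ^ t) = w n ∧
          coeff (n + h) (P2 ^ t) = w n, 1 / ((n : ℝ) + 1)) < c * K} : ℝ) ≤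
        A * (K : ℝ) ^ (-(1 / 4) : ℝ) * 2 ^ N)
    (w : ℕ → ZMod 2) [MeasurableSpace ℤ_[2]] [BorelSpace ℤ_[2]] (μ : Measure ℤ_[2])
    [IsProbabilityMeasure μ] [μ.IsAddLeftInvariant] :
    ∀ᵐ t ∂μ, t.appr 1 = 1 → ∃ x₀ : ℕ, ∀ x : ℕ, x₀ ≤ x →
      c / 2 * Real.log x ≤ SE M ρ h w t (x + 1) := by
  classical
  let s : ℕ → Set ℤ_[2] := fun r => {t | t.appr 1 = 1 ∧
    SE M ρ h w t (2 ^ (2 ^ r)) < c * ((2 ^ r : ℕ) : ℝ)}
  have hs : ∀ r, μ (s r) ≤ ENNReal.ofReal (A * ((2 : ℝ) ^ (-(1 / 4) : ℝ)) ^ r) := by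
    intro r
    set K := 2 ^ r with hK
    have hK1 : 1 ≤ K := Nat.one_le_two_pow
    have hsub : s r ⊆ {t : ℤ_[2] | t.appr (K + h) ∈ ({t ∈ range (2 ^ (K + h)) | t % 2 = 1 ∧
        (∑ n ∈ range (2 ^ K) with n % M = ρ % M ∧ coeff n (P2 ^ t) = w n ∧
          coeff (n + h) (P2 ^ t) = w n, 1 / ((n : ℝ) + 1)) < c * K} : Finset ℕ)} := by
      intro t ht
      obtain ⟨h1, h2⟩ := ht
      change t.appr (K + h) ∈ ({t ∈ range (2 ^ (K + h)) | t % 2 = 1 ∧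
        (∑ n ∈ range (2 ^ K) with n % M = ρ % M ∧ coeff n (P2 ^ t) = w n ∧
          coeff (n + h) (P2 ^ t) = w n, 1 / ((n : ℝ) + 1)) < c * K} : Finset ℕ)
      rw [mem_filter, mem_range]
      refine ⟨PadicInt.appr_lt t (K + h), ?_, ?_⟩
      · have h3 := appr_modEq t (show 1 ≤ K + h by omega)
        rw [pow_one] at h3
        have h4 : t.appr 1 % 2 = t.appr (K + h) % 2 := h3
        rw [← h4, h1]
      · refine lt_of_le_of_lt (le_of_eq ?_) h2
        unfold SE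
        refine sum_congr (filter_congr fun n hn => ?_) fun _ _ => rfl
        have hn2 : n + h < 2 ^ (K + h) := shift_lt h (mem_range.1 hn)
        rw [pz_eq t (show n < 2 ^ (K + h) by omega), pz_eq t hn2]
    refine (measure_mono hsub).trans ?_
    refine (measure_finset μ (K + h) _ (filter_subset _ _)).trans ?_
    apply ENNReal.ofReal_le_ofReal
    rw [div_le_iff₀ (by positivity), ← q_pow]
    exact hh w K (K + h) hK1 (Nat.le_add_right K h)
  have hq0 : (0 : ℝ) ≤ (2 : ℝ) ^ (-(1 / 4) : ℝ) := by positivity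
  have hq1 : (2 : ℝ) ^ (-(1 / 4) : ℝ) < 1 :=
    Real.rpow_lt_one_of_one_lt_of_neg (by norm_num) (by norm_num)
  have hsum : ∑' i, μ (s i) ≠ ⊤ := by
    have h1 : Summable fun i : ℕ => A * ((2 : ℝ) ^ (-(1 / 4) : ℝ)) ^ i :=
      (summable_geometric_of_lt_one hq0 hq1).mul_left A
    exact ne_top_of_le_ne_top h1.tsum_ofReal_ne_top (ENNReal.tsum_le_tsum hs)
  filter_upwards [ae_eventually_notMem hsum] with t ht h1
  obtain ⟨i1, hi1⟩ := Filter.eventually_atTop.1 ht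
  refine ⟨2 ^ (2 ^ i1), fun x hx => ?_⟩
  have hx1 : 1 ≤ x := le_trans Nat.one_le_two_pow hx
  set j := Nat.log 2 x with hj
  have hjx : 2 ^ j ≤ x := Nat.pow_log_le_self 2 (by omega)
  have hjx2 : x < 2 ^ (j + 1) := Nat.lt_pow_succ_log_self (by norm_num) _
  have hjge : 2 ^ i1 ≤ j := Nat.le_log_of_pow_le (by norm_num) hx
  have hj0 : j ≠ 0 := by
    have : 0 < 2 ^ i1 := by positivity
    omega
  set r := Nat.log 2 j with hr
  have hrj : 2 ^ r ≤ j := Nat.pow_log_le_self 2 hj0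
  have hrj2 : j < 2 ^ (r + 1) := Nat.lt_pow_succ_log_self (by norm_num) _
  have hri : i1 ≤ r := Nat.le_log_of_pow_le (by norm_num) hjge
  have h2 := hi1 r hri
  have h3 : ¬ (t.appr 1 = 1 ∧ SE M ρ h w t (2 ^ (2 ^ r)) < c * ((2 ^ r : ℕ) : ℝ)) := h2
  rw [not_and, not_lt] at h3
  have h4 := h3 h1
  have h5 : 2 ^ (2 ^ r) ≤ x + 1 := by
    have : 2 ^ (2 ^ r) ≤ 2 ^ j := Nat.pow_le_pow_right (by norm_num) hrj
    omega
  refine le_trans ?_ (h4.trans (SE_mono M ρ h w t h5))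
  have h6 : Real.log x ≤ (j : ℝ) + 1 := by
    have h7 : (x : ℝ) ≤ 2 ^ (j + 1) := by exact_mod_cast hjx2.le
    have h8 := Real.log_le_log (by exact_mod_cast hx1) h7
    rw [Real.log_pow] at h8
    push_cast at h8
    have h9 := Real.log_two_lt_d9
    have h10 : 0 ≤ Real.log 2 := Real.log_nonneg (by norm_num)
    have h11 : (0 : ℝ) ≤ (j : ℝ) + 1 := by positivity
    nlinarith
  have h7 : (j : ℝ) + 1 ≤ 2 * ((2 ^ r : ℕ) : ℝ) := by
    have : j + 1 ≤ 2 * 2 ^ r := by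
      rw [pow_succ] at hrj2
      omega
    exact_mod_cast this
  calc c / 2 * Real.log x ≤ c / 2 * (2 * ((2 ^ r : ℕ) : ℝ)) := by
        apply mul_le_mul_of_nonneg_left (h6.trans h7) (by positivity)
    _ = c * ((2 ^ r : ℕ) : ℝ) := by ring

theorem d7p (h6 : S_D6P) : S_D7P := by
  intro b'
  obtain ⟨c, hc, h⟩ := h6 b'
  refine ⟨c / 2, by positivity, ?_⟩
  intro w _ _ μ _ _
  have key : ∀ p : ℕ × ℕ, ∀ᵐ t ∂μ, t.appr 1 = 1 → 1 ≤ p.2 → ∃ x₀ : ℕ, ∀ x : ℕ, x₀ ≤ x →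
      c / 2 * Real.log x ≤ SE (2 ^ b') p.1 p.2 w t (x + 1) := by
    rintro ⟨ρ, d⟩
    by_cases hd : 1 ≤ d
    · obtain ⟨A, hA, hh⟩ := h ρ d hd
      have h1 := ae_one (2 ^ b') c hc ρ d A (fun w K N hK hN => hh w K N hK hN) w μ
      filter_upwards [h1] with t ht h1 _
      exact ht h1
    · exact Filter.Eventually.of_forall fun t _ h2 => absurd h2 hd
  filter_upwards [(MeasureTheory.ae_all_iff).2 key] with t ht h1 ρ d hd
  exact ht (ρ, d) h1 hd

end Pool.Agent.H881.TWD7P
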