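import Pool.Agent.H558.TW.Stm4

set_option autoImplicit false

/-! Project TW (helper558): the pairs (0, 0) and (1, 1) at one place. -/

namespace Pool.Agent.H252.TWLOC2

open PowerSeries Finset Pool.Agent.R836.PP Pool.Agent.H558.KK Pool.Agent.H558.PP Pool.Agent.H558.TW
open Pool.Agent.K7.H72.MT hiding W few dis DD dis_stable dis_vary DD_stable DD_sum DD_block few_bad
  dis_le DD_le base count

theorem loc2 (hl : S_LOC) : S_LOC2 := by
  classical
  intro V j hV H0 H1 g0 g1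
  have mono : ∀ U : S, Gv V U → Gv (2 ^ j) U := by
    rintro U ⟨u, hu, hc⟩
    exact ⟨u, by omega, hc⟩
  by_cases hs : Gv (2 ^ j) (H0 + H1)
  · obtain ⟨m, hm, h⟩ := hl (2 ^ j) j le_rfl H0 H1 (mono _ g0) (mono _ g1) hs
    exact ⟨m, hm, fun e => h e e⟩
  · have hz : ∀ i < 2 ^ j, coeff i (H0 + H1) = 0 := by
      intro i hi
      by_contra hc
      exact hs ⟨i, hi, hc⟩
    have hz' : ∀ τ : ℕ, ∀ i < 2 ^ j, coeff i (H1 * P2 ^ τ) = coeff i (H0 * P2 ^ τ) := by
      intro τ i hi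
      have h1 : coeff i ((H0 + H1) * P2 ^ τ) = 0 := coeff_lt hz i hi
      rw [add_mul, map_add] at h1
      have hcase : ∀ a b : ZMod 2, a + b = 0 → b = a := by decide
      exact hcase _ _ h1
    obtain ⟨u, hu, hc⟩ := g0
    have hex : ∃ i, coeff i H0 ≠ 0 := ⟨u, hc⟩
    obtain ⟨u0, hu0, hc0, hm0⟩ : ∃ u0, u0 < V ∧ coeff u0 H0 = 1 ∧ ∀ i < u0, coeff i H0 = 0 := by
      refine ⟨Nat.find hex, (Nat.find_min' hex hc).trans_lt hu, eq_one_of_ne (Nat.find_spec hex), ?_⟩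
      intro i hi
      have := Nat.find_min hex hi
      push Not at this
      exact this
    have hp : (2 : ℕ) ^ (j + 1) = 2 ^ j + 2 ^ j := by
      rw [pow_succ]
      ring
    refine ⟨u0 + 1, by omega, ?_⟩
    intro e
    obtain ⟨τ, hτ, h4⟩ := vary isP_P2 0 1 H0 u0 hm0 hc0 1 le_rfl (by norm_num) e
    rw [pow_zero, one_mul, one_mul] at h4
    refine ⟨τ, by
      have : 1 ≤ 2 ^ j := Nat.one_le_two_pow
      omega, h4, ?_⟩
    rw [hz' τ (u0 + 1) (by omega)]
    exact h4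

end Pool.Agent.H252.TWLOC2
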