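import Pool.Agent.H558.TW.Stm4
import Pool.Agent.H558.PP.X

set_option autoImplicit false

/-!
# Shifts of tame elements are tame
-/

namespace Pool.Agent.H236.TWTSH

open PowerSeries Finset Pool.Agent.R836.PP Pool.Agent.H558.KK Pool.Agent.H558.PP
  Pool.Agent.H558.TW
open Pool.Agent.K7.H72.MT hiding W few dis DD dis_stable dis_vary DD_stable DD_sum DD_block few_bad
  dis_le DD_le base count

/-- the index of the section of `U` below a given section of `X ^ s * U` -/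
theorem idx (q s b : ℕ) (hb : b < q) : ∃ r d : ℕ, r < q ∧ d ≤ s ∧ s + r = b + q * d := by
  have hq : 0 < q := by omega
  have h1 : s ≤ q * s := Nat.le_mul_of_pos_left s hq
  have h2 := Nat.div_add_mod (b + q * s - s) q
  have h3 : (b + q * s - s) % q < q := Nat.mod_lt _ hq
  obtain ⟨e, he⟩ : ∃ e, e = (b + q * s - s) / q := ⟨_, rfl⟩
  rw [← he] at h2
  have h4 : e ≤ s := by
    by_contra hc
    have h5 : q * (s + 1) ≤ q * e := Nat.mul_le_mul_left _ (by omega)
    rw [Nat.mul_add, Nat.mul_one] at h5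
    omega
  refine ⟨(b + q * s - s) % q, s - e, h3, Nat.sub_le _ _, ?_⟩
  have h5 : q * (s - e) + q * e = q * s := by
    rw [← Nat.mul_add]
    congr 1
    omega
  omega

theorem tsh : S_TSH := by
  intro C s U hU m b t
  have hq : 0 < 2 ^ m := by positivity
  rw [← (Pool.Agent.H155.PPX.n1 P2 m 0 b t _).2]
  have hb0 : b % 2 ^ m < 2 ^ m := Nat.mod_lt _ hq
  have ht0 : t % 2 ^ m < 2 ^ m := Nat.mod_lt _ hq
  obtain ⟨b0, eb⟩ : ∃ b0, b0 = b % 2 ^ m := ⟨_, rfl⟩
  obtain ⟨t0, et⟩ : ∃ t0, t0 = t % 2 ^ m := ⟨_, rfl⟩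
  rw [← eb] at hb0
  rw [← et] at ht0
  rw [← eb, ← et]
  have key : ∀ (V : S) (r i : ℕ), r < 2 ^ m →
      coeff i (node P2 m r t0 V) = coeff (r + 2 ^ m * i) (V * P2 ^ t0) := by
    intro V r i hr
    have h := coeff_node P2 m r t0 i V hr
    rw [Nat.div_eq_of_lt ht0, pow_zero, mul_one] at h
    exact h.symm
  obtain ⟨r, d, hr, hd, he⟩ := idx (2 ^ m) s b0 hb0
  have h1 := hU m r t
  rw [← (Pool.Agent.H155.PPX.n1 P2 m 0 r t U).2, Nat.mod_eq_of_lt hr, ← et] at h1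
  obtain ⟨i, hi, hne⟩ := h1
  refine ⟨i + d, ?_, ?_⟩
  · have h4 : s ≤ s * 4 ^ m := Nat.le_mul_of_pos_right s (by positivity)
    rw [Nat.add_mul]
    omega
  · rw [key _ _ _ hb0, mul_assoc]
    have h5 : b0 + 2 ^ m * (i + d) = (r + 2 ^ m * i) + s := by
      rw [Nat.mul_add]
      omega
    rw [h5, coeff_X_pow_mul, ← key _ _ _ hr]
    exact hne

end Pool.Agent.H236.TWTSH
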