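import Pool.Agent.H558.PP.DAsm
import Pool.Agent.H558.TW.LOC
import Pool.Agent.H558.TW.LOC2
import Pool.Agent.H558.TW.D4Q
import Pool.Agent.H558.TW.D5P
import Pool.Agent.H558.TW.TSH
import Pool.Agent.H558.TW.D6P
import Pool.Agent.H558.TW.D7P

set_option autoImplicit false

/-!
# Assembly: two equal values, lower logarithmic density
-/

namespace Pool.Agent.H558.TW

open Pool.Agent.H558.PP

theorem hD7P : S_D7P := Pool.Agent.H881.TWD7P.d7p (Pool.Agent.H914.TWD6P.d6p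
  (Pool.Agent.H16.TWD5P.d5p (Pool.Agent.H8.TWD4Q.d4q hT3 hD2 hD3 Pool.Agent.H399.PPVAR.var)
    Pool.Agent.H399.PPVAR.var (Pool.Agent.H252.TWLOC2.loc2 Pool.Agent.H387.TWLOC.loc)) hA
  Pool.Agent.H236.TWTSH.tsh)

end Pool.Agent.H558.TW
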