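import Pool.Agent.H558.TW.Stm5

set_option autoImplicit false

/-!
# [H558 TW5] S_GE from S_GL: lower logarithmic density of two patterns for almost all 2-adic `t`
(helper39 for helper558)
-/

namespace Pool.Agent.H39.TWGE

open PowerSeries Finset MeasureTheory Pool.Agent.R836.PP Pool.Agent.H558.KK Pool.Agent.H558.PP
  Pool.Agent.H558.TW
open Pool.Agent.K7.H72.MT hiding W few dis DD dis_stable dis_vary DD_stable DD_sum DD_block few_bad
  dis_le DD_le base count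

theorem pat_eq {L : ℕ} (c : Fin (L + 1) → ZMod 2) (t : ℤ_[2]) {n x K : ℕ} (hx : x + L < 2 ^ K)
    (hn : n < x + 1) : ∑ i : Fin (L + 1), c i * pz t (n + i) = pat c (P2 ^ t.appr K) n := by
  unfold pat
  refine sum_congr rfl fun i _ => ?_
  have hi := i.2
  rw [pz_eq t (show n + (i : ℕ) < 2 ^ K by omega)]

theorem LZ_eq (M ρ : ℕ) {L : ℕ} (c c' : Fin (L + 1) → ZMod 2) (w0 w1 : ℕ → ZMod 2) (t : ℤ_[2])
    {x K : ℕ} (hx : x + L < 2 ^ K) :
    LZ M ρ c c' w0 w1 t x = LG M ρ c c' w0 w1 (t.appr K) x := by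
  unfold LZ LG
  refine sum_congr ?_ fun _ _ => rfl
  ext n
  rw [mem_filter, mem_filter]
  refine and_congr_right fun hn => and_congr_right fun _ => ?_
  rw [mem_range] at hn
  rw [pat_eq c t hx hn, pat_eq c' t hx hn]

theorem LZ_mono (M ρ : ℕ) {L : ℕ} (c c' : Fin (L + 1) → ZMod 2) (w0 w1 : ℕ → ZMod 2) (t : ℤ_[2])
    {x y : ℕ} (hxy : x ≤ y) : LZ M ρ c c' w0 w1 t x ≤ LZ M ρ c c' w0 w1 t y := by
  unfold LZ
  apply sum_le_sum_of_subset_of_nonneg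
  · apply filter_subset_filter
    rw [range_subset_range]
    omega
  · intro n _ _
    positivity

theorem shift_lt {K L N : ℕ} (h1 : L + 1 ≤ K) (h2 : 8 * K ≤ N) : 2 ^ K + L < 2 ^ N := by
  have h3 : L < 2 ^ L := Nat.lt_two_pow_self
  have h4 : 2 ^ L ≤ 2 ^ K := Nat.pow_le_pow_right (by norm_num) (by omega)
  have h5 : 2 ^ (K + 1) ≤ 2 ^ N := Nat.pow_le_pow_right (by norm_num) (by omega)
  rw [pow_succ] at h5
  omega

/-- one pair of patterns, one progression -/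
theorem ge_one (M : ℕ) (κ : ℝ) (ρ L : ℕ) (c c' : Fin (L + 1) → ZMod 2)
    (h : ∀ ε : ℝ, 0 < ε → ∃ K1 : ℕ, ∀ (w0 w1 : ℕ → ZMod 2) (N : ℕ),
      (Set.ncard {t : ℕ | t < 2 ^ N ∧ t % 2 = 1 ∧ ∃ K : ℕ, K1 ≤ K ∧ 8 * K ≤ N ∧
        LG M ρ c c' w0 w1 t (2 ^ K) < κ * K} : ℝ) ≤ ε * 2 ^ N)
    (w0 w1 : ℕ → ZMod 2) [MeasurableSpace ℤ_[2]] [BorelSpace ℤ_[2]] (μ : Measure ℤ_[2])
    [IsProbabilityMeasure μ] [μ.IsAddLeftInvariant] :
    ∀ᵐ t ∂μ, t.appr 1 = 1 → ∃ K1 : ℕ, ∀ K : ℕ, K1 ≤ K →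
      κ * K ≤ LZ M ρ c c' w0 w1 t (2 ^ K) := by
  classical
  let B : Set ℤ_[2] := {t | ¬ (t.appr 1 = 1 → ∃ K1 : ℕ, ∀ K : ℕ, K1 ≤ K →
      κ * K ≤ LZ M ρ c c' w0 w1 t (2 ^ K))}
  have hB : ∀ ε : ℝ, 0 < ε → μ B ≤ ENNReal.ofReal ε := by
    intro ε hε
    obtain ⟨K0, hK0⟩ := h ε hε
    set K1 := max K0 (L + 1) with hK1
    let A : ℕ → Set ℤ_[2] := fun N => {t | t.appr 1 = 1 ∧ ∃ K : ℕ, K1 ≤ K ∧ 8 * K ≤ N ∧
      LZ M ρ c c' w0 w1 t (2 ^ K) < κ * K}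
    have hBA : B ⊆ ⋃ N, A N := by
      intro t ht
      have ht' : ¬ (t.appr 1 = 1 → ∃ K1 : ℕ, ∀ K : ℕ, K1 ≤ K →
        κ * K ≤ LZ M ρ c c' w0 w1 t (2 ^ K)) := ht
      rw [Classical.not_imp, not_exists] at ht'
      obtain ⟨h1, h2⟩ := ht'
      have h3 := h2 K1
      rw [not_forall] at h3
      obtain ⟨K, hK⟩ := h3
      rw [Classical.not_imp, not_le] at hK
      exact Set.mem_iUnion.2 ⟨8 * K, h1, K, hK.1, le_rfl, hK.2⟩
    have hmono : Monotone A := by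
      rintro i j hij t ⟨h1, K, h2, h3, h4⟩
      exact ⟨h1, K, h2, h3.trans hij, h4⟩
    refine (measure_mono hBA).trans ?_
    rw [hmono.measure_iUnion]
    refine iSup_le fun N => ?_
    have hsub : A N ⊆ {t : ℤ_[2] | t.appr N ∈ ({t ∈ range (2 ^ N) | t % 2 = 1 ∧
        ∃ K : ℕ, K0 ≤ K ∧ 8 * K ≤ N ∧ LG M ρ c c' w0 w1 t (2 ^ K) < κ * K} : Finset ℕ)} := by
      rintro t ⟨h1, K, h2, h3, h4⟩
      change t.appr N ∈ ({t ∈ range (2 ^ N) | t % 2 = 1 ∧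
        ∃ K : ℕ, K0 ≤ K ∧ 8 * K ≤ N ∧ LG M ρ c c' w0 w1 t (2 ^ K) < κ * K} : Finset ℕ)
      have h5 : L + 1 ≤ K := (le_max_right K0 (L + 1)).trans h2
      rw [mem_filter, mem_range]
      refine ⟨PadicInt.appr_lt t N, ?_, K, (le_max_left K0 (L + 1)).trans h2, h3, ?_⟩
      · have h6 := appr_modEq t (show 1 ≤ N by omega)
        rw [pow_one] at h6
        have h7 : t.appr 1 % 2 = t.appr N % 2 := h6
        rw [← h7, h1]
      · rw [← LZ_eq M ρ c c' w0 w1 t (shift_lt h5 h3)]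
        exact h4
    refine (measure_mono hsub).trans ?_
    refine (measure_finset μ N _ (filter_subset _ _)).trans ?_
    apply ENNReal.ofReal_le_ofReal
    rw [div_le_iff₀ (by positivity)]
    refine le_trans (le_of_eq ?_) (hK0 w0 w1 N)
    congr 1
    rw [← Set.ncard_coe_finset]
    congr 1
    ext t
    simp only [coe_filter, mem_range, Set.mem_ofPred_eq]
  have h0 : μ B = 0 := by
    refine le_antisymm ?_ (zero_le)
    refine ENNReal.le_of_forall_pos_le_add fun ε hε _ => ?_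
    rw [zero_add]
    refine (hB ε (by exact_mod_cast hε)).trans (le_of_eq ?_)
    exact ENNReal.ofReal_coe_nnreal
  exact h0

theorem ge (hgl : S_GL) : S_GE := by
  intro b'
  obtain ⟨κ, hκ, H⟩ := hgl b'
  refine ⟨κ / 2, by positivity, ?_⟩
  intro w0 w1 _ _ μ _ _
  have h : ∀ᵐ t ∂μ, ∀ (ρ L : ℕ) (c c' : Fin (L + 1) → ZMod 2), c ≠ 0 → c' ≠ 0 → c + c' ≠ 0 →
      t.appr 1 = 1 → ∃ K1 : ℕ, ∀ K : ℕ, K1 ≤ K →
        κ * K ≤ LZ (2 ^ b') ρ c c' w0 w1 t (2 ^ K) := by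
    rw [MeasureTheory.ae_all_iff]
    intro ρ
    rw [MeasureTheory.ae_all_iff]
    intro L
    rw [MeasureTheory.ae_all_iff]
    intro c
    rw [MeasureTheory.ae_all_iff]
    intro c'
    by_cases hh : c ≠ 0 ∧ c' ≠ 0 ∧ c + c' ≠ 0
    · filter_upwards [ge_one (2 ^ b') κ ρ L c c' (H ρ L c c' hh.1 hh.2.1 hh.2.2) w0 w1 μ]
        with t ht _ _ _
      exact ht
    · exact Filter.Eventually.of_forall fun t h1 h2 h3 => absurd ⟨h1, h2, h3⟩ hh
  filter_upwards [h] with t ht h1 ρ L c c' hc0 hc1 hc2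
  obtain ⟨K1, hK1⟩ := ht ρ L c c' hc0 hc1 hc2 h1
  refine ⟨2 ^ (K1 + 1), fun x hx => ?_⟩
  have hx1 : 1 ≤ x := le_trans Nat.one_le_two_pow hx
  set j := Nat.log 2 x with hj
  have hjx : 2 ^ j ≤ x := Nat.pow_log_le_self 2 (by omega)
  have hjx2 : x < 2 ^ (j + 1) := Nat.lt_pow_succ_log_self (by norm_num) _
  have hjge : K1 + 1 ≤ j := Nat.le_log_of_pow_le (by norm_num) hx
  have h4 := hK1 j (by omega)
  refine le_trans ?_ (h4.trans (LZ_mono (2 ^ b') ρ c c' w0 w1 t hjx))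
  have h6 : Real.log x ≤ (j : ℝ) + 1 := by
    have h7 : (x : ℝ) ≤ 2 ^ (j + 1) := by exact_mod_cast hjx2.le
    have h8 := Real.log_le_log (by exact_mod_cast hx1) h7
    rw [Real.log_pow] at h8
    push_cast at h8
    have h9 := Real.log_two_lt_d9
    have h10 : 0 ≤ Real.log 2 := Real.log_nonneg (by norm_num)
    have h11 : (0 : ℝ) ≤ (j : ℝ) + 1 := by positivity
    nlinarith
  have h7 : (j : ℝ) + 1 ≤ 2 * j := by
    have h8 : (1 : ℝ) ≤ j := by exact_mod_cast (show 1 ≤ j by omega)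
    linarith
  calc κ / 2 * Real.log x ≤ κ / 2 * (2 * j) := by
        apply mul_le_mul_of_nonneg_left (h6.trans h7) (by positivity)
    _ = κ * j := by ring

end Pool.Agent.H39.TWGE
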