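import Pool.Agent.H558.TW.Stm5
import Pool.Agent.H558.PP.D6

set_option autoImplicit false

/-!
# Two patterns, residue classes modulo a power of two, logarithmic mean, for all `K` at once
-/

namespace Pool.Agent.H120.TWGL

open PowerSeries Finset Pool.Agent.R836.PP Pool.Agent.H558.KK Pool.Agent.H558.PP
open Pool.Agent.H558.TW
open Pool.Agent.K7.H72.MT hiding W few dis DD dis_stable dis_vary DD_stable DD_sum DD_block few_bad
  dis_le DD_le base count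

theorem CC_add {L : ℕ} (c c' : Fin (L + 1) → ZMod 2) : CC (c + c') = CC c + CC c' := by
  unfold CC
  rw [← sum_add_distrib]
  refine sum_congr rfl fun i _ => ?_
  rw [Pi.add_apply, add_smul]

/-- the sum over the scales and the logarithmic mean -/
theorem sum_N2 (U0 U1 : S) (w0 w1 : ℕ → ZMod 2) (t Y K : ℕ) :
    ∑ k ∈ range K, (N2 (2 ^ (k + Y)) U0 U1 w0 w1 t : ℝ) / 2 ^ (k + Y) ≤
      ∑ n ∈ range (2 ^ (K + Y)) with coeff n (U0 * P2 ^ t) ≠ w0 n ∧ coeff n (U1 * P2 ^ t) ≠ w1 n,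
        2 / ((n : ℝ) + 1) := by
  have h1 : ∀ k ∈ range K, (N2 (2 ^ (k + Y)) U0 U1 w0 w1 t : ℝ) / 2 ^ (k + Y) =
      ∑ n ∈ range (2 ^ (K + Y)) with coeff n (U0 * P2 ^ t) ≠ w0 n ∧ coeff n (U1 * P2 ^ t) ≠ w1 n,
        if n < 2 ^ (k + Y) then 1 / (2 : ℝ) ^ (k + Y) else 0 := by
    intro k hk
    rw [mem_range] at hk
    have h3 : 2 ^ (k + Y) ≤ 2 ^ (K + Y) := Nat.pow_le_pow_right (by norm_num) (by omega)
    rw [← sum_filter, sum_const, nsmul_eq_mul, filter_filter]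
    have h4 : N2 (2 ^ (k + Y)) U0 U1 w0 w1 t = #{n ∈ range (2 ^ (K + Y)) |
        (coeff n (U0 * P2 ^ t) ≠ w0 n ∧ coeff n (U1 * P2 ^ t) ≠ w1 n) ∧ n < 2 ^ (k + Y)} := by
      unfold N2
      congr 1
      ext n
      simp only [mem_filter, mem_range]
      constructor
      · rintro ⟨g1, g2⟩
        exact ⟨by omega, g2, g1⟩
      · rintro ⟨-, g2, g1⟩
        exact ⟨g1, g2⟩
    rw [h4]
    ring
  rw [sum_congr rfl h1, sum_comm]
  exact sum_le_sum fun n _ => Pool.Agent.H627.PPD6.geo Y n K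

/-- one residue class modulo `2 ^ b` -/
theorem cls {b b' β ρ L : ℕ} (hb : b' ≤ b) (hβ : β = (ρ + L) % 2 ^ b)
    (c c' : Fin (L + 1) → ZMod 2) (w0 w1 : ℕ → ZMod 2) (t J : ℕ) :
    ∑ a ∈ range (2 ^ J) with
      coeff a (node P2 b β (t % 2 ^ b) (CC c) * P2 ^ (t / 2 ^ b)) ≠ w0 (β + 2 ^ b * a - L) ∧
      coeff a (node P2 b β (t % 2 ^ b) (CC c') * P2 ^ (t / 2 ^ b)) ≠ w1 (β + 2 ^ b * a - L),
        2 / ((a : ℝ) + 1) ≤
      2 * L + 2 * 2 ^ b * LG (2 ^ b') ρ c c' w0 w1 t (2 ^ (J + b)) := by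
  have hP : 0 < 2 ^ b := by positivity
  have hβlt : β < 2 ^ b := by
    rw [hβ]
    exact Nat.mod_lt _ hP
  rw [← sum_filter_add_sum_filter_not _ (fun a => a < L)]
  refine add_le_add ?_ ?_
  · refine (sum_le_sum_of_subset_of_nonneg (t := range L) ?_ fun v _ _ => by positivity).trans ?_
    · intro v hv
      rw [mem_filter] at hv
      exact mem_range.2 hv.2
    · refine (sum_le_sum (g := fun _ => (2 : ℝ)) fun v _ => ?_).trans ?_
      · rw [div_le_iff₀ (by positivity)]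
        have h1 : (0 : ℝ) ≤ v := Nat.cast_nonneg v
        linarith
      · rw [sum_const, card_range, nsmul_eq_mul, mul_comm]
  · have h1 : ∀ a : ℕ, (2 : ℝ) / ((a : ℝ) + 1) ≤
        2 * 2 ^ b * (1 / (((β + 2 ^ b * a - L : ℕ) : ℝ) + 1)) := by
      intro a
      rw [mul_one_div, div_le_div_iff₀ (by positivity) (by positivity)]
      have h2 : (((β + 2 ^ b * a - L : ℕ) : ℝ) + 1) ≤ 2 ^ b * ((a : ℝ) + 1) := by
        have h3 : β + 2 ^ b * a - L + 1 ≤ 2 ^ b * (a + 1) := by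
          rw [mul_add, mul_one]
          omega
        exact_mod_cast h3
      linarith
    refine (sum_le_sum fun a _ => h1 a).trans ?_
    rw [← mul_sum]
    refine mul_le_mul_of_nonneg_left ?_ (by positivity)
    have hinj : Set.InjOn (fun a : ℕ => β + 2 ^ b * a - L) {a | ¬ a < L} := by
      intro a ha a' ha' hh
      simp only [Set.mem_ofPred_eq] at hh ha ha'
      have h5 : a ≤ 2 ^ b * a := Nat.le_mul_of_pos_left _ hP
      have h6 : a' ≤ 2 ^ b * a' := Nat.le_mul_of_pos_left _ hP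
      have h2 : 2 ^ b * a = 2 ^ b * a' := by omega
      exact Nat.eq_of_mul_eq_mul_left hP h2
    rw [← sum_image (f := fun n : ℕ => 1 / ((n : ℝ) + 1)) (g := fun a : ℕ => β + 2 ^ b * a - L)
      (hinj.mono (by
        intro v hv
        exact (mem_filter.1 (mem_coe.1 hv)).2))]
    unfold LG
    refine sum_le_sum_of_subset_of_nonneg ?_ fun n _ _ => by positivity
    intro n hn
    rw [mem_image] at hn
    obtain ⟨a, hv, rfl⟩ := hn
    rw [mem_filter, mem_filter, mem_range] at hv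
    obtain ⟨⟨hvJ, hc0, hc1⟩, hvs⟩ := hv
    have h5 : a ≤ 2 ^ b * a := Nat.le_mul_of_pos_left _ hP
    have h6 : 2 ^ b * (a + 1) ≤ 2 ^ b * 2 ^ J := Nat.mul_le_mul_left _ hvJ
    rw [← pow_add, add_comm b J] at h6
    have h6' : 2 ^ b * (a + 1) = 2 ^ b * a + 2 ^ b := by ring
    have h7 : β + 2 ^ b * a - L + L = β + 2 ^ b * a := by omega
    rw [mem_filter, mem_range]
    refine ⟨by omega, ?_, ?_, ?_⟩
    · have g0 : (β + 2 ^ b * a - L + L) % 2 ^ b = (ρ + L) % 2 ^ b := by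
        rw [h7, Nat.add_mul_mod_self_left, Nat.mod_eq_of_lt hβlt, hβ]
      have g1 : β + 2 ^ b * a - L + L ≡ ρ + L [MOD 2 ^ b] := g0
      exact (Nat.ModEq.add_right_cancel' L g1).of_dvd (pow_dvd_pow 2 hb)
    · rw [← coeff_CC, h7, coeff_node P2 b β t a (CC c) hβlt, ← node_mod]
      exact hc0
    · rw [← coeff_CC, h7, coeff_node P2 b β t a (CC c') hβlt, ← node_mod]
      exact hc1

/-- **GL** -/
theorem gl (hgp : S_GP) (ha : S_ADD) (hnz : S_NZC) : S_GL := by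
  classical
  obtain ⟨X, c5, hc5, h5⟩ := hgp
  intro b'
  set b : ℕ := b' + 1 with hb
  have hP : 0 < 2 ^ b := by positivity
  have h2b : 2 ∣ 2 ^ b := dvd_pow_self 2 (by omega)
  have hbb : b' ≤ b := by omega
  have hb1 : 1 ≤ b := by omega
  refine ⟨c5 / (8 * 2 ^ b), by positivity, ?_⟩
  intro ρ L c c' hc hc' hcc ε hε
  set β : ℕ := (ρ + L) % 2 ^ b with hβ
  have hβlt : β < 2 ^ b := Nat.mod_lt _ hP
  have hex : ∀ t₀ : ℕ, ∃ K1 : ℕ, t₀ % 2 = 1 → t₀ < 2 ^ b → ∀ (w0 w1 : ℕ → ZMod 2) (N : ℕ),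
      (#{t ∈ range (2 ^ N) | ∃ K : ℕ, K1 ≤ K ∧ 8 * (K + X) ≤ N ∧
        ∑ k ∈ range K, (N2 (2 ^ (k + X)) (node P2 b β t₀ (CC c)) (node P2 b β t₀ (CC c'))
          w0 w1 t : ℝ) / 2 ^ (k + X) < c5 * K} : ℝ) ≤ ε * 2 ^ N := by
    intro t₀
    by_cases h1 : t₀ % 2 = 1
    · by_cases h2 : t₀ < 2 ^ b
      · have hs : node P2 b β t₀ (CC c) + node P2 b β t₀ (CC c') =
            node P2 b β t₀ (CC (c + c')) := by
          rw [CC_add, ha]
        obtain ⟨K1, hK1⟩ := h5 (node P2 b β t₀ (CC c)) (node P2 b β t₀ (CC c'))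
          (hnz b β t₀ L c hc hb1 hβlt h1 h2) (hnz b β t₀ L c' hc' hb1 hβlt h1 h2)
          (by rw [hs]; exact hnz b β t₀ L (c + c') hcc hb1 hβlt h1 h2) ε hε
        exact ⟨K1, fun _ _ w0 w1 N => hK1 w0 w1 N⟩
      · exact ⟨0, fun _ h => absurd h h2⟩
    · exact ⟨0, fun h => absurd h h1⟩
  choose I hI using hex
  obtain ⟨K0, hK0⟩ : ∃ K0 : ℕ, K0 = 2 * (b + X) + ⌈8 * L / c5⌉₊ + ∑ t₀ ∈ range (2 ^ b), I t₀ :=
    ⟨_, rfl⟩
  refine ⟨K0, ?_⟩
  intro w0 w1 N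
  set Pr : ℕ → Prop := fun t => ∃ K : ℕ, K0 ≤ K ∧ 8 * K ≤ N ∧
      LG (2 ^ b') ρ c c' w0 w1 t (2 ^ K) < c5 / (8 * 2 ^ b) * K with hPr
  have hset : {t : ℕ | t < 2 ^ N ∧ t % 2 = 1 ∧ Pr t} =
      (({t ∈ range (2 ^ N) | t % 2 = 1 ∧ Pr t} : Finset ℕ) : Set ℕ) := by
    ext t
    simp only [Set.mem_ofPred_eq, coe_filter, mem_range]
  change (Set.ncard {t : ℕ | t < 2 ^ N ∧ t % 2 = 1 ∧ Pr t} : ℝ) ≤ ε * 2 ^ N
  rw [hset, Set.ncard_coe_finset]
  rcases Nat.lt_or_ge N b with hNb' | hbN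
  · have h1 : ({t ∈ range (2 ^ N) | t % 2 = 1 ∧ Pr t} : Finset ℕ) = ∅ := by
      rw [filter_eq_empty_iff]
      rintro t - ⟨-, K, h1, h2, -⟩
      omega
    rw [h1, card_empty]
    push_cast
    positivity
  have hNb : 2 ^ N = 2 ^ b * 2 ^ (N - b) := by
    rw [← pow_add]
    congr 1
    omega
  have hcl : ∀ t₀, t₀ % 2 = 1 → t₀ < 2 ^ b →
      (#{t ∈ range (2 ^ N) | t % 2 ^ b = t₀ ∧ Pr t} : ℝ) ≤ ε * 2 ^ (N - b) := by
    intro t₀ h1 h2
    have h6 := hI t₀ h1 h2 (fun a => w0 (β + 2 ^ b * a - L)) (fun a => w1 (β + 2 ^ b * a - L))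
      (N - b)
    refine le_trans ?_ h6
    refine Nat.cast_le.2 (card_le_card_of_injOn (fun t => t / 2 ^ b) ?_ ?_)
    · intro t ht
      obtain ⟨htN, ht0, K, hK, hKN, h3⟩ := mem_filter.1 (mem_coe.1 ht)
      rw [mem_range, hNb] at htN
      have hI0 : I t₀ ≤ ∑ t₀ ∈ range (2 ^ b), I t₀ :=
        single_le_sum (f := I) (fun _ _ => Nat.zero_le _) (mem_range.2 h2)
      obtain ⟨K', hK'⟩ : ∃ K', K' = K - b - X := ⟨_, rfl⟩
      have hKK : K ≤ 2 * K' := by omega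
      have hKX : K' + X + b = K := by omega
      have hKKr : (K : ℝ) ≤ 2 * K' := by exact_mod_cast hKK
      have hKs : 2 * (L : ℝ) ≤ c5 * K / 4 := by
        have h6 : 8 * (L : ℝ) / c5 ≤ (⌈8 * L / c5⌉₊ : ℝ) := Nat.le_ceil _
        have h7 : (⌈8 * L / c5⌉₊ : ℝ) ≤ K := by
          have : ⌈8 * L / c5⌉₊ ≤ K := by omega
          exact_mod_cast this
        have h8 := h6.trans h7
        rw [div_le_iff₀ hc5] at h8
        linarith
      rw [mem_coe, mem_filter, mem_range]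
      refine ⟨Nat.div_lt_of_lt_mul htN, K', by omega, by omega, ?_⟩
      have h7 := sum_N2 (node P2 b β t₀ (CC c)) (node P2 b β t₀ (CC c'))
        (fun a => w0 (β + 2 ^ b * a - L)) (fun a => w1 (β + 2 ^ b * a - L)) (t / 2 ^ b) X K'
      have h8 := cls hbb hβ c c' w0 w1 t (K' + X)
      rw [ht0, hKX] at h8
      have h9 : (0 : ℝ) < 2 * 2 ^ b := by positivity
      have h10 := mul_lt_mul_of_pos_left h3 h9
      have h11 : 2 * 2 ^ b * (c5 / (8 * 2 ^ b) * (K : ℝ)) = c5 * K / 4 := by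
        field_simp
        ring
      rw [h11] at h10
      have h12 : c5 * (K : ℝ) / 2 ≤ c5 * K' := by
        have := mul_le_mul_of_nonneg_left hKKr hc5.le
        linarith
      refine lt_of_le_of_lt h7 (lt_of_le_of_lt h8 ?_)
      linarith
    · intro t1 h1 t2 h2 hh
      have h1' := (mem_filter.1 (mem_coe.1 h1)).2.1
      have h2' := (mem_filter.1 (mem_coe.1 h2)).2.1
      simp only at hh
      rw [← Nat.mod_add_div t1 (2 ^ b), ← Nat.mod_add_div t2 (2 ^ b), hh, h1', h2']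
  have hsub : {t ∈ range (2 ^ N) | t % 2 = 1 ∧ Pr t} ⊆
      ({t₀ ∈ range (2 ^ b) | t₀ % 2 = 1}).biUnion fun t₀ =>
        {t ∈ range (2 ^ N) | t % 2 ^ b = t₀ ∧ Pr t} := by
    intro t ht
    obtain ⟨h1, h2, h3⟩ := mem_filter.1 ht
    rw [mem_biUnion]
    refine ⟨t % 2 ^ b, ?_, ?_⟩
    · rw [mem_filter, mem_range]
      refine ⟨Nat.mod_lt _ hP, ?_⟩
      rw [Nat.mod_mod_of_dvd _ h2b]
      exact h2
    · rw [mem_filter]
      exact ⟨h1, rfl, h3⟩
  have h1 := (card_le_card hsub).trans card_biUnion_le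
  calc (#{t ∈ range (2 ^ N) | t % 2 = 1 ∧ Pr t} : ℝ) ≤
      ((∑ t₀ ∈ range (2 ^ b) with t₀ % 2 = 1,
        #{t ∈ range (2 ^ N) | t % 2 ^ b = t₀ ∧ Pr t} : ℕ) : ℝ) := by
        exact_mod_cast h1
    _ = ∑ t₀ ∈ range (2 ^ b) with t₀ % 2 = 1,
        (#{t ∈ range (2 ^ N) | t % 2 ^ b = t₀ ∧ Pr t} : ℝ) := by
        push_cast
        rfl
    _ ≤ ∑ t₀ ∈ range (2 ^ b) with t₀ % 2 = 1, ε * 2 ^ (N - b) := by
        refine sum_le_sum fun t₀ ht => ?_
        rw [mem_filter, mem_range] at ht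
        exact hcl t₀ ht.2 ht.1
    _ ≤ ∑ t₀ ∈ range (2 ^ b), ε * 2 ^ (N - b) := by
        refine sum_le_sum_of_subset_of_nonneg (filter_subset _ _) fun t₀ _ _ => ?_
        positivity
    _ = ε * 2 ^ N := by
        rw [sum_const, card_range, nsmul_eq_mul]
        push_cast
        have h7 : (2 : ℝ) ^ N = 2 ^ b * 2 ^ (N - b) := by exact_mod_cast hNb
        rw [h7]
        ring

end Pool.Agent.H120.TWGL
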