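import Pool.Agent.H558.TW.Stm5

set_option autoImplicit false

/-!
# GP: two series, mean over the scales, for all `K` at once (helper227 for helper558; after D5P of helper16)
-/

namespace Pool.Agent.H227.TWGP

open PowerSeries Finset Pool.Agent.R836.PP Pool.Agent.H558.KK Pool.Agent.H558.PP
open Pool.Agent.K7.H72.MT hiding W few dis DD dis_stable dis_vary DD_stable DD_sum DD_block few_bad
  dis_le DD_le base count
open Pool.Agent.H558.TW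

theorem coeff_shift {k b a : ℕ} (m s : ℕ) (U : S) (hb : b < 2 ^ k) (ha : a < 2 ^ k) :
    coeff (b + 2 ^ k * m) (U * P2 ^ (a + 2 ^ k * s)) = coeff m (node P2 k b a U * P2 ^ s) := by
  rw [coeff_node P2 k b (a + 2 ^ k * s) m U hb, ← node_mod P2 k b (a + 2 ^ k * s) U,
    Nat.add_mul_mod_self_left, Nat.mod_eq_of_lt ha, Nat.add_mul_div_left _ _ (by positivity),
    Nat.div_eq_of_lt ha, zero_add]

/-- both values are different from the prescribed ones at some place of the class -/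
def hit (J k t : ℕ) (U0 U1 : S) (w0 w1 : ℕ → ZMod 2) (b : ℕ) : Prop :=
  ∃ m < 2 ^ J, coeff (b + 2 ^ k * m) (U0 * P2 ^ t) ≠ w0 (b + 2 ^ k * m) ∧
    coeff (b + 2 ^ k * m) (U1 * P2 ^ t) ≠ w1 (b + 2 ^ k * m)

open scoped Classical in
/-- the number of the good classes -/
noncomputable def gdc (V k t : ℕ) (U0 U1 : S) : ℕ := #{b ∈ range (2 ^ k) | G3 V k b t U0 U1}

open scoped Classical in
/-- the number of the good classes with a hit -/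
noncomputable def htc (V J k t : ℕ) (U0 U1 : S) (w0 w1 : ℕ → ZMod 2) : ℕ :=
  #{b ∈ range (2 ^ k) | G3 V k b t U0 U1 ∧ hit J k t U0 U1 w0 w1 b}

theorem mod_mod_pow (t k J : ℕ) : t % 2 ^ (k + J) % 2 ^ k = t % 2 ^ k := by
  rw [pow_add]
  exact Nat.mod_mul_right_mod _ _ _

theorem gd_congr (V k : ℕ) (U0 U1 : S) (b : ℕ) {t t' : ℕ} (h : t % 2 ^ k = t' % 2 ^ k) :
    G3 V k b t U0 U1 = G3 V k b t' U0 U1 := by
  unfold G3
  rw [← node_mod P2 k b t U0, ← node_mod P2 k b t U1, ← node_mod P2 k b t (U0 + U1), h, node_mod,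
    node_mod, node_mod]

theorem hit_mod (J k t : ℕ) (U0 U1 : S) (w0 w1 : ℕ → ZMod 2) (b : ℕ) (hb : b < 2 ^ k) :
    hit J k (t % 2 ^ (k + J)) U0 U1 w0 w1 b ↔ hit J k t U0 U1 w0 w1 b := by
  have key : ∀ m < 2 ^ J, ∀ U : S, coeff (b + 2 ^ k * m) (U * P2 ^ (t % 2 ^ (k + J))) =
      coeff (b + 2 ^ k * m) (U * P2 ^ t) := by
    intro m hm U
    have hn : b + 2 ^ k * m < 2 ^ (k + J) := by
      rw [pow_add]
      calc b + 2 ^ k * m < 2 ^ k + 2 ^ k * m := Nat.add_lt_add_right hb _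
        _ = 2 ^ k * (m + 1) := by ring
        _ ≤ 2 ^ k * 2 ^ J := Nat.mul_le_mul_left _ hm
    exact coeff_congr isP_P2.zero U hn (Nat.mod_modEq _ _)
  unfold hit
  constructor
  · rintro ⟨m, hm, h0, h1⟩
    rw [key m hm] at h0 h1
    exact ⟨m, hm, h0, h1⟩
  · rintro ⟨m, hm, h0, h1⟩
    rw [← key m hm] at h0 h1
    exact ⟨m, hm, h0, h1⟩

theorem gdc_congr (V k : ℕ) (U0 U1 : S) {t t' : ℕ} (h : t % 2 ^ k = t' % 2 ^ k) :
    gdc V k t U0 U1 = gdc V k t' U0 U1 := by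
  classical
  unfold gdc
  congr 1
  exact filter_congr fun b _ => by rw [gd_congr V k U0 U1 b h]

theorem htc_mod (V J k t : ℕ) (U0 U1 : S) (w0 w1 : ℕ → ZMod 2) :
    htc V J k (t % 2 ^ (k + J)) U0 U1 w0 w1 = htc V J k t U0 U1 w0 w1 := by
  classical
  unfold htc
  congr 1
  refine filter_congr fun b hb => ?_
  rw [gd_congr V k U0 U1 b (mod_mod_pow t k J), hit_mod J k t U0 U1 w0 w1 b (mem_range.1 hb)]

theorem gdc_le (V k t : ℕ) (U0 U1 : S) : gdc V k t U0 U1 ≤ 2 ^ k := by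
  classical
  unfold gdc
  exact (card_filter_le _ _).trans (card_range _).le

theorem htc_le (V J k t : ℕ) (U0 U1 : S) (w0 w1 : ℕ → ZMod 2) : htc V J k t U0 U1 w0 w1 ≤ 2 ^ k := by
  classical
  unfold htc
  exact (card_filter_le _ _).trans (card_range _).le

/-- the hits are counted -/
theorem htc_N2 (V J k t : ℕ) (U0 U1 : S) (w0 w1 : ℕ → ZMod 2) :
    htc V J k t U0 U1 w0 w1 ≤ N2 (2 ^ (k + J)) U0 U1 w0 w1 t := by
  classical
  unfold htc N2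
  refine le_trans (card_le_card ?_) (card_image_le (f := fun n => n % 2 ^ k))
  intro b hb
  rw [mem_filter, mem_range] at hb
  obtain ⟨hbk, -, m, hm, h0, h1⟩ := hb
  rw [mem_image]
  refine ⟨b + 2 ^ k * m, ?_, ?_⟩
  · rw [mem_filter, mem_range]
    refine ⟨?_, h0, h1⟩
    rw [pow_add]
    calc b + 2 ^ k * m < 2 ^ k + 2 ^ k * m := Nat.add_lt_add_right hbk _
      _ = 2 ^ k * (m + 1) := by ring
      _ ≤ 2 ^ k * 2 ^ J := Nat.mul_le_mul_left _ hm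
  · show (b + 2 ^ k * m) % 2 ^ k = b
    rw [Nat.add_mul_mod_self_left, Nat.mod_eq_of_lt hbk]

/-- every good class has a hit for one of the digits -/
theorem sum_htc (hl : S_LOC) (ha' : S_ADD) (V k : ℕ) (U0 U1 : S) (w0 w1 : ℕ → ZMod 2) (a : ℕ)
    (ha : a < 2 ^ k) :
    gdc V k a U0 U1 ≤
      ∑ s ∈ range (2 ^ (V + 1)), htc V (V + 1) k (a + 2 ^ k * s) U0 U1 w0 w1 := by
  classical
  unfold gdc htc
  refine le_trans (card_le_card ?_) card_biUnion_le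
  intro b hb
  rw [mem_filter, mem_range] at hb
  obtain ⟨hbk, hg0, hg1, hg2⟩ := hb
  have hg2' : Gv V (node P2 k b a U0 + node P2 k b a U1) := by
    rw [← ha' k b a U0 U1]
    exact hg2
  obtain ⟨m, hm, hτ⟩ := hl V V Nat.lt_two_pow_self.le _ _ hg0 hg1 hg2'
  obtain ⟨τ, hτ1, hτ2, hτ3⟩ := hτ (w0 (b + 2 ^ k * m) + 1) (w1 (b + 2 ^ k * m) + 1)
  have hne : ∀ x : ZMod 2, x + 1 ≠ x := by decide
  rw [mem_biUnion]
  refine ⟨τ, mem_range.2 hτ1, ?_⟩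
  rw [mem_filter, mem_range]
  refine ⟨hbk, ?_, m, hm, ?_, ?_⟩
  · rw [gd_congr V k U0 U1 b (t' := a) (Nat.add_mul_mod_self_left _ _ _)]
    exact ⟨hg0, hg1, hg2⟩
  · rw [coeff_shift m τ U0 hbk ha, hτ2]
    exact hne _
  · rw [coeff_shift m τ U1 hbk ha, hτ3]
    exact hne _

/-- many classes are good for the three series -/
theorem gdc_ge (V k t : ℕ) (U0 U1 : S) :
    Yf V U0 k t + Yf V U1 k t + Yf V (U0 + U1) k t - 2 ≤ (gdc V k t U0 U1 : ℝ) / 2 ^ k := by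
  classical
  obtain ⟨A, hA⟩ : ∃ A : Finset ℕ, A = {b ∈ range (2 ^ k) | Gv V (node P2 k b t U0)} := ⟨_, rfl⟩
  obtain ⟨B, hB⟩ : ∃ B : Finset ℕ, B = {b ∈ range (2 ^ k) | Gv V (node P2 k b t U1)} := ⟨_, rfl⟩
  obtain ⟨D, hD⟩ : ∃ D : Finset ℕ, D = {b ∈ range (2 ^ k) | Gv V (node P2 k b t (U0 + U1))} := ⟨_, rfl⟩
  have hAs : A ⊆ range (2 ^ k) := by rw [hA]; exact filter_subset _ _
  have hBs : B ⊆ range (2 ^ k) := by rw [hB]; exact filter_subset _ _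
  have hDs : D ⊆ range (2 ^ k) := by rw [hD]; exact filter_subset _ _
  have hAB : #A + #B ≤ #(A ∩ B) + 2 ^ k := by
    rw [← card_union_add_card_inter, add_comm]
    exact Nat.add_le_add_left ((card_le_card (union_subset hAs hBs)).trans (card_range _).le) _
  have hABD : #(A ∩ B) + #D ≤ #((A ∩ B) ∩ D) + 2 ^ k := by
    rw [← card_union_add_card_inter, add_comm]
    exact Nat.add_le_add_left ((card_le_card (union_subset (inter_subset_left.trans hAs) hDs)).trans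
      (card_range _).le) _
  have hsub : #((A ∩ B) ∩ D) ≤ gdc V k t U0 U1 := by
    unfold gdc
    refine card_le_card ?_
    intro b hb
    rw [mem_inter, mem_inter, hA, hB, hD, mem_filter, mem_filter, mem_filter] at hb
    rw [mem_filter]
    exact ⟨hb.2.1, hb.1.1.2, hb.1.2.2, hb.2.2⟩
  have h1 : #A + #B + #D ≤ gdc V k t U0 U1 + 2 * 2 ^ k := by omega
  have h2 : (#A : ℝ) + #B + #D ≤ gdc V k t U0 U1 + 2 * 2 ^ k := by exact_mod_cast h1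
  have e0 : Yf V U0 k t = (#A : ℝ) / 2 ^ k := by
    unfold Yf
    rw [hA]
  have e1 : Yf V U1 k t = (#B : ℝ) / 2 ^ k := by
    unfold Yf
    rw [hB]
  have e2 : Yf V (U0 + U1) k t = (#D : ℝ) / 2 ^ k := by
    unfold Yf
    rw [hD]
  rw [e0, e1, e2, ← add_div, ← add_div, sub_le_iff_le_add, div_le_iff₀ (by positivity), add_mul,
    div_mul_cancel₀ _ (by positivity)]
  exact h2

/-- the function for the law of large numbers -/
noncomputable def ff (V J : ℕ) (U0 U1 : S) (w0 w1 : ℕ → ZMod 2) (k t : ℕ) : ℝ :=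
  if J ≤ k then (1 + (gdc V (k - J) t U0 U1 : ℝ) / 2 ^ k -
    (htc V J (k - J) t U0 U1 w0 w1 : ℝ) / 2 ^ (k - J)) / 2 else 0

theorem ff_bd (V J : ℕ) (U0 U1 : S) (w0 w1 : ℕ → ZMod 2) (k t : ℕ) :
    0 ≤ ff V J U0 U1 w0 w1 k t ∧ ff V J U0 U1 w0 w1 k t ≤ 1 := by
  unfold ff
  split_ifs with h
  · have h1 : (gdc V (k - J) t U0 U1 : ℝ) ≤ 2 ^ (k - J) := by exact_mod_cast gdc_le _ _ _ _ _
    have h2 : (htc V J (k - J) t U0 U1 w0 w1 : ℝ) ≤ 2 ^ (k - J) := by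
      exact_mod_cast htc_le _ _ _ _ _ _ _ _
    have h3 : (2 : ℝ) ^ (k - J) ≤ 2 ^ k := pow_le_pow_right₀ (by norm_num) (Nat.sub_le _ _)
    have h4 : (gdc V (k - J) t U0 U1 : ℝ) / 2 ^ k ≤ 1 := by
      rw [div_le_one (by positivity)]
      exact h1.trans h3
    have h5 : (htc V J (k - J) t U0 U1 w0 w1 : ℝ) / 2 ^ (k - J) ≤ 1 := by
      rw [div_le_one (by positivity)]
      exact h2
    have h6 : (0 : ℝ) ≤ (gdc V (k - J) t U0 U1 : ℝ) / 2 ^ k := by positivity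
    have h7 : (0 : ℝ) ≤ (htc V J (k - J) t U0 U1 w0 w1 : ℝ) / 2 ^ (k - J) := by positivity
    constructor <;> linarith
  · exact ⟨le_rfl, zero_le_one⟩

theorem ff_mod (V J : ℕ) (U0 U1 : S) (w0 w1 : ℕ → ZMod 2) (k t : ℕ) :
    ff V J U0 U1 w0 w1 k (t % 2 ^ k) = ff V J U0 U1 w0 w1 k t := by
  unfold ff
  split_ifs with h
  · obtain ⟨m, rfl⟩ : ∃ m, k = m + J := ⟨k - J, by omega⟩
    rw [Nat.add_sub_cancel, htc_mod, gdc_congr V m U0 U1 (mod_mod_pow t m J)]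
  · rfl

theorem ff_block (hl : S_LOC) (ha' : S_ADD) (V : ℕ) (U0 U1 : S) (w0 w1 : ℕ → ZMod 2) (k : ℕ)
    (hk : V + 1 ≤ k) (a : ℕ) (ha : a < 2 ^ (k - (V + 1))) :
    ∑ s ∈ range (2 ^ (V + 1)), ff V (V + 1) U0 U1 w0 w1 k (a + 2 ^ (k - (V + 1)) * s) ≤
      1 / 2 * 2 ^ (V + 1) := by
  obtain ⟨m, rfl⟩ : ∃ m, k = m + (V + 1) := ⟨k - (V + 1), by omega⟩
  rw [Nat.add_sub_cancel] at ha ⊢
  have h1 : ∀ s ∈ range (2 ^ (V + 1)), ff V (V + 1) U0 U1 w0 w1 (m + (V + 1)) (a + 2 ^ m * s) =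
      (1 + (gdc V m a U0 U1 : ℝ) / 2 ^ (m + (V + 1)) -
        (htc V (V + 1) m (a + 2 ^ m * s) U0 U1 w0 w1 : ℝ) / 2 ^ m) / 2 := by
    intro s _
    unfold ff
    rw [if_pos hk, Nat.add_sub_cancel, gdc_congr V m U0 U1 (t' := a) (Nat.add_mul_mod_self_left _ _ _)]
  rw [sum_congr rfl h1, ← sum_div, sum_sub_distrib, ← sum_div, sum_const, card_range, nsmul_eq_mul]
  have h2 : (gdc V m a U0 U1 : ℝ) ≤
      ∑ s ∈ range (2 ^ (V + 1)), (htc V (V + 1) m (a + 2 ^ m * s) U0 U1 w0 w1 : ℝ) := by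
    exact_mod_cast sum_htc hl ha' V m U0 U1 w0 w1 a ha
  have h3 : (gdc V m a U0 U1 : ℝ) / 2 ^ m ≤
      (∑ s ∈ range (2 ^ (V + 1)), (htc V (V + 1) m (a + 2 ^ m * s) U0 U1 w0 w1 : ℝ)) / 2 ^ m :=
    div_le_div_of_nonneg_right h2 (by positivity)
  have h4 : (((2 ^ (V + 1) : ℕ) : ℝ)) * (1 + (gdc V m a U0 U1 : ℝ) / 2 ^ (m + (V + 1))) =
      2 ^ (V + 1) + (gdc V m a U0 U1 : ℝ) / 2 ^ m := by
    push_cast
    rw [mul_add, mul_one]
    congr 1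
    rw [pow_add 2 m (V + 1)]
    field_simp
  rw [h4]
  linarith

theorem step_le (V J : ℕ) (U0 U1 : S) (w0 w1 : ℕ → ZMod 2) (k t : ℕ) :
    (1 + (Yf V U0 k t + Yf V U1 k t + Yf V (U0 + U1) k t - 2) / 2 ^ J -
      2 * ff V J U0 U1 w0 w1 (k + J) t) / 2 ^ J ≤
      (N2 (2 ^ (k + J)) U0 U1 w0 w1 t : ℝ) / 2 ^ (k + J) := by
  have h1 : ff V J U0 U1 w0 w1 (k + J) t = (1 + (gdc V k t U0 U1 : ℝ) / 2 ^ (k + J) -
      (htc V J k t U0 U1 w0 w1 : ℝ) / 2 ^ k) / 2 := by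
    unfold ff
    rw [if_pos (Nat.le_add_left _ _), Nat.add_sub_cancel]
  have h2 := gdc_ge V k t U0 U1
  have h3 : (htc V J k t U0 U1 w0 w1 : ℝ) ≤ N2 (2 ^ (k + J)) U0 U1 w0 w1 t := by
    exact_mod_cast htc_N2 V J k t U0 U1 w0 w1
  have h4 : (Yf V U0 k t + Yf V U1 k t + Yf V (U0 + U1) k t - 2) / 2 ^ J ≤
      (gdc V k t U0 U1 : ℝ) / 2 ^ (k + J) := by
    rw [pow_add, ← div_div]
    exact div_le_div_of_nonneg_right h2 (by positivity)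
  have h5 : (htc V J k t U0 U1 w0 w1 : ℝ) / 2 ^ k ≤
      (N2 (2 ^ (k + J)) U0 U1 w0 w1 t : ℝ) / 2 ^ k :=
    div_le_div_of_nonneg_right h3 (by positivity)
  have h6 : (N2 (2 ^ (k + J)) U0 U1 w0 w1 t : ℝ) / 2 ^ (k + J) =
      (N2 (2 ^ (k + J)) U0 U1 w0 w1 t : ℝ) / 2 ^ k / 2 ^ J := by
    rw [div_div, ← pow_add]
  rw [h1, h6]
  apply div_le_div_of_nonneg_right _ (by positivity)
  linarith

/-- one dyadic scale, for a typical `t` -/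
theorem scale (V J : ℕ) (hJ : J = V + 1) (Q : ℝ) (hQ : Q = 2 ^ J) (U0 U1 : S) (w0 w1 : ℕ → ZMod 2)
    (K t : ℕ) (hKg : 16 * V * Q ≤ (K : ℝ))
    (h0 : (1 - 1 / 12 : ℝ) * K ≤ ∑ k ∈ range K, Yf V U0 k t)
    (h1 : (1 - 1 / 12 : ℝ) * K ≤ ∑ k ∈ range K, Yf V U1 k t)
    (h2 : (1 - 1 / 12 : ℝ) * K ≤ ∑ k ∈ range K, Yf V (U0 + U1) k t)
    (h3 : ∑ k ∈ Ico J (K + V + 1), ff V J U0 U1 w0 w1 k t ≤
      (1 / 2 + 1 / (16 * Q) : ℝ) * ((K + V : ℕ) : ℝ)) :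
    (K : ℝ) / (2 * Q ^ 2) ≤ ∑ k ∈ range K, (N2 (2 ^ (k + J)) U0 U1 w0 w1 t : ℝ) / 2 ^ (k + J) := by
  have hQ1 : 1 ≤ Q := by
    rw [hQ]
    exact one_le_pow₀ (by norm_num)
  have hQ0 : 0 < Q := by linarith
  have hV0 : (0 : ℝ) ≤ V := Nat.cast_nonneg _
  have e1 : ∑ k ∈ Ico J (K + V + 1), ff V J U0 U1 w0 w1 k t =
      ∑ k ∈ range K, ff V J U0 U1 w0 w1 (k + J) t := by
    rw [sum_Ico_eq_sum_range]
    have : K + V + 1 - J = K := by omega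
    rw [this]
    exact sum_congr rfl fun k _ => by rw [add_comm]
  rw [e1] at h3
  have h5 : ∑ k ∈ range K,
      (1 + (Yf V U0 k t + Yf V U1 k t + Yf V (U0 + U1) k t - 2) / 2 ^ J -
        2 * ff V J U0 U1 w0 w1 (k + J) t) / 2 ^ J ≤
      ∑ k ∈ range K, (N2 (2 ^ (k + J)) U0 U1 w0 w1 t : ℝ) / 2 ^ (k + J) :=
    sum_le_sum fun k _ => step_le V J U0 U1 w0 w1 k t
  refine le_trans ?_ h5
  rw [← hQ, ← sum_div, sum_sub_distrib, sum_add_distrib, ← sum_div, sum_sub_distrib,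
    sum_add_distrib, sum_add_distrib, ← mul_sum, sum_const, sum_const, card_range, nsmul_eq_mul,
    nsmul_eq_mul, mul_one]
  obtain ⟨Y, hY⟩ : ∃ Y : ℝ, Y = ∑ k ∈ range K, Yf V U0 k t + ∑ k ∈ range K, Yf V U1 k t +
    ∑ k ∈ range K, Yf V (U0 + U1) k t := ⟨_, rfl⟩
  obtain ⟨F, hF⟩ : ∃ F : ℝ, F = ∑ k ∈ range K, ff V J U0 U1 w0 w1 (k + J) t := ⟨_, rfl⟩
  rw [← hY, ← hF]
  rw [← hF] at h3
  push_cast at h3
  have hYb : 3 / 4 * (K : ℝ) ≤ Y - K * 2 := by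
    rw [hY]
    linarith
  obtain ⟨x, hx⟩ : ∃ x : ℝ, x = K / (16 * Q) := ⟨_, rfl⟩
  have h8 : 12 * x ≤ (Y - K * 2) / Q := by
    rw [le_div_iff₀ hQ0, hx]
    have : 12 * (K / (16 * Q)) * Q = 3 / 4 * (K : ℝ) := by
      field_simp
      ring
    rw [this]
    exact hYb
  have h9 : (1 / 2 + 1 / (16 * Q)) * ((K : ℝ) + V) =
      K / 2 + V / 2 + x + V / (16 * Q) := by
    rw [hx]
    field_simp
    ring
  rw [h9] at h3
  have h12 : (V : ℝ) ≤ x := by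
    rw [hx, le_div_iff₀ (by positivity)]
    linarith
  have h13 : (V : ℝ) / (16 * Q) ≤ V / 16 := by
    rw [div_le_div_iff₀ (by positivity) (by norm_num)]
    nlinarith
  have h14 : (K : ℝ) / (2 * Q ^ 2) = 8 * x / Q := by
    rw [hx]
    field_simp
    ring
  rw [h14]
  apply div_le_div_of_nonneg_right _ hQ0.le
  linarith

theorem geo (i1 M : ℕ) : ∑ i ∈ Ico i1 M, (1 : ℝ) / 2 ^ i ≤ 2 / 2 ^ i1 := by
  have key : ∀ n : ℕ, ∑ i ∈ Ico i1 (i1 + n), (1 : ℝ) / 2 ^ i = 2 / 2 ^ i1 - 2 / 2 ^ (i1 + n) := by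
    intro n
    induction n with
    | zero => simp
    | succ n ih =>
      rw [← add_assoc, sum_Ico_succ_top (by omega), ih, pow_succ]
      have : (2 : ℝ) ^ (i1 + n) ≠ 0 := by positivity
      field_simp
      ring
  rcases Nat.lt_or_ge M i1 with h | h
  · rw [Ico_eq_empty (by omega), sum_empty]
    positivity
  · obtain ⟨n, rfl⟩ := Nat.exists_eq_add_of_le h
    rw [key]
    have : (0 : ℝ) ≤ 2 / 2 ^ (i1 + n) := by positivity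
    linarith

theorem gp (h4 : S_GD4) (hv : S_VAR) (hl : S_LOC) (ha : S_ADD) : S_GP := by
  classical
  obtain ⟨V, H4⟩ := h4 (1 / 12) (by norm_num)
  obtain ⟨J, hJ⟩ : ∃ J, J = V + 1 := ⟨_, rfl⟩
  obtain ⟨Q, hQ⟩ : ∃ Q : ℝ, Q = 2 ^ J := ⟨_, rfl⟩
  have hQ1 : 1 ≤ Q := by
    rw [hQ]
    exact one_le_pow₀ (by norm_num)
  have hQ0 : 0 < Q := by linarith
  refine ⟨J, 1 / (4 * Q ^ 2), by positivity, fun U0 U1 hU0 hU1 hU2 ε hε => ?_⟩
  obtain ⟨K0, HK0⟩ := H4 U0 hU0 (ε / 6) (by positivity)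
  obtain ⟨K1, HK1⟩ := H4 U1 hU1 (ε / 6) (by positivity)
  obtain ⟨K2, HK2⟩ := H4 (U0 + U1) hU2 (ε / 6) (by positivity)
  have hV0 : (0 : ℝ) ≤ V := Nat.cast_nonneg _
  have hJ1 : (1 : ℝ) ≤ J := by
    rw [hJ]
    push_cast
    linarith
  obtain ⟨Cc, hCc⟩ : ∃ Cc : ℝ, Cc = 4 * J / (1 / (16 * Q)) ^ 2 := ⟨_, rfl⟩
  have hCc0 : 0 < Cc := by
    rw [hCc]
    positivity
  obtain ⟨n1, hn1⟩ : ∃ n1 : ℕ, 16 * V * Q ≤ n1 := exists_nat_ge _
  obtain ⟨n2, hn2⟩ : ∃ n2 : ℕ, 4 * Cc / ε ≤ n2 := exists_nat_ge _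
  obtain ⟨i1, hi1⟩ : ∃ i1 : ℕ, i1 = K0 + K1 + K2 + n1 + n2 := ⟨_, rfl⟩
  have hi1p : i1 < 2 ^ i1 := Nat.lt_two_pow_self
  refine ⟨2 ^ i1, ?_⟩
  intro w0 w1 N
  obtain ⟨Ei, hEi⟩ : ∃ Ei : ℕ → Finset ℕ, Ei = fun i => {t ∈ range (2 ^ N) |
    (1 / 2 + 1 / (16 * Q) : ℝ) * ((2 ^ i + V : ℕ) : ℝ) <
      ∑ k ∈ Ico J (2 ^ i + V + 1), ff V J U0 U1 w0 w1 k t} := ⟨_, rfl⟩
  obtain ⟨I, hI⟩ : ∃ I : Finset ℕ, I = {i ∈ Ico i1 (N + 1) | 2 ^ i + V ≤ N} := ⟨_, rfl⟩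
  have hEcard : ∀ i ∈ I, (#(Ei i) : ℝ) ≤ Cc * (1 / 2 ^ i) * 2 ^ N := by
    intro i hi
    rw [hI, mem_filter] at hi
    have h1 : 1 ≤ 2 ^ i := Nat.one_le_two_pow
    have hV := hv N (2 ^ i + V) J (ff V J U0 U1 w0 w1) (1 / 2) (1 / (16 * Q)) (by omega) (by omega)
      hi.2 (by positivity) (fun k t => ff_bd _ _ _ _ _ _ _ _)
      (fun k t => ff_mod _ _ _ _ _ _ _ _) (by
        intro k hk a ha'
        subst hJ
        exact ff_block hl ha V U0 U1 w0 w1 k hk a ha')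
    rw [hEi]
    refine hV.trans ?_
    apply mul_le_mul_of_nonneg_right _ (by positivity)
    have e1 : 4 * (J : ℝ) / ((1 / (16 * Q)) ^ 2 * ((2 ^ i + V : ℕ) : ℝ)) =
        Cc * (1 / ((2 ^ i + V : ℕ) : ℝ)) := by
      rw [hCc, mul_one_div, div_div]
    rw [e1]
    apply mul_le_mul_of_nonneg_left _ hCc0.le
    apply one_div_le_one_div_of_le (by positivity)
    push_cast
    linarith
  have hsub : {t ∈ range (2 ^ N) | ∃ K : ℕ, 2 ^ i1 ≤ K ∧ 8 * (K + J) ≤ N ∧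
      ∑ k ∈ range K, (N2 (2 ^ (k + J)) U0 U1 w0 w1 t : ℝ) / 2 ^ (k + J) < 1 / (4 * Q ^ 2) * K} ⊆
      (({t ∈ range (2 ^ N) | ∃ K : ℕ, K0 ≤ K ∧ 8 * K ≤ N ∧
          ∑ k ∈ range K, Yf V U0 k t < (1 - 1 / 12) * K} ∪
        {t ∈ range (2 ^ N) | ∃ K : ℕ, K1 ≤ K ∧ 8 * K ≤ N ∧
          ∑ k ∈ range K, Yf V U1 k t < (1 - 1 / 12) * K}) ∪
        {t ∈ range (2 ^ N) | ∃ K : ℕ, K2 ≤ K ∧ 8 * K ≤ N ∧
          ∑ k ∈ range K, Yf V (U0 + U1) k t < (1 - 1 / 12) * K}) ∪ I.biUnion Ei := by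
    intro t ht
    rw [mem_filter] at ht
    obtain ⟨htN, K, hK1, hK2, hK3⟩ := ht
    rw [mem_union, mem_union, mem_union, mem_filter, mem_filter, mem_filter, mem_biUnion]
    by_contra hne
    obtain ⟨i, hi⟩ : ∃ i, i = Nat.log 2 K := ⟨_, rfl⟩
    have hKpos : K ≠ 0 := by
      have : 1 ≤ 2 ^ i1 := Nat.one_le_two_pow
      omega
    have hiK : 2 ^ i ≤ K := by
      rw [hi]
      exact Nat.pow_log_le_self 2 hKpos
    have hKi : K < 2 ^ (i + 1) := by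
      rw [hi]
      exact Nat.lt_pow_succ_log_self (by norm_num) K
    have hii1 : i1 ≤ i := by
      have h1 : 2 ^ i1 < 2 ^ (i + 1) := lt_of_le_of_lt hK1 hKi
      have h2 := (Nat.pow_lt_pow_iff_right (by norm_num : 1 < 2)).mp h1
      omega
    have hii : i < 2 ^ i := Nat.lt_two_pow_self
    have h0 : (1 - 1 / 12 : ℝ) * ((2 ^ i : ℕ) : ℝ) ≤ ∑ k ∈ range (2 ^ i), Yf V U0 k t := by
      by_contra hc
      exact hne (Or.inl (Or.inl (Or.inl ⟨htN, 2 ^ i, by omega, by omega, not_le.mp hc⟩)))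
    have h1 : (1 - 1 / 12 : ℝ) * ((2 ^ i : ℕ) : ℝ) ≤ ∑ k ∈ range (2 ^ i), Yf V U1 k t := by
      by_contra hc
      exact hne (Or.inl (Or.inl (Or.inr ⟨htN, 2 ^ i, by omega, by omega, not_le.mp hc⟩)))
    have h2 : (1 - 1 / 12 : ℝ) * ((2 ^ i : ℕ) : ℝ) ≤ ∑ k ∈ range (2 ^ i), Yf V (U0 + U1) k t := by
      by_contra hc
      exact hne (Or.inl (Or.inr ⟨htN, 2 ^ i, by omega, by omega, not_le.mp hc⟩))
    have h3 : ∑ k ∈ Ico J (2 ^ i + V + 1), ff V J U0 U1 w0 w1 k t ≤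
        (1 / 2 + 1 / (16 * Q) : ℝ) * ((2 ^ i + V : ℕ) : ℝ) := by
      by_contra hc
      refine hne (Or.inr ⟨i, ?_, ?_⟩)
      · rw [hI, mem_filter, mem_Ico]
        exact ⟨⟨hii1, by omega⟩, by omega⟩
      · rw [hEi]
        exact mem_filter.mpr ⟨htN, not_le.mp hc⟩
    have hbig : 16 * V * Q ≤ ((2 ^ i : ℕ) : ℝ) := by
      have h5 : n1 ≤ 2 ^ i := by omega
      have h6 : (n1 : ℝ) ≤ ((2 ^ i : ℕ) : ℝ) := by exact_mod_cast h5
      linarith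
    have h7 := scale V J hJ Q hQ U0 U1 w0 w1 (2 ^ i) t hbig h0 h1 h2 h3
    have h8 : ∑ k ∈ range (2 ^ i), (N2 (2 ^ (k + J)) U0 U1 w0 w1 t : ℝ) / 2 ^ (k + J) ≤
        ∑ k ∈ range K, (N2 (2 ^ (k + J)) U0 U1 w0 w1 t : ℝ) / 2 ^ (k + J) := by
      refine sum_le_sum_of_subset_of_nonneg (range_subset_range.mpr hiK) ?_
      intro k _ _
      positivity
    have h9 : (K : ℝ) ≤ 2 * ((2 ^ i : ℕ) : ℝ) := by
      have : K ≤ 2 * 2 ^ i := by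
        rw [pow_succ] at hKi
        omega
      exact_mod_cast this
    have h10 : 1 / (4 * Q ^ 2) * (K : ℝ) ≤ ((2 ^ i : ℕ) : ℝ) / (2 * Q ^ 2) := by
      rw [one_div_mul_eq_div, div_le_div_iff₀ (by positivity) (by positivity)]
      have hQ2 : 0 < Q ^ 2 := by positivity
      nlinarith
    linarith
  have hc := card_le_card hsub
  have hc2 := hc.trans ((card_union_le _ _).trans (Nat.add_le_add ((card_union_le _ _).trans
    (Nat.add_le_add_right (card_union_le _ _) _)) card_biUnion_le))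
  have hc3 : (#{t ∈ range (2 ^ N) | ∃ K : ℕ, 2 ^ i1 ≤ K ∧ 8 * (K + J) ≤ N ∧
      ∑ k ∈ range K, (N2 (2 ^ (k + J)) U0 U1 w0 w1 t : ℝ) / 2 ^ (k + J) < 1 / (4 * Q ^ 2) * K} : ℝ) ≤
      ((#{t ∈ range (2 ^ N) | ∃ K : ℕ, K0 ≤ K ∧ 8 * K ≤ N ∧
          ∑ k ∈ range K, Yf V U0 k t < (1 - 1 / 12) * K} : ℝ) +
        (#{t ∈ range (2 ^ N) | ∃ K : ℕ, K1 ≤ K ∧ 8 * K ≤ N ∧
          ∑ k ∈ range K, Yf V U1 k t < (1 - 1 / 12) * K} : ℝ)) +
        (#{t ∈ range (2 ^ N) | ∃ K : ℕ, K2 ≤ K ∧ 8 * K ≤ N ∧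
          ∑ k ∈ range K, Yf V (U0 + U1) k t < (1 - 1 / 12) * K} : ℝ) +
        ∑ i ∈ I, (#(Ei i) : ℝ) := by
    exact_mod_cast hc2
  have hsumE : ∑ i ∈ I, (#(Ei i) : ℝ) ≤ ε / 2 * 2 ^ N := by
    refine (sum_le_sum hEcard).trans ?_
    rw [← sum_mul, ← mul_sum]
    apply mul_le_mul_of_nonneg_right _ (by positivity)
    have h1 : ∑ i ∈ I, (1 : ℝ) / 2 ^ i ≤ 2 / 2 ^ i1 := by
      refine le_trans (sum_le_sum_of_subset_of_nonneg ?_ ?_) (geo i1 (N + 1))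
      · rw [hI]
        exact filter_subset _ _
      · intro i _ _
        positivity
    have h2 : Cc * ∑ i ∈ I, (1 : ℝ) / 2 ^ i ≤ Cc * (2 / 2 ^ i1) :=
      mul_le_mul_of_nonneg_left h1 hCc0.le
    refine h2.trans ?_
    have h3 : 4 * Cc / ε ≤ 2 ^ i1 := by
      refine hn2.trans ?_
      have : n2 ≤ 2 ^ i1 := by omega
      exact_mod_cast this
    rw [div_le_iff₀ hε] at h3
    rw [← mul_div_assoc, div_le_iff₀ (by positivity)]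
    linarith
  have g0 := HK0 N
  have g1 := HK1 N
  have g2 := HK2 N
  refine hc3.trans ?_
  linarith

end Pool.Agent.H227.TWGP
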