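import Pool.Agent.H558.TW.AsmP
import Pool.Agent.H558.TW.ADD
import Pool.Agent.H558.TW.LOC
import Pool.Agent.H558.TW.GP
import Pool.Agent.H558.TW.GL
import Pool.Agent.H558.TW.GE

set_option autoImplicit false

/-!
# Assembly: lower logarithmic density for two patterns
-/

namespace Pool.Agent.H558.TW

open Pool.Agent.H558.PP

theorem hGP : S_GP := Pool.Agent.H227.TWGP.gp hGD4 Pool.Agent.H399.PPVAR.var
  Pool.Agent.H387.TWLOC.loc Pool.Agent.H874.TWADD.add

theorem hGE : S_GE := Pool.Agent.H39.TWGE.ge (Pool.Agent.H120.TWGL.gl hGP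
  Pool.Agent.H874.TWADD.add (Pool.Agent.H894.TWNZC.nzc hN1))

end Pool.Agent.H558.TW
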