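import Pool.Agent.H558.TW.Stm6
import Pool.Agent.H558.TW.CLN

set_option autoImplicit false

/-!
# Most scales: residue classes
-/

namespace Pool.Agent.H558.TWHC

open PowerSeries Finset Pool.Agent.R836.PP Pool.Agent.H558.KK Pool.Agent.H558.PP
  Pool.Agent.H558.TW
open Pool.Agent.K7.H72.MT hiding W few dis DD dis_stable dis_vary DD_stable DD_sum DD_block few_bad
  dis_le DD_le base count

open scoped Classical in
/-- from the classes of `t` modulo `2 ^ b` to all odd `t` -/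
theorem core (b L : ℕ) (hb1 : 1 ≤ b) (F : ℕ → ℕ → ℝ) (G : ℕ → ℕ → ℕ → ℝ)
    (hFG : ∀ t k, b ≤ k → G (t % 2 ^ b) (t / 2 ^ b) (k - b) ≤ L + F t k)
    (ε ε' δ0 : ℝ) (hε : 0 < ε) (hε' : 0 < ε') (hδ0 : 0 < δ0) (I : ℕ → ℕ) (kL : ℕ)
    (hkL : (L : ℝ) ≤ δ0 / 2 * 2 ^ kL)
    (hI : ∀ t₀, t₀ % 2 = 1 → t₀ < 2 ^ b → ∀ N : ℕ,
      (#{t ∈ range (2 ^ N) | ∃ K : ℕ, I t₀ ≤ K ∧ 8 * K ≤ N ∧
        ε / 2 * K < (#{k ∈ range K | G t₀ t k < δ0 * 2 ^ k} : ℝ)} : ℝ) ≤ ε' * 2 ^ N)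
    (K0 : ℕ) (hK0 : b + ∑ t₀ ∈ range (2 ^ b), I t₀ + 1 ≤ K0)
    (hK0' : ((b + kL : ℕ) : ℝ) ≤ ε / 2 * K0) (N : ℕ) :
    (Set.ncard {t : ℕ | t < 2 ^ N ∧ t % 2 = 1 ∧ ∃ K : ℕ, K0 ≤ K ∧ 8 * K ≤ N ∧
      ε * K < (#{k ∈ range K | F t k < δ0 / 2 ^ (b + 1) * 2 ^ k} : ℝ)} : ℝ) ≤ ε' * 2 ^ N := by
  have hP : 0 < 2 ^ b := by positivity
  have h2b : 2 ∣ 2 ^ b := dvd_pow_self 2 (by omega)
  set Pr : ℕ → Prop := fun t => ∃ K : ℕ, K0 ≤ K ∧ 8 * K ≤ N ∧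
      ε * K < (#{k ∈ range K | F t k < δ0 / 2 ^ (b + 1) * 2 ^ k} : ℝ) with hPr
  have hset : {t : ℕ | t < 2 ^ N ∧ t % 2 = 1 ∧ Pr t} =
      (({t ∈ range (2 ^ N) | t % 2 = 1 ∧ Pr t} : Finset ℕ) : Set ℕ) := by
    ext t
    simp only [Set.mem_ofPred_eq, coe_filter, mem_range]
  change (Set.ncard {t : ℕ | t < 2 ^ N ∧ t % 2 = 1 ∧ Pr t} : ℝ) ≤ ε' * 2 ^ N
  rw [hset, Set.ncard_coe_finset]
  rcases Nat.lt_or_ge N b with hNb' | hbN
  · have h1 : ({t ∈ range (2 ^ N) | t % 2 = 1 ∧ Pr t} : Finset ℕ) = ∅ := by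
      rw [filter_eq_empty_iff]
      rintro t - ⟨-, K, h1, h2, -⟩
      omega
    rw [h1, card_empty]
    push_cast
    positivity
  have hNb : 2 ^ N = 2 ^ b * 2 ^ (N - b) := by
    rw [← pow_add]
    congr 1
    omega
  have hcl : ∀ t₀, t₀ % 2 = 1 → t₀ < 2 ^ b →
      (#{t ∈ range (2 ^ N) | t % 2 ^ b = t₀ ∧ Pr t} : ℝ) ≤ ε' * 2 ^ (N - b) := by
    intro t₀ h1 h2
    refine le_trans ?_ (hI t₀ h1 h2 (N - b))
    refine Nat.cast_le.2 (card_le_card_of_injOn (fun t => t / 2 ^ b) ?_ ?_)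
    · intro t ht
      obtain ⟨htN, ht0, K, hK, hKN, h3⟩ := mem_filter.1 (mem_coe.1 ht)
      rw [mem_range, hNb] at htN
      have hI0 : I t₀ ≤ ∑ t₀ ∈ range (2 ^ b), I t₀ :=
        single_le_sum (f := I) (fun _ _ => Nat.zero_le _) (mem_range.2 h2)
      rw [mem_coe, mem_filter, mem_range]
      refine ⟨Nat.div_lt_of_lt_mul htN, K - b, by omega, by omega, ?_⟩
      -- comparison of the numbers of bad scales
      have hcnt : #{k ∈ range K | F t k < δ0 / 2 ^ (b + 1) * 2 ^ k} ≤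
          (b + kL) + #{k ∈ range (K - b) | G t₀ (t / 2 ^ b) k < δ0 * 2 ^ k} := by
        have hsub : {k ∈ range K | F t k < δ0 / 2 ^ (b + 1) * 2 ^ k} ⊆ range (b + kL) ∪
            ({k ∈ range (K - b) | G t₀ (t / 2 ^ b) k < δ0 * 2 ^ k}).image (fun k => k + b) := by
          intro k hk
          rw [mem_filter, mem_range] at hk
          rw [mem_union]
          rcases Nat.lt_or_ge k (b + kL) with h4 | h4
          · exact Or.inl (mem_range.2 h4)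
          · right
            rw [mem_image]
            refine ⟨k - b, ?_, by omega⟩
            rw [mem_filter, mem_range]
            refine ⟨by omega, ?_⟩
            have h5 := hFG t k (by omega)
            rw [ht0] at h5
            have h6 : (2 : ℝ) ^ k = 2 ^ b * 2 ^ (k - b) := by
              rw [← pow_add]
              congr 1
              omega
            have h7 : (2 : ℝ) ^ kL ≤ 2 ^ (k - b) :=
              pow_le_pow_right₀ (by norm_num) (by omega)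
            have h8 : (L : ℝ) ≤ δ0 / 2 * 2 ^ (k - b) :=
              hkL.trans (mul_le_mul_of_nonneg_left h7 (by positivity))
            have h9 : δ0 / 2 ^ (b + 1) * 2 ^ k = δ0 / 2 * 2 ^ (k - b) := by
              rw [h6, pow_succ]
              field_simp
            have h10 := hk.2
            rw [h9] at h10
            linarith
        refine (card_le_card hsub).trans ((card_union_le _ _).trans ?_)
        rw [card_range]
        exact Nat.add_le_add_left card_image_le _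
      have hcnt' : (#{k ∈ range K | F t k < δ0 / 2 ^ (b + 1) * 2 ^ k} : ℝ) ≤
          ((b + kL : ℕ) : ℝ) + (#{k ∈ range (K - b) | G t₀ (t / 2 ^ b) k < δ0 * 2 ^ k} : ℝ) := by
        exact_mod_cast hcnt
      have hKK : ((K - b : ℕ) : ℝ) ≤ K := by exact_mod_cast Nat.sub_le K b
      have hK0K : (K0 : ℝ) ≤ K := by exact_mod_cast hK
      have h4 : ε / 2 * ((K - b : ℕ) : ℝ) ≤ ε / 2 * K := mul_le_mul_of_nonneg_left hKK (by positivity)
      have h5 : ε / 2 * (K0 : ℝ) ≤ ε / 2 * K := mul_le_mul_of_nonneg_left hK0K (by positivity)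
      linarith
    · intro t1 h1 t2 h2 hh
      have h1' := (mem_filter.1 (mem_coe.1 h1)).2.1
      have h2' := (mem_filter.1 (mem_coe.1 h2)).2.1
      simp only at hh
      rw [← Nat.mod_add_div t1 (2 ^ b), ← Nat.mod_add_div t2 (2 ^ b), hh, h1', h2']
  have hsub : {t ∈ range (2 ^ N) | t % 2 = 1 ∧ Pr t} ⊆
      ({t₀ ∈ range (2 ^ b) | t₀ % 2 = 1}).biUnion fun t₀ =>
        {t ∈ range (2 ^ N) | t % 2 ^ b = t₀ ∧ Pr t} := by
    intro t ht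
    obtain ⟨h1, h2, h3⟩ := mem_filter.1 ht
    rw [mem_biUnion]
    refine ⟨t % 2 ^ b, ?_, ?_⟩
    · rw [mem_filter, mem_range]
      refine ⟨Nat.mod_lt _ hP, ?_⟩
      rw [Nat.mod_mod_of_dvd _ h2b]
      exact h2
    · rw [mem_filter]
      exact ⟨h1, rfl, h3⟩
  have h1 := (card_le_card hsub).trans card_biUnion_le
  calc (#{t ∈ range (2 ^ N) | t % 2 = 1 ∧ Pr t} : ℝ) ≤
      ((∑ t₀ ∈ range (2 ^ b) with t₀ % 2 = 1,
        #{t ∈ range (2 ^ N) | t % 2 ^ b = t₀ ∧ Pr t} : ℕ) : ℝ) := by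
        exact_mod_cast h1
    _ = ∑ t₀ ∈ range (2 ^ b) with t₀ % 2 = 1,
        (#{t ∈ range (2 ^ N) | t % 2 ^ b = t₀ ∧ Pr t} : ℝ) := by
        push_cast
        rfl
    _ ≤ ∑ t₀ ∈ range (2 ^ b) with t₀ % 2 = 1, ε' * 2 ^ (N - b) := by
        refine sum_le_sum fun t₀ ht => ?_
        rw [mem_filter, mem_range] at ht
        exact hcl t₀ ht.2 ht.1
    _ ≤ ∑ t₀ ∈ range (2 ^ b), ε' * 2 ^ (N - b) := by
        refine sum_le_sum_of_subset_of_nonneg (filter_subset _ _) fun t₀ _ _ => ?_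
        positivity
    _ = ε' * 2 ^ N := by
        rw [sum_const, card_range, nsmul_eq_mul]
        push_cast
        have h7 : (2 : ℝ) ^ N = 2 ^ b * 2 ^ (N - b) := by exact_mod_cast hNb
        rw [h7]
        ring

/-- constants -/
theorem consts (b L : ℕ) (ε δ0 : ℝ) (hε : 0 < ε) (hδ0 : 0 < δ0) (I : ℕ → ℕ) :
    ∃ kL K0 : ℕ, (L : ℝ) ≤ δ0 / 2 * 2 ^ kL ∧ b + ∑ t₀ ∈ range (2 ^ b), I t₀ + 1 ≤ K0 ∧
      ((b + kL : ℕ) : ℝ) ≤ ε / 2 * K0 := by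
  obtain ⟨n1, hn1⟩ := exists_nat_gt ((L : ℝ) / (δ0 / 2))
  obtain ⟨n2, hn2⟩ := exists_nat_gt (((b + n1 : ℕ) : ℝ) / (ε / 2))
  refine ⟨n1, b + ∑ t₀ ∈ range (2 ^ b), I t₀ + 1 + n2, ?_, by omega, ?_⟩
  · rw [div_lt_iff₀ (by positivity)] at hn1
    have h1 : (n1 : ℝ) ≤ 2 ^ n1 := by exact_mod_cast (Nat.lt_two_pow_self (n := n1)).le
    have h2 := mul_le_mul_of_nonneg_left h1 (show (0 : ℝ) ≤ δ0 / 2 by positivity)
    linarith
  · rw [div_lt_iff₀ (by positivity)] at hn2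
    have h1 : (n2 : ℝ) ≤ ((b + ∑ t₀ ∈ range (2 ^ b), I t₀ + 1 + n2 : ℕ) : ℝ) := by
      exact_mod_cast (by omega : n2 ≤ b + ∑ t₀ ∈ range (2 ^ b), I t₀ + 1 + n2)
    have h2 := mul_le_mul_of_nonneg_left h1 (show (0 : ℝ) ≤ ε / 2 by positivity)
    linarith

open scoped Classical in
theorem hc (hs : S_HS) (ha : S_ADD) (hnz : S_NZC) : S_HC := by
  intro b' ε hε
  obtain ⟨δ0, hδ0, h5⟩ := hs (ε / 2) (half_pos hε)
  set b : ℕ := b' + 1 with hb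
  have hP : 0 < 2 ^ b := by positivity
  have hbb : b' ≤ b := by omega
  have hb1 : 1 ≤ b := by omega
  refine ⟨δ0 / 2 ^ (b + 1), by positivity, ?_⟩
  intro ρ L c c' hc hc' hcc ε' hε'
  set β : ℕ := (ρ + L) % 2 ^ b with hβ
  have hβlt : β < 2 ^ b := Nat.mod_lt _ hP
  have hex : ∀ t₀ : ℕ, ∃ K1 : ℕ, t₀ % 2 = 1 → t₀ < 2 ^ b → ∀ (w0 w1 : ℕ → ZMod 2) (N : ℕ),
      (#{t ∈ range (2 ^ N) | ∃ K : ℕ, K1 ≤ K ∧ 8 * K ≤ N ∧
        ε / 2 * K < (#{k ∈ range K | (N2 (2 ^ k) (node P2 b β t₀ (CC c)) (node P2 b β t₀ (CC c'))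
          w0 w1 t : ℝ) < δ0 * 2 ^ k} : ℝ)} : ℝ) ≤ ε' * 2 ^ N := by
    intro t₀
    by_cases h1 : t₀ % 2 = 1
    · by_cases h2 : t₀ < 2 ^ b
      · have hsum : node P2 b β t₀ (CC c) + node P2 b β t₀ (CC c') =
            node P2 b β t₀ (CC (c + c')) := by
          rw [Pool.Agent.H356.TWCLN.CC_add, ha]
        obtain ⟨K1, hK1⟩ := h5 (node P2 b β t₀ (CC c)) (node P2 b β t₀ (CC c'))
          (hnz b β t₀ L c hc hb1 hβlt h1 h2) (hnz b β t₀ L c' hc' hb1 hβlt h1 h2)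
          (by rw [hsum]; exact hnz b β t₀ L (c + c') hcc hb1 hβlt h1 h2) ε' hε'
        exact ⟨K1, fun _ _ w0 w1 N => hK1 w0 w1 N⟩
      · exact ⟨0, fun _ h => absurd h h2⟩
    · exact ⟨0, fun h => absurd h h1⟩
  choose I hI using hex
  obtain ⟨kL, K0, hk1, hk2, hk3⟩ := consts b L ε δ0 hε hδ0 I
  refine ⟨K0, fun w0 w1 N => ?_⟩
  exact core b L hb1 (fun t k => (cPP (2 ^ b') ρ c c' w0 w1 t (2 ^ k) : ℝ))
    (fun t₀ t k => (N2 (2 ^ k) (node P2 b β t₀ (CC c)) (node P2 b β t₀ (CC c'))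
      (fun a => w0 (β + 2 ^ b * a - L)) (fun a => w1 (β + 2 ^ b * a - L)) t : ℝ))
    (fun t k hk => by
      have h := Pool.Agent.H356.TWCLN.N2_cPP (i := k - b) (x := 2 ^ k) (t := t)
        (t₀ := t % 2 ^ b) hbb hβ rfl (by rw [Nat.add_sub_cancel' hk]) c c' w0 w1
      exact_mod_cast h)
    ε ε' δ0 hε hε' hδ0 I kL hk1 (fun t₀ h1 h2 N => hI t₀ h1 h2 _ _ N) K0 hk2 hk3 N

end Pool.Agent.H558.TWHC
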