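import Pool.Agent.H558.TW.Stm6

set_option autoImplicit false

/-!
# One pattern, all moduli, most scales (helper575, for helper558)
-/

namespace Pool.Agent.H575.TWHC1

open PowerSeries Finset Pool.Agent.R836.PP Pool.Agent.H558.KK Pool.Agent.H558.PP
open Pool.Agent.H558.TW
open Pool.Agent.K7.H72.MT hiding W few dis DD dis_stable dis_vary DD_stable DD_sum DD_block few_bad
  dis_le DD_le base count

open scoped Classical in
/-- one residue class modulo `2 ^ b` -/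
theorem cls {M m b b' ρ L : ℕ} (hM : M = 2 ^ b' * m) (hm : Odd m) (hb : b' ≤ b)
    (c : Fin (L + 1) → ZMod 2) (w : ℕ → ZMod 2) (t J K : ℕ) (hJ : J + b ≤ K) :
    N1 P2 (2 ^ J) (node P2 b ((ρ + L) % 2 ^ b) (t % 2 ^ b) (CC c),
      (fun a => w ((ρ + L) % 2 ^ b + 2 ^ b * a - L)),
      fun a => ((ρ + L) % 2 ^ b + 2 ^ b * a) % m = (ρ + L) % m) (t / 2 ^ b) ≤
      L + cntP M ρ c w t (2 ^ K) := by
  have hP : 0 < 2 ^ b := by positivity
  obtain ⟨β, hβ⟩ : ∃ β, β = (ρ + L) % 2 ^ b := ⟨_, rfl⟩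
  rw [← hβ]
  have hβlt : β < 2 ^ b := by rw [hβ]; exact Nat.mod_lt _ hP
  obtain ⟨F, hF⟩ : ∃ F : Finset ℕ, F = {a ∈ range (2 ^ J) | (β + 2 ^ b * a) % m = (ρ + L) % m ∧
      coeff a (node P2 b β (t % 2 ^ b) (CC c) * P2 ^ (t / 2 ^ b)) ≠ w (β + 2 ^ b * a - L)} :=
    ⟨_, rfl⟩
  have hN : N1 P2 (2 ^ J) (node P2 b β (t % 2 ^ b) (CC c), (fun a => w (β + 2 ^ b * a - L)),
      fun a => (β + 2 ^ b * a) % m = (ρ + L) % m) (t / 2 ^ b) = F.card := by
    rw [hF]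
    unfold N1
    refine congrArg Finset.card ?_
    ext n
    simp only [mem_filter]
  rw [hN, ← card_filter_add_card_filter_not (s := F) (fun a => β + 2 ^ b * a < L)]
  refine add_le_add ?_ ?_
  · have h1 : F.filter (fun a => β + 2 ^ b * a < L) ⊆ range L := by
      intro a ha
      have h2 := (mem_filter.1 ha).2
      rw [mem_range]
      have h3 : a ≤ 2 ^ b * a := Nat.le_mul_of_pos_left a hP
      omega
    have h2 := card_le_card h1
    rwa [card_range] at h2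
  · have hinj : Set.InjOn (fun a : ℕ => β + 2 ^ b * a - L)
        (F.filter (fun a => ¬ β + 2 ^ b * a < L) : Finset ℕ) := by
      intro a ha a' ha' h
      have g1 := (mem_filter.1 (mem_coe.1 ha)).2
      have g2 := (mem_filter.1 (mem_coe.1 ha')).2
      simp only at h
      have h2 : 2 ^ b * a = 2 ^ b * a' := by omega
      exact Nat.eq_of_mul_eq_mul_left hP h2
    rw [← card_image_of_injOn hinj]
    unfold cntP
    refine card_le_card ?_
    intro n hn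
    rw [mem_image] at hn
    obtain ⟨a, ha, rfl⟩ := hn
    obtain ⟨haF, hge⟩ := mem_filter.1 ha
    rw [hF, mem_filter, mem_range] at haF
    obtain ⟨h2, h3, h4⟩ := haF
    rw [mem_filter, mem_range]
    refine ⟨?_, ?_, ?_⟩
    · have h5 : β + 2 ^ b * a < 2 ^ (J + b) := by
        rw [add_comm J b, pow_add]
        calc β + 2 ^ b * a < 2 ^ b * (a + 1) := by
              rw [mul_add, mul_one]
              omega
          _ ≤ 2 ^ b * 2 ^ J := Nat.mul_le_mul_left _ h2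
      have h6 : 2 ^ (J + b) ≤ 2 ^ K := Nat.pow_le_pow_right (by norm_num) hJ
      omega
    · have hnL : β + 2 ^ b * a - L + L = β + 2 ^ b * a := by omega
      have h2' : β + 2 ^ b * a - L + L ≡ ρ + L [MOD 2 ^ b] := by
        show (β + 2 ^ b * a - L + L) % 2 ^ b = (ρ + L) % 2 ^ b
        rw [hnL, Nat.add_mul_mod_self_left, hβ, Nat.mod_mod]
      have g1 : β + 2 ^ b * a - L ≡ ρ [MOD 2 ^ b'] :=
        (Nat.ModEq.add_right_cancel' L h2').of_dvd (pow_dvd_pow 2 hb)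
      have g2 : β + 2 ^ b * a - L ≡ ρ [MOD m] := by
        refine Nat.ModEq.add_right_cancel' L ?_
        show (β + 2 ^ b * a - L + L) % m = (ρ + L) % m
        rw [hnL]
        exact h3
      have hcop : Nat.Coprime (2 ^ b') m := Nat.Coprime.pow_left _ (Nat.coprime_two_left.2 hm)
      rw [hM]
      exact (Nat.modEq_and_modEq_iff_modEq_mul hcop).1 ⟨g1, g2⟩
    · have h5 := coeff_node P2 b β t a (CC c) hβlt
      rw [← node_mod] at h5
      rw [← coeff_CC, show β + 2 ^ b * a - L + L = β + 2 ^ b * a by omega, h5]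
      exact h4

/-- **HC1** -/
theorem hc1 (hs : S_HS1) (hnz : S_NZC) : S_HC1 := by
  classical
  intro M hM ε0 hε0
  obtain ⟨b', m, hm, hMm⟩ := Nat.exists_eq_two_pow_mul_odd hM.ne'
  obtain ⟨δ0, hδ0, hgp⟩ := hs m hm.pos (ε0 / 2) (by positivity)
  obtain ⟨b, hb⟩ : ∃ b, b = b' + 1 := ⟨_, rfl⟩
  have hP : 0 < 2 ^ b := by positivity
  have hbb : b' ≤ b := by omega
  have h2b : 2 ∣ 2 ^ b := dvd_pow_self 2 (by omega)
  obtain ⟨δ, hδ⟩ : ∃ δ : ℝ, δ = δ0 / 2 ^ (b + 1) := ⟨_, rfl⟩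
  have hδp : 0 < δ := by rw [hδ]; positivity
  refine ⟨δ, hδp, ?_⟩
  intro ρ L c hc ε hε
  obtain ⟨β, hβ⟩ : ∃ β, β = (ρ + L) % 2 ^ b := ⟨_, rfl⟩
  have hβlt : β < 2 ^ b := by rw [hβ]; exact Nat.mod_lt _ hP
  have hex : ∀ t₀ : ℕ, ∃ K1 : ℕ, t₀ % 2 = 1 → t₀ < 2 ^ b → ∀ (w : ℕ → ZMod 2) (N : ℕ),
      (#{t ∈ range (2 ^ N) | ∃ K : ℕ, K1 ≤ K ∧ 8 * K ≤ N ∧
        ε0 / 2 * K < (#{k ∈ range K | (N1 P2 (2 ^ k) (node P2 b β t₀ (CC c), w,
          fun a => (β + 2 ^ b * a) % m = (ρ + L) % m) t : ℝ) < δ0 * 2 ^ k} : ℝ)} : ℝ) ≤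
      ε * 2 ^ N := by
    intro t₀
    by_cases h : t₀ % 2 = 1 ∧ t₀ < 2 ^ b
    · obtain ⟨K1, hK1⟩ := hgp (node P2 b β t₀ (CC c)) (fun a => (β + 2 ^ b * a) % m = (ρ + L) % m)
        (hnz b β t₀ L c hc (by omega) hβlt h.1 h.2) (Dn_odd hm b β (ρ + L)) ε hε
      exact ⟨K1, fun _ _ => hK1⟩
    · exact ⟨0, fun h1 h2 => absurd ⟨h1, h2⟩ h⟩
  choose K1 hK1 using hex
  obtain ⟨kL, hkL⟩ := exists_nat_gt ((L : ℝ) / δ)
  obtain ⟨n1, hn1⟩ := exists_nat_gt (2 * ((kL + b : ℕ) : ℝ) / ε0)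
  refine ⟨(∑ t₀ ∈ range (2 ^ b), K1 t₀) + b + n1 + 1, ?_⟩
  intro w N
  rcases Nat.lt_or_ge N b with hNb | hNb
  · have hempty : {t : ℕ | t < 2 ^ N ∧ t % 2 = 1 ∧ ∃ K : ℕ,
        (∑ t₀ ∈ range (2 ^ b), K1 t₀) + b + n1 + 1 ≤ K ∧ 8 * K ≤ N ∧
        ε0 * K < (#{k ∈ range K | (cntP M ρ c w t (2 ^ k) : ℝ) < δ * 2 ^ k} : ℝ)} = ∅ := by
      rw [Set.eq_empty_iff_forall_notMem]
      rintro t ⟨-, -, K, h1, h2, -⟩
      omega
    rw [hempty, Set.ncard_empty]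
    push_cast
    positivity
  have hNb' : 2 ^ N = 2 ^ b * 2 ^ (N - b) := by
    rw [← pow_add]
    congr 1
    omega
  -- the key implication
  have key : ∀ t K : ℕ, t % 2 = 1 → (∑ t₀ ∈ range (2 ^ b), K1 t₀) + b + n1 + 1 ≤ K →
      8 * K ≤ N →
      ε0 * K < (#{k ∈ range K | (cntP M ρ c w t (2 ^ k) : ℝ) < δ * 2 ^ k} : ℝ) →
      ∃ K' : ℕ, K1 (t % 2 ^ b) ≤ K' ∧
        8 * K' ≤ N - b ∧ ε0 / 2 * K' < (#{k ∈ range K' |
          (N1 P2 (2 ^ k) (node P2 b β (t % 2 ^ b) (CC c), (fun a => w (β + 2 ^ b * a - L)),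
          fun a => (β + 2 ^ b * a) % m = (ρ + L) % m) (t / 2 ^ b) : ℝ) < δ0 * 2 ^ k} : ℝ) := by
    intro t K ht hK hKN hlt
    have h1 : K1 (t % 2 ^ b) ≤ ∑ t₀ ∈ range (2 ^ b), K1 t₀ :=
      single_le_sum (f := fun e => K1 e) (fun _ _ => Nat.zero_le _) (mem_range.2 (Nat.mod_lt _ hP))
    obtain ⟨K', hK'⟩ : ∃ K', K' = K - b := ⟨_, rfl⟩
    refine ⟨K', by omega, by omega, ?_⟩
    obtain ⟨G, hG⟩ : ∃ G : Finset ℕ, G = {k ∈ range K' |
          (N1 P2 (2 ^ k) (node P2 b β (t % 2 ^ b) (CC c), (fun a => w (β + 2 ^ b * a - L)),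
          fun a => (β + 2 ^ b * a) % m = (ρ + L) % m) (t / 2 ^ b) : ℝ) < δ0 * 2 ^ k} := ⟨_, rfl⟩
    rw [← hG]
    have hsub : {k ∈ range K | (cntP M ρ c w t (2 ^ k) : ℝ) < δ * 2 ^ k} ⊆
        range (kL + b) ∪ G.image (fun k => k + b) := by
      intro k hk
      rw [mem_filter, mem_range] at hk
      obtain ⟨h2, h3⟩ := hk
      rw [mem_union, mem_range]
      rcases Nat.lt_or_ge k (kL + b) with h4 | h4
      · exact Or.inl h4
      · right
        rw [mem_image]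
        refine ⟨k - b, ?_, by omega⟩
        rw [hG, mem_filter, mem_range]
        refine ⟨by omega, ?_⟩
        have h5 := cls (ρ := ρ) hMm hm hbb c w t (k - b) k (by omega)
        rw [← hβ] at h5
        have h6 : (N1 P2 (2 ^ (k - b)) (node P2 b β (t % 2 ^ b) (CC c),
            (fun a => w (β + 2 ^ b * a - L)),
            fun a => (β + 2 ^ b * a) % m = (ρ + L) % m) (t / 2 ^ b) : ℝ) ≤
            L + cntP M ρ c w t (2 ^ k) := by exact_mod_cast h5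
        have h7 : (L : ℝ) ≤ δ * 2 ^ k := by
          rw [div_lt_iff₀ hδp] at hkL
          have h8 : (kL : ℝ) ≤ 2 ^ k := by
            have h9 : kL < 2 ^ kL := Nat.lt_two_pow_self
            have h10 : 2 ^ kL ≤ 2 ^ k := Nat.pow_le_pow_right (by norm_num) (by omega)
            exact_mod_cast (h9.le.trans h10)
          nlinarith
        have h11 : δ * 2 ^ k * 2 = δ0 * 2 ^ (k - b) := by
          have h12 : (2 : ℝ) ^ k = 2 ^ b * 2 ^ (k - b) := by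
            rw [← pow_add]
            congr 1
            omega
          rw [hδ, h12, pow_succ]
          field_simp
        linarith
    have h2 := (card_le_card hsub).trans (card_union_le _ _)
    have h3 : (#(G.image (fun k => k + b)) : ℕ) ≤ G.card := card_image_le
    rw [card_range] at h2
    have h4 : (#{k ∈ range K | (cntP M ρ c w t (2 ^ k) : ℝ) < δ * 2 ^ k} : ℝ) ≤
        ((kL + b : ℕ) : ℝ) + G.card := by exact_mod_cast h2.trans (by omega)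
    have h5 : ((kL + b : ℕ) : ℝ) ≤ ε0 / 2 * K := by
      rw [div_lt_iff₀ hε0] at hn1
      have h6 : (n1 : ℝ) ≤ K := by
        have : n1 ≤ K := by omega
        exact_mod_cast this
      nlinarith
    have h6 : (K' : ℝ) ≤ K := by
      have : K' ≤ K := by omega
      exact_mod_cast this
    nlinarith
  -- counting
  obtain ⟨B, hB⟩ : ∃ B : ℕ → Finset ℕ, B = fun t₀ => {t ∈ range (2 ^ (N - b)) | ∃ K : ℕ,
      K1 t₀ ≤ K ∧ 8 * K ≤ N - b ∧
        ε0 / 2 * K < (#{k ∈ range K | (N1 P2 (2 ^ k) (node P2 b β t₀ (CC c),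
          (fun a => w (β + 2 ^ b * a - L)),
          fun a => (β + 2 ^ b * a) % m = (ρ + L) % m) t : ℝ) < δ0 * 2 ^ k} : ℝ)} := ⟨_, rfl⟩
  have hBle : ∀ t₀, t₀ % 2 = 1 → t₀ < 2 ^ b → ((B t₀).card : ℝ) ≤ ε * 2 ^ (N - b) := by
    intro t₀ h1 h2
    have h3 := hK1 t₀ h1 h2 (fun a => w (β + 2 ^ b * a - L)) (N - b)
    rw [hB]
    exact h3
  have hsub : {t : ℕ | t < 2 ^ N ∧ t % 2 = 1 ∧ ∃ K : ℕ,
      (∑ t₀ ∈ range (2 ^ b), K1 t₀) + b + n1 + 1 ≤ K ∧ 8 * K ≤ N ∧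
      ε0 * K < (#{k ∈ range K | (cntP M ρ c w t (2 ^ k) : ℝ) < δ * 2 ^ k} : ℝ)} ⊆
      ((({t₀ ∈ range (2 ^ b) | t₀ % 2 = 1}).biUnion fun t₀ =>
        (B t₀).image fun t' => t₀ + 2 ^ b * t' : Finset ℕ) : Set ℕ) := by
    rintro t ⟨ht, hodd, K, hK, hKN, hlt⟩
    rw [mem_coe, mem_biUnion]
    refine ⟨t % 2 ^ b, ?_, ?_⟩
    · rw [mem_filter, mem_range]
      refine ⟨Nat.mod_lt _ hP, ?_⟩
      rw [Nat.mod_mod_of_dvd _ h2b]
      exact hodd
    · rw [mem_image]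
      refine ⟨t / 2 ^ b, ?_, Nat.mod_add_div t (2 ^ b)⟩
      rw [hB, mem_filter, mem_range]
      refine ⟨Nat.div_lt_of_lt_mul (by rw [← hNb']; exact ht), ?_⟩
      exact key t K hodd hK hKN hlt
  have h1 := Set.ncard_le_ncard hsub (Finset.finite_toSet _)
  rw [Set.ncard_coe_finset] at h1
  have h2 := h1.trans card_biUnion_le
  calc (Set.ncard {t : ℕ | t < 2 ^ N ∧ t % 2 = 1 ∧ ∃ K : ℕ,
      (∑ t₀ ∈ range (2 ^ b), K1 t₀) + b + n1 + 1 ≤ K ∧ 8 * K ≤ N ∧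
      ε0 * K < (#{k ∈ range K | (cntP M ρ c w t (2 ^ k) : ℝ) < δ * 2 ^ k} : ℝ)} : ℝ) ≤
      ((∑ t₀ ∈ range (2 ^ b) with t₀ % 2 = 1,
        ((B t₀).image fun t' => t₀ + 2 ^ b * t').card : ℕ) : ℝ) := by exact_mod_cast h2
    _ = ∑ t₀ ∈ range (2 ^ b) with t₀ % 2 = 1,
        (((B t₀).image fun t' => t₀ + 2 ^ b * t').card : ℝ) := by push_cast; rfl
    _ ≤ ∑ t₀ ∈ range (2 ^ b) with t₀ % 2 = 1, ε * 2 ^ (N - b) := by
        refine sum_le_sum fun t₀ ht => ?_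
        rw [mem_filter, mem_range] at ht
        refine le_trans ?_ (hBle t₀ ht.2 ht.1)
        exact_mod_cast card_image_le
    _ ≤ ∑ t₀ ∈ range (2 ^ b), ε * 2 ^ (N - b) :=
        sum_le_sum_of_subset_of_nonneg (filter_subset _ _) fun t₀ _ _ => by positivity
    _ = ε * 2 ^ N := by
        rw [sum_const, card_range, nsmul_eq_mul]
        push_cast
        have h7 : (2 : ℝ) ^ N = 2 ^ b * 2 ^ (N - b) := by exact_mod_cast hNb'
        rw [h7]
        ring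

end Pool.Agent.H575.TWHC1
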