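import Pool.Agent.H558.TW.Stm6

set_option autoImplicit false

/-!
# Most scales: almost all 2-adic `t`
-/

namespace Pool.Agent.H558.TWHE

open PowerSeries Finset MeasureTheory Pool.Agent.R836.PP Pool.Agent.H558.KK Pool.Agent.H558.PP
  Pool.Agent.H558.TW
open Pool.Agent.K7.H72.MT hiding W few dis DD dis_stable dis_vary DD_stable DD_sum DD_block few_bad
  dis_le DD_le base count

theorem pat_eq {L : ℕ} (c : Fin (L + 1) → ZMod 2) (t : ℤ_[2]) {n x K : ℕ} (hx : x + L < 2 ^ K)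
    (hn : n < x + 1) : ∑ i : Fin (L + 1), c i * pz t (n + i) = pat c (P2 ^ t.appr K) n := by
  unfold pat
  refine sum_congr rfl fun i _ => ?_
  have hi := i.2
  rw [pz_eq t (show n + (i : ℕ) < 2 ^ K by omega)]

theorem cZZ_eq' (M ρ : ℕ) {L : ℕ} (c c' : Fin (L + 1) → ZMod 2) (w0 w1 : ℕ → ZMod 2) (t : ℤ_[2])
    {x K : ℕ} (hx : x + L < 2 ^ K) :
    cZZ M ρ c c' w0 w1 t x = cPP M ρ c c' w0 w1 (t.appr K) x := by
  unfold cZZ cPP
  congr 1
  ext n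
  rw [mem_filter, mem_filter]
  refine and_congr_right fun hn => and_congr_right fun _ => ?_
  rw [mem_range] at hn
  rw [pat_eq c t hx hn, pat_eq c' t hx hn]

theorem shift_lt {K L N : ℕ} (h1 : L + 1 ≤ K) (h2 : 8 * K ≤ N) : 2 ^ K + L < 2 ^ N := by
  have h3 : L < 2 ^ L := Nat.lt_two_pow_self
  have h4 : 2 ^ L ≤ 2 ^ K := Nat.pow_le_pow_right (by norm_num) (by omega)
  have h5 : 2 ^ (K + 1) ≤ 2 ^ N := Nat.pow_le_pow_right (by norm_num) (by omega)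
  rw [pow_succ] at h5
  omega

/-- the passage to almost all 2-adic `t` -/
theorem ae_core (L : ℕ) (Q : ℤ_[2] → ℕ → Prop) (P : ℕ → ℕ → Prop)
    (hPQ : ∀ (t : ℤ_[2]) (K N : ℕ), L + 1 ≤ K → 8 * K ≤ N → Q t K → P (t.appr N) K)
    (h : ∀ ε : ℝ, 0 < ε → ∃ K1 : ℕ, ∀ (N : ℕ),
      (Set.ncard {t : ℕ | t < 2 ^ N ∧ t % 2 = 1 ∧ ∃ K : ℕ, K1 ≤ K ∧ 8 * K ≤ N ∧ P t K} : ℝ) ≤
        ε * 2 ^ N)
    [MeasurableSpace ℤ_[2]] [BorelSpace ℤ_[2]] (μ : Measure ℤ_[2])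
    [IsProbabilityMeasure μ] [μ.IsAddLeftInvariant] :
    ∀ᵐ t ∂μ, t.appr 1 = 1 → ∃ K1 : ℕ, ∀ K : ℕ, K1 ≤ K → ¬ Q t K := by
  classical
  let B : Set ℤ_[2] := {t | ¬ (t.appr 1 = 1 → ∃ K1 : ℕ, ∀ K : ℕ, K1 ≤ K → ¬ Q t K)}
  have hB : ∀ ε : ℝ, 0 < ε → μ B ≤ ENNReal.ofReal ε := by
    intro ε hε
    obtain ⟨K0, hK0⟩ := h ε hε
    set K1 := max K0 (L + 1) with hK1
    let A : ℕ → Set ℤ_[2] := fun N => {t | t.appr 1 = 1 ∧ ∃ K : ℕ, K1 ≤ K ∧ 8 * K ≤ N ∧ Q t K}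
    have hBA : B ⊆ ⋃ N, A N := by
      intro t ht
      have ht' : ¬ (t.appr 1 = 1 → ∃ K1 : ℕ, ∀ K : ℕ, K1 ≤ K → ¬ Q t K) := ht
      rw [Classical.not_imp, not_exists] at ht'
      obtain ⟨h1, h2⟩ := ht'
      have h3 := h2 K1
      rw [not_forall] at h3
      obtain ⟨K, hK⟩ := h3
      rw [Classical.not_imp, not_not] at hK
      exact Set.mem_iUnion.2 ⟨8 * K, h1, K, hK.1, le_rfl, hK.2⟩
    have hmono : Monotone A := by
      rintro i j hij t ⟨h1, K, h2, h3, h4⟩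
      exact ⟨h1, K, h2, h3.trans hij, h4⟩
    refine (measure_mono hBA).trans ?_
    rw [hmono.measure_iUnion]
    refine iSup_le fun N => ?_
    have hsub : A N ⊆ {t : ℤ_[2] | t.appr N ∈ ({t ∈ range (2 ^ N) | t % 2 = 1 ∧
        ∃ K : ℕ, K0 ≤ K ∧ 8 * K ≤ N ∧ P t K} : Finset ℕ)} := by
      rintro t ⟨h1, K, h2, h3, h4⟩
      change t.appr N ∈ ({t ∈ range (2 ^ N) | t % 2 = 1 ∧
        ∃ K : ℕ, K0 ≤ K ∧ 8 * K ≤ N ∧ P t K} : Finset ℕ)
      have h5 : L + 1 ≤ K := (le_max_right K0 (L + 1)).trans h2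
      rw [mem_filter, mem_range]
      refine ⟨PadicInt.appr_lt t N, ?_, K, (le_max_left K0 (L + 1)).trans h2, h3, hPQ t K N h5 h3 h4⟩
      have h6 := appr_modEq t (show 1 ≤ N by omega)
      rw [pow_one] at h6
      have h7 : t.appr 1 % 2 = t.appr N % 2 := h6
      rw [← h7, h1]
    refine (measure_mono hsub).trans ?_
    refine (measure_finset μ N _ (filter_subset _ _)).trans ?_
    apply ENNReal.ofReal_le_ofReal
    rw [div_le_iff₀ (by positivity)]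
    refine le_trans (le_of_eq ?_) (hK0 N)
    congr 1
    rw [← Set.ncard_coe_finset]
    congr 1
    ext t
    simp only [coe_filter, mem_range, Set.mem_ofPred_eq]
  have h0 : μ B = 0 := by
    refine le_antisymm ?_ (zero_le)
    refine ENNReal.le_of_forall_pos_le_add fun ε hε _ => ?_
    rw [zero_add]
    refine (hB ε (by exact_mod_cast hε)).trans (le_of_eq ?_)
    exact ENNReal.ofReal_coe_nnreal
  exact h0

open scoped Classical in
theorem he (hc : S_HC) : S_HE := by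
  intro b' ε hε
  obtain ⟨δ, hδ, H⟩ := hc b' ε hε
  refine ⟨δ, hδ, ?_⟩
  intro w0 w1 _ _ μ _ _
  have h : ∀ᵐ t ∂μ, ∀ (ρ L : ℕ) (c c' : Fin (L + 1) → ZMod 2), c ≠ 0 → c' ≠ 0 → c + c' ≠ 0 →
      t.appr 1 = 1 → ∃ K1 : ℕ, ∀ K : ℕ, K1 ≤ K → ¬ (ε * K <
        (#{k ∈ range K | (cZZ (2 ^ b') ρ c c' w0 w1 t (2 ^ k) : ℝ) < δ * 2 ^ k} : ℝ)) := by
    rw [MeasureTheory.ae_all_iff]
    intro ρ
    rw [MeasureTheory.ae_all_iff]
    intro L
    rw [MeasureTheory.ae_all_iff]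
    intro c
    rw [MeasureTheory.ae_all_iff]
    intro c'
    by_cases hh : c ≠ 0 ∧ c' ≠ 0 ∧ c + c' ≠ 0
    · have := ae_core L (fun t K => ε * K <
          (#{k ∈ range K | (cZZ (2 ^ b') ρ c c' w0 w1 t (2 ^ k) : ℝ) < δ * 2 ^ k} : ℝ))
        (fun t K => ε * K <
          (#{k ∈ range K | (cPP (2 ^ b') ρ c c' w0 w1 t (2 ^ k) : ℝ) < δ * 2 ^ k} : ℝ))
        (fun t K N h1 h2 h3 => by
          have h4 : ({k ∈ range K | (cZZ (2 ^ b') ρ c c' w0 w1 t (2 ^ k) : ℝ) < δ * 2 ^ k} :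
              Finset ℕ) = {k ∈ range K |
                (cPP (2 ^ b') ρ c c' w0 w1 (t.appr N) (2 ^ k) : ℝ) < δ * 2 ^ k} := by
            refine filter_congr fun k hk => ?_
            rw [mem_range] at hk
            have h5 : 2 ^ k ≤ 2 ^ K := Nat.pow_le_pow_right (by norm_num) hk.le
            have h6 := shift_lt h1 h2
            rw [cZZ_eq' (2 ^ b') ρ c c' w0 w1 t (show 2 ^ k + L < 2 ^ N by omega)]
          rw [← h4]
          exact h3)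
        (fun e he => by
          obtain ⟨K1, h1⟩ := H ρ L c c' hh.1 hh.2.1 hh.2.2 e he
          exact ⟨K1, fun N => h1 w0 w1 N⟩) μ
      filter_upwards [this] with t ht _ _ _
      exact ht
    · exact Filter.Eventually.of_forall fun t h1 h2 h3 => absurd ⟨h1, h2, h3⟩ hh
  filter_upwards [h] with t ht h1 ρ L c c' hc0 hc1 hc2
  obtain ⟨K1, hK1⟩ := ht ρ L c c' hc0 hc1 hc2 h1
  exact ⟨K1, fun K hK => not_lt.1 (hK1 K hK)⟩

open scoped Classical in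
theorem he1 (hc : S_HC1) : S_HE1 := by
  intro M hM ε hε
  obtain ⟨δ, hδ, H⟩ := hc M hM ε hε
  refine ⟨δ, hδ, ?_⟩
  intro w _ _ μ _ _
  have h : ∀ᵐ t ∂μ, ∀ (ρ L : ℕ) (c : Fin (L + 1) → ZMod 2), c ≠ 0 →
      t.appr 1 = 1 → ∃ K1 : ℕ, ∀ K : ℕ, K1 ≤ K → ¬ (ε * K <
        (#{k ∈ range K | (cntZ M ρ c w t (2 ^ k) : ℝ) < δ * 2 ^ k} : ℝ)) := by
    rw [MeasureTheory.ae_all_iff]
    intro ρ
    rw [MeasureTheory.ae_all_iff]
    intro L
    rw [MeasureTheory.ae_all_iff]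
    intro c
    by_cases hh : c ≠ 0
    · have := ae_core L (fun t K => ε * K <
          (#{k ∈ range K | (cntZ M ρ c w t (2 ^ k) : ℝ) < δ * 2 ^ k} : ℝ))
        (fun t K => ε * K <
          (#{k ∈ range K | (cntP M ρ c w t (2 ^ k) : ℝ) < δ * 2 ^ k} : ℝ))
        (fun t K N h1 h2 h3 => by
          have h4 : ({k ∈ range K | (cntZ M ρ c w t (2 ^ k) : ℝ) < δ * 2 ^ k} :
              Finset ℕ) = {k ∈ range K |
                (cntP M ρ c w (t.appr N) (2 ^ k) : ℝ) < δ * 2 ^ k} := by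
            refine filter_congr fun k hk => ?_
            rw [mem_range] at hk
            have h5 : 2 ^ k ≤ 2 ^ K := Nat.pow_le_pow_right (by norm_num) hk.le
            have h6 := shift_lt h1 h2
            rw [cntZ_eq M ρ c w t (show 2 ^ k + L < 2 ^ N by omega)]
          rw [← h4]
          exact h3)
        (fun e he => by
          obtain ⟨K1, h1⟩ := H ρ L c hh e he
          exact ⟨K1, fun N => h1 w N⟩) μ
      filter_upwards [this] with t ht _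
      exact ht
    · exact Filter.Eventually.of_forall fun t h1 => absurd h1 hh
  filter_upwards [h] with t ht h1 ρ L c hc0
  obtain ⟨K1, hK1⟩ := ht ρ L c hc0 h1
  exact ⟨K1, fun K hK => not_lt.1 (hK1 K hK)⟩

end Pool.Agent.H558.TWHE
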