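import Pool.Agent.H558.TW.Stm6

set_option autoImplicit false

/-!
# HS: two series, most scales (helper227 for helper558)
-/

namespace Pool.Agent.H227.TWHS

open PowerSeries Finset Pool.Agent.R836.PP Pool.Agent.H558.KK Pool.Agent.H558.PP
open Pool.Agent.K7.H72.MT hiding W few dis DD dis_stable dis_vary DD_stable DD_sum DD_block few_bad
  dis_le DD_le base count
open Pool.Agent.H558.TW

open scoped Classical in
/-- the number of the good classes -/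
noncomputable def gdc (V k t : ℕ) (U0 U1 : S) : ℕ := #{b ∈ range (2 ^ k) | G3 V k b t U0 U1}

theorem gd_congr (V k : ℕ) (U0 U1 : S) (b : ℕ) {t t' : ℕ} (h : t % 2 ^ k = t' % 2 ^ k) :
    G3 V k b t U0 U1 = G3 V k b t' U0 U1 := by
  unfold G3
  rw [← node_mod P2 k b t U0, ← node_mod P2 k b t U1, ← node_mod P2 k b t (U0 + U1), h, node_mod,
    node_mod, node_mod]

theorem gdc_congr (V k : ℕ) (U0 U1 : S) {t t' : ℕ} (h : t % 2 ^ k = t' % 2 ^ k) :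
    gdc V k t U0 U1 = gdc V k t' U0 U1 := by
  classical
  unfold gdc
  congr 1
  exact filter_congr fun b _ => by rw [gd_congr V k U0 U1 b h]

theorem gdc_le (V k t : ℕ) (U0 U1 : S) : gdc V k t U0 U1 ≤ 2 ^ k := by
  classical
  unfold gdc
  exact (card_filter_le _ _).trans (card_range _).le

/-- many classes are good for the three series -/
theorem gdc_ge (V k t : ℕ) (U0 U1 : S) :
    Yf V U0 k t + Yf V U1 k t + Yf V (U0 + U1) k t - 2 ≤ (gdc V k t U0 U1 : ℝ) / 2 ^ k := by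
  classical
  obtain ⟨A, hA⟩ : ∃ A : Finset ℕ, A = {b ∈ range (2 ^ k) | Gv V (node P2 k b t U0)} := ⟨_, rfl⟩
  obtain ⟨B, hB⟩ : ∃ B : Finset ℕ, B = {b ∈ range (2 ^ k) | Gv V (node P2 k b t U1)} := ⟨_, rfl⟩
  obtain ⟨D, hD⟩ : ∃ D : Finset ℕ, D = {b ∈ range (2 ^ k) | Gv V (node P2 k b t (U0 + U1))} := ⟨_, rfl⟩
  have hAs : A ⊆ range (2 ^ k) := by rw [hA]; exact filter_subset _ _
  have hBs : B ⊆ range (2 ^ k) := by rw [hB]; exact filter_subset _ _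
  have hDs : D ⊆ range (2 ^ k) := by rw [hD]; exact filter_subset _ _
  have hAB : #A + #B ≤ #(A ∩ B) + 2 ^ k := by
    rw [← card_union_add_card_inter, add_comm]
    exact Nat.add_le_add_left ((card_le_card (union_subset hAs hBs)).trans (card_range _).le) _
  have hABD : #(A ∩ B) + #D ≤ #((A ∩ B) ∩ D) + 2 ^ k := by
    rw [← card_union_add_card_inter, add_comm]
    exact Nat.add_le_add_left ((card_le_card (union_subset (inter_subset_left.trans hAs) hDs)).trans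
      (card_range _).le) _
  have hsub : #((A ∩ B) ∩ D) ≤ gdc V k t U0 U1 := by
    unfold gdc
    refine card_le_card ?_
    intro b hb
    rw [mem_inter, mem_inter, hA, hB, hD, mem_filter, mem_filter, mem_filter] at hb
    rw [mem_filter]
    exact ⟨hb.2.1, hb.1.1.2, hb.1.2.2, hb.2.2⟩
  have h1 : #A + #B + #D ≤ gdc V k t U0 U1 + 2 * 2 ^ k := by omega
  have h2 : (#A : ℝ) + #B + #D ≤ gdc V k t U0 U1 + 2 * 2 ^ k := by exact_mod_cast h1
  have e0 : Yf V U0 k t = (#A : ℝ) / 2 ^ k := by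
    unfold Yf
    rw [hA]
  have e1 : Yf V U1 k t = (#B : ℝ) / 2 ^ k := by
    unfold Yf
    rw [hB]
  have e2 : Yf V (U0 + U1) k t = (#D : ℝ) / 2 ^ k := by
    unfold Yf
    rw [hD]
  rw [e0, e1, e2, ← add_div, ← add_div, sub_le_iff_le_add, div_le_iff₀ (by positivity), add_mul,
    div_mul_cancel₀ _ (by positivity)]
  exact h2


theorem md {l k : ℕ} (h : l ≤ k) (t : ℕ) : t % 2 ^ k % 2 ^ l = t % 2 ^ l :=
  Nat.mod_mod_of_dvd t (pow_dvd_pow 2 h)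

theorem md2 {k m a s : ℕ} : (a + 2 ^ k * s) % 2 ^ (k + m) = (a + 2 ^ k * (s % 2 ^ m)) % 2 ^ (k + m) := by
  have h1 : s % 2 ^ m ≡ s [MOD 2 ^ m] := Nat.mod_modEq s _
  have h2 := (h1.mul_left' (2 ^ k)).symm
  rw [← pow_add] at h2
  exact h2.add_left a

theorem N2_congr (m : ℕ) (U0 U1 : S) (w0 w1 : ℕ → ZMod 2) {t t' : ℕ} (h : t % 2 ^ m = t' % 2 ^ m) :
    N2 (2 ^ m) U0 U1 w0 w1 t = N2 (2 ^ m) U0 U1 w0 w1 t' := by
  classical
  have key : ∀ n < 2 ^ m, ∀ U : S, coeff n (U * P2 ^ t) = coeff n (U * P2 ^ t') := by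
    intro n hn U
    have h1 : coeff n (U * P2 ^ (t % 2 ^ m)) = coeff n (U * P2 ^ t) :=
      coeff_congr isP_P2.zero U hn (Nat.mod_modEq _ _)
    have h2 : coeff n (U * P2 ^ (t' % 2 ^ m)) = coeff n (U * P2 ^ t') :=
      coeff_congr isP_P2.zero U hn (Nat.mod_modEq _ _)
    rw [← h1, ← h2, h]
  unfold N2
  congr 1
  exact filter_congr fun n hn => by rw [key n (mem_range.1 hn) U0, key n (mem_range.1 hn) U1]

theorem N2_mono {X Y : ℕ} (h : X ≤ Y) (U0 U1 : S) (w0 w1 : ℕ → ZMod 2) (t : ℕ) :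
    N2 X U0 U1 w0 w1 t ≤ N2 Y U0 U1 w0 w1 t := by
  classical
  unfold N2
  exact card_le_card (filter_subset_filter _ (range_subset_range.mpr h))

/-- at least half of the classes are good -/
def EE (V l t : ℕ) (U0 U1 : S) : Prop := 2 ^ l ≤ 2 * gdc V l t U0 U1

/-- many places -/
def FF (J l t : ℕ) (U0 U1 : S) (w0 w1 : ℕ → ZMod 2) : Prop :=
  2 ^ l ≤ 2 ^ (J + 1) * N2 (2 ^ (l + J)) U0 U1 w0 w1 t

theorem EE_congr (V l : ℕ) (U0 U1 : S) {t t' : ℕ} (h : t % 2 ^ l = t' % 2 ^ l) :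
    EE V l t U0 U1 ↔ EE V l t' U0 U1 := by
  unfold EE
  rw [gdc_congr V l U0 U1 h]

theorem FF_congr (J l : ℕ) (U0 U1 : S) (w0 w1 : ℕ → ZMod 2) {t t' : ℕ}
    (h : t % 2 ^ (l + J) = t' % 2 ^ (l + J)) : FF J l t U0 U1 w0 w1 ↔ FF J l t' U0 U1 w0 w1 := by
  unfold FF
  rw [N2_congr (l + J) U0 U1 w0 w1 h]

open scoped Classical in
/-- many trials, all without success -/
def BB (V J M k t : ℕ) (U0 U1 : S) (w0 w1 : ℕ → ZMod 2) : Prop :=
  M ≤ #{i ∈ range (2 * M) | EE V (k + J * i) t U0 U1} ∧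
    ∀ i < 2 * M, ¬ (EE V (k + J * i) t U0 U1 ∧ FF J (k + J * i) t U0 U1 w0 w1)

theorem BB_congr (V J M k : ℕ) (U0 U1 : S) (w0 w1 : ℕ → ZMod 2) {t t' : ℕ}
    (h : t % 2 ^ (k + J * (2 * M)) = t' % 2 ^ (k + J * (2 * M))) :
    BB V J M k t U0 U1 w0 w1 ↔ BB V J M k t' U0 U1 w0 w1 := by
  classical
  have hl : ∀ l ≤ k + J * (2 * M), t % 2 ^ l = t' % 2 ^ l := fun l hl => by
    rw [← md hl t, h, md hl]
  have hi : ∀ i < 2 * M, k + J * i ≤ k + J * (2 * M) := fun i hi =>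
    Nat.add_le_add_left (Nat.mul_le_mul_left _ hi.le) _
  have hi' : ∀ i < 2 * M, k + J * i + J ≤ k + J * (2 * M) := fun i hi => by
    have : J * (i + 1) ≤ J * (2 * M) := Nat.mul_le_mul_left _ hi
    rw [mul_add, mul_one] at this
    omega
  have e1 : #{i ∈ range (2 * M) | EE V (k + J * i) t U0 U1} =
      #{i ∈ range (2 * M) | EE V (k + J * i) t' U0 U1} := by
    congr 1
    exact filter_congr fun i h' => EE_congr V _ U0 U1 (hl _ (hi i (mem_range.1 h')))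
  unfold BB
  rw [e1]
  refine and_congr Iff.rfl (forall_congr' fun i => imp_congr_right fun h' => ?_)
  rw [EE_congr V _ U0 U1 (hl _ (hi i h')), FF_congr J _ U0 U1 w0 w1 (hl _ (hi' i h'))]

open scoped Classical in
/-- the function for the law of large numbers -/
noncomputable def fh (V J M : ℕ) (U0 U1 : S) (w0 w1 : ℕ → ZMod 2) (k t : ℕ) : ℝ :=
  if J * (2 * M) ≤ k ∧ BB V J M (k - J * (2 * M)) t U0 U1 w0 w1 then 1 else 0

theorem fh_bd (V J M : ℕ) (U0 U1 : S) (w0 w1 : ℕ → ZMod 2) (k t : ℕ) :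
    0 ≤ fh V J M U0 U1 w0 w1 k t ∧ fh V J M U0 U1 w0 w1 k t ≤ 1 := by
  unfold fh
  split_ifs
  · exact ⟨zero_le_one, le_rfl⟩
  · exact ⟨le_rfl, zero_le_one⟩

theorem fh_mod (V J M : ℕ) (U0 U1 : S) (w0 w1 : ℕ → ZMod 2) (k t : ℕ) :
    fh V J M U0 U1 w0 w1 k (t % 2 ^ k) = fh V J M U0 U1 w0 w1 k t := by
  classical
  unfold fh
  refine if_congr (and_congr_right fun h => ?_) rfl rfl
  refine BB_congr V J M _ U0 U1 w0 w1 ?_
  rw [Nat.sub_add_cancel h, Nat.mod_mod]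

theorem fh_block (hst : S_ST) (htr : S_TRC) (V J M : ℕ) (hJ : J = V + 1) (U0 U1 : S)
    (w0 w1 : ℕ → ZMod 2) (k : ℕ) (hk : J * (2 * M) ≤ k) (a : ℕ) (ha : a < 2 ^ (k - J * (2 * M))) :
    ∑ s ∈ range (2 ^ (J * (2 * M))), fh V J M U0 U1 w0 w1 k (a + 2 ^ (k - J * (2 * M)) * s) ≤
      (1 - 1 / 2 ^ J) ^ M * 2 ^ (J * (2 * M)) := by
  classical
  obtain ⟨m, hm⟩ : ∃ m, m = k - J * (2 * M) := ⟨_, rfl⟩
  rw [← hm] at ha ⊢
  have key := htr J M (by omega) (fun i x => EE V (m + J * i) (a + 2 ^ m * x) U0 U1)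
    (fun i x => FF J (m + J * i) (a + 2 ^ m * x) U0 U1 w0 w1) (by
      intro i _ x hx hE
      have ha' : a + 2 ^ m * x < 2 ^ (m + J * i) := by
        rw [pow_add]
        calc a + 2 ^ m * x < 2 ^ m + 2 ^ m * x := Nat.add_lt_add_right ha _
          _ = 2 ^ m * (x + 1) := by ring
          _ ≤ 2 ^ m * 2 ^ (J * i) := Nat.mul_le_mul_left _ hx
      obtain ⟨s, hs, h1⟩ := hst V V (m + J * i) Nat.lt_two_pow_self.le U0 U1 w0 w1 _ ha'
      rw [← hJ] at hs h1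
      refine ⟨s, hs, ?_⟩
      show FF J (m + J * i) (a + 2 ^ m * (x + 2 ^ (J * i) * s)) U0 U1 w0 w1
      have e1 : a + 2 ^ m * (x + 2 ^ (J * i) * s) = a + 2 ^ m * x + 2 ^ (m + J * i) * s := by
        rw [pow_add]; ring
      rw [e1]
      unfold FF
      have h2 : 2 ^ (m + J * i) ≤ 2 * gdc V (m + J * i) (a + 2 ^ m * x) U0 U1 := hE
      have h3 : gdc V (m + J * i) (a + 2 ^ m * x) U0 U1 ≤
          2 ^ J * N2 (2 ^ (m + J * i + J)) U0 U1 w0 w1 (a + 2 ^ m * x + 2 ^ (m + J * i) * s) := h1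
      calc 2 ^ (m + J * i) ≤ 2 * gdc V (m + J * i) (a + 2 ^ m * x) U0 U1 := h2
        _ ≤ 2 * (2 ^ J * N2 (2 ^ (m + J * i + J)) U0 U1 w0 w1
          (a + 2 ^ m * x + 2 ^ (m + J * i) * s)) := Nat.mul_le_mul_left _ h3
        _ = _ := by ring)
  refine le_trans (le_of_eq ?_) key
  have e2 : ∀ s ∈ range (2 ^ (J * (2 * M))), fh V J M U0 U1 w0 w1 k (a + 2 ^ m * s) =
      if (M ≤ #{i ∈ range (2 * M) | EE V (m + J * i) (a + 2 ^ m * (s % 2 ^ (J * i))) U0 U1} ∧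
        ∀ i < 2 * M, ¬ (EE V (m + J * i) (a + 2 ^ m * (s % 2 ^ (J * i))) U0 U1 ∧
          FF J (m + J * i) (a + 2 ^ m * (s % 2 ^ (J * (i + 1)))) U0 U1 w0 w1)) then (1 : ℝ) else 0 := by
    intro s _
    unfold fh
    rw [← hm]
    refine if_congr ?_ rfl rfl
    have hE : ∀ i, EE V (m + J * i) (a + 2 ^ m * s) U0 U1 ↔
        EE V (m + J * i) (a + 2 ^ m * (s % 2 ^ (J * i))) U0 U1 := fun i =>
      EE_congr V _ U0 U1 md2
    have hF : ∀ i, FF J (m + J * i) (a + 2 ^ m * s) U0 U1 w0 w1 ↔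
        FF J (m + J * i) (a + 2 ^ m * (s % 2 ^ (J * (i + 1)))) U0 U1 w0 w1 := fun i => by
      refine FF_congr J _ U0 U1 w0 w1 ?_
      have : m + J * i + J = m + J * (i + 1) := by ring
      rw [this]
      exact md2
    unfold BB
    constructor
    · rintro ⟨-, h1, h2⟩
      refine ⟨?_, fun i hi => ?_⟩
      · refine h1.trans (card_le_card ?_)
        intro i hi
        rw [mem_filter] at hi ⊢
        exact ⟨hi.1, (hE i).1 hi.2⟩
      · rw [← hE i, ← hF i]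
        exact h2 i hi
    · rintro ⟨h1, h2⟩
      refine ⟨hk, ?_, fun i hi => ?_⟩
      · refine h1.trans (card_le_card ?_)
        intro i hi
        rw [mem_filter] at hi ⊢
        exact ⟨hi.1, (hE i).2 hi.2⟩
      · rw [hE i, hF i]
        exact h2 i hi
  rw [sum_congr rfl e2, sum_boole]

/-- few levels without many good classes -/
theorem few_l (V : ℕ) (U0 U1 : S) (η : ℝ) (K t : ℕ)
    (h0 : (1 - η) * K ≤ ∑ k ∈ range K, Yf V U0 k t)
    (h1 : (1 - η) * K ≤ ∑ k ∈ range K, Yf V U1 k t)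
    (h2 : (1 - η) * K ≤ ∑ k ∈ range K, Yf V (U0 + U1) k t) (D : Finset ℕ)
    (hD : ∀ l ∈ D, l < K ∧ ¬ EE V l t U0 U1) : (#D : ℝ) ≤ 6 * η * K := by
  classical
  have hY : ∀ U : S, ∀ k, Yf V U k t ≤ 1 := by
    intro U k
    unfold Yf
    rw [div_le_one (by positivity)]
    exact_mod_cast (card_filter_le _ _).trans (card_range _).le
  have hsub : D ⊆ range K := fun l hl => mem_range.2 (hD l hl).1
  have a1 : ∀ l ∈ D, (1 : ℝ) ≤ 2 * ((1 - Yf V U0 l t) + (1 - Yf V U1 l t) + (1 - Yf V (U0 + U1) l t)) := by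
    intro l hl
    have e1 := gdc_ge V l t U0 U1
    have e2 : 2 * gdc V l t U0 U1 < 2 ^ l := not_le.1 (hD l hl).2
    have e3 : 2 * (gdc V l t U0 U1 : ℝ) < 2 ^ l := by exact_mod_cast e2
    have e4 : (gdc V l t U0 U1 : ℝ) / 2 ^ l < 1 / 2 := by
      rw [div_lt_iff₀ (by positivity)]
      linarith
    linarith
  calc (#D : ℝ) = ∑ l ∈ D, (1 : ℝ) := by simp
    _ ≤ ∑ l ∈ D, 2 * ((1 - Yf V U0 l t) + (1 - Yf V U1 l t) + (1 - Yf V (U0 + U1) l t)) :=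
        sum_le_sum a1
    _ ≤ ∑ l ∈ range K, 2 * ((1 - Yf V U0 l t) + (1 - Yf V U1 l t) + (1 - Yf V (U0 + U1) l t)) := by
        refine sum_le_sum_of_subset_of_nonneg hsub fun l _ _ => ?_
        have := hY U0 l; have := hY U1 l; have := hY (U0 + U1) l
        linarith
    _ = 2 * ((K - ∑ l ∈ range K, Yf V U0 l t) + (K - ∑ l ∈ range K, Yf V U1 l t) +
        (K - ∑ l ∈ range K, Yf V (U0 + U1) l t)) := by
        rw [← mul_sum, sum_add_distrib, sum_add_distrib, sum_sub_distrib, sum_sub_distrib,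
          sum_sub_distrib, sum_const, card_range, nsmul_eq_mul, mul_one]
    _ ≤ 6 * η * K := by linarith

/-- double counting -/
theorem few_q (J M g K : ℕ) (hM : 1 ≤ M) (hJ1 : 1 ≤ J) (hg : g = J * (2 * M)) (p : ℕ → Prop)
    (D Q : Finset ℕ) (hD : ∀ l, l < K → ¬ p l → l ∈ D)
    (hQ : ∀ k ∈ Q, g ≤ k ∧ k < K ∧ ∀ T : Finset ℕ, (∀ i ∈ range (2 * M), p (k - g + J * i) → i ∈ T) →
      (∀ i ∈ T, i ∈ range (2 * M) ∧ p (k - g + J * i)) → #T < M) :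
    #Q ≤ 2 * #D := by
  classical
  have h1 : ∀ k ∈ Q, M ≤ #{i ∈ range (2 * M) | ¬ p (k - g + J * i)} := by
    intro k hk
    have h2 := (hQ k hk).2.2 {i ∈ range (2 * M) | p (k - g + J * i)}
      (fun i hi hp => mem_filter.2 ⟨hi, hp⟩) (fun i hi => mem_filter.1 hi)
    have h3 : #{i ∈ range (2 * M) | p (k - g + J * i)} +
        #{i ∈ range (2 * M) | ¬ p (k - g + J * i)} = 2 * M := by
      rw [Finset.card_filter_add_card_filter_not, card_range]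
    omega
  have h4 : #Q * M ≤ ∑ k ∈ Q, #{i ∈ range (2 * M) | ¬ p (k - g + J * i)} := by
    rw [← smul_eq_mul]
    exact card_nsmul_le_sum Q _ _ h1
  have h5 : ∑ k ∈ Q, #{i ∈ range (2 * M) | ¬ p (k - g + J * i)} =
      ∑ i ∈ range (2 * M), #{k ∈ Q | ¬ p (k - g + J * i)} := by
    simp only [card_filter]
    exact sum_comm
  have h6 : ∀ i ∈ range (2 * M), #{k ∈ Q | ¬ p (k - g + J * i)} ≤ #D := by
    intro i hi
    refine card_le_card_of_injOn (fun k => k - g + J * i) ?_ ?_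
    · intro k hk
      have hk' := mem_filter.1 (mem_coe.1 hk)
      obtain ⟨q1, q2, -⟩ := hQ k hk'.1
      have h7 : J * i < J * (2 * M) := Nat.mul_lt_mul_of_pos_left (mem_range.1 hi) hJ1
      have h8 : k - g + J * i < K := by omega
      exact mem_coe.2 (hD _ h8 hk'.2)
    · intro k hk k' hk' e
      have hk1 := hQ k (mem_filter.1 (mem_coe.1 hk)).1
      have hk2 := hQ k' (mem_filter.1 (mem_coe.1 hk')).1
      have e' : k - g + J * i = k' - g + J * i := e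
      omega
  have h8 : #Q * M ≤ 2 * M * #D := by
    refine h4.trans ?_
    rw [h5]
    refine (sum_le_sum h6).trans ?_
    rw [sum_const, card_range, smul_eq_mul]
  have h9 : #Q * M ≤ (2 * #D) * M := by
    calc #Q * M ≤ 2 * M * #D := h8
      _ = (2 * #D) * M := by ring
  exact Nat.le_of_mul_le_mul_right h9 hM

theorem geo (i1 M : ℕ) : ∑ i ∈ Ico i1 M, (1 : ℝ) / 2 ^ i ≤ 2 / 2 ^ i1 := by
  have key : ∀ n : ℕ, ∑ i ∈ Ico i1 (i1 + n), (1 : ℝ) / 2 ^ i = 2 / 2 ^ i1 - 2 / 2 ^ (i1 + n) := by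
    intro n
    induction n with
    | zero => simp
    | succ n ih =>
      rw [← add_assoc, sum_Ico_succ_top (by omega), ih, pow_succ]
      have : (2 : ℝ) ^ (i1 + n) ≠ 0 := by positivity
      field_simp
      ring
  rcases Nat.lt_or_ge M i1 with h | h
  · rw [Ico_eq_empty (by omega), sum_empty]
    positivity
  · obtain ⟨n, rfl⟩ := Nat.exists_eq_add_of_le h
    rw [key]
    have : (0 : ℝ) ≤ 2 / 2 ^ (i1 + n) := by positivity
    linarith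


/-- one dyadic scale, for a typical `t` -/
theorem scale (V J M g : ℕ) (hJ1 : 1 ≤ J) (hM : 1 ≤ M) (hg : g = J * (2 * M)) (ε : ℝ) (hε : 0 < ε)
    (δ : ℝ) (hδ : δ = 1 / 2 ^ (J + 1 + g)) (U0 U1 : S)
    (w0 w1 : ℕ → ZMod 2) (K i t : ℕ) (hK1 : K ≤ 2 ^ i) (hK2 : 2 ^ i ≤ 2 * K)
    (h0 : (1 - ε / 96) * K ≤ ∑ k ∈ range K, Yf V U0 k t)
    (h1 : (1 - ε / 96) * K ≤ ∑ k ∈ range K, Yf V U1 k t)
    (h2 : (1 - ε / 96) * K ≤ ∑ k ∈ range K, Yf V (U0 + U1) k t)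
    (h3 : ∑ k ∈ Ico g (2 ^ i + 1), fh V J M U0 U1 w0 w1 k t ≤ (ε / 8 + ε / 8) * ((2 ^ i : ℕ) : ℝ))
    (hgK : (g : ℝ) ≤ 3 / 8 * ε * K) (B : Finset ℕ)
    (hB : ∀ k ∈ B, k < K ∧ (N2 (2 ^ k) U0 U1 w0 w1 t : ℝ) < δ * 2 ^ k) :
    (#B : ℝ) ≤ ε * K := by
  classical
  obtain ⟨P, hP⟩ : ∃ P : Finset ℕ, P = {k ∈ Ico g K | BB V J M (k - g) t U0 U1 w0 w1} := ⟨_, rfl⟩
  obtain ⟨Q, hQ⟩ : ∃ Q : Finset ℕ, Q = {k ∈ Ico g K |
    #{i ∈ range (2 * M) | EE V (k - g + J * i) t U0 U1} < M} := ⟨_, rfl⟩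
  obtain ⟨D, hD⟩ : ∃ D : Finset ℕ, D = {l ∈ range K | ¬ EE V l t U0 U1} := ⟨_, rfl⟩
  have hDc : (#D : ℝ) ≤ 6 * (ε / 96) * K := few_l V U0 U1 (ε / 96) K t h0 h1 h2 D (by
    intro l hl
    rw [hD, mem_filter, mem_range] at hl
    exact hl)
  have hQc : #Q ≤ 2 * #D := few_q J M g K hM hJ1 hg (fun l => EE V l t U0 U1) D Q (by
      intro l hl hp
      rw [hD, mem_filter, mem_range]
      exact ⟨hl, hp⟩) (by
      intro k hk
      rw [hQ, mem_filter, mem_Ico] at hk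
      refine ⟨hk.1.1, hk.1.2, fun T hT1 hT2 => ?_⟩
      refine lt_of_le_of_lt (card_le_card ?_) hk.2
      intro j hj
      exact mem_filter.2 (hT2 j hj))
  have hPc : (#P : ℝ) ≤ (ε / 8 + ε / 8) * ((2 ^ i : ℕ) : ℝ) := by
    refine le_trans ?_ h3
    have e1 : (#P : ℝ) = ∑ k ∈ Ico g K, fh V J M U0 U1 w0 w1 k t := by
      rw [hP, card_filter]
      push_cast
      refine sum_congr rfl fun k hk => ?_
      rw [mem_Ico] at hk
      unfold fh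
      rw [← hg]
      by_cases hb : BB V J M (k - g) t U0 U1 w0 w1
      · rw [if_pos hb, if_pos ⟨hk.1, hb⟩]
      · rw [if_neg hb, if_neg (fun h => hb h.2)]
    rw [e1]
    refine sum_le_sum_of_subset_of_nonneg (Ico_subset_Ico le_rfl (by omega)) ?_
    intro k _ _
    exact (fh_bd V J M U0 U1 w0 w1 k t).1
  have hsub : B ⊆ (range g ∪ P) ∪ Q := by
    intro k hk
    obtain ⟨hk1, hk2⟩ := hB k hk
    rw [mem_union, mem_union, mem_range]
    by_cases hkg : k < g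
    · exact Or.inl (Or.inl hkg)
    · have hkg' : g ≤ k := not_lt.1 hkg
      obtain ⟨m, hm⟩ : ∃ m, k = m + g := ⟨k - g, by omega⟩
      have hF : ∀ j < 2 * M, ¬ FF J (m + J * j) t U0 U1 w0 w1 := by
        intro j hj hF
        unfold FF at hF
        have e1 : m + J * j + J ≤ k := by
          have : J * (j + 1) ≤ J * (2 * M) := Nat.mul_le_mul_left _ hj
          rw [mul_add, mul_one] at this
          omega
        have e2 := N2_mono (Nat.pow_le_pow_right (by norm_num : 1 ≤ 2) e1) U0 U1 w0 w1 t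
        have e3 : 2 ^ m ≤ 2 ^ (J + 1) * N2 (2 ^ k) U0 U1 w0 w1 t := by
          calc 2 ^ m ≤ 2 ^ (m + J * j) := Nat.pow_le_pow_right (by norm_num) (by omega)
            _ ≤ _ := hF
            _ ≤ _ := Nat.mul_le_mul_left _ e2
        have e4 : (2 : ℝ) ^ m ≤ 2 ^ (J + 1) * (N2 (2 ^ k) U0 U1 w0 w1 t : ℝ) := by exact_mod_cast e3
        have e5 : (2 : ℝ) ^ (J + 1) * (N2 (2 ^ k) U0 U1 w0 w1 t : ℝ) < 2 ^ (J + 1) * (δ * 2 ^ k) :=
          mul_lt_mul_of_pos_left hk2 (by positivity)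
        have e6 : (2 : ℝ) ^ (J + 1) * (δ * 2 ^ k) = 2 ^ m := by
          rw [hδ, hm, pow_add 2 m g, pow_add 2 (J + 1) g]
          field_simp
        linarith
      by_cases hc : #{j ∈ range (2 * M) | EE V (k - g + J * j) t U0 U1} < M
      · refine Or.inr ?_
        rw [hQ, mem_filter, mem_Ico]
        exact ⟨⟨hkg', hk1⟩, hc⟩
      · refine Or.inl (Or.inr ?_)
        rw [hP, mem_filter, mem_Ico]
        refine ⟨⟨hkg', hk1⟩, not_lt.1 hc, fun j hj => ?_⟩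
        have e7 : k - g = m := by omega
        rw [e7]
        exact fun h => hF j hj h.2
  have hc := (card_le_card hsub).trans ((card_union_le _ _).trans
    (Nat.add_le_add_right (card_union_le _ _) _))
  rw [card_range] at hc
  have hc2 : (#B : ℝ) ≤ g + #P + #Q := by exact_mod_cast hc
  have hQ2 : (#Q : ℝ) ≤ 2 * #D := by exact_mod_cast hQc
  have h9 : ((2 ^ i : ℕ) : ℝ) ≤ 2 * K := by exact_mod_cast hK2
  have h10 : (ε / 8 + ε / 8) * ((2 ^ i : ℕ) : ℝ) ≤ (ε / 8 + ε / 8) * (2 * K) :=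
    mul_le_mul_of_nonneg_left h9 (by positivity)
  have h11 : (0 : ℝ) ≤ ε * K := by positivity
  nlinarith

theorem hs (h4 : S_GD4) (hv : S_VAR) (hst : S_ST) (htr : S_TRC) : S_HS := by
  classical
  intro ε hε
  obtain ⟨V, H4⟩ := h4 (ε / 96) (by positivity)
  obtain ⟨J, hJ⟩ : ∃ J, J = V + 1 := ⟨_, rfl⟩
  have hr : (1 - 1 / 2 ^ J : ℝ) < 1 := by
    have : (0 : ℝ) < 1 / 2 ^ J := by positivity
    linarith
  have hr0 : (0 : ℝ) ≤ 1 - 1 / 2 ^ J := by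
    have : (1 : ℝ) / 2 ^ J ≤ 1 := by
      rw [div_le_one (by positivity)]
      exact one_le_pow₀ (by norm_num)
    linarith
  obtain ⟨M0, hM0⟩ := exists_pow_lt_of_lt_one (show (0 : ℝ) < ε / 8 by positivity) hr
  obtain ⟨M, hM⟩ : ∃ M, M = M0 + 1 := ⟨_, rfl⟩
  have hM1 : 1 ≤ M := by omega
  have hMe : (1 - 1 / 2 ^ J : ℝ) ^ M ≤ ε / 8 := by
    rw [hM]
    exact (pow_le_pow_of_le_one hr0 hr.le (Nat.le_succ M0)).trans hM0.le
  obtain ⟨g, hg⟩ : ∃ g, g = J * (2 * M) := ⟨_, rfl⟩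
  have hJ1 : 1 ≤ J := by omega
  have hg1 : 1 ≤ g := by
    rw [hg]
    exact Nat.mul_pos hJ1 (by omega)
  refine ⟨1 / 2 ^ (J + 1 + g), by positivity, fun U0 U1 hU0 hU1 hU2 ε' hε' => ?_⟩
  obtain ⟨K0, HK0⟩ := H4 U0 hU0 (ε' / 6) (by positivity)
  obtain ⟨K1, HK1⟩ := H4 U1 hU1 (ε' / 6) (by positivity)
  obtain ⟨K2, HK2⟩ := H4 (U0 + U1) hU2 (ε' / 6) (by positivity)
  obtain ⟨Cc, hCc⟩ : ∃ Cc : ℝ, Cc = 4 * g / (ε / 8) ^ 2 := ⟨_, rfl⟩
  have hgR : (1 : ℝ) ≤ g := by exact_mod_cast hg1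
  have hCc0 : 0 < Cc := by
    rw [hCc]
    positivity
  obtain ⟨n1, hn1⟩ : ∃ n1 : ℕ, (g : ℝ) / (3 / 8 * ε) ≤ n1 := exists_nat_ge _
  obtain ⟨n2, hn2⟩ : ∃ n2 : ℕ, 4 * Cc / ε' ≤ n2 := exists_nat_ge _
  obtain ⟨i1, hi1⟩ : ∃ i1 : ℕ, i1 = K0 + K1 + K2 + n1 + n2 := ⟨_, rfl⟩
  have hi1p : i1 < 2 ^ i1 := Nat.lt_two_pow_self
  refine ⟨2 ^ i1, ?_⟩
  intro w0 w1 N
  obtain ⟨Ei, hEi⟩ : ∃ Ei : ℕ → Finset ℕ, Ei = fun i => {t ∈ range (2 ^ N) |
    (ε / 8 + ε / 8) * ((2 ^ i : ℕ) : ℝ) <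
      ∑ k ∈ Ico g (2 ^ i + 1), fh V J M U0 U1 w0 w1 k t} := ⟨_, rfl⟩
  obtain ⟨I, hI⟩ : ∃ I : Finset ℕ, I = {i ∈ Ico i1 (N + 1) | 2 ^ i ≤ N} := ⟨_, rfl⟩
  have hEcard : ∀ i ∈ I, (#(Ei i) : ℝ) ≤ Cc * (1 / 2 ^ i) * 2 ^ N := by
    intro i hi
    rw [hI, mem_filter] at hi
    have h1 : 1 ≤ 2 ^ i := Nat.one_le_two_pow
    have hV := hv N (2 ^ i) g (fh V J M U0 U1 w0 w1) (ε / 8) (ε / 8) hg1 h1
      hi.2 (by positivity) (fun k t => fh_bd _ _ _ _ _ _ _ _ _)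
      (fun k t => fh_mod _ _ _ _ _ _ _ _ _) (by
        intro k hk a ha'
        subst hg
        refine (fh_block hst htr V J M hJ U0 U1 w0 w1 k hk a ha').trans ?_
        exact mul_le_mul_of_nonneg_right hMe (by positivity))
    rw [hEi]
    refine hV.trans (le_of_eq ?_)
    rw [hCc]
    push_cast
    rw [mul_one_div, div_div]
  have hsub : {t ∈ range (2 ^ N) | ∃ K : ℕ, 2 ^ i1 ≤ K ∧ 8 * K ≤ N ∧
      ε * K < (#{k ∈ range K | (N2 (2 ^ k) U0 U1 w0 w1 t : ℝ) < 1 / 2 ^ (J + 1 + g) * 2 ^ k} : ℝ)} ⊆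
      (({t ∈ range (2 ^ N) | ∃ K : ℕ, K0 ≤ K ∧ 8 * K ≤ N ∧
          ∑ k ∈ range K, Yf V U0 k t < (1 - ε / 96) * K} ∪
        {t ∈ range (2 ^ N) | ∃ K : ℕ, K1 ≤ K ∧ 8 * K ≤ N ∧
          ∑ k ∈ range K, Yf V U1 k t < (1 - ε / 96) * K}) ∪
        {t ∈ range (2 ^ N) | ∃ K : ℕ, K2 ≤ K ∧ 8 * K ≤ N ∧
          ∑ k ∈ range K, Yf V (U0 + U1) k t < (1 - ε / 96) * K}) ∪ I.biUnion Ei := by
    intro t ht
    rw [mem_filter] at ht
    obtain ⟨htN, K, hK1, hK2, hK3⟩ := ht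
    rw [mem_union, mem_union, mem_union, mem_filter, mem_filter, mem_filter, mem_biUnion]
    by_contra hne
    obtain ⟨i, hi⟩ : ∃ i, i = Nat.log 2 K + 1 := ⟨_, rfl⟩
    have hKpos : K ≠ 0 := by
      have : 1 ≤ 2 ^ i1 := Nat.one_le_two_pow
      omega
    have hiK : 2 ^ i ≤ 2 * K := by
      rw [hi, pow_succ]
      have := Nat.pow_log_le_self 2 hKpos
      omega
    have hKi : K < 2 ^ i := by
      rw [hi]
      exact Nat.lt_pow_succ_log_self (by norm_num) K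
    have hii1 : i1 ≤ i := by
      have h1 : 2 ^ i1 < 2 ^ i := lt_of_le_of_lt hK1 hKi
      have h2 := (Nat.pow_lt_pow_iff_right (by norm_num : 1 < 2)).mp h1
      omega
    have hii : i < 2 ^ i := Nat.lt_two_pow_self
    have h0 : (1 - ε / 96 : ℝ) * K ≤ ∑ k ∈ range K, Yf V U0 k t := by
      by_contra hc
      exact hne (Or.inl (Or.inl (Or.inl ⟨htN, K, by omega, hK2, not_le.mp hc⟩)))
    have h1 : (1 - ε / 96 : ℝ) * K ≤ ∑ k ∈ range K, Yf V U1 k t := by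
      by_contra hc
      exact hne (Or.inl (Or.inl (Or.inr ⟨htN, K, by omega, hK2, not_le.mp hc⟩)))
    have h2 : (1 - ε / 96 : ℝ) * K ≤ ∑ k ∈ range K, Yf V (U0 + U1) k t := by
      by_contra hc
      exact hne (Or.inl (Or.inr ⟨htN, K, by omega, hK2, not_le.mp hc⟩))
    have h3 : ∑ k ∈ Ico g (2 ^ i + 1), fh V J M U0 U1 w0 w1 k t ≤
        (ε / 8 + ε / 8) * ((2 ^ i : ℕ) : ℝ) := by
      by_contra hc
      refine hne (Or.inr ⟨i, ?_, ?_⟩)
      · rw [hI, mem_filter, mem_Ico]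
        exact ⟨⟨hii1, by omega⟩, by omega⟩
      · rw [hEi]
        exact mem_filter.mpr ⟨htN, not_le.mp hc⟩
    have hgK : (g : ℝ) ≤ 3 / 8 * ε * K := by
      have h5 : n1 ≤ K := by omega
      have h6 : (n1 : ℝ) ≤ K := by exact_mod_cast h5
      have h7 := hn1.trans h6
      rw [div_le_iff₀ (by positivity)] at h7
      linarith
    have h8 := scale V J M g hJ1 hM1 hg ε hε _ rfl U0 U1 w0 w1 K i t hKi.le hiK h0 h1 h2 h3 hgK
      {k ∈ range K | (N2 (2 ^ k) U0 U1 w0 w1 t : ℝ) < 1 / 2 ^ (J + 1 + g) * 2 ^ k} (by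
        intro k hk
        rw [mem_filter, mem_range] at hk
        exact hk)
    linarith
  have hc := card_le_card hsub
  have hc2 := hc.trans ((card_union_le _ _).trans (Nat.add_le_add ((card_union_le _ _).trans
    (Nat.add_le_add_right (card_union_le _ _) _)) card_biUnion_le))
  have hc3 : (#{t ∈ range (2 ^ N) | ∃ K : ℕ, 2 ^ i1 ≤ K ∧ 8 * K ≤ N ∧
      ε * K < (#{k ∈ range K | (N2 (2 ^ k) U0 U1 w0 w1 t : ℝ) < 1 / 2 ^ (J + 1 + g) * 2 ^ k} : ℝ)} : ℝ) ≤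
      ((#{t ∈ range (2 ^ N) | ∃ K : ℕ, K0 ≤ K ∧ 8 * K ≤ N ∧
          ∑ k ∈ range K, Yf V U0 k t < (1 - ε / 96) * K} : ℝ) +
        (#{t ∈ range (2 ^ N) | ∃ K : ℕ, K1 ≤ K ∧ 8 * K ≤ N ∧
          ∑ k ∈ range K, Yf V U1 k t < (1 - ε / 96) * K} : ℝ)) +
        (#{t ∈ range (2 ^ N) | ∃ K : ℕ, K2 ≤ K ∧ 8 * K ≤ N ∧
          ∑ k ∈ range K, Yf V (U0 + U1) k t < (1 - ε / 96) * K} : ℝ) +
        ∑ i ∈ I, (#(Ei i) : ℝ) := by
    exact_mod_cast hc2
  have hsumE : ∑ i ∈ I, (#(Ei i) : ℝ) ≤ ε' / 2 * 2 ^ N := by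
    refine (sum_le_sum hEcard).trans ?_
    rw [← sum_mul, ← mul_sum]
    apply mul_le_mul_of_nonneg_right _ (by positivity)
    have h1 : ∑ i ∈ I, (1 : ℝ) / 2 ^ i ≤ 2 / 2 ^ i1 := by
      refine le_trans (sum_le_sum_of_subset_of_nonneg ?_ ?_) (geo i1 (N + 1))
      · rw [hI]
        exact filter_subset _ _
      · intro i _ _
        positivity
    have h2 : Cc * ∑ i ∈ I, (1 : ℝ) / 2 ^ i ≤ Cc * (2 / 2 ^ i1) :=
      mul_le_mul_of_nonneg_left h1 hCc0.le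
    refine h2.trans ?_
    have h3 : 4 * Cc / ε' ≤ 2 ^ i1 := by
      refine hn2.trans ?_
      have : n2 ≤ 2 ^ i1 := by omega
      exact_mod_cast this
    rw [div_le_iff₀ hε'] at h3
    rw [← mul_div_assoc, div_le_iff₀ (by positivity)]
    linarith
  have g0 := HK0 N
  have g1 := HK1 N
  have g2 := HK2 N
  refine hc3.trans ?_
  linarith

end Pool.Agent.H227.TWHS
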