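import Pool.Agent.H558.TW.Stm6
import Pool.Agent.H558.PP.D5

set_option autoImplicit false

/-!
# HS1: one series and a set of density type `R`, most scales (helper707)

`S_TRC` is not needed: the trials of PP/D5.lean (`J` blocks of length `R` for the same good sections)
with `J` depending on `ε` are enough.
-/

namespace Pool.Agent.H707.TWHS1

open PowerSeries Finset Pool.Agent.R836.PP Pool.Agent.H558.PP Pool.Agent.H558.TW
open Pool.Agent.K7.H72.MT hiding W few dis DD dis_stable dis_vary DD_stable DD_sum DD_block few_bad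
  dis_le DD_le base count
open Pool.Agent.H997.PPD5

theorem geo (i1 N : ℕ) : ∑ i ∈ Ico i1 N, (1 : ℝ) / 2 ^ i ≤ 2 / 2 ^ i1 := by
  rcases Nat.lt_or_ge N i1 with h | h
  · rw [Ico_eq_empty_of_le h.le, sum_empty]
    positivity
  · have key : ∀ m : ℕ, ∑ i ∈ Ico i1 (i1 + m), (1 : ℝ) / 2 ^ i = 2 / 2 ^ i1 - 2 / 2 ^ (i1 + m) := by
      intro m
      induction m with
      | zero => simp
      | succ m ih =>
        rw [← add_assoc, sum_Ico_succ_top (Nat.le_add_right _ _), ih, pow_succ]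
        field_simp
        ring
    obtain ⟨m, rfl⟩ := Nat.exists_eq_add_of_le h
    rw [key]
    have : (0 : ℝ) < 2 / 2 ^ (i1 + m) := by positivity
    linarith

theorem Yf_le (V : ℕ) (U : S) (k t : ℕ) : Yf V U k t ≤ 1 := by
  classical
  unfold Yf
  rw [div_le_one (by positivity)]
  have := card_filter_le (range (2 ^ k)) (fun b => Pool.Agent.H558.KK.Gv V (node P2 k b t U))
  rw [card_range] at this
  exact_mod_cast this

theorem hs1' (h4 : S_GD4) (hv : S_VAR) : S_HS1 := by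
  classical
  intro R hR ε hε
  obtain ⟨V, H4⟩ := h4 (ε / 8) (by linarith)
  have h2R : (2 : ℝ) ≤ 2 ^ R := by
    calc (2 : ℝ) = 2 ^ 1 := by norm_num
      _ ≤ 2 ^ R := pow_le_pow_right₀ (by norm_num) hR
  obtain ⟨th, hth⟩ : ∃ th : ℝ, th = (2 ^ R - 1) / 2 ^ R := ⟨_, rfl⟩
  have hth0 : 0 < th := by
    rw [hth]
    exact div_pos (by linarith) (by positivity)
  have hth1 : th < 1 := by
    rw [hth, div_lt_one (by positivity)]
    linarith
  obtain ⟨J0, hJ0⟩ := exists_pow_lt_of_lt_one (show (0 : ℝ) < ε / 32 by linarith) hth1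
  obtain ⟨J, hJdef⟩ : ∃ J, J = J0 + 1 := ⟨_, rfl⟩
  have hJ : th ^ J < ε / 32 := by
    rw [hJdef, pow_succ]
    have h1 : 0 < th ^ J0 := pow_pos hth0 _
    nlinarith
  have hJ1 : 1 ≤ J := by omega
  obtain ⟨g, hg⟩ : ∃ g, g = R * J := ⟨_, rfl⟩
  have hg1 : 1 ≤ g := by
    rw [hg]
    exact Nat.mul_pos hR hJ1
  have hg1' : (1 : ℝ) ≤ g := by exact_mod_cast hg1
  obtain ⟨X, hXdef⟩ : ∃ X, X = R * J + V := ⟨_, rfl⟩
  have hX : V + 2 ^ (R * J) ≤ 2 ^ X := by
    have h1 : V + 1 ≤ 2 ^ V := Nat.lt_two_pow_self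
    have h2 : 1 ≤ 2 ^ (R * J) := Nat.one_le_two_pow
    rw [hXdef, pow_add]
    calc V + 2 ^ (R * J) ≤ 2 ^ (R * J) * V + 2 ^ (R * J) := by nlinarith
      _ = 2 ^ (R * J) * (V + 1) := by ring
      _ ≤ _ := Nat.mul_le_mul_left _ h1
  refine ⟨1 / (2 * 2 ^ (R + X)), by positivity, ?_⟩
  intro U A' hU hA' ε' hε'
  obtain ⟨K1, H⟩ := H4 U hU (ε' / 2) (by linarith)
  obtain ⟨i1, hi1⟩ : ∃ i1 : ℕ, 16384 * (g : ℝ) / (ε ^ 2 * ε') < 2 ^ i1 :=
    pow_unbounded_of_one_lt _ (by norm_num)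
  rw [div_lt_iff₀ (by positivity)] at hi1
  obtain ⟨K2, hK2⟩ := exists_nat_ge (2 * (X : ℝ) / ε)
  rw [div_le_iff₀ hε] at hK2
  refine ⟨K1 + 2 ^ i1 + g + K2, fun w N => ?_⟩
  obtain ⟨E, hE⟩ : ∃ E : ℕ → Finset ℕ, ∀ i, E i = {t ∈ range (2 ^ N) |
      (ε / 32 + ε / 32 : ℝ) * ((2 ^ i + g : ℕ) : ℝ) <
        ∑ k ∈ Ico g (2 ^ i + g + 1), fb V R J (U, w, A') k t} := ⟨_, fun _ => rfl⟩
  have hEc : ∀ i, 2 ^ i + g ≤ N → ((E i).card : ℝ) ≤ 4096 * g / ε ^ 2 * (1 / 2 ^ i) * 2 ^ N := by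
    intro i hi
    have hp : 0 < 2 ^ i := by positivity
    have hV := hv N (2 ^ i + g) g (fb V R J (U, w, A')) (ε / 32) (ε / 32) hg1 (by omega)
      hi (by positivity) (fun k t => ⟨fb_nonneg _ _ _ _ _ _, fb_le _ _ _ _ _ _⟩)
      (fun k t => fb_mod _ _ _ _ _ _) (by
        intro k hk a ha
        rw [hg] at hk ha ⊢
        refine (fb_block V R J (U, w, A') hA' k hk a ha).trans ?_
        have h1 : ((2 ^ R - 1 : ℕ) : ℝ) = 2 ^ R - 1 := by
          rw [Nat.cast_sub Nat.one_le_two_pow]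
          norm_num
        rw [h1]
        have h2 : ((2 : ℝ) ^ R - 1) = th * 2 ^ R := by
          rw [hth]
          field_simp
        rw [h2, mul_pow, ← pow_mul]
        exact mul_le_mul_of_nonneg_right hJ.le (by positivity))
    rw [hE]
    refine hV.trans ?_
    apply mul_le_mul_of_nonneg_right _ (by positivity)
    have h2i : (0 : ℝ) < 2 ^ i := by positivity
    rw [div_le_iff₀ (by positivity)]
    push_cast
    have e : 4096 * (g : ℝ) / ε ^ 2 * (1 / 2 ^ i) * ((ε / 32) ^ 2 * (2 ^ i + g)) =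
        4 * g + 4 * g * (g / 2 ^ i) := by
      field_simp
      ring
    rw [e]
    have : (0 : ℝ) ≤ 4 * g * (g / 2 ^ i) := by positivity
    linarith
  obtain ⟨I, hI⟩ : ∃ I : Finset ℕ, I = {i ∈ Ico i1 N | 2 ^ i + g ≤ N} := ⟨_, rfl⟩
  have hsub : {t ∈ range (2 ^ N) | ∃ K : ℕ, K1 + 2 ^ i1 + g + K2 ≤ K ∧ 8 * K ≤ N ∧
      ε * K < (#{k ∈ range K | (N1 P2 (2 ^ k) (U, w, A') t : ℝ) <
        1 / (2 * 2 ^ (R + X)) * 2 ^ k} : ℝ)} ⊆
      {t ∈ range (2 ^ N) | ∃ K : ℕ, K1 ≤ K ∧ 8 * K ≤ N ∧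
        ∑ k ∈ range K, Yf V U k t < (1 - ε / 8) * K} ∪ I.biUnion E := by
    intro t ht
    rw [mem_filter] at ht
    obtain ⟨htN, K, hK, hKN, hlt⟩ := ht
    rw [mem_union, mem_filter]
    by_contra hne
    push Not at hne
    obtain ⟨hn1, hn2⟩ := hne
    have hp1 : 0 < 2 ^ i1 := by positivity
    have hY := hn1 htN K (by omega) (by omega)
    have hK0 : K ≠ 0 := by omega
    obtain ⟨i, hi⟩ : ∃ i, i = Nat.log 2 K + 1 := ⟨_, rfl⟩
    have hp2 : 0 < 2 ^ i := by positivity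
    have hlo : K < 2 ^ i := by
      rw [hi]
      exact Nat.lt_pow_succ_log_self (by norm_num) K
    have hhi : 2 ^ i ≤ 2 * K := by
      rw [hi, pow_succ]
      have := Nat.pow_log_le_self 2 hK0
      omega
    have hii : i1 ≤ i := by
      have : 2 ^ i1 < 2 ^ i := by omega
      exact ((Nat.pow_lt_pow_iff_right (by norm_num)).1 this).le
    have hiN : i < N := by
      have := (Nat.lt_two_pow_self : i < 2 ^ i)
      omega
    have hnE : t ∉ E i := by
      intro h
      apply hn2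
      rw [mem_biUnion]
      refine ⟨i, ?_, h⟩
      rw [hI, mem_filter, mem_Ico]
      exact ⟨⟨hii, hiN⟩, by omega⟩
    rw [hE, mem_filter] at hnE
    push Not at hnE
    have h2 := hnE htN
    have h3 : ∑ k ∈ range K, fb V R J (U, w, A') (k + R * J) t ≤
        ∑ k ∈ Ico g (2 ^ i + g + 1), fb V R J (U, w, A') k t := by
      have e1 : ∑ k ∈ range K, fb V R J (U, w, A') (k + R * J) t =
          ∑ k ∈ Ico g (K + g), fb V R J (U, w, A') k t := by
        rw [sum_Ico_eq_sum_range, Nat.add_sub_cancel]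
        refine sum_congr rfl fun k _ => ?_
        rw [hg, add_comm]
      rw [e1]
      refine sum_le_sum_of_subset_of_nonneg ?_ fun k _ _ => fb_nonneg _ _ _ _ _ _
      intro k hk
      rw [mem_Ico] at hk ⊢
      omega
    obtain ⟨S1, hS1⟩ : ∃ S1 : Finset ℕ, S1 = {k ∈ range K | fb V R J (U, w, A') (k + R * J) t = 1} :=
      ⟨_, rfl⟩
    obtain ⟨S2, hS2⟩ : ∃ S2 : Finset ℕ, S2 = {k ∈ range K | Yf V U k t < 1 / 2} := ⟨_, rfl⟩
    have hc1 : (S1.card : ℝ) ≤ ∑ k ∈ range K, fb V R J (U, w, A') (k + R * J) t := by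
      calc (S1.card : ℝ) = ∑ k ∈ S1, (1 : ℝ) := by simp
        _ = ∑ k ∈ S1, fb V R J (U, w, A') (k + R * J) t := by
          refine sum_congr rfl fun k hk => ?_
          rw [hS1, mem_filter] at hk
          exact hk.2.symm
        _ ≤ _ := by
          refine sum_le_sum_of_subset_of_nonneg ?_ fun k _ _ => fb_nonneg _ _ _ _ _ _
          rw [hS1]
          exact filter_subset _ _
    have hc2 : (S2.card : ℝ) ≤ 2 * (K - ∑ k ∈ range K, Yf V U k t) := by
      have e2 : 2 * ((K : ℝ) - ∑ k ∈ range K, Yf V U k t) =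
          ∑ k ∈ range K, 2 * (1 - Yf V U k t) := by
        rw [← mul_sum, sum_sub_distrib]
        simp
      rw [e2]
      calc (S2.card : ℝ) = ∑ k ∈ S2, (1 : ℝ) := by simp
        _ ≤ ∑ k ∈ S2, 2 * (1 - Yf V U k t) := by
          refine sum_le_sum fun k hk => ?_
          rw [hS2, mem_filter] at hk
          linarith [hk.2]
        _ ≤ _ := by
          refine sum_le_sum_of_subset_of_nonneg ?_ fun k _ _ => ?_
          · rw [hS2]
            exact filter_subset _ _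
          · linarith [Yf_le V U k t]
    have hcov : {k ∈ range K | (N1 P2 (2 ^ k) (U, w, A') t : ℝ) <
        1 / (2 * 2 ^ (R + X)) * 2 ^ k} ⊆ range X ∪ (S1 ∪ S2).image (fun k => k + X) := by
      intro k hk
      rw [mem_filter, mem_range] at hk
      rw [mem_union, mem_range]
      rcases Nat.lt_or_ge k X with h | h
      · exact Or.inl h
      · right
        obtain ⟨k0, hk0⟩ : ∃ k0, k = k0 + X := ⟨k - X, by omega⟩
        rw [mem_image]
        refine ⟨k0, ?_, hk0.symm⟩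
        rw [mem_union, hS1, hS2, mem_filter, mem_filter, mem_range]
        by_contra hcon
        push Not at hcon
        have hk0K : k0 < K := by omega
        have ha := hcon.1 hk0K
        have hb := hcon.2 hk0K
        have hfb0 : fb V R J (U, w, A') (k0 + R * J) t = 0 := by
          unfold fb at ha ⊢
          split_ifs at ha ⊢ with hcc
          · exact absurd rfl ha
          · rfl
        have hs := step_le V R J X hX U w A' hA' k0 t
        rw [hfb0, sub_zero] at hs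
        have hk2 := hk.2
        rw [hk0] at hk2
        have h5 : (N1 P2 (2 ^ (k0 + X)) (U, w, A') t : ℝ) / 2 ^ (k0 + X) <
            1 / (2 * 2 ^ (R + X)) := by
          rw [div_lt_iff₀ (by positivity)]
          exact hk2
        have h6 := hs.trans_lt h5
        rw [div_lt_iff₀ (by positivity)] at h6
        have h7 : 1 / (2 * 2 ^ (R + X)) * (2 : ℝ) ^ (R + X) = 1 / 2 := by
          field_simp
        rw [h7] at h6
        linarith
    have hcard : (#{k ∈ range K | (N1 P2 (2 ^ k) (U, w, A') t : ℝ) <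
        1 / (2 * 2 ^ (R + X)) * 2 ^ k} : ℝ) ≤ X + (S1.card + S2.card) := by
      have h5 := (card_le_card hcov).trans (card_union_le _ _)
      have h6 : ((S1 ∪ S2).image (fun k => k + X)).card ≤ S1.card + S2.card :=
        card_image_le.trans (card_union_le _ _)
      rw [card_range] at h5
      exact_mod_cast h5.trans (Nat.add_le_add_left h6 _)
    have h7 : ((2 ^ i + g : ℕ) : ℝ) ≤ 3 * K := by
      have : 2 ^ i + g ≤ 3 * K := by omega
      exact_mod_cast this
    have h8 : (1 : ℝ) ≤ K := by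
      have : 1 ≤ K := by omega
      exact_mod_cast this
    have h9 : 2 * (X : ℝ) ≤ K * ε := by
      have : (K2 : ℝ) ≤ K := by
        have : K2 ≤ K := by omega
        exact_mod_cast this
      nlinarith
    have h10 : (ε / 32 + ε / 32) * ((2 ^ i + g : ℕ) : ℝ) ≤ (ε / 32 + ε / 32) * (3 * K) :=
      mul_le_mul_of_nonneg_left h7 (by linarith)
    have h11 : 0 < ε * K := by positivity
    linarith
  have hcard := card_le_card hsub
  have hcard2 := hcard.trans (card_union_le _ _)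
  have hbi : (I.biUnion E).card ≤ ∑ i ∈ I, (E i).card := card_biUnion_le
  have hsum : (∑ i ∈ I, ((E i).card : ℝ)) ≤ ε' / 2 * 2 ^ N := by
    calc (∑ i ∈ I, ((E i).card : ℝ)) ≤ ∑ i ∈ I, 4096 * (g : ℝ) / ε ^ 2 * (1 / 2 ^ i) * 2 ^ N := by
          refine sum_le_sum fun i hi => hEc i ?_
          rw [hI, mem_filter] at hi
          exact hi.2
      _ ≤ ∑ i ∈ Ico i1 N, 4096 * (g : ℝ) / ε ^ 2 * (1 / 2 ^ i) * 2 ^ N := by
          refine sum_le_sum_of_subset_of_nonneg ?_ fun i _ _ => by positivity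
          rw [hI]
          exact filter_subset _ _
      _ = 4096 * (g : ℝ) / ε ^ 2 * (∑ i ∈ Ico i1 N, (1 : ℝ) / 2 ^ i) * 2 ^ N := by
          rw [mul_sum, sum_mul]
      _ ≤ 4096 * (g : ℝ) / ε ^ 2 * (2 / 2 ^ i1) * 2 ^ N := by
          have := geo i1 N
          gcongr
      _ ≤ ε' / 2 * 2 ^ N := by
          apply mul_le_mul_of_nonneg_right _ (by positivity)
          have e : 4096 * (g : ℝ) / ε ^ 2 * (2 / 2 ^ i1) = 8192 * g / (ε ^ 2 * 2 ^ i1) := by
            field_simp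
            ring
          rw [e, div_le_iff₀ (by positivity)]
          nlinarith
  have hHN := H N
  have hfin : ((#{t ∈ range (2 ^ N) | ∃ K : ℕ, K1 + 2 ^ i1 + g + K2 ≤ K ∧ 8 * K ≤ N ∧
      ε * K < (#{k ∈ range K | (N1 P2 (2 ^ k) (U, w, A') t : ℝ) <
        1 / (2 * 2 ^ (R + X)) * 2 ^ k} : ℝ)} : ℕ) : ℝ) ≤
      (#{t ∈ range (2 ^ N) | ∃ K : ℕ, K1 ≤ K ∧ 8 * K ≤ N ∧
        ∑ k ∈ range K, Yf V U k t < (1 - ε / 8) * K} : ℕ) + ∑ i ∈ I, ((E i).card : ℝ) := by
    have := hcard2.trans (Nat.add_le_add_left hbi _)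
    exact_mod_cast this
  linarith

theorem hs1 (h4 : S_GD4) (hv : S_VAR) (_ : S_TRC) : S_HS1 := hs1' h4 hv

end Pool.Agent.H707.TWHS1
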