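import Pool.Agent.H558.TW.Stm6
import Pool.Agent.H558.TW.TR

set_option autoImplicit false

/-!
# Repeated trials, conditional version
-/

namespace Pool.Agent.H558.TWTRC

open Finset Pool.Agent.H558.TW Pool.Agent.H105.TWTR
open scoped Classical

theorem many {N : ℕ → ℕ} {D : ℕ} {E F : ℕ → ℕ → Prop} (hN : ∀ i, N (i + 1) = N i * D)
    (hD : 2 ≤ D) {r : ℝ} (hr : r = 1 - 1 / (D : ℝ)) (M : ℕ)
    (hF : ∀ i < 2 * M, ∀ a < N i, E i a → ∃ s < D, F i (a + N i * s)) :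
    (#{t ∈ range (N (2 * M)) | ok N E F (2 * M) t ∧ M ≤ cn N E (2 * M) t} : ℝ) ≤
      r ^ M * N (2 * M) := by
  have h2D : 1 / (D : ℝ) ≤ 1 / 2 :=
    one_div_le_one_div_of_le (by norm_num) (by exact_mod_cast hD)
  have hD0 : (0 : ℝ) < D := by
    have : 0 < D := by omega
    exact_mod_cast this
  have h1D : 0 < 1 / (D : ℝ) := by positivity
  have hr0 : 0 < r := by linarith
  have hr1 : r ≤ 1 := by linarith
  have hri : 1 ≤ r⁻¹ := (one_le_inv₀ hr0).2 hr1
  have h1 := total (E := E) (F := F) hN hD hr (2 * M) hF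
  have h2 : (#{t ∈ range (N (2 * M)) | ok N E F (2 * M) t ∧ M ≤ cn N E (2 * M) t} : ℝ) *
      r⁻¹ ^ M ≤ ∑ a ∈ range (N (2 * M)), wt N E F r (2 * M) a := by
    have h3 : (#{t ∈ range (N (2 * M)) | ok N E F (2 * M) t ∧ M ≤ cn N E (2 * M) t} : ℝ) *
        r⁻¹ ^ M = ∑ a ∈ range (N (2 * M)),
          if ok N E F (2 * M) a ∧ M ≤ cn N E (2 * M) a then r⁻¹ ^ M else 0 := by
      rw [← sum_filter, sum_const, nsmul_eq_mul]
    rw [h3]
    refine sum_le_sum (fun a _ => ?_)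
    unfold wt
    by_cases hok : ok N E F (2 * M) a
    · rw [if_pos hok]
      by_cases hc : M ≤ cn N E (2 * M) a
      · rw [if_pos ⟨hok, hc⟩]
        exact pow_le_pow_right₀ hri hc
      · rw [if_neg (fun h => hc h.2)]
        positivity
    · rw [if_neg hok, if_neg (fun h => hok h.1)]
  have h4 := h2.trans h1
  rw [inv_pow, ← div_eq_mul_inv, div_le_iff₀ (by positivity)] at h4
  exact h4.trans (le_of_eq (mul_comm _ _))

theorem trc : S_TRC := by
  intro J M hJ E F hF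
  have hN : ∀ i, 2 ^ (J * (i + 1)) = 2 ^ (J * i) * 2 ^ J := by
    intro i
    rw [← pow_add]
    congr 1
  have hD : 2 ≤ 2 ^ J := by
    calc 2 = 2 ^ 1 := (pow_one 2).symm
      _ ≤ 2 ^ J := Nat.pow_le_pow_right (by norm_num) hJ
  have h1 := many (N := fun i => 2 ^ (J * i)) (D := 2 ^ J) (E := E) (F := F) hN hD
    (r := 1 - 1 / 2 ^ J) (by push_cast; rfl) M hF
  push_cast at h1
  refine le_trans ?_ h1
  have h2 : (range (2 ^ (J * (2 * M)))).filter (fun t =>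
      M ≤ #{i ∈ range (2 * M) | E i (t % 2 ^ (J * i))} ∧
        ∀ i < 2 * M, ¬ (E i (t % 2 ^ (J * i)) ∧ F i (t % 2 ^ (J * (i + 1))))) ⊆
      (range (2 ^ (J * (2 * M)))).filter (fun t => ok (fun i => 2 ^ (J * i)) E F (2 * M) t ∧
        M ≤ cn (fun i => 2 ^ (J * i)) E (2 * M) t) := by
    intro t ht
    rw [mem_filter] at ht ⊢
    exact ⟨ht.1, ht.2.2, ht.2.1⟩
  exact_mod_cast card_le_card h2

end Pool.Agent.H558.TWTRC
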