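import Pool.Agent.H558.TW.Asm
import Pool.Agent.H558.TW.Asm5
import Pool.Agent.H558.TW.TRC
import Pool.Agent.H558.TW.HS
import Pool.Agent.H558.TW.HS1
import Pool.Agent.H558.TW.HC
import Pool.Agent.H558.TW.HC1
import Pool.Agent.H558.TW.HE

set_option autoImplicit false

/-!
# Assembly: a positive proportion at most scales
-/

namespace Pool.Agent.H558.TW

open Pool.Agent.H558.PP

theorem hHE : S_HE := Pool.Agent.H558.TWHE.he (Pool.Agent.H558.TWHC.hc
  (Pool.Agent.H227.TWHS.hs hGD4 Pool.Agent.H399.PPVAR.var hST Pool.Agent.H558.TWTRC.trc)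
  Pool.Agent.H874.TWADD.add hNZC)

theorem hHE1 : S_HE1 := Pool.Agent.H558.TWHE.he1 (Pool.Agent.H575.TWHC1.hc1
  (Pool.Agent.H707.TWHS1.hs1 hGD4 Pool.Agent.H399.PPVAR.var Pool.Agent.H558.TWTRC.trc) hNZC)

end Pool.Agent.H558.TW
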