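import Pool.Agent.H558.TW.Stm5

set_option autoImplicit false

/-!
# GA: dead sections with respect to a slowly growing threshold
-/

namespace Pool.Agent.H155.TWGA

open PowerSeries Finset Pool.Agent.R836.PP Pool.Agent.H558.KK Pool.Agent.H558.PP
open Pool.Agent.H558.TW
open Pool.Agent.K7.H72.MT hiding W few dis DD dis_stable dis_vary DD_stable DD_sum DD_block few_bad
  dis_le DD_le base count

/-- a fifth root -/
theorem root5 (K : ℕ) : ∃ L : ℕ, L ^ 5 ≤ K ∧ K < (L + 1) ^ 5 := by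
  induction K with
  | zero => exact ⟨0, by norm_num, by norm_num⟩
  | succ K ih =>
    obtain ⟨L, h1, h2⟩ := ih
    rcases Nat.lt_or_ge (K + 1) ((L + 1) ^ 5) with h | h
    · exact ⟨L, by omega, h⟩
    · refine ⟨L + 1, h, ?_⟩
      have h3 : (L + 1) ^ 5 < (L + 1 + 1) ^ 5 := Nat.pow_lt_pow_left (by omega) (by norm_num)
      omega

theorem eps_le (L : ℕ) (hL : 32 ≤ L) : eps L ≤ 1 / (L : ℝ) ^ 22 := by
  unfold eps
  obtain ⟨a, ha⟩ : ∃ a, a = Nat.log 2 L := ⟨_, rfl⟩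
  rw [← ha]
  have h1 : 5 ≤ a := by
    rw [ha]
    exact Nat.le_log_of_pow_le (by norm_num) (by norm_num; exact hL)
  have h2 : L < 2 ^ (a + 1) := by
    rw [ha]
    exact Nat.lt_pow_succ_log_self (by norm_num) L
  have h5 : (a + 1) * 19 ≤ a ^ 3 := by
    have h6 : 25 * a ≤ a ^ 3 := by
      have : 5 * 5 * a ≤ a * a * a := Nat.mul_le_mul_right _ (Nat.mul_le_mul h1 h1)
      calc 25 * a = 5 * 5 * a := by ring
        _ ≤ a * a * a := this
        _ = a ^ 3 := by ring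
    omega
  have h3 : L ^ 19 ≤ 2 ^ a ^ 3 := by
    calc L ^ 19 ≤ (2 ^ (a + 1)) ^ 19 := Nat.pow_le_pow_left h2.le 19
      _ = 2 ^ ((a + 1) * 19) := by rw [← pow_mul]
      _ ≤ 2 ^ a ^ 3 := Nat.pow_le_pow_right (by norm_num) h5
  have h4 : (L : ℝ) ^ 19 ≤ 2 ^ a ^ 3 := by exact_mod_cast h3
  have hLp : (0 : ℝ) < L := by
    have : 0 < L := by omega
    exact_mod_cast this
  apply one_div_le_one_div_of_le (by positivity)
  calc (L : ℝ) ^ 22 = (L : ℝ) ^ 3 * (L : ℝ) ^ 19 := by ring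
    _ ≤ (L : ℝ) ^ 3 * 2 ^ a ^ 3 := by gcongr

theorem sum_sq (N : ℕ) : ∑ i ∈ range N, 1 / ((i : ℝ) + 1) ^ 2 ≤ 2 := by
  have h1 : ∀ N : ℕ, ∑ i ∈ range (N + 1), 1 / ((i : ℝ) + 1) ^ 2 ≤ 2 - 1 / ((N : ℝ) + 1) := by
    intro N
    induction N with
    | zero => norm_num
    | succ N ih =>
      rw [sum_range_succ]
      have h2 : 1 / (((N + 1 : ℕ) : ℝ) + 1) ^ 2 ≤ 1 / ((N : ℝ) + 1) - 1 / (((N + 1 : ℕ) : ℝ) + 1) := by
        push_cast
        rw [div_sub_div _ _ (by positivity) (by positivity), div_le_div_iff₀ (by positivity)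
          (by positivity)]
        have : (0 : ℝ) ≤ N := Nat.cast_nonneg N
        nlinarith
      linarith
  rcases N with _ | N
  · simp
  · have h2 := h1 N
    have h3 : (0 : ℝ) ≤ 1 / ((N : ℝ) + 1) := by positivity
    linarith

theorem Gv_mono {x y : ℕ} (h : x ≤ y) {U : S} (hU : Gv x U) : Gv y U := by
  obtain ⟨i, hi, hne⟩ := hU
  exact ⟨i, by omega, hne⟩

theorem XX_mono {k T m T' T'' : ℕ} (U : S) (h : T' ≤ T'') : XX k T m T' U ≤ XX k T m T'' U := by
  classical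
  unfold XX
  refine card_le_card ?_
  intro p hp
  obtain ⟨h1, h2, h3⟩ := mem_filter.1 hp
  exact mem_filter.2 ⟨h1, h2, Gv_mono h h3⟩

/-- lifting dead sections -/
theorem Dd_lift (hN1 : S_N1) (hN3 : S_N3) (U : S) (k g t T T' : ℕ) (hT : 2 ^ g * T' ≤ T) :
    2 ^ g * Dd T U k t ≤ Dd T' U (k + g) t := by
  classical
  unfold Dd
  have hp : 0 < 2 ^ k := by positivity
  have h3 : (2 : ℕ) ^ g = #(range (2 ^ g)) := by rw [card_range]
  rw [h3, ← card_product]
  refine card_le_card_of_injOn (fun p => p.2 + 2 ^ k * p.1) ?_ ?_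
  · intro p hp'
    rw [mem_coe, mem_product] at hp'
    obtain ⟨h1, h2⟩ := hp'
    obtain ⟨h4, h5⟩ := mem_filter.1 h2
    rw [mem_range] at h1 h4
    rw [mem_coe, mem_filter, mem_range]
    refine ⟨?_, ?_⟩
    · rw [pow_add]
      calc p.2 + 2 ^ k * p.1 < 2 ^ k * (p.1 + 1) := by
            rw [mul_add, mul_one]
            omega
        _ ≤ 2 ^ k * 2 ^ g := Nat.mul_le_mul_left _ (by omega)
    · intro h6
      apply h5
      have h7 := (hN1 P2 k g (p.2 + 2 ^ k * p.1) t U).1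
      rw [h7] at h6
      have h8 := hN3 _ _ _ _ _ h6
      have h9 : (p.2 + 2 ^ k * p.1) % 2 ^ k = p.2 := by
        rw [Nat.add_mul_mod_self_left, Nat.mod_eq_of_lt h4]
      rw [h9] at h8
      have h10 := (hN1 P2 k g p.2 t U).2
      rw [Nat.mod_eq_of_lt h4] at h10
      rw [h10] at h8
      exact Gv_mono hT h8
  · intro p hp1 q hq1 he
    rw [mem_coe, mem_product] at hp1 hq1
    have h4 := mem_range.1 (mem_filter.1 hp1.2).1
    have h5 := mem_range.1 (mem_filter.1 hq1.2).1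
    simp only at he
    have h6 : p.2 = q.2 := by
      have := congrArg (fun x => x % 2 ^ k) he
      simp only [Nat.add_mul_mod_self_left] at this
      rwa [Nat.mod_eq_of_lt h4, Nat.mod_eq_of_lt h5] at this
    have h7 : p.1 = q.1 := by
      rw [h6] at he
      exact Nat.eq_of_mul_eq_mul_left hp (by omega)
    exact Prod.ext h7 h6

theorem exT0 (hN1 : S_N1) (U : S) (hU : NZ U) (M : ℕ) : ∃ T0 : ℕ, ∀ b t, Gv T0 (node P2 M b t U) := by
  choose f hf using fun b t => hU M b t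
  refine ⟨∑ p ∈ range (2 ^ M) ×ˢ range (2 ^ M), (f p.1 p.2 + 1), fun b t => ?_⟩
  have hp : 0 < 2 ^ M := by positivity
  rw [← (hN1 P2 M 0 b t U).2]
  refine ⟨f (b % 2 ^ M) (t % 2 ^ M), ?_, hf _ _⟩
  have h1 : f (b % 2 ^ M) (t % 2 ^ M) + 1 ≤ ∑ p ∈ range (2 ^ M) ×ˢ range (2 ^ M), (f p.1 p.2 + 1) :=
    single_le_sum (f := fun p : ℕ × ℕ => f p.1 p.2 + 1) (fun _ _ => Nat.zero_le _)
      (a := (b % 2 ^ M, t % 2 ^ M))
      (mem_product.2 ⟨mem_range.2 (Nat.mod_lt _ hp), mem_range.2 (Nat.mod_lt _ hp)⟩)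
  omega

open scoped Classical in
theorem ga (h1 : S_GA1) (hN1 : S_N1) (hN3 : S_N3) : S_GA := by
  intro L0 hL0 hS U hU ε hε
  obtain ⟨M, hM⟩ : ∃ M : ℕ, M = L0 + 32 + ⌈2 / ε⌉₊ := ⟨_, rfl⟩
  have hM0 : L0 ≤ M := by omega
  have hM32 : 32 ≤ M := by omega
  have hMr : (0 : ℝ) < M := by
    have : 0 < M := by omega
    exact_mod_cast this
  have hMε : 2 / (M : ℝ) ≤ ε := by
    have h2 : 2 / ε ≤ (M : ℝ) := by
      refine (Nat.le_ceil _).trans ?_
      have : ⌈2 / ε⌉₊ ≤ M := by omega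
      exact_mod_cast this
    rw [div_le_iff₀ hε] at h2
    rw [div_le_iff₀ hMr]
    linarith
  choose r hr1 hr2 using root5
  have hrmono : ∀ i, r i ≤ r (i + 1) := by
    intro i
    by_contra hlt
    push Not at hlt
    have h3 : (r (i + 1) + 1) ^ 5 ≤ (r i) ^ 5 := Nat.pow_le_pow_left (by omega) 5
    have h4 := hr1 i
    have h5 := hr2 (i + 1)
    omega
  have hrle : ∀ i, r i ≤ i := by
    intro i
    have h2 := hr1 i
    have h3 : r i ≤ r i ^ 5 := Nat.le_self_pow (by norm_num) _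
    omega
  obtain ⟨l, hl⟩ : ∃ l : ℕ → ℕ, ∀ i, l i = M + r i := ⟨fun i => M + r i, fun _ => rfl⟩
  have hB : ∀ i, ∃ B : ℕ, 4 * B ≤ l i ∧ ∀ (j : ℕ) (U : S) (v : ℕ),
      (XX (j + l i) (v + 4 * 8 ^ l i) (j + B) (2 ^ (l i - B) * v) U : ℝ) ≤
        eps (l i) * 4 ^ (j + l i) := by
    intro i
    have := hl i
    exact hS (l i) (by omega)
  choose B hB1 hB2 using hB
  obtain ⟨h, hh⟩ : ∃ h : ℕ → ℕ, ∀ i, h i = l i - B i := ⟨fun i => l i - B i, fun _ => rfl⟩
  have hh3 : ∀ i, 3 ≤ h i := by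
    intro i
    have h2 := hl i
    have h3 := hB1 i
    have h4 := hh i
    omega
  have hhl : ∀ i, h i ≤ l i := by
    intro i
    have h4 := hh i
    omega
  obtain ⟨n, hn0, hn⟩ : ∃ n : ℕ → ℕ, n 0 = M ∧ ∀ i, n (i + 1) = n i + h i :=
    ⟨fun i => M + ∑ j ∈ range i, h j, by simp, fun i => by
      change M + ∑ j ∈ range (i + 1), h j = M + ∑ j ∈ range i, h j + h i
      rw [sum_range_succ, add_assoc]⟩
  have hnM : ∀ i, M + i ≤ n i := by
    intro i
    induction i with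
    | zero => omega
    | succ i ih =>
      have h2 := hn i
      have h3 := hh3 i
      omega
  have hln : ∀ i, l i ≤ n i := by
    intro i
    have h2 := hl i
    have h3 := hrle i
    have h4 := hnM i
    omega
  obtain ⟨T0, hT0⟩ := exT0 hN1 U hU M
  obtain ⟨T, hTz, hTs⟩ : ∃ T : ℕ → ℕ, T 0 = T0 ∧
      ∀ i, T (i + 1) = (T i / 2 ^ h i + 1) + 4 * 8 ^ l i :=
    ⟨fun i => Nat.rec T0 (fun i x => (x / 2 ^ h i + 1) + 4 * 8 ^ l i) i, rfl, fun i => rfl⟩
  have hXX : ∀ j, (XX (n (j + 1)) (T (j + 1)) (n j) (T j) U : ℝ) ≤ eps (l j) * 4 ^ n (j + 1) := by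
    intro j
    have h2 := hB2 j (n j - B j) U (T j / 2 ^ h j + 1)
    have h3 := hB1 j
    have h4 := hln j
    have h5 := hn j
    have h6 := hh j
    have e1 : n j - B j + l j = n (j + 1) := by omega
    have e2 : n j - B j + B j = n j := by omega
    rw [e1, e2, ← hTs, ← h6] at h2
    refine le_trans ?_ h2
    have h7 : T j ≤ 2 ^ h j * (T j / 2 ^ h j + 1) := by
      have h8 := Nat.div_add_mod (T j) (2 ^ h j)
      have h9 := Nat.mod_lt (T j) (show 0 < 2 ^ h j by positivity)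
      rw [mul_add, mul_one]
      omega
    exact_mod_cast XX_mono U h7
  have hlr : ∀ i, (0 : ℝ) < l i := by
    intro i
    have h2 := hl i
    have : 0 < l i := by omega
    exact_mod_cast this
  have hδ : ∀ i, 1 / (l i : ℝ) ^ 11 ≤ (1 / M) * (1 / ((i : ℝ) + 1) ^ 2) := by
    intro i
    rw [one_div_mul_one_div]
    apply one_div_le_one_div_of_le (by positivity)
    have h2 := hl i
    have h3 := hr2 i
    have h4 : (M : ℝ) ≤ l i := by
      have : M ≤ l i := by omega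
      exact_mod_cast this
    have h5 : (i : ℝ) + 1 ≤ (l i : ℝ) ^ 5 := by
      have h6 : i + 1 ≤ (l i) ^ 5 := by
        have h7 : (r i + 1) ^ 5 ≤ (l i) ^ 5 := Nat.pow_le_pow_left (by omega) 5
        omega
      exact_mod_cast h6
    calc (M : ℝ) * ((i : ℝ) + 1) ^ 2 ≤ l i * ((l i : ℝ) ^ 5) ^ 2 := by gcongr
      _ = (l i : ℝ) ^ 11 := by ring
  have hsum : ∀ j, ∑ i ∈ range j, 1 / (l i : ℝ) ^ 11 ≤ ε := by
    intro j
    refine (sum_le_sum fun i _ => hδ i).trans ?_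
    rw [← mul_sum]
    have h2 := sum_sq j
    calc 1 / (M : ℝ) * ∑ i ∈ range j, 1 / ((i : ℝ) + 1) ^ 2 ≤ 1 / (M : ℝ) * 2 := by gcongr
      _ = 2 / M := by ring
      _ ≤ ε := hMε
  have heps : ∀ i, eps (l i) / (1 / (l i : ℝ) ^ 11) ≤ 1 / (l i : ℝ) ^ 11 := by
    intro i
    have h2 := hl i
    have h3 := eps_le (l i) (by omega)
    have h4 := hlr i
    rw [div_le_iff₀ (by positivity)]
    refine h3.trans (le_of_eq ?_)
    rw [one_div_mul_one_div, ← pow_add]
  have heps0 : ∀ i, 0 ≤ eps (l i) := by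
    intro i
    unfold eps
    positivity
  have hmain := h1 U n T (fun i => 1 / (l i : ℝ) ^ 11) (fun i => eps (l i))
    (fun i => by have := hlr i; positivity) heps0
    (fun j => by have h2 := hn j; have h3 := hh3 j; omega) hXX
    (fun b t => by rw [hTz, hn0]; exact hT0 b t)
  -- the thresholds
  have hTle : ∀ i, 2 ^ i * T i ≤ T0 + 2 ^ i * (8 * 8 ^ l i) := by
    intro i
    induction i with
    | zero =>
      rw [hTz]
      omega
    | succ i ih =>
      rw [hTs i, pow_succ]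
      have h2 : T i / 2 ^ h i ≤ T i / 8 := by
        apply Nat.div_le_div_left _ (by norm_num)
        calc 8 = 2 ^ 3 := by norm_num
          _ ≤ 2 ^ h i := Nat.pow_le_pow_right (by norm_num) (hh3 i)
      have h3 : 8 ^ l i ≤ 8 ^ l (i + 1) := by
        apply Nat.pow_le_pow_right (by norm_num)
        have h4 := hl i
        have h5 := hl (i + 1)
        have h6 := hrmono i
        omega
      have h4 : 8 * (T i / 8) ≤ T i := Nat.mul_div_le _ _
      have h5 : 1 ≤ 8 ^ l i := Nat.one_le_pow _ _ (by norm_num)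
      have h6 : 8 * (T i / 2 ^ h i + 1 + 4 * 8 ^ l i) ≤ T i + 40 * 8 ^ l i := by omega
      have h8 : 2 ^ i * 8 ^ l i ≤ 2 ^ i * 8 ^ l (i + 1) := Nat.mul_le_mul_left _ h3
      obtain ⟨x, hx⟩ : ∃ x, x = T i / 2 ^ h i + 1 + 4 * 8 ^ l i := ⟨_, rfl⟩
      rw [← hx] at h6 ⊢
      have g1 : 8 * (2 ^ i * x) ≤ 2 ^ i * T i + 40 * (2 ^ i * 8 ^ l i) := by
        calc 8 * (2 ^ i * x) = 2 ^ i * (8 * x) := by ring
          _ ≤ 2 ^ i * (T i + 40 * 8 ^ l i) := Nat.mul_le_mul_left _ h6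
          _ = _ := by ring
      have g2 : 2 ^ i * (8 * 8 ^ l i) = 8 * (2 ^ i * 8 ^ l i) := by ring
      have g3 : 2 ^ i * 2 * (8 * 8 ^ l (i + 1)) = 16 * (2 ^ i * 8 ^ l (i + 1)) := by ring
      have g4 : 2 ^ i * 2 * x = 2 * (2 ^ i * x) := by ring
      rw [g3, g4]
      rw [g2] at ih
      omega
  have hTbig : ∀ i, T0 ≤ i → T i ≤ 8 * 8 ^ l i := by
    intro i hi
    have h2 := hTle i
    have h3 : i < 2 ^ i := Nat.lt_two_pow_self
    have h4 : 2 ^ i * T i < 2 ^ i * (8 * 8 ^ l i + 1) := by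
      rw [mul_add, mul_one]
      omega
    have h5 := Nat.lt_of_mul_lt_mul_left h4
    omega
  obtain ⟨m, hm⟩ : ∃ m, m = M + 257 := ⟨_, rfl⟩
  obtain ⟨i0, hi0⟩ : ∃ i0, i0 = T0 + m ^ 5 := ⟨_, rfl⟩
  refine ⟨n i0 + 1, fun N => ?_⟩
  refine le_trans ?_ ((hmain N).trans ?_)
  · refine Nat.cast_le.2 (card_le_card ?_)
    intro t ht
    obtain ⟨ht1, k, J, hk1, hk2, hkJ, hk3⟩ := mem_filter.1 ht
    refine mem_filter.2 ⟨ht1, ?_⟩
    have hnmono : StrictMono n := strictMono_nat_of_lt_succ fun j => by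
      have h2 := hn j
      have h3 := hh3 j
      omega
    -- the level
    obtain ⟨i, hi1, hi2⟩ : ∃ i, n i < k ∧ k ≤ n (i + 1) := by
      have hex : ∃ j, k ≤ n j := ⟨k, by have := hnM k; omega⟩
      have h2 := Nat.find_spec hex
      have h3 : Nat.find hex ≠ 0 := by
        intro h4
        rw [h4] at h2
        have h5 : n 0 ≤ n i0 := hnmono.monotone (Nat.zero_le _)
        omega
      refine ⟨Nat.find hex - 1, ?_, ?_⟩
      · have h4 := Nat.find_min hex (m := Nat.find hex - 1) (by omega)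
        omega
      · rw [Nat.sub_add_cancel (by omega)]
        exact h2
    have hi3 : i0 ≤ i := by
      by_contra hlt
      push Not at hlt
      have h2 : n (i + 1) ≤ n i0 := hnmono.monotone (by omega)
      omega
    refine ⟨i + 1, ?_, ?_⟩
    · have h2 := hn i
      have h3 := hhl i
      have h4 := hln i
      omega
    · -- the size of `J`
      have hJ : 2 * l (i + 1) ≤ J := by
        by_contra hlt
        push Not at hlt
        obtain ⟨R, hR⟩ : ∃ R, R = r (i + 1) := ⟨_, rfl⟩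
        have h2 := hr1 (i + 1)
        have h3 := hr2 (i + 1)
        have h4 := hl (i + 1)
        rw [← hR] at h2 h3 h4
        have h5 : m ≤ R := by
          by_contra hlt2
          push Not at hlt2
          have h6 : (R + 1) ^ 5 ≤ m ^ 5 := Nat.pow_le_pow_left (by omega) 5
          omega
        have h6 : J ≤ 4 * R := by omega
        have h7 : J ^ 4 ≤ (4 * R) ^ 4 := Nat.pow_le_pow_left h6 4
        have h8 : (4 * R) ^ 4 = 256 * R ^ 4 := by ring
        have h9 : 257 * R ^ 4 ≤ R ^ 5 := by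
          calc 257 * R ^ 4 ≤ R * R ^ 4 := Nat.mul_le_mul_right _ (by omega)
            _ = R ^ 5 := by ring
        have h10 : 1 ≤ R ^ 4 := Nat.one_le_pow _ _ (by omega)
        have h11 := hnM i
        omega
      obtain ⟨g, hg⟩ : ∃ g, g = n (i + 1) - k := ⟨_, rfl⟩
      have hkg : k + g = n (i + 1) := by omega
      have hgl : g ≤ l (i + 1) := by
        have h2 := hn i
        have h3 := hhl i
        have h4 := hl i
        have h5 := hl (i + 1)
        have h6 := hrmono i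
        omega
      have hTT : 2 ^ g * T (i + 1) ≤ 8 * 8 ^ J := by
        have h2 := hTbig (i + 1) (by omega)
        calc 2 ^ g * T (i + 1) ≤ 8 ^ l (i + 1) * (8 * 8 ^ l (i + 1)) := by
              refine Nat.mul_le_mul ?_ h2
              calc 2 ^ g ≤ 8 ^ g := Nat.pow_le_pow_left (by norm_num) g
                _ ≤ 8 ^ l (i + 1) := Nat.pow_le_pow_right (by norm_num) hgl
          _ = 8 * 8 ^ (2 * l (i + 1)) := by ring
          _ ≤ 8 * 8 ^ J := Nat.mul_le_mul_left _ (Nat.pow_le_pow_right (by norm_num) hJ)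
      have h3 := Dd_lift hN1 hN3 U k g t (8 * 8 ^ J) (T (i + 1)) hTT
      rw [hkg] at h3
      have h4 : (2 : ℝ) ^ g * (Dd (8 * 8 ^ J) U k t : ℝ) ≤ (Dd (T (i + 1)) U (n (i + 1)) t : ℝ) := by
        exact_mod_cast h3
      have h5 := hsum (i + 1)
      calc (∑ i ∈ range (i + 1), 1 / (l i : ℝ) ^ 11) * 2 ^ n (i + 1) ≤ ε * 2 ^ n (i + 1) := by gcongr
        _ = 2 ^ g * (ε * 2 ^ k) := by rw [← hkg]; ring
        _ < 2 ^ g * (Dd (8 * 8 ^ J) U k t : ℝ) := by gcongr
        _ ≤ _ := h4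
  · have h2 : ∑ i ∈ range N, eps (l i) / (1 / (l i : ℝ) ^ 11) ≤ ε :=
      (sum_le_sum fun i _ => heps i).trans (hsum N)
    gcongr

end Pool.Agent.H155.TWGA
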