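import Pool.Agent.H558.TW.Stm5

set_option autoImplicit false

/-!
# The union bound along a chain (subtask GA1 of helper558's plan)
-/

namespace Pool.Agent.H999.TWGA1

open PowerSeries Finset Pool.Agent.R836.PP Pool.Agent.H558.KK Pool.Agent.H558.PP
open Pool.Agent.K7.H72.MT hiding W few dis DD dis_stable dis_vary DD_stable DD_sum DD_block few_bad
  dis_le DD_le base count
open Pool.Agent.H558.TW

/-- the sum over the lifts -/
theorem sum_lifts (g : ℕ → ℕ) (k r : ℕ) :
    ∑ t ∈ range (2 ^ (k + r)), g (t % 2 ^ k) = 2 ^ r * ∑ t ∈ range (2 ^ k), g t := by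
  induction r with
  | zero =>
    rw [add_zero, pow_zero, one_mul]
    exact sum_congr rfl fun t ht => by rw [Nat.mod_eq_of_lt (mem_range.1 ht)]
  | succ r ih =>
    have h1 : 2 ^ (k + (r + 1)) = 2 ^ (k + r) + 2 ^ (k + r) := by ring
    have h2 : ∀ x, (2 ^ (k + r) + x) % 2 ^ k = x % 2 ^ k := by
      intro x
      rw [pow_add, Nat.mul_add_mod]
    rw [h1, Finset.sum_range_add]
    simp only [h2]
    rw [ih]
    ring

open scoped Classical in
/-- the number of the lifts -/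
theorem card_lifts (P : ℕ → Prop) (k r : ℕ) :
    #{t ∈ range (2 ^ (k + r)) | P (t % 2 ^ k)} = 2 ^ r * #{t ∈ range (2 ^ k) | P t} := by
  have h := sum_lifts (fun t => if P t then 1 else 0) k r
  rw [Finset.card_filter, Finset.card_filter]
  exact h

open scoped Classical in
/-- the union bound for a periodic family of predicates -/
theorem chain (f : ℕ → ℕ → ℕ → Prop) (n : ℕ → ℕ) (hn : ∀ j, n j < n (j + 1))
    (hper : ∀ j b t, f j (b % 2 ^ n j) (t % 2 ^ n j) ↔ f j b t) (δ e : ℕ → ℝ)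
    (hδ : ∀ j, 0 < δ j) (he : ∀ j, 0 ≤ e j)
    (hX : ∀ j, (#{p ∈ range (2 ^ n (j + 1)) ×ˢ range (2 ^ n (j + 1)) | f (j + 1) p.2 p.1 ∧
      ¬ f j (p.2 % 2 ^ n j) (p.1 % 2 ^ n j)} : ℝ) ≤ e j * 4 ^ n (j + 1))
    (h0 : ∀ b t, ¬ f 0 b t) (N : ℕ) :
    (#{t ∈ range (2 ^ N) | ∃ j, n j ≤ N ∧
      (∑ i ∈ range j, δ i) * 2 ^ n j < (#{b ∈ range (2 ^ n j) | f j b t} : ℝ)} : ℝ) ≤
        (∑ i ∈ range N, e i / δ i) * 2 ^ N := by
  -- the digits separately
  have hb : ∀ j b t, f j (b % 2 ^ n j) t ↔ f j b t := fun j b t => by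
    rw [← hper j (b % 2 ^ n j) t, Nat.mod_mod, hper]
  have ht : ∀ j b t, f j b (t % 2 ^ n j) ↔ f j b t := fun j b t => by
    rw [← hper j b (t % 2 ^ n j), Nat.mod_mod, hper]
  set X : ℕ → ℕ → ℕ := fun j t => #{b ∈ range (2 ^ n (j + 1)) | f (j + 1) b t ∧
    ¬ f j (b % 2 ^ n j) (t % 2 ^ n j)} with hXdef
  have hmono : StrictMono n := strictMono_nat_of_lt_succ hn
  -- X depends on the residue only
  have hXmod : ∀ j t, X j (t % 2 ^ n (j + 1)) = X j t := by
    intro j t
    simp only [hXdef]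
    congr 1
    refine Finset.filter_congr fun b _ => ?_
    rw [ht (j + 1), Nat.mod_mod_of_dvd _ (pow_dvd_pow 2 (hn j).le)]
  -- the sum of X over a period
  have hXsum : ∀ j, ∑ t ∈ range (2 ^ n (j + 1)), X j t =
      #{p ∈ range (2 ^ n (j + 1)) ×ˢ range (2 ^ n (j + 1)) | f (j + 1) p.2 p.1 ∧
      ¬ f j (p.2 % 2 ^ n j) (p.1 % 2 ^ n j)} := by
    intro j
    rw [Finset.card_filter, Finset.sum_product]
    refine Finset.sum_congr rfl fun t _ => ?_
    simp only [hXdef]
    rw [Finset.card_filter]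
  -- Markov
  have hMarkov : ∀ j, n (j + 1) ≤ N →
      (#{t ∈ range (2 ^ N) | δ j * 2 ^ n (j + 1) < (X j t : ℝ)} : ℝ) ≤ e j / δ j * 2 ^ N := by
    intro j hj
    obtain ⟨r, hr⟩ := Nat.exists_eq_add_of_le hj
    have h1 : ∑ t ∈ range (2 ^ N), X j t = 2 ^ r * ∑ t ∈ range (2 ^ n (j + 1)), X j t := by
      rw [← sum_lifts (X j) (n (j + 1)) r, ← hr]
      exact Finset.sum_congr rfl fun t _ => (hXmod j t).symm
    have h2 : (∑ t ∈ range (2 ^ N), (X j t : ℝ)) ≤ e j * 2 ^ n (j + 1) * 2 ^ N := by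
      have h3 : (∑ t ∈ range (2 ^ N), (X j t : ℝ)) =
          2 ^ r * ((∑ t ∈ range (2 ^ n (j + 1)), X j t : ℕ) : ℝ) := by
        exact_mod_cast h1
      rw [h3, hXsum]
      calc (2 : ℝ) ^ r * _ ≤ 2 ^ r * (e j * 4 ^ n (j + 1)) :=
            mul_le_mul_of_nonneg_left (hX j) (by positivity)
        _ = e j * 2 ^ n (j + 1) * 2 ^ N := by
            rw [hr, pow_add, show (4 : ℝ) = 2 * 2 by norm_num, mul_pow]
            ring
    have h4 : (#{t ∈ range (2 ^ N) | δ j * 2 ^ n (j + 1) < (X j t : ℝ)} : ℝ) *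
        (δ j * 2 ^ n (j + 1)) ≤ ∑ t ∈ range (2 ^ N), (X j t : ℝ) := by
      rw [← nsmul_eq_mul]
      refine (Finset.card_nsmul_le_sum _ (fun t => (X j t : ℝ)) _ fun t ht' => ?_).trans
        (Finset.sum_le_sum_of_subset_of_nonneg (Finset.filter_subset _ _)
          fun t _ _ => Nat.cast_nonneg _)
      exact (Finset.mem_filter.1 ht').2.le
    have h5 : (0 : ℝ) < δ j * 2 ^ n (j + 1) := mul_pos (hδ j) (by positivity)
    have h6 := h4.trans h2
    rw [div_mul_eq_mul_div, le_div_iff₀ (hδ j)]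
    have h7 : (0 : ℝ) < 2 ^ n (j + 1) := by positivity
    refine le_of_mul_le_mul_right (a := (2 : ℝ) ^ n (j + 1)) ?_ h7
    calc _ = (#{t ∈ range (2 ^ N) | δ j * 2 ^ n (j + 1) < (X j t : ℝ)} : ℝ) *
        (δ j * 2 ^ n (j + 1)) := by ring
      _ ≤ e j * 2 ^ n (j + 1) * 2 ^ N := h6
      _ = _ := by ring
  -- the deterministic part
  have hdet : ∀ t j, (∀ i < j, (X i t : ℝ) ≤ δ i * 2 ^ n (i + 1)) →
      (#{b ∈ range (2 ^ n j) | f j b t} : ℝ) ≤ (∑ i ∈ range j, δ i) * 2 ^ n j := by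
    intro t j
    induction j with
    | zero =>
      intro _
      have : #{b ∈ range (2 ^ n 0) | f 0 b t} = 0 := by
        rw [Finset.card_eq_zero, Finset.filter_eq_empty_iff]
        exact fun b _ => h0 b t
      rw [this]
      simp
    | succ j ih =>
      intro h
      have h1 := ih fun i hi => h i (by omega)
      have h2 := h j (by omega)
      obtain ⟨r, hr⟩ := Nat.exists_eq_add_of_le (hn j).le
      have h3 : #{b ∈ range (2 ^ n (j + 1)) | f (j + 1) b t} ≤
          X j t + 2 ^ r * #{b ∈ range (2 ^ n j) | f j b t} := by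
        rw [← card_lifts (fun b => f j b t) (n j) r, ← hr]
        refine (Finset.card_le_card ?_).trans (Finset.card_union_le _ _)
        intro b hbm
        rw [Finset.mem_filter] at hbm
        rw [Finset.mem_union, Finset.mem_filter, Finset.mem_filter]
        by_cases hf : f j (b % 2 ^ n j) t
        · exact Or.inr ⟨hbm.1, hf⟩
        · refine Or.inl ⟨hbm.1, hbm.2, ?_⟩
          rwa [ht j]
      have h4 : (#{b ∈ range (2 ^ n (j + 1)) | f (j + 1) b t} : ℝ) ≤
          (X j t : ℝ) + 2 ^ r * (#{b ∈ range (2 ^ n j) | f j b t} : ℝ) := by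
        exact_mod_cast h3
      rw [Finset.sum_range_succ]
      calc _ ≤ (X j t : ℝ) + 2 ^ r * (#{b ∈ range (2 ^ n j) | f j b t} : ℝ) := h4
        _ ≤ δ j * 2 ^ n (j + 1) + 2 ^ r * ((∑ i ∈ range j, δ i) * 2 ^ n j) :=
            add_le_add h2 (mul_le_mul_of_nonneg_left h1 (by positivity))
        _ = _ := by rw [hr, pow_add]; ring
  -- the union bound
  have hsub : {t ∈ range (2 ^ N) | ∃ j, n j ≤ N ∧
      (∑ i ∈ range j, δ i) * 2 ^ n j < (#{b ∈ range (2 ^ n j) | f j b t} : ℝ)} ⊆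
      ({i ∈ range N | n (i + 1) ≤ N} : Finset ℕ).biUnion
        fun i => {t ∈ range (2 ^ N) | δ i * 2 ^ n (i + 1) < (X i t : ℝ)} := by
    intro t htm
    rw [Finset.mem_filter] at htm
    obtain ⟨htr, j, hjN, hj⟩ := htm
    have h1 : ∃ i < j, δ i * 2 ^ n (i + 1) < (X i t : ℝ) := by
      by_contra hcon
      push Not at hcon
      exact absurd hj (not_lt.2 (hdet t j hcon))
    obtain ⟨i, hij, hi⟩ := h1
    have h2 : n (i + 1) ≤ N := (hmono.monotone (by omega : i + 1 ≤ j)).trans hjN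
    have h3 : i + 1 ≤ n (i + 1) := hmono.id_le (i + 1)
    rw [Finset.mem_biUnion]
    exact ⟨i, Finset.mem_filter.2 ⟨Finset.mem_range.2 (by omega), h2⟩,
      Finset.mem_filter.2 ⟨htr, hi⟩⟩
  calc _ ≤ ((({i ∈ range N | n (i + 1) ≤ N} : Finset ℕ).biUnion
        fun i => {t ∈ range (2 ^ N) | δ i * 2 ^ n (i + 1) < (X i t : ℝ)}).card : ℝ) := by
          exact_mod_cast Finset.card_le_card hsub
    _ ≤ ((∑ i ∈ range N with n (i + 1) ≤ N,
        #{t ∈ range (2 ^ N) | δ i * 2 ^ n (i + 1) < (X i t : ℝ)} : ℕ) : ℝ) := by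
          exact_mod_cast Finset.card_biUnion_le
    _ = ∑ i ∈ range N with n (i + 1) ≤ N,
        (#{t ∈ range (2 ^ N) | δ i * 2 ^ n (i + 1) < (X i t : ℝ)} : ℝ) := by
          push_cast; rfl
    _ ≤ ∑ i ∈ range N with n (i + 1) ≤ N, e i / δ i * 2 ^ N :=
          Finset.sum_le_sum fun i hi => hMarkov i (Finset.mem_filter.1 hi).2
    _ ≤ ∑ i ∈ range N, e i / δ i * 2 ^ N :=
          Finset.sum_le_sum_of_subset_of_nonneg (Finset.filter_subset _ _) fun i _ _ =>
            mul_nonneg (div_nonneg (he i) (hδ i).le) (by positivity)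
    _ = _ := by rw [Finset.sum_mul]

/-- GA1: the union bound along a chain. -/
theorem ga1 (hN1 : S_N1) : S_GA1 := by
  classical
  intro U n T δ e hδ he hn hX h0 N
  have h := chain (fun j b t => ¬ Gv (T j) (node P2 (n j) b t U)) n hn
    (fun j b t => by
      have := (hN1 P2 (n j) 0 b t U).2
      simp only [this]) δ e hδ he
    (fun j => by
      refine le_trans (le_of_eq ?_) (hX j)
      unfold XX
      congr 1
      refine congrArg Finset.card (Finset.ext fun p => ?_)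
      simp only [Finset.mem_filter, not_not]) (fun b t => not_not.2 (h0 b t)) N
  have hD : ∀ j t, Dd (T j) U (n j) t =
      (@Finset.filter ℕ (fun b => ¬ Gv (T j) (node P2 (n j) b t U))
        (fun _ => Classical.propDecidable _) (range (2 ^ n j))).card := by
    intro j t
    unfold Dd
    refine congrArg Finset.card (Finset.ext fun p => ?_)
    simp only [Finset.mem_filter]
  refine le_trans (le_of_eq ?_) h
  congr 1
  refine congrArg Finset.card (Finset.ext fun t => ?_)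
  simp only [Finset.mem_filter, hD]

end Pool.Agent.H999.TWGA1
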