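import Pool.Agent.H558.TW.Stm5
import Pool.Agent.H558.PP.D4

set_option autoImplicit false

/-! Project TW (helper558): the mean over the levels, all `K` at once. -/

namespace Pool.Agent.H252.TWGD4

open PowerSeries Finset Pool.Agent.R836.PP Pool.Agent.H558.KK Pool.Agent.H558.PP Pool.Agent.H558.TW
open Pool.Agent.K7.H72.MT hiding W few dis DD dis_stable dis_vary DD_stable DD_sum DD_block few_bad
  dis_le DD_le base count
open Pool.Agent.H122.PPD4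

/-- the number of steps for the scale `2 ^ i` -/
def Jn (i : ℕ) : ℕ := 2 ^ ((i + 3) / 4)

theorem Jn_pos (i : ℕ) : 1 ≤ Jn i := Nat.one_le_two_pow

theorem Jn4 (i : ℕ) : 2 ^ i ≤ Jn i ^ 4 := by
  unfold Jn
  rw [← pow_mul]
  exact Nat.pow_le_pow_right (by norm_num) (by omega)

theorem Gl_le (m0 i : ℕ) : (Gl m0 (Jn i) : ℝ) ≤ 4 * (m0 + 1) * (3 / 2 : ℝ) ^ i := by
  have h1 : Gl m0 (Jn i) ≤ (m0 + 1) * Jn i ^ 2 := by
    have h0 := Jn_pos i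
    unfold Gl
    calc ∑ L ∈ Ico m0 (m0 + Jn i), L ≤ ∑ L ∈ Ico m0 (m0 + Jn i), (m0 + Jn i) :=
          sum_le_sum fun L hL => (mem_Ico.1 hL).2.le
      _ = Jn i * (m0 + Jn i) := by rw [sum_const, Nat.card_Ico, smul_eq_mul]; congr 1; omega
      _ ≤ (m0 + 1) * Jn i ^ 2 := by
          have h2 : Jn i ≤ Jn i ^ 2 := by nlinarith
          have h3 : Jn i * m0 ≤ Jn i ^ 2 * m0 := Nat.mul_le_mul_right m0 h2
          calc Jn i * (m0 + Jn i) = Jn i * m0 + Jn i ^ 2 := by ring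
            _ ≤ Jn i ^ 2 * m0 + Jn i ^ 2 := Nat.add_le_add_right h3 _
            _ = (m0 + 1) * Jn i ^ 2 := by ring
  have h2 : ((Jn i : ℝ) ^ 2) ^ 2 ≤ (4 * (3 / 2 : ℝ) ^ i) ^ 2 := by
    have h3 : Jn i ^ 4 ≤ 8 * 2 ^ i := by
      unfold Jn
      rw [← pow_mul]
      calc 2 ^ ((i + 3) / 4 * 4) ≤ 2 ^ (i + 3) := Nat.pow_le_pow_right (by norm_num) (by omega)
        _ = 8 * 2 ^ i := by ring
    have h4 : ((Jn i : ℝ)) ^ 4 ≤ 8 * 2 ^ i := by exact_mod_cast h3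
    have h5 : (2 : ℝ) ^ i ≤ (9 / 4 : ℝ) ^ i := pow_le_pow_left₀ (by norm_num) (by norm_num) i
    have h6 : (4 * (3 / 2 : ℝ) ^ i) ^ 2 = 16 * (9 / 4 : ℝ) ^ i := by
      rw [mul_pow, ← pow_mul, mul_comm i 2, pow_mul]
      norm_num
    have h7 : ((Jn i : ℝ) ^ 2) ^ 2 = (Jn i : ℝ) ^ 4 := by ring
    have h8 : (0 : ℝ) ≤ (9 / 4 : ℝ) ^ i := by positivity
    rw [h6, h7]
    linarith
  have h9 : (Jn i : ℝ) ^ 2 ≤ 4 * (3 / 2 : ℝ) ^ i :=
    le_of_pow_le_pow_left₀ (by norm_num) (by positivity) h2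
  calc (Gl m0 (Jn i) : ℝ) ≤ ((m0 : ℝ) + 1) * (Jn i : ℝ) ^ 2 := by exact_mod_cast h1
    _ ≤ ((m0 : ℝ) + 1) * (4 * (3 / 2 : ℝ) ^ i) := mul_le_mul_of_nonneg_left h9 (by positivity)
    _ = _ := by ring

open scoped Classical in
theorem d4W_le (T g : ℕ) (U : S) (k t : ℕ) (e : ℝ)
    (h : (Dd T U (k - g) t : ℝ) ≤ e * 2 ^ (k - g)) : d4W T g U k t ≤ e := by
  obtain ⟨m, hm⟩ : ∃ m, m = k - g := ⟨_, rfl⟩
  have hmk : m ≤ k := by omega
  rw [← hm] at h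
  obtain ⟨F, hF⟩ : ∃ F : ℕ → ℝ, F = fun b => if ¬ Gv T (node P2 m b (t % 2 ^ m) U) then 1 else 0 :=
    ⟨_, rfl⟩
  have e1 : d4W T g U k t = (2 ^ (k - m) * ∑ b ∈ range (2 ^ m), F b) / 2 ^ k := by
    unfold d4W
    congr 1
    rw [← hm, card_filter]
    have h1 : (2 : ℕ) ^ k = 2 ^ m * 2 ^ (k - m) := by rw [← pow_add]; congr 1; omega
    rw [h1]
    push_cast
    have h2 := d4_sum_mod (fun b => F b) (2 ^ m) (2 ^ (k - m))
    push_cast at h2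
    rw [← h2, hF]
  have e2 : ∑ b ∈ range (2 ^ m), F b = (Dd T U m t : ℝ) := by
    unfold Dd
    rw [card_filter, hF]
    push_cast
    refine sum_congr rfl fun b _ => ?_
    rw [show node P2 m b (t % 2 ^ m) U = node P2 m b t U from node_mod P2 m b t U]
  rw [e1, e2, div_le_iff₀ (by positivity)]
  have h4 : (2 : ℝ) ^ k = 2 ^ (k - m) * 2 ^ m := by rw [← pow_add]; congr 1; omega
  rw [h4]
  calc (2 : ℝ) ^ (k - m) * (Dd T U m t : ℝ) ≤ 2 ^ (k - m) * (e * 2 ^ m) := by gcongr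
    _ = e * (2 ^ (k - m) * 2 ^ m) := by ring

open scoped Classical in
theorem Yf1 (V : ℕ) (U : S) (k t : ℕ) : Yf V U k t ≤ 1 := by
  unfold Yf
  rw [div_le_one (by positivity)]
  have h1 := card_filter_le (range (2 ^ k)) (fun b => Gv V (node P2 k b t U))
  rw [card_range] at h1
  exact_mod_cast h1

open scoped Classical in
theorem gd4 (h3 : S_T3) (hga : S_GA) (hd3 : S_D3) (hv : S_VAR) : S_GD4 := by
  intro η hη
  obtain ⟨L0, hL0, hStp⟩ := h3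
  -- the base level
  obtain ⟨m0, hm0, hm0η⟩ : ∃ m0 : ℕ, L0 ≤ m0 ∧ 1 / ((m0 : ℝ) - 1) ^ 2 ≤ η / 16 := by
    obtain ⟨a, ha⟩ := exists_nat_gt (16 / η)
    refine ⟨L0 + a + 2, by omega, ?_⟩
    have h1 : (0 : ℝ) < 16 / η := by positivity
    have h2 : (16 / η : ℝ) ≤ ((((L0 + a + 2 : ℕ) : ℝ)) - 1) ^ 2 := by
      push_cast
      have h4 : (0 : ℝ) ≤ L0 := Nat.cast_nonneg _
      nlinarith
    have h5 : η / 16 = 1 / (16 / η) := by
      field_simp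
    rw [h5]
    exact one_div_le_one_div_of_le h1 h2
  have hm01 : 1 ≤ m0 := by omega
  refine ⟨8 * 8 ^ m0, ?_⟩
  intro U hU ε hε
  obtain ⟨ε', hε'⟩ : ∃ ε' : ℝ, ε' = min (ε / 2) (η / 16) := ⟨_, rfl⟩
  have hε'0 : 0 < ε' := by rw [hε']; exact lt_min (by positivity) (by positivity)
  have hε'1 : ε' ≤ ε / 2 := by rw [hε']; exact min_le_left _ _
  have hε'2 : ε' ≤ η / 16 := by rw [hε']; exact min_le_right _ _
  obtain ⟨k1, hk1⟩ := hga L0 hL0 hStp U hU ε' hε'0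
  -- the chains
  choose g hg hD3 using fun i : ℕ => hd3 L0 hL0 hStp m0 (Jn i) hm0
  -- the constants
  obtain ⟨B0, hB0⟩ : ∃ B0 : ℝ, B0 = 4 * (4 * ((m0 : ℝ) + 1)) / (η / 16) ^ 2 := ⟨_, rfl⟩
  have hB0p : 0 < B0 := by rw [hB0]; positivity
  obtain ⟨D0, hD0⟩ : ∃ D0 : ℝ, D0 = k1 + 4 * ((m0 : ℝ) + 1) := ⟨_, rfl⟩
  have hD0p : 0 < D0 := by rw [hD0]; positivity
  obtain ⟨i1, hi1⟩ := exists_pow_lt_of_lt_one (x := min (ε / 2 / (4 * B0)) (5 * η / 16 / D0))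
    (y := (3 / 4 : ℝ)) (lt_min (by positivity) (by positivity)) (by norm_num)
  have hi1a : 4 * B0 * (3 / 4 : ℝ) ^ i1 ≤ ε / 2 := by
    have := (lt_min_iff.1 hi1).1
    rw [lt_div_iff₀ (by positivity)] at this
    linarith
  have hi1b : D0 * (3 / 4 : ℝ) ^ i1 ≤ 5 * η / 16 := by
    have := (lt_min_iff.1 hi1).2
    rw [lt_div_iff₀ (by positivity)] at this
    linarith
  refine ⟨2 ^ i1, ?_⟩
  intro N
  -- the exceptional sets
  obtain ⟨Ei, hEi⟩ : ∃ Ei : ℕ → Finset ℕ, Ei = fun i => {t ∈ range (2 ^ N) | (η / 16 + η / 16) *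
      ((2 ^ i : ℕ) : ℝ) < ∑ k ∈ Ico (Gl m0 (Jn i)) (2 ^ i + 1),
        Zf (8 * 8 ^ m0) (8 * 8 ^ (m0 + Jn i)) (g i) U k t} := ⟨_, rfl⟩
  have hEc : ∀ i, 2 ^ i ≤ N → (#(Ei i) : ℝ) ≤ B0 * (3 / 4 : ℝ) ^ i * 2 ^ N := by
    intro i hi
    have h1 := hv N (2 ^ i) (Gl m0 (Jn i))
      (fun k t => Zf (8 * 8 ^ m0) (8 * 8 ^ (m0 + Jn i)) (g i) U k t) (η / 16) (η / 16)
      (by
        have := (d4_Gl m0 (Jn i)).2 (Jn_pos i)
        omega) Nat.one_le_two_pow hi (by positivity) (fun k t => d4_Zf01 _ _ _ _ _ _)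
      (fun k t => d4_Zfmod _ _ _ _ _ _)
      (fun k hk a ha => (hD3 i U k hk a ha).trans (by gcongr))
    rw [hEi]
    refine h1.trans ?_
    have h2 := Gl_le m0 i
    refine mul_le_mul_of_nonneg_right ?_ (by positivity)
    rw [div_le_iff₀ (by positivity), hB0]
    push_cast
    have h4 : (3 / 4 : ℝ) ^ i * 2 ^ i = (3 / 2 : ℝ) ^ i := by
      rw [← mul_pow]
      norm_num
    calc 4 * (Gl m0 (Jn i) : ℝ) ≤ 4 * (4 * ((m0 : ℝ) + 1) * (3 / 2 : ℝ) ^ i) := by gcongr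
      _ = 4 * (4 * ((m0 : ℝ) + 1)) * ((3 / 4 : ℝ) ^ i * 2 ^ i) := by rw [h4]; ring
      _ = 4 * (4 * ((m0 : ℝ) + 1)) / (η / 16) ^ 2 * (3 / 4 : ℝ) ^ i * ((η / 16) ^ 2 * 2 ^ i) := by
          field_simp
  obtain ⟨EA, hEA⟩ : ∃ EA : Finset ℕ, EA = {t ∈ range (2 ^ N) | ∃ k J : ℕ, k1 ≤ k ∧ 2 * k ≤ N ∧
      k ≤ J ^ 4 ∧ ε' * 2 ^ k < (Dd (8 * 8 ^ J) U k t : ℝ)} := ⟨_, rfl⟩
  have hEAc : (#EA : ℝ) ≤ ε' * 2 ^ N := by
    rw [hEA]
    exact hk1 N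
  obtain ⟨I, hI⟩ : ∃ I : Finset ℕ, I = {i ∈ Ico i1 (N + 1) | 2 ^ i ≤ N} := ⟨_, rfl⟩
  -- the inclusion
  have hsub : {t ∈ range (2 ^ N) | ∃ K : ℕ, 2 ^ i1 ≤ K ∧ 8 * K ≤ N ∧
      ∑ k ∈ range K, Yf (8 * 8 ^ m0) U k t < (1 - η) * K} ⊆ EA ∪ I.biUnion Ei := by
    intro t ht
    obtain ⟨ht1, K, hK1, hK2, hK3⟩ := mem_filter.1 ht
    by_contra hne
    rw [mem_union, not_or] at hne
    obtain ⟨hn1, hn2⟩ := hne
    have hKpos : K ≠ 0 := by
      have : 1 ≤ 2 ^ i1 := Nat.one_le_two_pow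
      omega
    obtain ⟨i, hi⟩ : ∃ i, i = Nat.log 2 K + 1 := ⟨_, rfl⟩
    have hKi : K < 2 ^ i := by
      rw [hi]
      exact Nat.lt_pow_succ_log_self (by norm_num) K
    have hiK : 2 ^ i ≤ 2 * K := by
      rw [hi, pow_succ]
      have := Nat.pow_log_le_self 2 hKpos
      omega
    have hi1i : i1 ≤ i := by
      have : i1 ≤ Nat.log 2 K := Nat.le_log_of_pow_le (by norm_num) hK1
      omega
    have hiN : 2 * 2 ^ i ≤ N := by omega
    have hiI : i ∈ I := by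
      rw [hI, mem_filter, mem_Ico]
      have : i < 2 ^ i := Nat.lt_two_pow_self
      exact ⟨⟨hi1i, by omega⟩, by omega⟩
    have hz : ∑ k ∈ Ico (Gl m0 (Jn i)) (2 ^ i + 1),
        Zf (8 * 8 ^ m0) (8 * 8 ^ (m0 + Jn i)) (g i) U k t ≤
          (η / 16 + η / 16) * ((2 ^ i : ℕ) : ℝ) := by
      by_contra hh
      apply hn2
      rw [mem_biUnion]
      refine ⟨i, hiI, ?_⟩
      rw [hEi]
      exact mem_filter.2 ⟨ht1, not_le.1 hh⟩
    have hw : ∀ k ∈ Ico (k1 + Gl m0 (Jn i)) (2 ^ i),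
        d4W (8 * 8 ^ (m0 + Jn i)) (g i) U k t ≤ ε' := by
      intro k hk
      obtain ⟨h5, h6⟩ := mem_Ico.1 hk
      apply d4W_le
      by_contra hh
      apply hn1
      rw [hEA, mem_filter]
      refine ⟨ht1, k - g i, m0 + Jn i, ?_, ?_, ?_, not_le.1 hh⟩
      · have := hg i
        omega
      · omega
      · calc k - g i ≤ 2 ^ i := by omega
          _ ≤ Jn i ^ 4 := Jn4 i
          _ ≤ (m0 + Jn i) ^ 4 := Nat.pow_le_pow_left (by omega) 4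
    -- the sum over all levels below `2 ^ i`
    have hGr := Gl_le m0 i
    have h2i : (0 : ℝ) < 2 ^ i := by positivity
    have hsmall : (k1 : ℝ) + (Gl m0 (Jn i) : ℝ) ≤ 5 * η / 16 * 2 ^ i := by
      have h4 : (3 / 4 : ℝ) ^ i * 2 ^ i = (3 / 2 : ℝ) ^ i := by
        rw [← mul_pow]
        norm_num
      have h5 : (1 : ℝ) ≤ (3 / 2 : ℝ) ^ i := one_le_pow₀ (by norm_num)
      have h6 : (3 / 4 : ℝ) ^ i ≤ (3 / 4 : ℝ) ^ i1 :=
        pow_le_pow_of_le_one (by norm_num) (by norm_num) hi1i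
      calc (k1 : ℝ) + (Gl m0 (Jn i) : ℝ)
          ≤ k1 * (3 / 2 : ℝ) ^ i + 4 * ((m0 : ℝ) + 1) * (3 / 2 : ℝ) ^ i := by
            have h7 : (k1 : ℝ) * 1 ≤ k1 * (3 / 2 : ℝ) ^ i := by gcongr
            linarith
        _ = D0 * (3 / 4 : ℝ) ^ i * 2 ^ i := by rw [hD0, mul_assoc _ _ ((2 : ℝ) ^ i), h4]; ring
        _ ≤ D0 * (3 / 4 : ℝ) ^ i1 * 2 ^ i := by gcongr
        _ ≤ 5 * η / 16 * 2 ^ i := by gcongr
    have hle : k1 + Gl m0 (Jn i) ≤ 2 ^ i ∨ 2 ^ i < k1 + Gl m0 (Jn i) := le_or_gt _ _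
    have hmain : ∑ k ∈ range (2 ^ i), (1 - Yf (8 * 8 ^ m0) U k t) ≤ η / 2 * 2 ^ i := by
      have h8 : ∀ k, 1 - Yf (8 * 8 ^ m0) U k t ≤ 1 := by
        intro k
        have := d4_Yf0 (8 * 8 ^ m0) U k t
        linarith
      rcases hle with hle | hle
      · rw [← sum_range_add_sum_Ico _ hle]
        have h9 : ∑ k ∈ range (k1 + Gl m0 (Jn i)), (1 - Yf (8 * 8 ^ m0) U k t) ≤
            (k1 : ℝ) + (Gl m0 (Jn i) : ℝ) := by
          refine (sum_le_sum fun k _ => h8 k).trans (le_of_eq ?_)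
          rw [sum_const, card_range, nsmul_eq_mul, mul_one]
          push_cast
          ring
        have h10 : ∑ k ∈ Ico (k1 + Gl m0 (Jn i)) (2 ^ i), (1 - Yf (8 * 8 ^ m0) U k t) ≤
            (η / 16 + η / 16) * ((2 ^ i : ℕ) : ℝ) + ε' * 2 ^ i := by
          refine (sum_le_sum fun k _ =>
            d4_split (8 * 8 ^ m0) (8 * 8 ^ (m0 + Jn i)) (g i) U k t).trans ?_
          rw [sum_add_distrib]
          refine add_le_add (le_trans ?_ hz) ?_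
          · refine sum_le_sum_of_subset_of_nonneg ?_ fun k _ _ => (d4_Zf01 _ _ _ _ _ _).1
            intro k hk
            obtain ⟨h6, h7⟩ := mem_Ico.1 hk
            exact mem_Ico.2 ⟨by omega, by omega⟩
          · refine (sum_le_sum hw).trans ?_
            rw [sum_const, nsmul_eq_mul, Nat.card_Ico, mul_comm]
            have h11 : ((2 ^ i - (k1 + Gl m0 (Jn i)) : ℕ) : ℝ) ≤ 2 ^ i := by
              have : 2 ^ i - (k1 + Gl m0 (Jn i)) ≤ 2 ^ i := Nat.sub_le _ _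
              exact_mod_cast this
            exact mul_le_mul_of_nonneg_left h11 hε'0.le
        have h12 : ε' * 2 ^ i ≤ η / 16 * 2 ^ i := by gcongr
        push_cast at h10
        linarith
      · refine (sum_le_sum fun k _ => h8 k).trans ?_
        rw [sum_const, card_range, nsmul_eq_mul, mul_one]
        have h13 : ((2 ^ i : ℕ) : ℝ) ≤ ((k1 + Gl m0 (Jn i) : ℕ) : ℝ) := by exact_mod_cast hle.le
        push_cast at h13 ⊢
        have h14 : 0 < η * 2 ^ i := by positivity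
        linarith
    have hfin : ∑ k ∈ range K, (1 - Yf (8 * 8 ^ m0) U k t) ≤ η * K := by
      have h15 : ∑ k ∈ range K, (1 - Yf (8 * 8 ^ m0) U k t) ≤
          ∑ k ∈ range (2 ^ i), (1 - Yf (8 * 8 ^ m0) U k t) := by
        refine sum_le_sum_of_subset_of_nonneg ?_ fun k _ _ => ?_
        · intro k hk
          exact mem_range.2 ((mem_range.1 hk).trans hKi)
        · have := Yf1 (8 * 8 ^ m0) U k t
          linarith
      have h16 : (2 : ℝ) ^ i ≤ 2 * K := by exact_mod_cast hiK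
      calc ∑ k ∈ range K, (1 - Yf (8 * 8 ^ m0) U k t) ≤ η / 2 * 2 ^ i := h15.trans hmain
        _ ≤ η / 2 * (2 * K) := by gcongr
        _ = η * K := by ring
    rw [sum_sub_distrib, sum_const, card_range, nsmul_eq_mul, mul_one] at hfin
    linarith
  -- numbers
  have hcard : (#{t ∈ range (2 ^ N) | ∃ K : ℕ, 2 ^ i1 ≤ K ∧ 8 * K ≤ N ∧
      ∑ k ∈ range K, Yf (8 * 8 ^ m0) U k t < (1 - η) * K} : ℝ) ≤ #EA + ∑ i ∈ I, (#(Ei i) : ℝ) := by
    have h1 := (card_le_card hsub).trans ((card_union_le _ _).trans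
      (Nat.add_le_add_left card_biUnion_le _))
    exact_mod_cast h1
  have hsum : ∑ i ∈ I, (#(Ei i) : ℝ) ≤ ε / 2 * 2 ^ N := by
    calc ∑ i ∈ I, (#(Ei i) : ℝ) ≤ ∑ i ∈ I, B0 * (3 / 4 : ℝ) ^ i * 2 ^ N := by
          refine sum_le_sum fun i hi => hEc i ?_
          rw [hI] at hi
          exact (mem_filter.1 hi).2
      _ ≤ ∑ i ∈ Ico i1 (N + 1), B0 * (3 / 4 : ℝ) ^ i * 2 ^ N := by
          rw [hI]
          exact sum_le_sum_of_subset_of_nonneg (filter_subset _ _) fun i _ _ => by positivity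
      _ = B0 * (∑ i ∈ Ico i1 (N + 1), (3 / 4 : ℝ) ^ i) * 2 ^ N := by
          rw [mul_sum, sum_mul]
      _ ≤ B0 * ((3 / 4 : ℝ) ^ i1 / (1 - 3 / 4)) * 2 ^ N := by
          have := geom_sum_Ico_le_of_lt_one (m := i1) (n := N + 1) (x := (3 / 4 : ℝ)) (by norm_num)
            (by norm_num)
          gcongr
      _ = 4 * B0 * (3 / 4 : ℝ) ^ i1 * 2 ^ N := by ring
      _ ≤ ε / 2 * 2 ^ N := by gcongr
  calc (#{t ∈ range (2 ^ N) | ∃ K : ℕ, 2 ^ i1 ≤ K ∧ 8 * K ≤ N ∧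
      ∑ k ∈ range K, Yf (8 * 8 ^ m0) U k t < (1 - η) * K} : ℝ)
      ≤ ε' * 2 ^ N + ε / 2 * 2 ^ N := hcard.trans (add_le_add hEAc hsum)
    _ ≤ ε / 2 * 2 ^ N + ε / 2 * 2 ^ N := by gcongr
    _ = ε * 2 ^ N := by ring

end Pool.Agent.H252.TWGD4
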