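import Pool.Agent.H558.TW.Stm5

set_option autoImplicit false

/-!
# One pattern, lower logarithmic density for almost all 2-adic `t` (GE1 of the project TW of helper558;
helper181)
-/

namespace Pool.Agent.H181.TWGE1

open PowerSeries Finset MeasureTheory Pool.Agent.R836.PP Pool.Agent.H558.KK Pool.Agent.H558.PP
  Pool.Agent.H558.TW
open Pool.Agent.K7.H72.MT hiding W few dis DD dis_stable dis_vary DD_stable DD_sum DD_block few_bad
  dis_le DD_le base count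

theorem pat_eq {L : ℕ} (c : Fin (L + 1) → ZMod 2) (t : ℤ_[2]) {n x K : ℕ} (hx : x + L < 2 ^ K)
    (hn : n < x + 1) : ∑ i : Fin (L + 1), c i * pz t (n + i) = pat c (P2 ^ t.appr K) n := by
  unfold pat
  refine sum_congr rfl fun i _ => ?_
  have hi := i.2
  rw [pz_eq t (show n + (i : ℕ) < 2 ^ K by omega)]

theorem LZ1_eq (M ρ : ℕ) {L : ℕ} (c : Fin (L + 1) → ZMod 2) (w : ℕ → ZMod 2) (t : ℤ_[2])
    {x K : ℕ} (hx : x + L < 2 ^ K) : LZ1 M ρ c w t x = LG1 M ρ c w (t.appr K) x := by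
  unfold LZ1 LG1
  refine sum_congr (filter_congr fun n hn => ?_) fun _ _ => rfl
  rw [mem_range] at hn
  rw [pat_eq c t hx hn]

theorem LZ1_mono (M ρ : ℕ) {L : ℕ} (c : Fin (L + 1) → ZMod 2) (w : ℕ → ZMod 2) (t : ℤ_[2])
    {x y : ℕ} (h : x ≤ y) : LZ1 M ρ c w t x ≤ LZ1 M ρ c w t y := by
  unfold LZ1
  apply sum_le_sum_of_subset_of_nonneg
  · apply filter_subset_filter
    rw [range_subset_range]
    omega
  · intro n _ _
    positivity

theorem pow_aux {K L N : ℕ} (h1 : L + 1 ≤ K) (h2 : 8 * K ≤ N) : 2 ^ K + L < 2 ^ N := by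
  have h3 : L < 2 ^ K := lt_of_lt_of_le Nat.lt_two_pow_self (Nat.pow_le_pow_right (by norm_num) (by omega))
  have h4 : 2 ^ (K + 1) ≤ 2 ^ N := Nat.pow_le_pow_right (by norm_num) (by omega)
  rw [pow_succ] at h4
  omega

/-- one pattern, one progression -/
theorem ae_one (M ρ L : ℕ) (c : Fin (L + 1) → ZMod 2) (κ : ℝ) (hκ : 0 < κ)
    (h : ∀ ε : ℝ, 0 < ε → ∃ K1 : ℕ, ∀ (w : ℕ → ZMod 2) (N : ℕ),
      (Set.ncard {t : ℕ | t < 2 ^ N ∧ t % 2 = 1 ∧ ∃ K : ℕ, K1 ≤ K ∧ 8 * K ≤ N ∧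
        LG1 M ρ c w t (2 ^ K) < κ * K} : ℝ) ≤ ε * 2 ^ N)
    (w : ℕ → ZMod 2) [MeasurableSpace ℤ_[2]] [BorelSpace ℤ_[2]] (μ : Measure ℤ_[2])
    [IsProbabilityMeasure μ] [μ.IsAddLeftInvariant] :
    ∀ᵐ t ∂μ, t.appr 1 = 1 → ∃ x₀ : ℕ, ∀ x : ℕ, x₀ ≤ x → κ * Real.log x ≤ LZ1 M ρ c w t x := by
  classical
  let B : Set ℤ_[2] := {t | t.appr 1 = 1 ∧ ∀ K1 : ℕ, ∃ K : ℕ, K1 ≤ K ∧
    LZ1 M ρ c w t (2 ^ K) < κ * K}
  have hB : ∀ n : ℕ, μ B ≤ ENNReal.ofReal (1 / ((n : ℝ) + 1)) := by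
    intro n
    obtain ⟨K1, hK1⟩ := h (1 / ((n : ℝ) + 1)) (by positivity)
    let BN : ℕ → Set ℤ_[2] := fun N => {t | t.appr 1 = 1 ∧ ∃ K : ℕ, max K1 (L + 1) ≤ K ∧ 8 * K ≤ N ∧
      LZ1 M ρ c w t (2 ^ K) < κ * K}
    have hmono : Monotone BN := by
      rintro i j hij t ⟨h1, K, h2, h3, h4⟩
      exact ⟨h1, K, h2, h3.trans hij, h4⟩
    have hsub : B ⊆ ⋃ N, BN N := by
      rintro t ⟨h1, h2⟩
      obtain ⟨K, h3, h4⟩ := h2 (max K1 (L + 1))
      exact Set.mem_iUnion.2 ⟨8 * K, h1, K, h3, le_rfl, h4⟩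
    refine (measure_mono hsub).trans ?_
    rw [hmono.measure_iUnion]
    refine iSup_le fun N => ?_
    by_cases hN : 8 ≤ N
    · have hsub2 : BN N ⊆ {t : ℤ_[2] | t.appr N ∈ ({t ∈ range (2 ^ N) | t % 2 = 1 ∧
          ∃ K : ℕ, K1 ≤ K ∧ 8 * K ≤ N ∧ LG1 M ρ c w t (2 ^ K) < κ * K} : Finset ℕ)} := by
        rintro t ⟨h1, K, h2, h3, h4⟩
        change t.appr N ∈ ({t ∈ range (2 ^ N) | t % 2 = 1 ∧
          ∃ K : ℕ, K1 ≤ K ∧ 8 * K ≤ N ∧ LG1 M ρ c w t (2 ^ K) < κ * K} : Finset ℕ)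
        rw [mem_filter, mem_range]
        refine ⟨PadicInt.appr_lt t N, ?_, K, (le_max_left _ _).trans h2, h3, ?_⟩
        · have h5 := appr_modEq t (show 1 ≤ N by omega)
          rw [pow_one] at h5
          have h6 : t.appr 1 % 2 = t.appr N % 2 := h5
          rw [← h6, h1]
        · rw [← LZ1_eq M ρ c w t (pow_aux ((le_max_right _ _).trans h2) h3)]
          exact h4
      refine (measure_mono hsub2).trans ?_
      refine (measure_finset μ N _ (filter_subset _ _)).trans ?_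
      apply ENNReal.ofReal_le_ofReal
      rw [div_le_iff₀ (by positivity)]
      refine le_trans (le_of_eq ?_) (hK1 w N)
      have e1 : {t : ℕ | t < 2 ^ N ∧ t % 2 = 1 ∧ ∃ K : ℕ, K1 ≤ K ∧ 8 * K ≤ N ∧
          LG1 M ρ c w t (2 ^ K) < κ * K} = (({t ∈ range (2 ^ N) | t % 2 = 1 ∧
          ∃ K : ℕ, K1 ≤ K ∧ 8 * K ≤ N ∧ LG1 M ρ c w t (2 ^ K) < κ * K} : Finset ℕ) : Set ℕ) := by
        ext t
        rw [mem_coe, mem_filter, mem_range]
        rfl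
      rw [e1, Set.ncard_coe_finset]
    · have hempty : BN N = ∅ := by
        rw [Set.eq_empty_iff_forall_notMem]
        rintro t ⟨-, K, h2, h3, -⟩
        have := (le_max_right K1 (L + 1)).trans h2
        omega
      rw [hempty, measure_empty]
      exact zero_le
  have h0 : μ B = 0 := by
    refine le_antisymm ?_ (zero_le)
    have h1 : Filter.Tendsto (fun n : ℕ => ENNReal.ofReal (1 / ((n : ℝ) + 1))) Filter.atTop
        (nhds 0) := by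
      have h2 := ENNReal.tendsto_ofReal (tendsto_one_div_add_atTop_nhds_zero_nat (𝕜 := ℝ))
      rwa [ENNReal.ofReal_zero] at h2
    exact ge_of_tendsto' h1 hB
  have h1 : ∀ᵐ t ∂μ, t ∉ B := measure_eq_zero_iff_ae_notMem.1 h0
  filter_upwards [h1] with t ht h2
  have h3 : ¬ ∀ K1 : ℕ, ∃ K : ℕ, K1 ≤ K ∧ LZ1 M ρ c w t (2 ^ K) < κ * K := fun h3 => ht ⟨h2, h3⟩
  rw [not_forall] at h3
  obtain ⟨K1, hK1⟩ := h3
  refine ⟨2 ^ (max K1 3), fun x hx => ?_⟩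
  have hx1 : 1 ≤ x := le_trans Nat.one_le_two_pow hx
  set j := Nat.log 2 x with hj
  have hjx : 2 ^ j ≤ x := Nat.pow_log_le_self 2 (by omega)
  have hjx2 : x < 2 ^ (j + 1) := Nat.lt_pow_succ_log_self (by norm_num) _
  have hjge : max K1 3 ≤ j := Nat.le_log_of_pow_le (by norm_num) hx
  have h4 : κ * j ≤ LZ1 M ρ c w t (2 ^ j) := by
    by_contra hcon
    exact hK1 ⟨j, (le_max_left _ _).trans hjge, not_le.1 hcon⟩
  refine le_trans ?_ (h4.trans (LZ1_mono M ρ c w t hjx))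
  apply mul_le_mul_of_nonneg_left _ hκ.le
  have h7 : (x : ℝ) ≤ 2 ^ (j + 1) := by exact_mod_cast hjx2.le
  have h8 := Real.log_le_log (by exact_mod_cast hx1) h7
  rw [Real.log_pow] at h8
  push_cast at h8
  have h9 := Real.log_two_lt_d9
  have h10 : (3 : ℝ) ≤ j := by exact_mod_cast (le_max_right K1 3).trans hjge
  nlinarith

/-- **GE1** from `S_GL1`. -/
theorem ge1 (hgl : S_GL1) : S_GE1 := by
  intro M hM
  obtain ⟨κ, hκ, h⟩ := hgl M hM
  refine ⟨κ, hκ, ?_⟩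
  intro w _ _ μ _ _
  have h2 : ∀ᵐ t ∂μ, ∀ (ρ L : ℕ) (c : Fin (L + 1) → ZMod 2), c ≠ 0 →
      t.appr 1 = 1 → ∃ x₀ : ℕ, ∀ x : ℕ, x₀ ≤ x → κ * Real.log x ≤ LZ1 M ρ c w t x := by
    rw [MeasureTheory.ae_all_iff]
    intro ρ
    rw [MeasureTheory.ae_all_iff]
    intro L
    rw [MeasureTheory.ae_all_iff]
    intro c
    by_cases hc : c ≠ 0
    · filter_upwards [ae_one M ρ L c κ hκ (h ρ L c hc) w μ] with t ht _
      exact ht
    · exact Filter.Eventually.of_forall fun t h => absurd h hc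
  filter_upwards [h2] with t ht h1 ρ L c hc
  exact ht ρ L c hc h1

end Pool.Agent.H181.TWGE1
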