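import Pool.Agent.H558.TW.Stm5
import Pool.Agent.H558.PP.D6

set_option autoImplicit false

/-!
# One pattern, all moduli, logarithmic mean (helper575, for helper558)
-/

namespace Pool.Agent.H575.TWGL1

open PowerSeries Finset Pool.Agent.R836.PP Pool.Agent.H558.KK Pool.Agent.H558.PP
open Pool.Agent.H558.TW
open Pool.Agent.K7.H72.MT hiding W few dis DD dis_stable dis_vary DD_stable DD_sum DD_block few_bad
  dis_le DD_le base count

open scoped Classical in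
/-- one residue class modulo `2 ^ b` -/
theorem cls {M m b b' ρ L : ℕ} (hM : M = 2 ^ b' * m) (hm : Odd m) (hb : b' ≤ b)
    (c : Fin (L + 1) → ZMod 2) (w : ℕ → ZMod 2) (t J K : ℕ) (hJ : J + b ≤ K) :
    ∑ a ∈ range (2 ^ J) with ((ρ + L) % 2 ^ b + 2 ^ b * a) % m = (ρ + L) % m ∧
      coeff a (node P2 b ((ρ + L) % 2 ^ b) (t % 2 ^ b) (CC c) * P2 ^ (t / 2 ^ b)) ≠
        w ((ρ + L) % 2 ^ b + 2 ^ b * a - L), 2 / ((a : ℝ) + 1) ≤
      2 * L + 2 * 2 ^ b * LG1 M ρ c w t (2 ^ K) := by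
  have hP : 0 < 2 ^ b := by positivity
  obtain ⟨β, hβ⟩ : ∃ β, β = (ρ + L) % 2 ^ b := ⟨_, rfl⟩
  rw [← hβ]
  have hβlt : β < 2 ^ b := by rw [hβ]; exact Nat.mod_lt _ hP
  obtain ⟨F, hF⟩ : ∃ F : Finset ℕ, F = {a ∈ range (2 ^ J) | (β + 2 ^ b * a) % m = (ρ + L) % m ∧
      coeff a (node P2 b β (t % 2 ^ b) (CC c) * P2 ^ (t / 2 ^ b)) ≠ w (β + 2 ^ b * a - L)} :=
    ⟨_, rfl⟩
  rw [← hF]
  rw [← sum_filter_add_sum_filter_not F (fun a => β + 2 ^ b * a < L)]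
  refine add_le_add ?_ ?_
  · have h1 : F.filter (fun a => β + 2 ^ b * a < L) ⊆ range L := by
      intro a ha
      have h2 := (mem_filter.1 ha).2
      rw [mem_range]
      have h3 : a ≤ 2 ^ b * a := Nat.le_mul_of_pos_left a hP
      omega
    calc ∑ a ∈ F.filter (fun a => β + 2 ^ b * a < L), 2 / ((a : ℝ) + 1)
        ≤ ∑ a ∈ range L, 2 / ((a : ℝ) + 1) :=
          sum_le_sum_of_subset_of_nonneg h1 fun a _ _ => by positivity
      _ ≤ ∑ a ∈ range L, (2 : ℝ) := by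
          refine sum_le_sum fun a _ => ?_
          rw [div_le_iff₀ (by positivity)]
          have : (0 : ℝ) ≤ a := Nat.cast_nonneg a
          linarith
      _ = 2 * L := by
          rw [sum_const, card_range, nsmul_eq_mul]
          ring
  · have h1 : ∀ a ∈ F.filter (fun a => ¬ β + 2 ^ b * a < L), (2 : ℝ) / ((a : ℝ) + 1) ≤
        2 * 2 ^ b * (1 / (((β + 2 ^ b * a - L : ℕ) : ℝ) + 1)) := by
      intro a _
      rw [mul_one_div, div_le_div_iff₀ (by positivity) (by positivity)]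
      have h2 : (((β + 2 ^ b * a - L : ℕ) : ℝ) + 1) ≤ 2 ^ b * ((a : ℝ) + 1) := by
        have h3 : β + 2 ^ b * a - L + 1 ≤ 2 ^ b * (a + 1) := by
          rw [mul_add, mul_one]
          omega
        exact_mod_cast h3
      linarith
    refine (sum_le_sum h1).trans ?_
    rw [← mul_sum]
    refine mul_le_mul_of_nonneg_left ?_ (by positivity)
    have hinj : Set.InjOn (fun a : ℕ => β + 2 ^ b * a - L)
        (F.filter (fun a => ¬ β + 2 ^ b * a < L) : Finset ℕ) := by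
      intro a ha a' ha' h
      have g1 := (mem_filter.1 (mem_coe.1 ha)).2
      have g2 := (mem_filter.1 (mem_coe.1 ha')).2
      simp only at h
      have h2 : 2 ^ b * a = 2 ^ b * a' := by omega
      exact Nat.eq_of_mul_eq_mul_left hP h2
    rw [← sum_image (f := fun n : ℕ => 1 / ((n : ℝ) + 1)) (g := fun a : ℕ => β + 2 ^ b * a - L) hinj]
    unfold LG1
    refine sum_le_sum_of_subset_of_nonneg ?_ fun n _ _ => by positivity
    intro n hn
    rw [mem_image] at hn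
    obtain ⟨a, ha, rfl⟩ := hn
    obtain ⟨haF, hge⟩ := mem_filter.1 ha
    rw [hF, mem_filter, mem_range] at haF
    obtain ⟨h2, h3, h4⟩ := haF
    rw [mem_filter, mem_range]
    refine ⟨?_, ?_, ?_⟩
    · have h5 : β + 2 ^ b * a < 2 ^ (J + b) := by
        rw [add_comm J b, pow_add]
        calc β + 2 ^ b * a < 2 ^ b * (a + 1) := by
              rw [mul_add, mul_one]
              omega
          _ ≤ 2 ^ b * 2 ^ J := Nat.mul_le_mul_left _ h2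
      have h6 : 2 ^ (J + b) ≤ 2 ^ K := Nat.pow_le_pow_right (by norm_num) hJ
      omega
    · have hnL : β + 2 ^ b * a - L + L = β + 2 ^ b * a := by omega
      have h2' : β + 2 ^ b * a - L + L ≡ ρ + L [MOD 2 ^ b] := by
        show (β + 2 ^ b * a - L + L) % 2 ^ b = (ρ + L) % 2 ^ b
        rw [hnL, Nat.add_mul_mod_self_left, hβ, Nat.mod_mod]
      have g1 : β + 2 ^ b * a - L ≡ ρ [MOD 2 ^ b'] :=
        (Nat.ModEq.add_right_cancel' L h2').of_dvd (pow_dvd_pow 2 hb)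
      have g2 : β + 2 ^ b * a - L ≡ ρ [MOD m] := by
        refine Nat.ModEq.add_right_cancel' L ?_
        show (β + 2 ^ b * a - L + L) % m = (ρ + L) % m
        rw [hnL]
        exact h3
      have hcop : Nat.Coprime (2 ^ b') m := Nat.Coprime.pow_left _ (Nat.coprime_two_left.2 hm)
      rw [hM]
      exact (Nat.modEq_and_modEq_iff_modEq_mul hcop).1 ⟨g1, g2⟩
    · have h5 := coeff_node P2 b β t a (CC c) hβlt
      rw [← node_mod] at h5
      rw [← coeff_CC, show β + 2 ^ b * a - L + L = β + 2 ^ b * a by omega, h5]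
      exact h4

/-- **GL1** -/
theorem gl1 (hgp : S_GP1) (hnz : S_NZC) : S_GL1 := by
  classical
  intro M hM
  obtain ⟨b', m, hm, hMm⟩ := Nat.exists_eq_two_pow_mul_odd hM.ne'
  obtain ⟨X, c5, hc5, hgp⟩ := hgp m hm.pos
  obtain ⟨b, hb⟩ : ∃ b, b = b' + 1 := ⟨_, rfl⟩
  have hP : 0 < 2 ^ b := by positivity
  have hbb : b' ≤ b := by omega
  have h2b : 2 ∣ 2 ^ b := dvd_pow_self 2 (by omega)
  obtain ⟨κ, hκ⟩ : ∃ κ : ℝ, κ = c5 / 2 ^ (b + 3) := ⟨_, rfl⟩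
  refine ⟨κ, by rw [hκ]; positivity, ?_⟩
  intro ρ L c hc ε hε
  obtain ⟨β, hβ⟩ : ∃ β, β = (ρ + L) % 2 ^ b := ⟨_, rfl⟩
  have hβlt : β < 2 ^ b := by rw [hβ]; exact Nat.mod_lt _ hP
  have hex : ∀ t₀ : ℕ, ∃ K1 : ℕ, t₀ % 2 = 1 → t₀ < 2 ^ b → ∀ (w : ℕ → ZMod 2) (N : ℕ),
      (#{t ∈ range (2 ^ N) | ∃ K : ℕ, K1 ≤ K ∧ 8 * (K + X) ≤ N ∧
        ∑ k ∈ range K, (N1 P2 (2 ^ (k + X)) (node P2 b β t₀ (CC c), w,
          fun a => (β + 2 ^ b * a) % m = (ρ + L) % m) t : ℝ) / 2 ^ (k + X) < c5 * K} : ℝ) ≤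
      ε * 2 ^ N := by
    intro t₀
    by_cases h : t₀ % 2 = 1 ∧ t₀ < 2 ^ b
    · obtain ⟨K1, hK1⟩ := hgp (node P2 b β t₀ (CC c)) (fun a => (β + 2 ^ b * a) % m = (ρ + L) % m)
        (hnz b β t₀ L c hc (by omega) hβlt h.1 h.2) (Dn_odd hm b β (ρ + L)) ε hε
      exact ⟨K1, fun _ _ => hK1⟩
    · exact ⟨0, fun h1 h2 => absurd ⟨h1, h2⟩ h⟩
  choose K1 hK1 using hex
  obtain ⟨n1, hn1⟩ := exists_nat_gt (8 * (L : ℝ) / c5)
  refine ⟨(∑ t₀ ∈ range (2 ^ b), K1 t₀) + 2 * (b + X) + n1 + 1, ?_⟩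
  intro w N
  rcases Nat.lt_or_ge N b with hNb | hNb
  · have hempty : {t : ℕ | t < 2 ^ N ∧ t % 2 = 1 ∧ ∃ K : ℕ,
        (∑ t₀ ∈ range (2 ^ b), K1 t₀) + 2 * (b + X) + n1 + 1 ≤ K ∧ 8 * K ≤ N ∧
        LG1 M ρ c w t (2 ^ K) < κ * K} = ∅ := by
      rw [Set.eq_empty_iff_forall_notMem]
      rintro t ⟨-, -, K, h1, h2, -⟩
      omega
    rw [hempty, Set.ncard_empty]
    push_cast
    positivity
  have hNb' : 2 ^ N = 2 ^ b * 2 ^ (N - b) := by
    rw [← pow_add]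
    congr 1
    omega
  -- the key implication
  have key : ∀ t K : ℕ, t % 2 = 1 → (∑ t₀ ∈ range (2 ^ b), K1 t₀) + 2 * (b + X) + n1 + 1 ≤ K →
      8 * K ≤ N → LG1 M ρ c w t (2 ^ K) < κ * K → ∃ K' : ℕ, K1 (t % 2 ^ b) ≤ K' ∧
        8 * (K' + X) ≤ N - b ∧ ∑ k ∈ range K', (N1 P2 (2 ^ (k + X)) (node P2 b β (t % 2 ^ b) (CC c),
          (fun a => w (β + 2 ^ b * a - L)),
          fun a => (β + 2 ^ b * a) % m = (ρ + L) % m) (t / 2 ^ b) : ℝ) / 2 ^ (k + X) < c5 * K' := by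
    intro t K ht hK hKN hlt
    have h1 : K1 (t % 2 ^ b) ≤ ∑ t₀ ∈ range (2 ^ b), K1 t₀ :=
      single_le_sum (f := fun e => K1 e) (fun _ _ => Nat.zero_le _) (mem_range.2 (Nat.mod_lt _ hP))
    obtain ⟨K', hK'⟩ : ∃ K', K' = K - b - X := ⟨_, rfl⟩
    refine ⟨K', by omega, by omega, ?_⟩
    have h7 := Pool.Agent.H627.PPD6.sum_N1 P2 X K' (node P2 b β (t % 2 ^ b) (CC c),
      (fun a => w (β + 2 ^ b * a - L)), fun a => (β + 2 ^ b * a) % m = (ρ + L) % m) (t / 2 ^ b)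
    have h8 := cls (ρ := ρ) hMm hm hbb c w t (K' + X) K (by omega)
    rw [← hβ] at h8
    have hKr : (K : ℝ) ≤ 2 * K' := by
      have : K ≤ 2 * K' := by omega
      exact_mod_cast this
    have hn1K : (n1 : ℝ) ≤ K := by
      have : n1 ≤ K := by omega
      exact_mod_cast this
    have hL : 2 * (L : ℝ) ≤ c5 * K / 4 := by
      rw [div_lt_iff₀ hc5] at hn1
      nlinarith
    have h9 : (0 : ℝ) < 2 * 2 ^ b := by positivity
    calc _ ≤ _ := h7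
      _ ≤ 2 * L + 2 * 2 ^ b * LG1 M ρ c w t (2 ^ K) := by
          refine le_trans (le_of_eq ?_) h8
          refine sum_congr ?_ fun _ _ => rfl
          ext n
          simp only [mem_filter]
      _ < 2 * L + 2 * 2 ^ b * (κ * K) := by
          have := mul_lt_mul_of_pos_left hlt h9
          linarith
      _ = 2 * L + c5 * K / 4 := by
          rw [hκ, pow_add]
          field_simp
          ring
      _ ≤ c5 * K' := by nlinarith
  -- counting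
  obtain ⟨B, hB⟩ : ∃ B : ℕ → Finset ℕ, B = fun t₀ => {t ∈ range (2 ^ (N - b)) | ∃ K : ℕ,
      K1 t₀ ≤ K ∧ 8 * (K + X) ≤ N - b ∧
        ∑ k ∈ range K, (N1 P2 (2 ^ (k + X)) (node P2 b β t₀ (CC c),
          (fun a => w (β + 2 ^ b * a - L)),
          fun a => (β + 2 ^ b * a) % m = (ρ + L) % m) t : ℝ) / 2 ^ (k + X) < c5 * K} := ⟨_, rfl⟩
  have hBle : ∀ t₀, t₀ % 2 = 1 → t₀ < 2 ^ b → ((B t₀).card : ℝ) ≤ ε * 2 ^ (N - b) := by
    intro t₀ h1 h2
    have h3 := hK1 t₀ h1 h2 (fun a => w (β + 2 ^ b * a - L)) (N - b)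
    rw [hB]
    exact h3
  have hsub : {t : ℕ | t < 2 ^ N ∧ t % 2 = 1 ∧ ∃ K : ℕ,
      (∑ t₀ ∈ range (2 ^ b), K1 t₀) + 2 * (b + X) + n1 + 1 ≤ K ∧ 8 * K ≤ N ∧
      LG1 M ρ c w t (2 ^ K) < κ * K} ⊆
      ((({t₀ ∈ range (2 ^ b) | t₀ % 2 = 1}).biUnion fun t₀ =>
        (B t₀).image fun t' => t₀ + 2 ^ b * t' : Finset ℕ) : Set ℕ) := by
    rintro t ⟨ht, hodd, K, hK, hKN, hlt⟩
    rw [mem_coe, mem_biUnion]
    refine ⟨t % 2 ^ b, ?_, ?_⟩
    · rw [mem_filter, mem_range]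
      refine ⟨Nat.mod_lt _ hP, ?_⟩
      rw [Nat.mod_mod_of_dvd _ h2b]
      exact hodd
    · rw [mem_image]
      refine ⟨t / 2 ^ b, ?_, Nat.mod_add_div t (2 ^ b)⟩
      rw [hB, mem_filter, mem_range]
      refine ⟨Nat.div_lt_of_lt_mul (by rw [← hNb']; exact ht), ?_⟩
      exact key t K hodd hK hKN hlt
  have h1 := Set.ncard_le_ncard hsub (Finset.finite_toSet _)
  rw [Set.ncard_coe_finset] at h1
  have h2 := h1.trans card_biUnion_le
  calc (Set.ncard {t : ℕ | t < 2 ^ N ∧ t % 2 = 1 ∧ ∃ K : ℕ,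
      (∑ t₀ ∈ range (2 ^ b), K1 t₀) + 2 * (b + X) + n1 + 1 ≤ K ∧ 8 * K ≤ N ∧
      LG1 M ρ c w t (2 ^ K) < κ * K} : ℝ) ≤
      ((∑ t₀ ∈ range (2 ^ b) with t₀ % 2 = 1,
        ((B t₀).image fun t' => t₀ + 2 ^ b * t').card : ℕ) : ℝ) := by exact_mod_cast h2
    _ = ∑ t₀ ∈ range (2 ^ b) with t₀ % 2 = 1,
        (((B t₀).image fun t' => t₀ + 2 ^ b * t').card : ℝ) := by push_cast; rfl
    _ ≤ ∑ t₀ ∈ range (2 ^ b) with t₀ % 2 = 1, ε * 2 ^ (N - b) := by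
        refine sum_le_sum fun t₀ ht => ?_
        rw [mem_filter, mem_range] at ht
        refine le_trans ?_ (hBle t₀ ht.2 ht.1)
        exact_mod_cast card_image_le
    _ ≤ ∑ t₀ ∈ range (2 ^ b), ε * 2 ^ (N - b) :=
        sum_le_sum_of_subset_of_nonneg (filter_subset _ _) fun t₀ _ _ => by positivity
    _ = ε * 2 ^ N := by
        rw [sum_const, card_range, nsmul_eq_mul]
        push_cast
        have h7 : (2 : ℝ) ^ N = 2 ^ b * 2 ^ (N - b) := by exact_mod_cast hNb'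
        rw [h7]
        ring

end Pool.Agent.H575.TWGL1
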