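import Pool.Agent.H558.TW.Stm5
import Pool.Agent.H558.PP.D5

set_option autoImplicit false

/-!
# GP1: one series and a set of density type `R`, mean over the scales, for all `K` at once (helper707)
-/

namespace Pool.Agent.H707.TWGP1

open PowerSeries Finset Pool.Agent.R836.PP Pool.Agent.H558.PP Pool.Agent.H558.TW
open Pool.Agent.K7.H72.MT hiding W few dis DD dis_stable dis_vary DD_stable DD_sum DD_block few_bad
  dis_le DD_le base count
open Pool.Agent.H997.PPD5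

theorem geo (i1 N : ℕ) : ∑ i ∈ Ico i1 N, (1 : ℝ) / 2 ^ i ≤ 2 / 2 ^ i1 := by
  rcases Nat.lt_or_ge N i1 with h | h
  · rw [Ico_eq_empty_of_le h.le, sum_empty]
    positivity
  · have key : ∀ m : ℕ, ∑ i ∈ Ico i1 (i1 + m), (1 : ℝ) / 2 ^ i = 2 / 2 ^ i1 - 2 / 2 ^ (i1 + m) := by
      intro m
      induction m with
      | zero => simp
      | succ m ih =>
        rw [← add_assoc, sum_Ico_succ_top (Nat.le_add_right _ _), ih, pow_succ]
        field_simp
        ring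
    obtain ⟨m, rfl⟩ := Nat.exists_eq_add_of_le h
    rw [key]
    have : (0 : ℝ) < 2 / 2 ^ (i1 + m) := by positivity
    linarith

theorem gp1 (h4 : S_GD4) (hv : S_VAR) : S_GP1 := by
  classical
  intro R hR
  obtain ⟨V, H4⟩ := h4 (1 / 2) (by norm_num)
  have h2R : (2 : ℝ) ≤ 2 ^ R := by
    calc (2 : ℝ) = 2 ^ 1 := by norm_num
      _ ≤ 2 ^ R := pow_le_pow_right₀ (by norm_num) hR
  obtain ⟨th, hth⟩ : ∃ th : ℝ, th = (2 ^ R - 1) / 2 ^ R := ⟨_, rfl⟩
  have hth0 : 0 < th := by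
    rw [hth]
    exact div_pos (by linarith) (by positivity)
  have hth1 : th < 1 := by
    rw [hth, div_lt_one (by positivity)]
    linarith
  obtain ⟨J, hJ⟩ := exists_pow_lt_of_lt_one (show (0 : ℝ) < 1 / 32 by norm_num) hth1
  have hJ1 : 1 ≤ J := by
    rcases Nat.eq_zero_or_pos J with h | h
    · exfalso
      rw [h, pow_zero] at hJ
      norm_num at hJ
    · exact h
  obtain ⟨g, hg⟩ : ∃ g, g = R * J := ⟨_, rfl⟩
  have hg1 : 1 ≤ g := by
    rw [hg]
    exact Nat.mul_pos hR hJ1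
  have hg1' : (1 : ℝ) ≤ g := by exact_mod_cast hg1
  obtain ⟨X, hXdef⟩ : ∃ X, X = R * J + V := ⟨_, rfl⟩
  have hX : V + 2 ^ (R * J) ≤ 2 ^ X := by
    have h1 : V + 1 ≤ 2 ^ V := Nat.lt_two_pow_self
    have h2 : 1 ≤ 2 ^ (R * J) := Nat.one_le_two_pow
    rw [hXdef, pow_add]
    calc V + 2 ^ (R * J) ≤ 2 ^ (R * J) * V + 2 ^ (R * J) := by nlinarith
      _ = 2 ^ (R * J) * (V + 1) := by ring
      _ ≤ _ := Nat.mul_le_mul_left _ h1
  refine ⟨X, 1 / (16 * 2 ^ (R + X)), by positivity, ?_⟩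
  intro U A' hU hA' ε hε
  obtain ⟨K1, H⟩ := H4 U hU (ε / 2) (by linarith)
  obtain ⟨i1, hi1⟩ : ∃ i1 : ℕ, 16384 * (g : ℝ) / ε < 2 ^ i1 :=
    pow_unbounded_of_one_lt _ (by norm_num)
  rw [div_lt_iff₀ hε] at hi1
  refine ⟨K1 + 2 ^ i1 + g, fun w N => ?_⟩
  obtain ⟨E, hE⟩ : ∃ E : ℕ → Finset ℕ, ∀ i, E i = {t ∈ range (2 ^ N) |
      (1 / 32 + 1 / 32 : ℝ) * ((2 ^ i + g : ℕ) : ℝ) <
        ∑ k ∈ Ico g (2 ^ i + g + 1), fb V R J (U, w, A') k t} := ⟨_, fun _ => rfl⟩
  have hEc : ∀ i, 2 ^ i + g ≤ N → ((E i).card : ℝ) ≤ 4096 * g * (1 / 2 ^ i) * 2 ^ N := by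
    intro i hi
    have hp : 0 < 2 ^ i := by positivity
    have hV := hv N (2 ^ i + g) g (fb V R J (U, w, A')) (1 / 32) (1 / 32) hg1 (by omega)
      hi (by norm_num) (fun k t => ⟨fb_nonneg _ _ _ _ _ _, fb_le _ _ _ _ _ _⟩)
      (fun k t => fb_mod _ _ _ _ _ _) (by
        intro k hk a ha
        rw [hg] at hk ha ⊢
        refine (fb_block V R J (U, w, A') hA' k hk a ha).trans ?_
        have h1 : ((2 ^ R - 1 : ℕ) : ℝ) = 2 ^ R - 1 := by
          rw [Nat.cast_sub Nat.one_le_two_pow]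
          norm_num
        rw [h1]
        have h2 : ((2 : ℝ) ^ R - 1) = th * 2 ^ R := by
          rw [hth]
          field_simp
        rw [h2, mul_pow, ← pow_mul]
        exact mul_le_mul_of_nonneg_right hJ.le (by positivity))
    rw [hE]
    refine hV.trans ?_
    apply mul_le_mul_of_nonneg_right _ (by positivity)
    have h2i : (0 : ℝ) < 2 ^ i := by positivity
    rw [div_le_iff₀ (by positivity)]
    push_cast
    have e : 4096 * (g : ℝ) * (1 / 2 ^ i) * ((1 / 32) ^ 2 * (2 ^ i + g)) =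
        4 * g + 4 * g * (g / 2 ^ i) := by
      field_simp
      ring
    rw [e]
    have : (0 : ℝ) ≤ 4 * g * (g / 2 ^ i) := by positivity
    linarith
  obtain ⟨I, hI⟩ : ∃ I : Finset ℕ, I = {i ∈ Ico i1 N | 2 ^ i + g ≤ N} := ⟨_, rfl⟩
  have hsub : {t ∈ range (2 ^ N) | ∃ K : ℕ, K1 + 2 ^ i1 + g ≤ K ∧ 8 * (K + X) ≤ N ∧
      ∑ k ∈ range K, (N1 P2 (2 ^ (k + X)) (U, w, A') t : ℝ) / 2 ^ (k + X) <
        1 / (16 * 2 ^ (R + X)) * K} ⊆
      {t ∈ range (2 ^ N) | ∃ K : ℕ, K1 ≤ K ∧ 8 * K ≤ N ∧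
        ∑ k ∈ range K, Yf V U k t < (1 - 1 / 2) * K} ∪ I.biUnion E := by
    intro t ht
    rw [mem_filter] at ht
    obtain ⟨htN, K, hK, hKN, hlt⟩ := ht
    rw [mem_union, mem_filter]
    by_contra hne
    push Not at hne
    obtain ⟨hn1, hn2⟩ := hne
    have hp1 : 0 < 2 ^ i1 := by positivity
    have hY := hn1 htN K (by omega) (by omega)
    have hK0 : K ≠ 0 := by omega
    obtain ⟨i, hi⟩ : ∃ i, i = Nat.log 2 K + 1 := ⟨_, rfl⟩
    have hp2 : 0 < 2 ^ i := by positivity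
    have hlo : K < 2 ^ i := by
      rw [hi]
      exact Nat.lt_pow_succ_log_self (by norm_num) K
    have hhi : 2 ^ i ≤ 2 * K := by
      rw [hi, pow_succ]
      have := Nat.pow_log_le_self 2 hK0
      omega
    have hii : i1 ≤ i := by
      have : 2 ^ i1 < 2 ^ i := by omega
      exact ((Nat.pow_lt_pow_iff_right (by norm_num)).1 this).le
    have hiN : i < N := by
      have := (Nat.lt_two_pow_self : i < 2 ^ i)
      omega
    have hnE : t ∉ E i := by
      intro h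
      apply hn2
      rw [mem_biUnion]
      refine ⟨i, ?_, h⟩
      rw [hI, mem_filter, mem_Ico]
      exact ⟨⟨hii, hiN⟩, by omega⟩
    rw [hE, mem_filter] at hnE
    push Not at hnE
    have h2 := hnE htN
    have h3 : ∑ k ∈ range K, fb V R J (U, w, A') (k + R * J) t ≤
        ∑ k ∈ Ico g (2 ^ i + g + 1), fb V R J (U, w, A') k t := by
      have e1 : ∑ k ∈ range K, fb V R J (U, w, A') (k + R * J) t =
          ∑ k ∈ Ico g (K + g), fb V R J (U, w, A') k t := by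
        rw [sum_Ico_eq_sum_range, Nat.add_sub_cancel]
        refine sum_congr rfl fun k _ => ?_
        rw [hg, add_comm]
      rw [e1]
      refine sum_le_sum_of_subset_of_nonneg ?_ fun k _ _ => fb_nonneg _ _ _ _ _ _
      intro k hk
      rw [mem_Ico] at hk ⊢
      omega
    have h4' : ∑ k ∈ range K,
        (Yf V U k t - fb V R J (U, w, A') (k + R * J) t) / 2 ^ (R + X) ≤
        ∑ k ∈ range K, (N1 P2 (2 ^ (k + X)) (U, w, A') t : ℝ) / 2 ^ (k + X) :=
      sum_le_sum fun k _ => step_le V R J X hX U w A' hA' k t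
    rw [← sum_div, sum_sub_distrib] at h4'
    have h5 := h4'.trans_lt hlt
    rw [div_lt_iff₀ (by positivity)] at h5
    have h6 : 1 / (16 * 2 ^ (R + X)) * (K : ℝ) * 2 ^ (R + X) = K / 16 := by
      field_simp
    rw [h6] at h5
    have h7 : ((2 ^ i + g : ℕ) : ℝ) ≤ 3 * K := by
      have : 2 ^ i + g ≤ 3 * K := by omega
      exact_mod_cast this
    have h8 : (1 : ℝ) ≤ K := by
      have : 1 ≤ K := by omega
      exact_mod_cast this
    linarith
  have hcard := card_le_card hsub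
  have hcard2 := hcard.trans (card_union_le _ _)
  have hbi : (I.biUnion E).card ≤ ∑ i ∈ I, (E i).card := card_biUnion_le
  have hsum : (∑ i ∈ I, ((E i).card : ℝ)) ≤ ε / 2 * 2 ^ N := by
    calc (∑ i ∈ I, ((E i).card : ℝ)) ≤ ∑ i ∈ I, 4096 * (g : ℝ) * (1 / 2 ^ i) * 2 ^ N := by
          refine sum_le_sum fun i hi => hEc i ?_
          rw [hI, mem_filter] at hi
          exact hi.2
      _ ≤ ∑ i ∈ Ico i1 N, 4096 * (g : ℝ) * (1 / 2 ^ i) * 2 ^ N := by
          refine sum_le_sum_of_subset_of_nonneg ?_ fun i _ _ => by positivity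
          rw [hI]
          exact filter_subset _ _
      _ = 4096 * (g : ℝ) * (∑ i ∈ Ico i1 N, (1 : ℝ) / 2 ^ i) * 2 ^ N := by
          rw [mul_sum, sum_mul]
      _ ≤ 4096 * (g : ℝ) * (2 / 2 ^ i1) * 2 ^ N := by
          have := geo i1 N
          gcongr
      _ ≤ ε / 2 * 2 ^ N := by
          apply mul_le_mul_of_nonneg_right _ (by positivity)
          rw [← mul_div_assoc, div_le_iff₀ (by positivity)]
          linarith
  have hHN := H N
  have hfin : ((#{t ∈ range (2 ^ N) | ∃ K : ℕ, K1 + 2 ^ i1 + g ≤ K ∧ 8 * (K + X) ≤ N ∧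
      ∑ k ∈ range K, (N1 P2 (2 ^ (k + X)) (U, w, A') t : ℝ) / 2 ^ (k + X) <
        1 / (16 * 2 ^ (R + X)) * K} : ℕ) : ℝ) ≤
      (#{t ∈ range (2 ^ N) | ∃ K : ℕ, K1 ≤ K ∧ 8 * K ≤ N ∧
        ∑ k ∈ range K, Yf V U k t < (1 - 1 / 2) * K} : ℕ) + ∑ i ∈ I, ((E i).card : ℝ) := by
    have := hcard2.trans (Nat.add_le_add_left hbi _)
    exact_mod_cast this
  linarith

end Pool.Agent.H707.TWGP1
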