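import Pool.Agent.H558.PP.DAsm
import Pool.Agent.H558.TW.NZC
import Pool.Agent.H558.TW.GA1
import Pool.Agent.H558.TW.GA
import Pool.Agent.H558.TW.GD4
import Pool.Agent.H558.TW.GP1
import Pool.Agent.H558.TW.GL1
import Pool.Agent.H558.TW.GE1

set_option autoImplicit false

/-!
# Assembly: lower logarithmic density for one pattern
-/

namespace Pool.Agent.H558.TW

open Pool.Agent.H558.PP

theorem hGA : S_GA := Pool.Agent.H155.TWGA.ga (Pool.Agent.H999.TWGA1.ga1 hN1) hN1 hN3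

theorem hGD4 : S_GD4 := Pool.Agent.H252.TWGD4.gd4 hT3 hGA hD3 Pool.Agent.H399.PPVAR.var

theorem hGP1 : S_GP1 := Pool.Agent.H707.TWGP1.gp1 hGD4 Pool.Agent.H399.PPVAR.var

theorem hGE1 : S_GE1 := Pool.Agent.H181.TWGE1.ge1 (Pool.Agent.H575.TWGL1.gl1 hGP1
  (Pool.Agent.H894.TWNZC.nzc hN1))

end Pool.Agent.H558.TW
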