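import Pool.Agent.H558.TW.Stm3

set_option autoImplicit false

/-!
# One pattern, all moduli, conditional version (helper703, for helper558)
-/

namespace Pool.Agent.H703.TWCU1

open PowerSeries Finset Pool.Agent.R836.PP Pool.Agent.H558.KK Pool.Agent.H558.PP
open Pool.Agent.H558.TW
open Pool.Agent.K7.H72.MT hiding W few dis DD dis_stable dis_vary DD_stable DD_sum DD_block few_bad
  dis_le DD_le base count

open scoped Classical in
/-- double counting -/
theorem dbl {E T : ℕ} (hE : 0 < E) (f : ℕ → ℕ → ℕ) {D : ℝ} (hD : 0 < D)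
    (h : ∀ e < E, (#{t ∈ range T | (f e t : ℝ) < D} : ℝ) ≤ 1 / 2 * T) :
    (#{t ∈ range T | ((∑ e ∈ range E, f e t : ℕ) : ℝ) < (E : ℝ) / 4 * D} : ℝ) ≤ 2 / 3 * T := by
  have hE0 : (0 : ℝ) < E := by exact_mod_cast hE
  set F : Finset ℕ := {t ∈ range T | ((∑ e ∈ range E, f e t : ℕ) : ℝ) < (E : ℝ) / 4 * D} with hF
  have h1 : ∀ t ∈ F, (3 / 4 * (E : ℝ)) ≤ (#{e ∈ range E | (f e t : ℝ) < D} : ℝ) := by
    intro t ht
    have h2 := (mem_filter.1 ht).2
    have h3 : (#{e ∈ range E | ¬ (f e t : ℝ) < D} : ℝ) * D ≤ ((∑ e ∈ range E, f e t : ℕ) : ℝ) := by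
      push_cast
      rw [← nsmul_eq_mul, ← sum_const]
      refine le_trans (sum_le_sum (g := fun e => (f e t : ℝ)) fun e he =>
        not_lt.1 (mem_filter.1 he).2) ?_
      exact sum_le_sum_of_subset_of_nonneg (filter_subset _ _) fun e _ _ => Nat.cast_nonneg _
    have h4 : (#{e ∈ range E | (f e t : ℝ) < D} : ℝ) + (#{e ∈ range E | ¬ (f e t : ℝ) < D} : ℝ) =
        E := by
      have h5 := card_filter_add_card_filter_not (s := range E) (fun e => (f e t : ℝ) < D)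
      rw [card_range] at h5
      exact_mod_cast h5
    have h6 : (#{e ∈ range E | ¬ (f e t : ℝ) < D} : ℝ) * D < (E : ℝ) / 4 * D := lt_of_le_of_lt h3 h2
    have h7 := lt_of_mul_lt_mul_right h6 hD.le
    linarith
  have h8 : (#F : ℝ) * (3 / 4 * E) ≤ ∑ t ∈ range T, (#{e ∈ range E | (f e t : ℝ) < D} : ℝ) := by
    rw [← nsmul_eq_mul, ← sum_const]
    refine le_trans (sum_le_sum h1) ?_
    exact sum_le_sum_of_subset_of_nonneg (filter_subset _ _) fun e _ _ => Nat.cast_nonneg _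
  have h9 : ∑ t ∈ range T, #{e ∈ range E | (f e t : ℝ) < D} =
      ∑ e ∈ range E, #{t ∈ range T | (f e t : ℝ) < D} := by
    simp only [card_filter]
    exact sum_comm
  have h10 : ∑ t ∈ range T, (#{e ∈ range E | (f e t : ℝ) < D} : ℝ) =
      ∑ e ∈ range E, (#{t ∈ range T | (f e t : ℝ) < D} : ℝ) := by
    exact_mod_cast h9
  have h11 : ∑ e ∈ range E, (#{t ∈ range T | (f e t : ℝ) < D} : ℝ) ≤ E * (1 / 2 * T) := by
    refine (sum_le_sum fun e he => h e (mem_range.1 he)).trans (le_of_eq ?_)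
    rw [sum_const, card_range, nsmul_eq_mul]
  have h12 : (E : ℝ) * (3 / 4 * #F) ≤ (E : ℝ) * (1 / 2 * T) := by
    calc (E : ℝ) * (3 / 4 * #F) = (#F : ℝ) * (3 / 4 * E) := by ring
      _ ≤ (E : ℝ) * (1 / 2 * T) := by
        rw [h10] at h8
        exact h8.trans h11
  have h13 := le_of_mul_le_mul_left h12 hE0
  linarith

/-- the residue classes modulo `2 ^ l` -/
theorem sum_cnt_le {M m b b' l ρ L : ℕ} (hM : M = 2 ^ b' * m) (hm : Odd m) (hb : b' ≤ b)
    (hbl : b ≤ l) (c : Fin (L + 1) → ZMod 2) (w : ℕ → ZMod 2) (t x : ℕ) :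
    ∑ e ∈ range (2 ^ (l - b)), cnt P2 l ((ρ + L) % 2 ^ b + 2 ^ b * e) L (CC c)
      (fun n => w (n - L)) (fun n => n % m = (ρ + L) % m) t x ≤ cntP M ρ c w t x := by
  classical
  unfold cnt cntP
  rw [← card_biUnion]
  · refine card_le_card fun n hn => ?_
    rw [mem_biUnion] at hn
    obtain ⟨e, he, hn⟩ := hn
    simp only [mem_filter] at hn
    obtain ⟨h1, h2, h3, h4⟩ := hn
    rw [mem_filter]
    refine ⟨h1, ?_, ?_⟩
    · have hP : 0 < 2 ^ b := by positivity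
      have hdvd : 2 ^ b ∣ 2 ^ l := pow_dvd_pow 2 hbl
      have h2' : n + L ≡ ρ + L [MOD 2 ^ b] := by
        show (n + L) % 2 ^ b = (ρ + L) % 2 ^ b
        rw [← Nat.mod_mod_of_dvd (n + L) hdvd, h2, Nat.add_mul_mod_self_left, Nat.mod_mod]
      have g1 : n ≡ ρ [MOD 2 ^ b'] :=
        (Nat.ModEq.add_right_cancel' L h2').of_dvd (pow_dvd_pow 2 hb)
      have g2 : n ≡ ρ [MOD m] := Nat.ModEq.add_right_cancel' L h3
      have hcop : Nat.Coprime (2 ^ b') m := Nat.Coprime.pow_left _ (Nat.coprime_two_left.2 hm)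
      rw [hM]
      exact (Nat.modEq_and_modEq_iff_modEq_mul hcop).1 ⟨g1, g2⟩
    · simp only [Nat.add_sub_cancel, coeff_CC] at h4
      exact h4
  · intro e he e' he' hne
    rw [Function.onFun, disjoint_left]
    intro n hn hn'
    simp only [mem_filter] at hn hn'
    apply hne
    have h1 : (ρ + L) % 2 ^ b + 2 ^ b * e = (ρ + L) % 2 ^ b + 2 ^ b * e' := by
      rw [← hn.2.1, ← hn'.2.1]
    have h2 : 2 ^ b * e = 2 ^ b * e' := by omega
    exact Nat.eq_of_mul_eq_mul_left (by positivity) h2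

/-- **CU1** -/
theorem cu1 (h6 : S_T6) : S_CU1 := by
  classical
  intro M hM
  obtain ⟨b', m, hm, hMm⟩ := Nat.exists_eq_two_pow_mul_odd hM.ne'
  obtain ⟨δ, hδ, hT6⟩ := h6 m hm.pos (1 / 2) (by norm_num)
  obtain ⟨b, hb⟩ : ∃ b, b = b' + 1 := ⟨_, rfl⟩
  have hP : 0 < 2 ^ b := by positivity
  have hbb : b' ≤ b := by omega
  obtain ⟨κ, hκ⟩ : ∃ κ : ℝ, κ = δ / 2 ^ (b + 3) := ⟨_, rfl⟩
  have hκ0 : 0 < κ := by rw [hκ]; positivity
  refine ⟨κ, hκ0, b, ?_⟩
  intro ρ L c hc l a hbl hal haodd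
  obtain ⟨β, hβ⟩ : ∃ β, β = (ρ + L) % 2 ^ b := ⟨_, rfl⟩
  have hβlt : β < 2 ^ b := by rw [hβ]; exact Nat.mod_lt _ hP
  have hpow : 2 ^ l = 2 ^ b * 2 ^ (l - b) := by
    rw [← pow_add]
    congr 1
    omega
  have hBlt : ∀ e < 2 ^ (l - b), β + 2 ^ b * e < 2 ^ l := by
    intro e he
    have h1 : 2 ^ b * (e + 1) ≤ 2 ^ b * 2 ^ (l - b) := Nat.mul_le_mul_left _ he
    have h2 : 2 ^ b * (e + 1) = 2 ^ b * e + 2 ^ b := by ring
    omega
  have hex : ∀ e : ℕ, ∃ n : ℕ, e < 2 ^ (l - b) →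
      coeff n (node P2 l (β + 2 ^ b * e) a (CC c)) ≠ 0 := by
    intro e
    by_cases he : e < 2 ^ (l - b)
    · obtain ⟨n, hn⟩ := node_ne c hc (hBlt e he) haodd hal
      exact ⟨n, fun _ => hn⟩
    · exact ⟨0, fun h => absurd h he⟩
  choose nz hnz using hex
  obtain ⟨V0, hV0⟩ : ∃ V0, V0 = ∑ e ∈ range (2 ^ (l - b)), (nz e + 1) := ⟨_, rfl⟩
  have hGv : ∀ e < 2 ^ (l - b), Gv V0 (node P2 l (β + 2 ^ b * e) a (CC c)) := by
    intro e he
    refine ⟨nz e, ?_, hnz e he⟩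
    have h1 : nz e + 1 ≤ ∑ e ∈ range (2 ^ (l - b)), (nz e + 1) :=
      single_le_sum (f := fun e => nz e + 1) (fun _ _ => Nat.zero_le _) (mem_range.2 he)
    omega
  obtain ⟨i0, hi0⟩ := hT6 V0
  obtain ⟨n1, hn1⟩ := exists_nat_gt ((2 : ℝ) ^ (l - b) * L / κ)
  refine ⟨l + i0 + n1, ?_⟩
  intro w j K hj hjK
  obtain ⟨i, hi⟩ := Nat.exists_eq_add_of_le (show l ≤ j by omega)
  have hjK' : j < K := by
    have : 2 ^ j < 2 ^ K := by omega
    exact (Nat.pow_lt_pow_iff_right (by norm_num)).1 this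
  have hiK : i ≤ K - l := by omega
  have hlK : 2 ^ K = 2 ^ l * 2 ^ (K - l) := by
    rw [← pow_add]
    congr 1
    omega
  have hi1 : 1 ≤ 2 ^ i := Nat.one_le_two_pow
  -- the functions
  obtain ⟨f, hf⟩ : ∃ f : ℕ → ℕ → ℕ, f = fun e t => N1 P2 (2 ^ i)
      (node P2 l (β + 2 ^ b * e) a (CC c),
        (fun v => (fun n => w (n - L)) (β + 2 ^ b * e + 2 ^ l * v)),
        fun v => (fun n => n % m = (ρ + L) % m) (β + 2 ^ b * e + 2 ^ l * v)) t := ⟨_, rfl⟩
  have hbad : ∀ e < 2 ^ (l - b), (#{t ∈ range (2 ^ (K - l)) | (f e t : ℝ) < δ * 2 ^ i} : ℝ) ≤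
      1 / 2 * ((2 ^ (K - l) : ℕ) : ℝ) := by
    intro e he
    have h1 := hi0 (node P2 l (β + 2 ^ b * e) a (CC c))
      (fun v => (fun n => w (n - L)) (β + 2 ^ b * e + 2 ^ l * v))
      (fun v => (fun n => n % m = (ρ + L) % m) (β + 2 ^ b * e + 2 ^ l * v))
      (hGv e he) (Dn_odd hm l (β + 2 ^ b * e) (ρ + L)) (K - l) i (by omega) hiK
    rw [hf]
    push_cast
    exact h1
  have hdbl := dbl (E := 2 ^ (l - b)) (by positivity) f (D := δ * 2 ^ i) (by positivity) hbad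
  push_cast at hdbl
  refine le_trans ?_ hdbl
  have hcard : #{t ∈ range (2 ^ K) | t % 2 ^ l = a ∧ (cntP M ρ c w t (2 ^ j) : ℝ) < κ * 2 ^ j} ≤
      #{t ∈ range (2 ^ (K - l)) | (∑ e ∈ range (2 ^ (l - b)), (f e t : ℝ)) <
        (2 : ℝ) ^ (l - b) / 4 * (δ * 2 ^ i)} := by
    refine card_le_card_of_injOn (fun t => t / 2 ^ l) ?_ ?_
    · intro t ht
      obtain ⟨htK, ht0, h3⟩ := mem_filter.1 ht
      rw [mem_range] at htK
      rw [mem_coe, mem_filter, mem_range]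
      refine ⟨Nat.div_lt_of_lt_mul (by rw [← hlK]; exact htK), ?_⟩
      have hN : ∀ e ∈ range (2 ^ (l - b)), f e (t / 2 ^ l) ≤ L + cnt P2 l (β + 2 ^ b * e) L (CC c)
          (fun n => w (n - L)) (fun n => n % m = (ρ + L) % m) t (2 ^ j) := by
        intro e he
        have he' := mem_range.1 he
        have h4 := N1_cnt P2 (b := l) (β := β + 2 ^ b * e) (t := t) (x := 2 ^ j)
          (y := 2 ^ i - 1) L (CC c) (fun n => w (n - L)) (fun n => n % m = (ρ + L) % m)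
          (hBlt e he') (by
            have h5 : 2 ^ l * (2 ^ i - 1) + 2 ^ l = 2 ^ l * 2 ^ i := by
              rw [← Nat.mul_succ]
              congr 1
              omega
            have h6 := hBlt e he'
            rw [hi, pow_add]
            omega)
        rw [show 2 ^ i - 1 + 1 = 2 ^ i by omega, ht0] at h4
        rw [hf]
        exact h4
      have hS := sum_le_sum hN
      rw [sum_add_distrib, sum_const, card_range, smul_eq_mul] at hS
      have hC := sum_cnt_le (ρ := ρ) hMm hm hbb hbl c w t (2 ^ j)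
      rw [← hβ] at hC
      have h7 : ∑ e ∈ range (2 ^ (l - b)), f e (t / 2 ^ l) ≤
          2 ^ (l - b) * L + cntP M ρ c w t (2 ^ j) := hS.trans (Nat.add_le_add_left hC _)
      have h8 : (∑ e ∈ range (2 ^ (l - b)), (f e (t / 2 ^ l) : ℝ)) ≤
          (2 : ℝ) ^ (l - b) * L + (cntP M ρ c w t (2 ^ j) : ℝ) := by exact_mod_cast h7
      have h9 : (2 : ℝ) ^ (l - b) * L ≤ κ * 2 ^ j := by
        have g1 : (n1 : ℝ) ≤ 2 ^ j := by
          have g2 : n1 ≤ j := by omega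
          have g3 : n1 ≤ 2 ^ j := g2.trans (Nat.lt_two_pow_self).le
          exact_mod_cast g3
        rw [div_lt_iff₀ hκ0] at hn1
        nlinarith
      have h10 : (2 : ℝ) ^ (l - b) / 4 * (δ * 2 ^ i) = 2 * κ * 2 ^ j := by
        have g1 : (2 : ℝ) ^ l = 2 ^ b * 2 ^ (l - b) := by exact_mod_cast hpow
        rw [hκ, hi, pow_add 2 l i, pow_add 2 b 3, g1]
        have g2 : (2 : ℝ) ^ b ≠ 0 := by positivity
        field_simp
        norm_num
      rw [h10]
      linarith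
    · intro t1 h1 t2 h2 h
      have h1' := (mem_filter.1 (mem_coe.1 h1)).2.1
      have h2' := (mem_filter.1 (mem_coe.1 h2)).2.1
      simp only at h
      rw [← Nat.mod_add_div t1 (2 ^ l), ← Nat.mod_add_div t2 (2 ^ l), h, h1', h2']
  exact_mod_cast hcard

end Pool.Agent.H703.TWCU1
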