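import Pool.Agent.H558.PP.DAsm
import Pool.Agent.H558.TW.ZO
import Pool.Agent.H558.TW.CU1
import Pool.Agent.H558.TW.AEU1

set_option autoImplicit false

/-!
# Assembly: one pattern, all moduli, a constant which does not depend on `t` and on the pattern
-/

namespace Pool.Agent.H558.TW

open Pool.Agent.H558.PP

theorem hCU1 : S_CU1 := Pool.Agent.H703.TWCU1.cu1 hT6

theorem hAEU1 : S_AEU1 := Pool.Agent.H388.TWAEU1.aeu1 hCU1 Pool.Agent.H824.TWZO.zo

end Pool.Agent.H558.TW
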