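import Pool.Agent.H558.TW.Asm5

set_option autoImplicit false

/-!
# Almost all odd integers `t`, all `x ≤ T` at once
-/

namespace Pool.Agent.H558.TW

open PowerSeries Finset Pool.Agent.R836.PP Pool.Agent.H558.KK Pool.Agent.H558.PP
open Pool.Agent.K7.H72.MT hiding W few dis DD dis_stable dis_vary DD_stable DD_sum DD_block few_bad
  dis_le DD_le base count

theorem hGL : S_GL := Pool.Agent.H120.TWGL.gl hGP Pool.Agent.H874.TWADD.add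
  (Pool.Agent.H894.TWNZC.nzc hN1)

theorem hGL1 : S_GL1 := Pool.Agent.H575.TWGL1.gl1 hGP1 (Pool.Agent.H894.TWNZC.nzc hN1)

/-- from all `K` with `8 K ≤ N` to all `x ≤ T` -/
theorem int_aux (F : ℕ → ℕ → ℝ) (hF : ∀ t x y, x ≤ y → F t x ≤ F t y) (κ ε : ℝ) (hκ : 0 < κ)
    (hε : 0 < ε) (K1 : ℕ)
    (h : ∀ N : ℕ, (Set.ncard {t : ℕ | t < 2 ^ N ∧ t % 2 = 1 ∧ ∃ K : ℕ, K1 ≤ K ∧ 8 * K ≤ N ∧
      F t (2 ^ K) < κ * K} : ℝ) ≤ ε / 2 * 2 ^ N) (T : ℕ) :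
    (Set.ncard {t : ℕ | t ≤ T ∧ Odd t ∧ ∃ x : ℕ, 2 ^ (8 * (K1 + 1)) ≤ x ∧ x ≤ T ∧
      F t x < κ / 16 * Real.log x} : ℝ) ≤ ε * T := by
  rcases Nat.lt_or_ge T (2 ^ (8 * (K1 + 1))) with hT | hT
  · have h0 : {t : ℕ | t ≤ T ∧ Odd t ∧ ∃ x : ℕ, 2 ^ (8 * (K1 + 1)) ≤ x ∧ x ≤ T ∧
        F t x < κ / 16 * Real.log x} = ∅ := by
      ext t
      simp only [Set.mem_setOf_eq, Set.mem_empty_iff_false, iff_false]
      rintro ⟨-, -, x, h1, h2, -⟩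
      omega
    rw [h0, Set.ncard_empty, Nat.cast_zero]
    positivity
  have hT0 : T ≠ 0 := by
    have : 0 < 2 ^ (8 * (K1 + 1)) := by positivity
    omega
  set N := Nat.log 2 T + 1 with hN
  have hTN : T < 2 ^ N := Nat.lt_pow_succ_log_self (by norm_num) T
  have hNT : 2 ^ N ≤ 2 * T := by
    rw [hN, pow_succ, mul_comm]
    exact Nat.mul_le_mul_left 2 (Nat.pow_log_le_self 2 hT0)
  have hNT' : (2 : ℝ) ^ N ≤ 2 * T := by exact_mod_cast hNT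
  have hsub : {t : ℕ | t ≤ T ∧ Odd t ∧ ∃ x : ℕ, 2 ^ (8 * (K1 + 1)) ≤ x ∧ x ≤ T ∧
      F t x < κ / 16 * Real.log x} ⊆ {t : ℕ | t < 2 ^ N ∧ t % 2 = 1 ∧ ∃ K : ℕ, K1 ≤ K ∧ 8 * K ≤ N ∧
      F t (2 ^ K) < κ * K} := by
    rintro t ⟨h1, h2, x, h3, h4, h5⟩
    have hx0 : x ≠ 0 := by
      have : 0 < 2 ^ (8 * (K1 + 1)) := by positivity
      omega
    have hl1 : 8 * (K1 + 1) ≤ Nat.log 2 x := (Nat.le_log_iff_pow_le (by norm_num) hx0).2 h3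
    have hl2 : Nat.log 2 x ≤ Nat.log 2 T := Nat.log_mono_right h4
    set K := Nat.log 2 x / 8 with hK
    have hK8 : 8 * K ≤ Nat.log 2 x := by rw [hK]; omega
    have hK9 : Nat.log 2 x < 8 * K + 8 := by rw [hK]; omega
    have hK1 : K1 + 1 ≤ K := by rw [hK]; omega
    refine ⟨by omega, Nat.odd_iff.1 h2, K, by omega, by omega, ?_⟩
    have hKx : 2 ^ K ≤ x :=
      (Nat.pow_le_pow_right (by norm_num) (by omega)).trans (Nat.pow_log_le_self 2 hx0)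
    have h6 : Real.log x ≤ 16 * (K : ℝ) := by
      have h7 : x < 2 ^ (8 * K + 8) :=
        (Nat.lt_pow_succ_log_self (by norm_num) x).trans_le
          (Nat.pow_le_pow_right (by norm_num) (by omega))
      have h8 : (x : ℝ) ≤ 2 ^ (8 * K + 8) := by exact_mod_cast h7.le
      have hxp : (0 : ℝ) < x := by exact_mod_cast Nat.pos_of_ne_zero hx0
      have h9 : Real.log x ≤ Real.log (2 ^ (8 * K + 8)) := Real.log_le_log hxp h8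
      rw [Real.log_pow] at h9
      have h10 : Real.log 2 ≤ 1 := by
        have := Real.log_two_lt_d9
        linarith
      have h11 : (1 : ℝ) ≤ K := by exact_mod_cast (by omega : 1 ≤ K)
      have h12 : (0 : ℝ) ≤ ((8 * K + 8 : ℕ) : ℝ) := by positivity
      have h13 : ((8 * K + 8 : ℕ) : ℝ) * Real.log 2 ≤ ((8 * K + 8 : ℕ) : ℝ) * 1 :=
        mul_le_mul_of_nonneg_left h10 h12
      push_cast at h9 h13
      linarith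
    calc F t (2 ^ K) ≤ F t x := hF t _ _ hKx
      _ < κ / 16 * Real.log x := h5
      _ ≤ κ / 16 * (16 * (K : ℝ)) := mul_le_mul_of_nonneg_left h6 (by positivity)
      _ = κ * K := by ring
  have hfin : {t : ℕ | t < 2 ^ N ∧ t % 2 = 1 ∧ ∃ K : ℕ, K1 ≤ K ∧ 8 * K ≤ N ∧
      F t (2 ^ K) < κ * K}.Finite := (Set.finite_lt_nat (2 ^ N)).subset fun t ht => ht.1
  calc _ ≤ ((Set.ncard {t : ℕ | t < 2 ^ N ∧ t % 2 = 1 ∧ ∃ K : ℕ, K1 ≤ K ∧ 8 * K ≤ N ∧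
        F t (2 ^ K) < κ * K} : ℕ) : ℝ) := by exact_mod_cast Set.ncard_le_ncard hsub hfin
    _ ≤ ε / 2 * 2 ^ N := h N
    _ ≤ ε / 2 * (2 * T) := by gcongr
    _ = ε * T := by ring

theorem LG1_mono (M ρ : ℕ) {L : ℕ} (c : Fin (L + 1) → ZMod 2) (w : ℕ → ZMod 2) (t x y : ℕ)
    (h : x ≤ y) : LG1 M ρ c w t x ≤ LG1 M ρ c w t y := by
  unfold LG1
  refine sum_le_sum_of_subset_of_nonneg ?_ fun n _ _ => by positivity
  intro n hn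
  rw [mem_filter, mem_range] at hn ⊢
  exact ⟨by omega, hn.2⟩

theorem LG_mono (M ρ : ℕ) {L : ℕ} (c c' : Fin (L + 1) → ZMod 2) (w w' : ℕ → ZMod 2) (t x y : ℕ)
    (h : x ≤ y) : LG M ρ c c' w w' t x ≤ LG M ρ c c' w w' t y := by
  unfold LG
  refine sum_le_sum_of_subset_of_nonneg ?_ fun n _ _ => by positivity
  intro n hn
  rw [mem_filter, mem_range] at hn ⊢
  exact ⟨by omega, hn.2⟩

/-- one pattern, all moduli -/
theorem int1 : ∀ M : ℕ, 0 < M → ∃ κ : ℝ, 0 < κ ∧ ∀ (ρ L : ℕ) (c : Fin (L + 1) → ZMod 2),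
    c ≠ 0 → ∀ ε : ℝ, 0 < ε → ∃ x₀ : ℕ, ∀ (w : ℕ → ZMod 2) (T : ℕ),
      (Set.ncard {t : ℕ | t ≤ T ∧ Odd t ∧ ∃ x : ℕ, x₀ ≤ x ∧ x ≤ T ∧
        LG1 M ρ c w t x < κ * Real.log x} : ℝ) ≤ ε * T := by
  intro M hM
  obtain ⟨κ, hκ, h⟩ := hGL1 M hM
  refine ⟨κ / 16, by positivity, fun ρ L c hc ε hε => ?_⟩
  obtain ⟨K1, h1⟩ := h ρ L c hc (ε / 2) (half_pos hε)
  refine ⟨2 ^ (8 * (K1 + 1)), fun w T => ?_⟩
  exact int_aux (fun t x => LG1 M ρ c w t x) (fun t x y hxy => LG1_mono M ρ c w t x y hxy) κ ε hκ hε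
    K1 (fun N => h1 w N) T

/-- two patterns -/
theorem int2 : ∀ b' : ℕ, ∃ κ : ℝ, 0 < κ ∧ ∀ (ρ L : ℕ) (c c' : Fin (L + 1) → ZMod 2),
    c ≠ 0 → c' ≠ 0 → c + c' ≠ 0 → ∀ ε : ℝ, 0 < ε → ∃ x₀ : ℕ, ∀ (w w' : ℕ → ZMod 2) (T : ℕ),
      (Set.ncard {t : ℕ | t ≤ T ∧ Odd t ∧ ∃ x : ℕ, x₀ ≤ x ∧ x ≤ T ∧
        LG (2 ^ b') ρ c c' w w' t x < κ * Real.log x} : ℝ) ≤ ε * T := by
  intro b'
  obtain ⟨κ, hκ, h⟩ := hGL b'
  refine ⟨κ / 16, by positivity, fun ρ L c c' i1 i2 i3 ε hε => ?_⟩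
  obtain ⟨K1, h1⟩ := h ρ L c c' i1 i2 i3 (ε / 2) (half_pos hε)
  refine ⟨2 ^ (8 * (K1 + 1)), fun w w' T => ?_⟩
  exact int_aux (fun t x => LG (2 ^ b') ρ c c' w w' t x)
    (fun t x y hxy => LG_mono (2 ^ b') ρ c c' w w' t x y hxy) κ ε hκ hε K1 (fun N => h1 w w' N) T

end Pool.Agent.H558.TW
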