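import Pool.Agent.H558.TW.Stm

set_option autoImplicit false

/-! Task NE of project TW (helper558): the sum of two different sections is nonzero (helper980). -/

namespace Pool.Agent.H980.TWNE

open PowerSeries Finset Pool.Agent.R836.PP Pool.Agent.H558.KK Pool.Agent.H558.PP
open Pool.Agent.K7.H72.MT hiding W few dis DD dis_stable dis_vary DD_stable DD_sum DD_block few_bad
  dis_le DD_le base count
open Pool.Agent.H558.TW

/-- the pattern `(1, 0, …, 0, 1)` -/
def cp (h : ℕ) : Fin (h + 1) → ZMod 2 := fun i => if i = 0 ∨ i = Fin.last h then 1 else 0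

lemma pat_cp {h : ℕ} (hh : 1 ≤ h) (Φ : (ZMod 2)⟦X⟧) (n : ℕ) :
    pat (cp h) Φ n = coeff n Φ + coeff (n + h) Φ := by
  unfold pat
  have h0 : (0 : Fin (h + 1)) ≠ Fin.last h := by
    intro hc
    have := congrArg Fin.val hc
    simp at this
    omega
  have h1 : ∀ i : Fin (h + 1), cp h i * coeff (n + i) Φ =
      (if i = 0 then coeff n Φ else 0) + (if i = Fin.last h then coeff (n + h) Φ else 0) := by
    intro i
    unfold cp
    by_cases hi : i = 0
    · subst hi
      simp [h0]
    · by_cases hi' : i = Fin.last h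
      · subst hi'
        simp [hi]
      · simp [hi, hi']
  rw [Finset.sum_congr rfl (fun i _ => h1 i), Finset.sum_add_distrib]
  simp

theorem ne : S_NE := by
  intro b β h t₀ hh hβ ht ht2
  have hc : cp h ≠ 0 := by
    intro h0
    have := congrFun h0 0
    simp [cp] at this
  obtain ⟨m, hm⟩ := node_ne (cp h) hc hβ ht ht2
  refine ⟨m, ?_⟩
  have e1 := coeff_node P2 b (β + h) t₀ m (CC (cp h)) hβ
  rw [Nat.div_eq_of_lt ht2, pow_zero, mul_one] at e1
  have e2 : β + h + 2 ^ b * m = (β + 2 ^ b * m) + h := by ring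
  rw [e2, coeff_CC, pat_cp hh] at e1
  have e3 := coeff_node P2 b β t₀ m 1 (by omega)
  have e4 := coeff_node P2 b (β + h) t₀ m 1 hβ
  rw [Nat.div_eq_of_lt ht2, pow_zero, mul_one, one_mul] at e3 e4
  rw [e2] at e4
  rw [map_add, ← e3, ← e4, e1]
  exact hm

end Pool.Agent.H980.TWNE
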