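import Pool.Agent.H558.PP.DStm

set_option autoImplicit false

/-!
# Joint parity of `p_t(n)` and `p_t(n + h)`: the statements of the lemmas (helper558)

`P2` is `1 / f_1` modulo 2, `node P2 k b t U` the section of `U P2 ^ t` at `b` modulo `2 ^ k`
(`t < 2 ^ k`), `Gv V U` says that some coefficient of `U` with index `< V` is nonzero.
-/

namespace Pool.Agent.H558.TW

open PowerSeries Finset Pool.Agent.R836.PP Pool.Agent.H558.KK Pool.Agent.H558.PP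
open Pool.Agent.K7.H72.MT hiding W few dis DD dis_stable dis_vary DD_stable DD_sum DD_block few_bad
  dis_le DD_le base count

/-- the sections of `U0`, `U1` and `U0 + U1` are good -/
def G3 (V k b t : ℕ) (U0 U1 : S) : Prop :=
  Gv V (node P2 k b t U0) ∧ Gv V (node P2 k b t U1) ∧ Gv V (node P2 k b t (U0 + U1))

/-- the number of the `n < X` at which both values are different from the prescribed ones -/
noncomputable def N2 (X : ℕ) (U0 U1 : S) (w0 w1 : ℕ → ZMod 2) (t : ℕ) : ℕ :=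
  #{n ∈ range X | coeff n (U0 * P2 ^ t) ≠ w0 n ∧ coeff n (U1 * P2 ^ t) ≠ w1 n}

/-- ADD: sections are additive.
Induction on `k` over all `b t U U'`: `node G (k+1) b t U = node G k (b/2) (t/2) (step G (b%2) (t%2) U)`
and `step` is additive in `U` (unfold `step`; coefficientwise). -/
def S_ADD : Prop := ∀ (k b t : ℕ) (U U' : S),
  node P2 k b t (U + U') = node P2 k b t U + node P2 k b t U'

/-- LOC: all four pairs of values at one place.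
Proof. Let `u0` be the least index at which `H0` or `H1` has a nonzero coefficient, so `u0 < V`.
Among `H0, H1, H0 + H1` exactly two have coefficient 1 at `u0` (the sum of the three coefficients is 0
and they are not all 0), the third one, `Y`, has lowest index `u1`, `u0 < u1 < V` (it is `Gv V`). Let `X`
be one of the other two; `H0`, `H1` are combinations of `X`, `Y`. Put `m = u0 + 2 ^ j < 2 ^ (j+1)`.
(i) For `τ < 2 ^ j`: `coeff m (X P^(τ + 2^j)) = coeff m (X P^τ) + 1` and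
`coeff m (Y P^(τ + 2^j)) = coeff m (Y P^τ)`, because `P^(2^j) = P(q^(2^j)) = 1 + q^(2^j) + O(q^(2^(j+1)))`
(char 2; `P2 = 1 + q + 2q² + ...`; cf. the lemmas `coeff_stable`, `vary` and their proofs in
K7/H72/MT/F.lean) and `coeff u0 (X P^τ) = 1`, `coeff u0 (Y P^τ) = 0`.
(ii) The function `τ ↦ coeff m (Y P^τ)`, `τ < 2 ^ j`, takes both values: library lemma
`Pool.Agent.K7.H72.MT.vary isP_P2 0 j Y u1 _ _ d (1 ≤ d) (d < 2 ^ j) e` with `d = m - u1`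
(`1 ≤ d` as `u1 < V ≤ 2^j ≤ m`; `d < 2^j` as `u1 > u0`).
Given wanted values `(x, y)` for `(X, Y)`: take `τ < 2 ^ j` with `Y`-value `y` by (ii); if the `X`-value
is not `x` replace `τ` by `τ + 2 ^ j`. -/
def S_LOC : Prop := ∀ V j : ℕ, V ≤ 2 ^ j → ∀ H0 H1 : S, Gv V H0 → Gv V H1 → Gv V (H0 + H1) →
  ∃ m < 2 ^ (j + 1), ∀ e0 e1 : ZMod 2, ∃ τ < 2 ^ (j + 1),
    coeff m (H0 * P2 ^ τ) = e0 ∧ coeff m (H1 * P2 ^ τ) = e1

open scoped Classical in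
/-- ST: one step.
Proof. For each good `b < 2 ^ k` take `m_b < 2 ^ (j+1)` of `S_LOC` for `H_i = node P2 k b a U_i`
(`S_ADD` for the sum) and put `n_b = b + 2 ^ k m_b < 2 ^ (k + (j+1))`. By `coeff_node` (`a < 2^k`):
`coeff n_b (U_i P2^(a + 2^k s)) = coeff m_b (H_i P2^s)` (`node_mod`). With `e_i = w_i(n_b) + 1` there is
`s_b < 2^(j+1)` such that `n_b` is counted in `N2 .. (a + 2^k s_b)`; `b ↦ n_b` is injective (`n_b % 2^k = b`).
So the sum over `s < 2^(j+1)` of `N2 (2^(k+(j+1))) U0 U1 w0 w1 (a + 2^k s)` is at least the number of the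
good `b`, and the largest term does it. -/
def S_ST : Prop := ∀ V j k : ℕ, V ≤ 2 ^ j → ∀ (U0 U1 : S) (w0 w1 : ℕ → ZMod 2) (a : ℕ), a < 2 ^ k →
  ∃ s < 2 ^ (j + 1), #{b ∈ range (2 ^ k) | G3 V k b a U0 U1} ≤
    2 ^ (j + 1) * N2 (2 ^ (k + (j + 1))) U0 U1 w0 w1 (a + 2 ^ k * s)

open scoped Classical in
/-- TR: repeated trials.
Proof. `r = 1 - 1/2^J > 0`. For `i ≤ 2M` and `a < 2^(k+J i)` let `ok i a` mean that for no `i' < i` both
`E i' (a % 2^(k+J i'))` and `F i' (a % 2^(k+J(i'+1)))` hold, and `c i a` the number of the `i' < i` with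
`E i' (a % 2^(k+J i'))`. Claim: `Φ_i = ∑_{a < 2^(k+J i), ok i a} r^(-c i a) ≤ 2^(k+J i)` (real numbers).
Induction: the extensions of `a` are `a + 2^(k+J i) s`, `s < 2^J`; if `E i a` fails, they all have weight at
most `r^(-c i a)`; if `E i a` holds, at least one `s` has `F`, so at most `2^J - 1 = r 2^J` of them are
ok, with weight `r^(-c i a - 1)`. In both cases the sum over the extensions is `≤ 2^J r^(-c i a)`.
Now the `t` in the set of the claim satisfy `ok (2M) t`. Those with `c ≥ M`: each has weight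
`≥ r^(-M)`, so there are at most `r^M 2^(k+2MJ)`. Those with `c < M`: more than `M` of the `i < 2M` have
`¬ E i (t % ..)`; the number of such `t` is at most `(1/M) ∑_{i<2M} #{t | ¬ E i (t % ..)} ≤ 2 ε 2^(k+2MJ)`. -/
def S_TR : Prop := ∀ (J M k : ℕ) (ε : ℝ), 1 ≤ J → 1 ≤ M → ∀ E F : ℕ → ℕ → Prop,
  (∀ i < 2 * M, (#{a ∈ range (2 ^ (k + J * i)) | ¬ E i a} : ℝ) ≤ ε * 2 ^ (k + J * i)) →
  (∀ i < 2 * M, ∀ a < 2 ^ (k + J * i), E i a → ∃ s < 2 ^ J, F i (a + 2 ^ (k + J * i) * s)) →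
  (#{t ∈ range (2 ^ (k + J * (2 * M))) | ∀ i < 2 * M,
    ¬ (E i (t % 2 ^ (k + J * i)) ∧ F i (t % 2 ^ (k + J * (i + 1))))} : ℝ) ≤
      (2 * ε + (1 - 1 / 2 ^ J) ^ M) * 2 ^ (k + J * (2 * M))

open scoped Classical in
/-- CO: three good sections at once, for most `t`. To be proved from `S_T5`, `S_T3`, `S_D2`, `S_ADD`.
Proof. `S_T5` with `ε/2` gives `δ3`, `V3`; `S_T3` gives `L0` with `Stp L0`, `6 ≤ L0`. Choose
`m0 ≥ L0`, `m0 ≥ 2` with `2/(m0-1)^2 ≤ ε δ3 / 16`; `V = max V3 (8 * 8^m0)`, `δ = δ3/2` (`δ3 ≤ 1` may be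
assumed, but is not needed). Given `C`, `V0`: `A` of `S_D2`, `k0` = maximum of `A (m0 + A)` and the `k0`
of `S_T5` for `V0`. For `i = 0, 1` the number of the pairs `(t, b)` with dead section of `U_i` is at most
`(ε δ3/16) 4^k`, so for at most `(ε/4) 2^k` of the `t` there are more than `(δ3/4) 2^k` such `b` (Markov's
inequality). For the other `t`, outside the exceptional set of `S_T5` for `U0 + U1` as well, at least
`δ3 2^k - 2 (δ3/4) 2^k` of the `b` have three good sections. -/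
def S_CO : Prop := ∀ ε : ℝ, 0 < ε → ∃ (δ : ℝ) (V : ℕ), 0 < δ ∧ ∀ C V0 : ℕ, ∃ k0 : ℕ,
  ∀ U0 U1 : S, Tame C U0 → Tame C U1 → Gv V0 (U0 + U1) → ∀ k ≥ k0,
    (#{t ∈ range (2 ^ k) | (#{b ∈ range (2 ^ k) | G3 V k b t U0 U1} : ℝ) < δ * 2 ^ k} : ℝ) ≤
      ε * 2 ^ k

open scoped Classical in
/-- SC: one scale. To be proved from `S_CO`, `S_ST`, `S_TR`.
Proof. `S_CO` with `ε/4` gives `δ1`, `V`; `j = V` (`V ≤ 2^V`), `J = j + 1`; `M ≥ 1` with
`(1 - 1/2^J)^M ≤ ε/2`; `δ = δ1 / 2^(J + J (2M))`; `i0 = k0 + J (2M)`. For `i ≥ i0` put `k = i - J (2M)`,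
`E s a :⇔ δ1 2^(k+J s) ≤ #{b < 2^(k+J s) | G3 V (k+J s) b a U0 U1}` and
`F s a :⇔ (δ1 / 2^J) 2^(k+J s) ≤ N2 (2^(k+J(s+1))) U0 U1 w0 w1 a`. Hypotheses of `S_TR` (with `ε/4`): by
`S_CO` and by `S_ST`. If `t` is not in the exceptional set there is `s` with `F s (t % 2^(k+J(s+1)))`, and
`N2 (2^(k+J(s+1))) .. (t % 2^(k+J(s+1))) = N2 (2^(k+J(s+1))) .. t ≤ N2 (2^i) .. t` (for `n < 2^e` the
coefficient `coeff n (U P2^t)` depends only on `t % 2^e`: see `coeff_congr'` in K7/H72/MT/L.lean or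
`coeff_node` with `b = e`, `a = 0`), so `N2 (2^i) .. t ≥ δ 2^i`. The number of `t < 2^K` with
`t % 2^i` in a set of `x` residues is `x 2^(K-i)`. -/
def S_SC : Prop := ∀ ε : ℝ, 0 < ε → ∃ δ : ℝ, 0 < δ ∧ ∀ C V0 : ℕ, ∃ i0 : ℕ,
  ∀ (U0 U1 : S) (w0 w1 : ℕ → ZMod 2), Tame C U0 → Tame C U1 → Gv V0 (U0 + U1) →
    ∀ K i : ℕ, i0 ≤ i → i ≤ K →
      (#{t ∈ range (2 ^ K) | (N2 (2 ^ i) U0 U1 w0 w1 t : ℝ) < δ * 2 ^ i} : ℝ) ≤ ε * 2 ^ K

/-- NE: the sum of two different sections is nonzero.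
Proof. `c : Fin (h + 1) → ZMod 2`, `c 0 = c h = 1`, all others 0 (`h ≥ 1`). `node_ne c` with
`β := β + h` gives `m` with `coeff m (node P2 b (β+h) t₀ (CC c)) ≠ 0`. By `coeff_node` (`t₀ / 2^b = 0`)
this coefficient is `coeff (β + h + 2^b m) (CC c * P2^t₀) = pat c (P2^t₀) (β + 2^b m)` (`coeff_CC`) `=
coeff (β + 2^b m) (P2^t₀) + coeff (β + h + 2^b m) (P2^t₀)`, and by `coeff_node` again the two terms are
the coefficients of index `m` of the two nodes. -/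
def S_NE : Prop := ∀ b β h t₀ : ℕ, 1 ≤ h → β + h < 2 ^ b → t₀ % 2 = 1 → t₀ < 2 ^ b →
  ∃ m, coeff m (node P2 b β t₀ 1 + node P2 b (β + h) t₀ 1) ≠ 0

/-- the number of the `n ≤ x`, `n ≡ ρ` modulo `M`, at which the values of `P2 ^ t` at `n` and `n + h` are
different from `w0 n` and `w1 n` -/
noncomputable def cP (M ρ h : ℕ) (w0 w1 : ℕ → ZMod 2) (t x : ℕ) : ℕ :=
  #{n ∈ range (x + 1) | n % M = ρ % M ∧ coeff n (P2 ^ t) ≠ w0 n ∧ coeff (n + h) (P2 ^ t) ≠ w1 n}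

/-- the same for 2-adic `t` -/
noncomputable def cZ (M ρ h : ℕ) (w0 w1 : ℕ → ZMod 2) (t : ℤ_[2]) (x : ℕ) : ℕ :=
  #{n ∈ range (x + 1) | n % M = ρ % M ∧ pz t n ≠ w0 n ∧ pz t (n + h) ≠ w1 n}

/-- CL: residue classes. To be proved from `S_SC`, `S_NE`, `S_A`; compare the proof of T7
(Pool/Agent/H558/PP/T7.lean), which is nearly the same.
Proof. `b` with `2 ^ b > 2 ^ b' + h`, `b ≥ b'`, `b ≥ 1`; `δ6` of `S_SC` for `ε`; `δ = δ6 / 2^(b+1)`.
`β = ρ % 2 ^ b'`, so `β + h < 2 ^ b`. For each odd `t₀ < 2^b` let `U0 = node P2 b β t₀ 1`,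
`U1 = node P2 b (β+h) t₀ 1`: both `Tame (5 * 4^b)` by `S_A`, and `Gv (m+1) (U0 + U1)` by `S_NE`; so `S_SC`
gives `i0(t₀)`; `i1` = the sum of the `i0(t₀)`, `x0 = 2^(b+i1)`. For `x ≥ x0` let
`2^(b+i) ≤ x < 2^(b+i+1)`. For `t % 2^b = t₀`, `t' = t / 2^b` and `n = β + 2^b a`, `a < 2^i`: `n ≤ x`,
`n % 2^b' = β = ρ % 2^b'`, `coeff n (P2^t) = coeff a (U0 P2^t')`,
`coeff (n+h) (P2^t) = coeff a (U1 P2^t')` (`coeff_node` with `U = 1`, `node_mod`), hence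
`N2 (2^i) U0 U1 (w0 (β + 2^b ·)) (w1 (β + 2^b ·)) t' ≤ cP (2^b') ρ h w0 w1 t x`. Sum over the odd
`t₀ < 2^b`: at most `2^b` classes with at most `ε 2^(K-b)` exceptions each. -/
def S_CL : Prop := ∀ b' h : ℕ, 1 ≤ h → ∀ ε : ℝ, 0 < ε → ∃ δ : ℝ, 0 < δ ∧ ∀ ρ : ℕ, ∃ x0 : ℕ,
  ∀ (w0 w1 : ℕ → ZMod 2) (x K : ℕ), x0 ≤ x → x < 2 ^ K →
    (#{t ∈ range (2 ^ K) | t % 2 = 1 ∧ (cP (2 ^ b') ρ h w0 w1 t x : ℝ) < δ * x} : ℝ) ≤ ε * 2 ^ K

/-- AE: almost all 2-adic `t`. To be proved from `S_CL`; copy the proof of T8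
(Pool/Agent/H558/PP/T8.lean) with the obvious changes (in place of `cntZ_eq` one needs
`cZ M ρ h w0 w1 t x = cP M ρ h w0 w1 (t.appr K) x` for `x + h < 2^K`, from `pz_eq`). -/
def S_AE : Prop := ∀ (w0 w1 : ℕ → ZMod 2) [MeasurableSpace ℤ_[2]] [BorelSpace ℤ_[2]]
  (μ : MeasureTheory.Measure ℤ_[2]) [MeasureTheory.IsProbabilityMeasure μ] [μ.IsAddLeftInvariant],
  ∀ᵐ t ∂μ, t.appr 1 = 1 → ∀ b' h ρ : ℕ, 1 ≤ h →
    ∃ δ : ℝ, 0 < δ ∧ ∀ x₁ : ℕ, ∃ x : ℕ, x₁ ≤ x ∧ δ * x ≤ cZ (2 ^ b') ρ h w0 w1 t x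

end Pool.Agent.H558.TW
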