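import Pool.Agent.H558.TW.Stm

set_option autoImplicit false

/-!
# Joint values of two independent patterns of `p_t` modulo 2: the statements (helper558)

Second version of the project TW: arbitrary patterns in place of `p_t(n)`, `p_t(n + h)`. The point is
that the mean number of dead sections is small for EVERY series all of whose sections are nonzero.
-/

namespace Pool.Agent.H558.TW

open PowerSeries Finset Pool.Agent.R836.PP Pool.Agent.H558.KK Pool.Agent.H558.PP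
open Pool.Agent.K7.H72.MT hiding W few dis DD dis_stable dis_vary DD_stable DD_sum DD_block few_bad
  dis_le DD_le base count

/-- all sections of `U P ^ t` are nonzero -/
def NZ (U : S) : Prop := ∀ m b t : ℕ, ∃ i, coeff i (node P2 m b t U) ≠ 0

open scoped Classical in
/-- D2N: the mean number of dead sections, no quantitative assumption. From `S_T3`, `S_T4`; nearly the
same as `Pool.Agent.H571.PPD1.d2` in Pool/Agent/H558/PP/D1.lean.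
Proof. `L0` with `Stp L0`, `6 ≤ L0` from `S_T3`; `m0 ≥ L0` with `2 / (m0 - 1)^2 ≤ η`; `V = 8 * 8^m0`. Given
`U` choose an index `i(m, b, t)` of a nonzero coefficient of `node P2 m b t U` for the `m < m0`,
`b, t < 2^m0`; `V0` = sum of all `i(m, b, t) + 1`; `M0 = V0` (`V0 ≤ 8^V0`); `k0 = (M0 - m0) * M0`. For
`k ≥ k0` `S_T4` gives `m < m0` (`m ≤ k`) and `T ≥ V0 + 16 * 8^m` with
`XX k V m T U ≤ 2/((m0-1)^2 2^..) 4^k ≤ η 4^k`; in the definition of `XX` the second condition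
`Gv T (node P2 m (b % 2^m) (t % 2^m) U)` always holds, since `i(m, ..) < V0 ≤ T`. -/
def S_D2N : Prop := ∀ η : ℝ, 0 < η → ∃ V : ℕ, ∀ U : S, NZ U → ∃ k0 : ℕ, ∀ k ≥ k0,
  (#{p ∈ range (2 ^ k) ×ˢ range (2 ^ k) | ¬ Gv V (node P2 k p.2 p.1 U)} : ℝ) ≤ η * 4 ^ k

open scoped Classical in
/-- CON: three good sections at once, for most `t`. From `S_D2N`, `S_ADD`.
Proof. `η = ε / 18`, `V` of `S_D2N`, `k0` = maximum of the three `k0` (for `U0`, `U1`, `U0 + U1`). For each of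
the three series the number of the `t < 2^k` with more than `2^k / 6` dead `b` is at most
`6 η 2^k = (ε/3) 2^k` (Markov's inequality, `markov` in Pool/Agent/H558/PP/T5.lean). For the other `t` at
least `2^k - 3 * 2^k / 6 = 2^k / 2` of the `b` have three good sections. -/
def S_CON : Prop := ∀ ε : ℝ, 0 < ε → ∃ V : ℕ, ∀ U0 U1 : S, NZ U0 → NZ U1 → NZ (U0 + U1) →
  ∃ k0 : ℕ, ∀ k ≥ k0,
    (#{t ∈ range (2 ^ k) | (#{b ∈ range (2 ^ k) | G3 V k b t U0 U1} : ℝ) < 1 / 2 * 2 ^ k} : ℝ) ≤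
      ε * 2 ^ k

open scoped Classical in
/-- SCN: one scale. From `S_CON`, `S_ST`, `S_TR`: the same proof as for `S_SC` (the file
Pool/Agent/H558/TW/SC.lean of helper980, store h558_TW_SC_done.lean) with `δ1 = 1/2`. -/
def S_SCN : Prop := ∀ ε : ℝ, 0 < ε → ∃ δ : ℝ, 0 < δ ∧ ∀ U0 U1 : S, NZ U0 → NZ U1 →
  NZ (U0 + U1) → ∃ i0 : ℕ, ∀ (w0 w1 : ℕ → ZMod 2) (K i : ℕ), i0 ≤ i → i ≤ K →
    (#{t ∈ range (2 ^ K) | (N2 (2 ^ i) U0 U1 w0 w1 t : ℝ) < δ * 2 ^ i} : ℝ) ≤ ε * 2 ^ K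

/-- NZC: all sections of patterns of odd powers are nonzero.
Proof. For `m b' t'` put `B = β + 2^b * (b' % 2^m) < 2^(b+m)`, `T = t₀ + 2^b * (t' % 2^m) < 2^(b+m)`, odd as
`1 ≤ b`. By `S_N1` (`Pool.Agent.H155.PPX.n1` in Pool/Agent/H558/PP/X.lean) and `node_mod` (and its analogue
for `b`, second part of `S_N1`): `node P2 m b' t' (node P2 b β t₀ (CC c)) = node P2 (b+m) B T (CC c)`, and
`node_ne c hc` (library K7/H72/MT/K.lean) applies. Compare `hA` in Pool/Agent/H558/PP/Tm.lean. -/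
def S_NZC : Prop := ∀ (b β t₀ L : ℕ) (c : Fin (L + 1) → ZMod 2), c ≠ 0 → 1 ≤ b → β < 2 ^ b →
  t₀ % 2 = 1 → t₀ < 2 ^ b → NZ (node P2 b β t₀ (CC c))

/-- the number of the `n ≤ x`, `n ≡ ρ` modulo `M`, at which the values of the patterns `c`, `c'` of
`P2 ^ t` are different from `w0 n` and `w1 n` -/
noncomputable def cPP (M ρ : ℕ) {L : ℕ} (c c' : Fin (L + 1) → ZMod 2) (w0 w1 : ℕ → ZMod 2)
    (t x : ℕ) : ℕ :=
  #{n ∈ range (x + 1) | n % M = ρ % M ∧ pat c (P2 ^ t) n ≠ w0 n ∧ pat c' (P2 ^ t) n ≠ w1 n}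

/-- the same for 2-adic `t` -/
noncomputable def cZZ (M ρ : ℕ) {L : ℕ} (c c' : Fin (L + 1) → ZMod 2) (w0 w1 : ℕ → ZMod 2)
    (t : ℤ_[2]) (x : ℕ) : ℕ :=
  #{n ∈ range (x + 1) | n % M = ρ % M ∧ ∑ i : Fin (L + 1), c i * pz t (n + i) ≠ w0 n ∧
    ∑ i : Fin (L + 1), c' i * pz t (n + i) ≠ w1 n}

/-- CLN: residue classes. From `S_SCN`, `S_NZC`, `S_ADD`; nearly the same as T7
(Pool/Agent/H558/PP/T7.lean) and CL (Pool/Agent/H558/TW/CL.lean, store h558_TW_CL_done.lean).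
Proof. `b = b' + 1`; `δ6` of `S_SCN` for `ε`; `δ = δ6 / 2^(b+2)`; `β = (ρ + L) % 2^b`. For each odd
`t₀ < 2^b` let `U0 = node P2 b β t₀ (CC c)`, `U1 = node P2 b β t₀ (CC c')`; then
`U0 + U1 = node P2 b β t₀ (CC (c + c'))` (`S_ADD`, `CC` is additive) and all three are `NZ` by `S_NZC`; `S_SCN`
gives `i0(t₀)`; `i1` = `n1` + sum of the `i0(t₀)` where `n1 > L / (δ6/2)`; `x0 = 2^(b+i1)`. For `x ≥ x0` let
`2^(b+i) ≤ x < 2^(b+i+1)`, so `L ≤ (δ6/2) 2^i`. For `t % 2^b = t₀`, `t' = t / 2^b` and `n + L = β + 2^b a`,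
`a < 2^i`, `L ≤ a`: `n ≤ x`, `n % 2^b' = ρ % 2^b'`, `pat c (P2^t) n = coeff (n + L) (CC c * P2^t) =
coeff a (U0 P2^t')` (`coeff_CC`, `coeff_node`, `node_mod`), the same for `c'`, hence
`N2 (2^i) U0 U1 (w0 (β + 2^b · - L)) (w1 (β + 2^b · - L)) t' ≤ L + cPP (2^b') ρ c c' w0 w1 t x`. Sum over
the odd `t₀ < 2^b`: at most `2^b` classes with at most `ε 2^(K-b)` exceptions each. -/
def S_CLN : Prop := ∀ b' : ℕ, ∀ ε : ℝ, 0 < ε → ∃ δ : ℝ, 0 < δ ∧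
  ∀ (ρ L : ℕ) (c c' : Fin (L + 1) → ZMod 2), c ≠ 0 → c' ≠ 0 → c + c' ≠ 0 → ∃ x0 : ℕ,
  ∀ (w0 w1 : ℕ → ZMod 2) (x K : ℕ), x0 ≤ x → x < 2 ^ K →
    (#{t ∈ range (2 ^ K) | t % 2 = 1 ∧ (cPP (2 ^ b') ρ c c' w0 w1 t x : ℝ) < δ * x} : ℝ) ≤
      ε * 2 ^ K

/-- AEN: almost all 2-adic `t`. From `S_CLN`; the same as T8 (Pool/Agent/H558/PP/T8.lean) and AE
(store h558_TW_AE_done.lean), with `cZZ M ρ c c' w0 w1 t x = cPP M ρ c c' w0 w1 (t.appr K) x` for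
`x + L < 2^K` in place of `cntZ_eq` (same proof, K7/H72/MT/L.lean). -/
def S_AEN : Prop := ∀ (w0 w1 : ℕ → ZMod 2) [MeasurableSpace ℤ_[2]] [BorelSpace ℤ_[2]]
  (μ : MeasureTheory.Measure ℤ_[2]) [MeasureTheory.IsProbabilityMeasure μ] [μ.IsAddLeftInvariant],
  ∀ᵐ t ∂μ, t.appr 1 = 1 → ∀ (b' ρ L : ℕ) (c c' : Fin (L + 1) → ZMod 2), c ≠ 0 → c' ≠ 0 →
    c + c' ≠ 0 → ∃ δ : ℝ, 0 < δ ∧ ∀ x₁ : ℕ, ∃ x : ℕ, x₁ ≤ x ∧
      δ * x ≤ cZZ (2 ^ b') ρ c c' w0 w1 t x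

/-- the number of the `n ≤ x` in the residue class `ρ` modulo `M` at which the three values of `a` at
`n`, `n + h₁`, `n + h₂` are given by `u` -/
def cT (a : ℕ → ZMod 2) (M ρ h₁ h₂ : ℕ) (u : Fin 3 → ZMod 2) (x : ℕ) : ℕ :=
  #{n ∈ range (x + 1) | n % M = ρ % M ∧ a n = u 0 ∧ a (n + h₁) = u 1 ∧ a (n + h₂) = u 2}

/-- TRI: seven of the eight triples of parities. From `S_AEN`.
Proof. For almost all `t` the conclusion of `S_AEN` holds for the four pairs of constant sequences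
`w0, w1` (finitely many: `MeasureTheory.ae_all_iff` over `ZMod 2`, or four `filter_upwards`). Let
`a = pz t`. Suppose two different `u, u' : Fin 3 → ZMod 2` both fail, i.e. for every `δ > 0` the number
`cT .. x` is `< δ x` for all large `x`. Put `v = u + u' ≠ 0`. There are `e, e' : Fin 3 → ZMod 2` with
`e ≠ 0`, `e' ≠ 0`, `e + e' ≠ 0`, whose common kernel is `{0, v}` (decide over all `v`). Let `L = h₂` and
`c, c' : Fin (L + 1) → ZMod 2` be the patterns with `c 0 = e 0`, `c h₁ = e 1`, `c h₂ = e 2`, zero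
elsewhere (`0 < h₁ < h₂`), so `∑ c_i a(n+i) = e 0 a(n) + e 1 a(n+h₁) + e 2 a(n+h₂)`. With
`w0 = e·u + 1`, `w1 = e'·u + 1` the condition in `cZZ` says that the triple is `u` or `u'`. So
`δ x ≤ cZZ .. ≤ cT .. u x + cT .. u' x` for infinitely many `x` (δ > 0 fixed), contradiction. Hence there
is at most one exception `u₀` (if there is none take any `u₀`). -/
def S_TRI : Prop := ∀ [MeasurableSpace ℤ_[2]] [BorelSpace ℤ_[2]]
  (μ : MeasureTheory.Measure ℤ_[2]) [MeasureTheory.IsProbabilityMeasure μ] [μ.IsAddLeftInvariant],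
  ∀ᵐ t ∂μ, t.appr 1 = 1 → ∀ b' ρ h₁ h₂ : ℕ, 0 < h₁ → h₁ < h₂ → ∃ u₀ : Fin 3 → ZMod 2,
    ∀ u : Fin 3 → ZMod 2, u ≠ u₀ → ∃ δ : ℝ, 0 < δ ∧ ∀ x₁ : ℕ, ∃ x : ℕ, x₁ ≤ x ∧
      δ * x ≤ cT (pz t) (2 ^ b') ρ h₁ h₂ u x

end Pool.Agent.H558.TW
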