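import Pool.Agent.H558.TW.Stm2

set_option autoImplicit false

/-!
# Constants which do not depend on `t` and on the patterns: the statements (helper558)

By a zero-one law the upper densities are bounded below by a constant which depends only on the modulus.
-/

namespace Pool.Agent.H558.TW

open PowerSeries Finset Pool.Agent.R836.PP Pool.Agent.H558.KK Pool.Agent.H558.PP
open Pool.Agent.K7.H72.MT hiding W few dis DD dis_stable dis_vary DD_stable DD_sum DD_block few_bad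
  dis_le DD_le base count

/-- ZO: zero-one law. Only Mathlib and `cyl`, `measure_cyl`, `measure_cyl_zero` of K7/H72/MT/L.lean.
Proof. `μ (cyl l a) = 2^(-l)` for `a < 2^l` (all are equal and their sum is 1). Let `ε > 0`; by outer
regularity there is an open `U ⊇ B` with `μ U ≤ μ B + ε` (`Set.exists_isOpen_le_add`). For `l ≥ l1` let
`E_l` = the `a < 2^l` with `cyl l a ⊆ U`, `U_l = ⋃ a ∈ E_l, cyl l a`. `U_l` is monotone in `l` and its union over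
`l ≥ l1` is `U` (every `t ∈ U` has a ball `‖s - t‖ ≤ 2^(-l)` in `U`, which is `cyl l (t.appr l)`:
`PadicInt.appr_spec`, `PadicInt.norm_le_pow_iff_mem_span_pow`, as in `parity_wd` of the result files). So
`μ B = μ (B ∩ ⋃ U_l) = sup_l μ (B ∩ U_l)` (`Monotone.measure_iUnion`, valid for arbitrary sets), and
`μ (B ∩ U_l) ≤ ∑_{a ∈ E_l} μ (B ∩ cyl l a) ≤ #E_l θ / 2^l = θ μ(U_l) ≤ θ μ(U) ≤ θ (μ B + ε)`. Let `ε → 0`. -/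
def S_ZO : Prop := ∀ [MeasurableSpace ℤ_[2]] [BorelSpace ℤ_[2]]
  (μ : MeasureTheory.Measure ℤ_[2]) [MeasureTheory.IsProbabilityMeasure μ] [μ.IsAddLeftInvariant]
  (B : Set ℤ_[2]) (l1 : ℕ) (θ : ℝ), 0 ≤ θ → θ < 1 →
  (∀ l ≥ l1, ∀ a < 2 ^ l, μ (B ∩ {t : ℤ_[2] | t.appr l = a}) ≤ ENNReal.ofReal (θ / 2 ^ l)) →
    μ B = 0

/-- CU: two patterns, conditional version. From `S_ADD`, `S_SCN`, `S_NZC`; compare CLN.lean.
Proof. `b = b' + 1`, `δ` of `S_SCN` for `ε = 1/2`, `κ = δ / 2^(b+3)`. Given `ρ, L, c, c'`, `l ≥ b`, `a < 2^l` odd: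
`β = (ρ + L) % 2^b`. For each `e < 2^(l-b)` let `B = β + 2^b e < 2^l`, `U0 = node P2 l B a (CC c)`,
`U1 = node P2 l B a (CC c')`; `U0 + U1 = node P2 l B a (CC (c + c'))` (`S_ADD`), all three `NZ` (`S_NZC`), so
`S_SCN` gives `i0(e)`. `j0 = l +` sum of the `i0(e)` `+ n1` with `L ≤ κ 2^n1`. Let `j ≥ j0`, `i = j - l`.
For `t % 2^l = a`, `t' = t / 2^l` and `n + L = B + 2^l m`, `m < 2^i`, `L ≤ B + 2^l m`: `n ≤ 2^j`,
`n % 2^b' = ρ % 2^b'`, `pat c (P2^t) n = coeff m (U0 P2^t')` (`coeff_CC`, `coeff_node`, `node_mod`), same for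
`c'`. The `B + 2^l m` are distinct for distinct `(e, m)`, so with `w0'(m) = w0 (B + 2^l m - L)`,
`w1'(m) = w1 (B + 2^l m - L)`:
`∑_{e < 2^(l-b)} N2 (2^i) U0 U1 w0' w1' t' ≤ L + cPP (2^b') ρ c c' w0 w1 t (2^j)`. For each `e` at most
`(1/2) 2^(K-l)` of the `t' < 2^(K-l)` have `N2 < δ 2^i`. Let `F` be the set of the `t'` for which less than
`(1/4) 2^(l-b)` of the `e` have `N2 ≥ δ 2^i`: double counting gives
`#F * (3/4) 2^(l-b) ≤ 2^(l-b) (1/2) 2^(K-l)`, so `#F ≤ (2/3) 2^(K-l)`. For `t' ∉ F` the sum is at least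
`(1/4) 2^(l-b) δ 2^i = (δ / 2^(b+2)) 2^j`, so `cPP ≥ 2 κ 2^j - L ≥ κ 2^j`. -/
def S_CU : Prop := ∀ b' : ℕ, ∃ κ : ℝ, 0 < κ ∧ ∀ (ρ L : ℕ) (c c' : Fin (L + 1) → ZMod 2),
  c ≠ 0 → c' ≠ 0 → c + c' ≠ 0 → ∀ l a : ℕ, b' + 1 ≤ l → a < 2 ^ l → a % 2 = 1 → ∃ j0 : ℕ,
    ∀ (w0 w1 : ℕ → ZMod 2) (j K : ℕ), j0 ≤ j → 2 ^ j + L < 2 ^ K →
      (#{t ∈ range (2 ^ K) | t % 2 ^ l = a ∧
        (cPP (2 ^ b') ρ c c' w0 w1 t (2 ^ j) : ℝ) < κ * 2 ^ j} : ℝ) ≤ 2 / 3 * 2 ^ (K - l)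

/-- AEU: two patterns, the constant does not depend on `t`, `c`, `c'`. From `S_CU`, `S_ZO`; compare AEN.lean.
Proof. `κ` of `S_CU` for `b'`. Countable intersection over `(ρ, L, c, c')`. For fixed ones let
`B = {t | t.appr 1 = 1 ∧ ∃ x₁, ∀ x ≥ x₁, cZZ .. t x < κ x} = ⋃_{x₁} B_{x₁}` (monotone). `S_ZO` with
`l1 = b' + 1`, `θ = 2/3`: if `a` is even `B ∩ {t.appr l = a}` is empty (`t.appr 1 ≡ t.appr l` modulo 2:
`appr_modEq`); if `a` is odd, for every `x₁` and `j ≥ j0` with `2^j ≥ x₁`, `K = j + L + 1` enlarged to be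
`≥ l`: `B_{x₁} ∩ {t.appr l = a} ⊆ {t | t.appr K ∈ {t < 2^K | t % 2^l = a ∧ cPP .. (2^j) < κ 2^j}}` (`cZZ_eq` in
AEN.lean), of measure `≤ (2/3) 2^(K-l) / 2^K` (`measure_finset`); then `x₁ → ∞`
(`Monotone.measure_iUnion` for `B_{x₁} ∩ {t.appr l = a}`). So `μ B = 0`. -/
def S_AEU : Prop := ∀ b' : ℕ, ∃ κ : ℝ, 0 < κ ∧ ∀ (w0 w1 : ℕ → ZMod 2) [MeasurableSpace ℤ_[2]]
  [BorelSpace ℤ_[2]] (μ : MeasureTheory.Measure ℤ_[2]) [MeasureTheory.IsProbabilityMeasure μ]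
  [μ.IsAddLeftInvariant], ∀ᵐ t ∂μ, t.appr 1 = 1 →
    ∀ (ρ L : ℕ) (c c' : Fin (L + 1) → ZMod 2), c ≠ 0 → c' ≠ 0 → c + c' ≠ 0 →
      ∀ x₁ : ℕ, ∃ x : ℕ, x₁ ≤ x ∧ κ * x ≤ cZZ (2 ^ b') ρ c c' w0 w1 t x

/-- TRIU: triples with a constant which does not depend on `t`. From `S_AEU`; compare TRI.lean (nearly
the same proof, with `κ/2`: if `u ≠ u'` both fail then `cT .. u x < (κ/2) x` and `cT .. u' x < (κ/2) x` for all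
large `x`, contradiction to `κ x ≤ cZZ .. ≤ cT .. u x + cT .. u' x` for some large `x`). -/
def S_TRIU : Prop := ∀ b' : ℕ, ∃ κ : ℝ, 0 < κ ∧ ∀ [MeasurableSpace ℤ_[2]] [BorelSpace ℤ_[2]]
  (μ : MeasureTheory.Measure ℤ_[2]) [MeasureTheory.IsProbabilityMeasure μ] [μ.IsAddLeftInvariant],
  ∀ᵐ t ∂μ, t.appr 1 = 1 → ∀ ρ h₁ h₂ : ℕ, 0 < h₁ → h₁ < h₂ → ∃ u₀ : Fin 3 → ZMod 2,
    ∀ u : Fin 3 → ZMod 2, u ≠ u₀ → ∀ x₁ : ℕ, ∃ x : ℕ, x₁ ≤ x ∧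
      κ * x ≤ cT (pz t) (2 ^ b') ρ h₁ h₂ u x

/-- CU1: one pattern, all moduli, conditional version. From `S_T6`; the same proof as `S_CU`, compare T7.lean.
Proof. `M = 2^b' m`, `m` odd, `b = b' + 1`, `R = m`; `δ` of `S_T6` for `R`, `ε = 1/2`; `κ = δ / 2^(b+3)`, `l1 = b`.
For `l ≥ b`, `a` odd and `B = β + 2^b e` (`β = (ρ + L) % 2^b`, `e < 2^(l-b)`): `U = node P2 l B a (CC c)` is `Gv V0`
for some `V0` (`node_ne`, sum of the `V0` over the `e`), `A(v) : (B + 2^l v) % m = (ρ + L) % m`, `Dn m A` by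
`Dn_odd hm l B (ρ + L)`; `w'(v) = w (B + 2^l v - L)`. The rest as in `S_CU` with
`∑_e N1 P2 (2^i) (U, w', A) t' ≤ L + cntP M ρ c w t (2^j)` (`n ≡ ρ` modulo `2^b'` and modulo `m`; cf. `cnt_le` in
K7/H72/MT/K.lean). -/
def S_CU1 : Prop := ∀ M : ℕ, 0 < M → ∃ κ : ℝ, 0 < κ ∧ ∃ l1 : ℕ, ∀ (ρ L : ℕ)
  (c : Fin (L + 1) → ZMod 2), c ≠ 0 → ∀ l a : ℕ, l1 ≤ l → a < 2 ^ l → a % 2 = 1 → ∃ j0 : ℕ,
    ∀ (w : ℕ → ZMod 2) (j K : ℕ), j0 ≤ j → 2 ^ j + L < 2 ^ K →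
      (#{t ∈ range (2 ^ K) | t % 2 ^ l = a ∧ (cntP M ρ c w t (2 ^ j) : ℝ) < κ * 2 ^ j} : ℝ) ≤
        2 / 3 * 2 ^ (K - l)

/-- AEU1: one pattern, all moduli, the constant does not depend on `t` and `c`. From `S_CU1`, `S_ZO`; the
same proof as `S_AEU` (with `cntZ_eq` in place of `cZZ_eq`), compare T8.lean. -/
def S_AEU1 : Prop := ∀ M : ℕ, 0 < M → ∃ κ : ℝ, 0 < κ ∧ ∀ (w : ℕ → ZMod 2)
  [MeasurableSpace ℤ_[2]] [BorelSpace ℤ_[2]] (μ : MeasureTheory.Measure ℤ_[2])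
  [MeasureTheory.IsProbabilityMeasure μ] [μ.IsAddLeftInvariant], ∀ᵐ t ∂μ, t.appr 1 = 1 →
    ∀ (ρ L : ℕ) (c : Fin (L + 1) → ZMod 2), c ≠ 0 →
      ∀ x₁ : ℕ, ∃ x : ℕ, x₁ ≤ x ∧ κ * x ≤ cntZ M ρ c w t x

end Pool.Agent.H558.TW
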