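import Pool.Agent.H558.TW.Stm3

set_option autoImplicit false

/-!
# Two equal values of `p_t` at distance `h`: lower logarithmic density. The statements (helper558)
-/

namespace Pool.Agent.H558.TW

open PowerSeries Finset Pool.Agent.R836.PP Pool.Agent.H558.KK Pool.Agent.H558.PP
open Pool.Agent.K7.H72.MT hiding W few dis DD dis_stable dis_vary DD_stable DD_sum DD_block few_bad
  dis_le DD_le base count

/-- LOC2: the pairs (0, 0) and (1, 1) at one place; no hypothesis on the sum. From `S_LOC`.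
Proof. If `Gv (2^j) (H0 + H1)` use `S_LOC` with `V := 2^j` (`Gv` is monotone in `V`). Otherwise `H0` and `H1` have
the same coefficients below `2^j`. Let `u < V` be the least index of a nonzero coefficient of `H0`, `m = u + 1 <
2^j` (`V < 2^j`). For every `τ` `coeff m (H0 P^τ) = coeff m (H1 P^τ)` (`(H0 + H1) P^τ` has no coefficient below
`2^j`), and `coeff m (H0 P^τ)` takes both values for `τ < 2`: `vary isP_P2 0 1 H0 u _ _ 1 _ _ e`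
(or directly: `coeff m (H0 P) = coeff m H0 + coeff u H0`). -/
def S_LOC2 : Prop := ∀ V j : ℕ, V < 2 ^ j → ∀ H0 H1 : S, Gv V H0 → Gv V H1 →
  ∃ m < 2 ^ (j + 1), ∀ e : ZMod 2, ∃ τ < 2 ^ (j + 1),
    coeff m (H0 * P2 ^ τ) = e ∧ coeff m (H1 * P2 ^ τ) = e

open scoped Classical in
/-- D4Q: `S_D4` with 3/4 in place of 1/2. The proof of `S_D4` (Pool/Agent/H558/PP/D4.lean, theorem
`Pool.Agent.H122.PPD4.d4`, hypotheses `S_T3 S_D2 S_D3 S_VAR`) with other constants (`V`, i.e. `m0`, larger). -/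
def S_D4Q : Prop := ∃ V : ℕ, ∀ C : ℕ, ∃ A : ℝ, 0 < A ∧ ∀ U : S, Tame C U → ∀ K N : ℕ, 1 ≤ K →
  K ≤ N → (#{t ∈ range (2 ^ N) | ∑ k ∈ range K, Yf V U k t < 3 / 4 * K} : ℝ) ≤
    A * (K : ℝ) ^ (-(1 / 4) : ℝ) * 2 ^ N

/-- the number of the `n < X` at which both values are equal to the prescribed one -/
noncomputable def NE2 (X : ℕ) (U0 U1 : S) (w : ℕ → ZMod 2) (t : ℕ) : ℕ :=
  #{n ∈ range X | coeff n (U0 * P2 ^ t) = w n ∧ coeff n (U1 * P2 ^ t) = w n}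

/-- D5P: mean over the scales. From `S_D4Q`, `S_VAR`, `S_LOC2`; compare Pool/Agent/H558/PP/D5.lean.
Proof. `V` of `S_D4Q`, `j = V` (`V < 2^V`), `J = j + 1`, `X = J`. For `b < 2^k` call `b` good for `(k, t)` if both
`H_i = node P2 k b t U_i` are `Gv V`; `B_k(t)` = number of good `b`. For good `b` `S_LOC2` gives `m_b < 2^J`;
`n_b = b + 2^k m_b < 2^(k+J)`, `coeff n_b (U_i P2^t) = coeff m_b (H_i P2^(t / 2^k))`
`= coeff m_b (H_i P2^((t / 2^k) % 2^J))` (`coeff_node`, `node_mod`, `coeff_congr`); with `e = w n_b` for each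
`t % 2^k` at least one of the `2^J` next digits `s = (t / 2^k) % 2^J` makes both values equal to `w n_b`. Let
`Z_k(t) = #{b good, both values at n_b equal to w n_b} / 2^k ≤ 1`, `β_k(t) = B_k(t) / 2^(k+J)`; both depend only on
`t % 2^(k+J)`, `β_k` only on `t % 2^k`, and for fixed `t % 2^k` the mean of `Z_k` over `s` is `≥ β_k`.
`f k' t = (1 + β_{k'-J}(t) - Z_{k'-J}(t)) / 2` for `k' ≥ J` (`0` for `k' < J`) has values in `[0, 1]` and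
conditional means `≤ 1/2`: `S_VAR` with `g = J`, `c = 1/2`, `θ = 2^(-J-4)`, number of terms `K + J - 1` in place of
`K`: all but `4 J / (θ² K) 2^N` of the `t < 2^N` have `∑_{k<K} (1 + β_k - Z_k)/2 ≤ (1/2 + θ)(K + J - 1)`, so
`∑_{k<K} Z_k ≥ ∑_{k<K} β_k - 2θK - (1 + 2θ) J`. By `S_D4Q` for `U0`, `U1`: all but `2 A K^(-1/4) 2^N` of the `t`
have `∑ B_k / 2^k ≥ K/2`, so `∑ β_k ≥ K / 2^(J+1)`. Hence `∑_{k<K} Z_k ≥ K / 2^(J+2)` for large `K` (for small `K`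
increase `A`), and `NE2 (2^(k+J)) U0 U1 w t / 2^(k+J) ≥ Z_k(t) / 2^J`. So `c = 2^(-2J-2)`. -/
def S_D5P : Prop := ∃ (X : ℕ) (c : ℝ), 0 < c ∧ ∀ C : ℕ, ∃ A : ℝ, 0 < A ∧
  ∀ (U0 U1 : S) (w : ℕ → ZMod 2), Tame C U0 → Tame C U1 → ∀ K N : ℕ, 1 ≤ K → K + X ≤ N →
    (#{t ∈ range (2 ^ N) |
      ∑ k ∈ range K, (NE2 (2 ^ (k + X)) U0 U1 w t : ℝ) / 2 ^ (k + X) < c * K} : ℝ) ≤
    A * (K : ℝ) ^ (-(1 / 4) : ℝ) * 2 ^ N

/-- TSH: shifts of tame elements are tame.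
Proof. Let `b < 2^m` (`node` depends only on `b % 2^m`, `t % 2^m`: `Pool.Agent.H155.PPX.n1`, second part),
`t < 2^m`. `coeff i (node P2 m b t V) = coeff (b + 2^m i) (V P2^t)` (`coeff_node`). Let `r < 2^m` with
`r + s ≡ b` modulo `2^m`, `d = (s + r - b) / 2^m` (an integer with `0 ≤ d ≤ s`, `s + r = b + 2^m d`). If
`coeff i' (node P2 m r t U) ≠ 0`, `i' < C 4^m`, then `coeff (i' + d) (node P2 m b t (X^s U)) =
coeff (b + 2^m (i' + d)) (X^s U P2^t) = coeff (r + 2^m i') (U P2^t) ≠ 0` and `i' + d < (C + s) 4^m`. -/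
def S_TSH : Prop := ∀ (C s : ℕ) (U : S), Tame C U → Tame (C + s) ((X : S) ^ s * U)

/-- D6P: residue classes modulo `2^b'`, logarithmic mean. From `S_D5P`, `S_A`, `S_TSH`; compare
Pool/Agent/H558/PP/D6.lean (there one series and all moduli).
Proof. `X`, `c5` of `S_D5P`; `b = b' + 1`, `β = ρ % 2^b`; `h` given: `β + h = β1 + 2^b s`, `β1 < 2^b`. For odd
`t₀ < 2^b`: `G0 = node P2 b β t₀ 1`, `G1 = node P2 b β1 t₀ 1` are `Tame (5 * 4^b)` (`S_A`), so `U0 = X^s G0` and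
`U1 = G1` are `Tame (5 * 4^b + s)`. For `t % 2^b = t₀`, `t' = t / 2^b`, `n = β + 2^b a`:
`coeff n (P2^t) = coeff a (G0 P2^t') = coeff (a + s) (U0 P2^t')` and
`coeff (n + h) (P2^t) = coeff (β1 + 2^b (a + s)) (P2^t) = coeff (a + s) (U1 P2^t')`. With `w'(v) = w (β + 2^b (v - s))`
for `v ≥ s`: the sum of `1/(n+1)` over the `n = β + 2^b a < 2^K` in the set is at least
`∑_{v} 1 / (2^b (v + 1))` over the `s ≤ v < 2^(K-b)` counted in `NE2 (2^(K-b)) U0 U1 w' t'`, and (dyadic blocks,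
as in D6.lean) `∑_{k<K'} NE2 (2^(k+X)) U0 U1 w' t' / 2^(k+X) ≤ 2 ∑_{v < 2^(K'+X), v counted} 1/(v+1)`
(plus a constant for the `v < s`). So `c = c5 / 2^(b+3)`, `A` large (it may depend on `ρ`, `h`). Sum over the odd
`t₀ < 2^b`. -/
def S_D6P : Prop := ∀ b' : ℕ, ∃ c : ℝ, 0 < c ∧ ∀ ρ h : ℕ, 1 ≤ h → ∃ A : ℝ, 0 < A ∧
  ∀ (w : ℕ → ZMod 2) (K N : ℕ), 1 ≤ K → K ≤ N →
    (#{t ∈ range (2 ^ N) | t % 2 = 1 ∧
      ∑ n ∈ range (2 ^ K) with n % 2 ^ b' = ρ % 2 ^ b' ∧ coeff n (P2 ^ t) = w n ∧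
        coeff (n + h) (P2 ^ t) = w n, 1 / ((n : ℝ) + 1) < c * K} : ℝ) ≤
      A * (K : ℝ) ^ (-(1 / 4) : ℝ) * 2 ^ N

/-- D7P: almost all 2-adic `t`. From `S_D6P`; compare Pool/Agent/H558/PP/D7.lean (for `n < 2^K` one needs
`pz t (n + h) = coeff (n + h) (P2 ^ (t.appr N))` with `N = K + h`, `n + h < 2^N`). -/
def S_D7P : Prop := ∀ b' : ℕ, ∃ c : ℝ, 0 < c ∧ ∀ (w : ℕ → ZMod 2) [MeasurableSpace ℤ_[2]]
  [BorelSpace ℤ_[2]] (μ : MeasureTheory.Measure ℤ_[2]) [MeasureTheory.IsProbabilityMeasure μ]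
  [μ.IsAddLeftInvariant], ∀ᵐ t ∂μ, t.appr 1 = 1 → ∀ ρ h : ℕ, 1 ≤ h → ∃ x₀ : ℕ, ∀ x : ℕ, x₀ ≤ x →
    c * Real.log x ≤
      ∑ n ∈ range (x + 1) with n % 2 ^ b' = ρ % 2 ^ b' ∧ pz t n = w n ∧ pz t (n + h) = w n,
        1 / ((n : ℝ) + 1)

end Pool.Agent.H558.TW
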