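import Pool.Agent.H558.TW.Stm3

set_option autoImplicit false

/-!
# Lower logarithmic density for all patterns: the statements (helper558)

No quantitative form of the nonvanishing of the sections is needed: the exceptional sets of `t` of the steps
of a chain with slowly growing block lengths are summable, so a maximal inequality holds.
-/

namespace Pool.Agent.H558.TW

open PowerSeries Finset Pool.Agent.R836.PP Pool.Agent.H558.KK Pool.Agent.H558.PP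
open Pool.Agent.K7.H72.MT hiding W few dis DD dis_stable dis_vary DD_stable DD_sum DD_block few_bad
  dis_le DD_le base count

open scoped Classical in
/-- the number of the dead sections of level `k` -/
noncomputable def Dd (T : ℕ) (U : S) (k t : ℕ) : ℕ :=
  #{b ∈ range (2 ^ k) | ¬ Gv T (node P2 k b t U)}

open scoped Classical in
/-- GA1: the union bound along a chain.
Proof. For `j` with `n (j+1) ≤ N` let `X_j(t)` be the number of the `b < 2^n(j+1)` with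
`¬ Gv (T (j+1)) (node P2 (n (j+1)) b t U)` and `Gv (T j) (node P2 (n j) (b % 2^n j) (t % 2^n j) U)`. It depends
only on `t % 2^n(j+1)` (`node_mod`) and its sum over `t < 2^n(j+1)` is `XX .. ≤ e j * 4^n(j+1)`. So (Markov,
and each residue modulo `2^n(j+1)` has `2^(N - n(j+1))` lifts) `X_j(t) > δ j * 2^n(j+1)` for at most
`(e j / δ j) 2^N` of the `t < 2^N`; `n` is strictly increasing, so only `j < N` occur. For the other `t`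
`Dd (T j) U (n j) t ≤ (∑ i < j, δ i) 2^n j` by induction on `j` as long as `n j ≤ N`: for `j = 0` it is 0; a dead `b`
at level `n (j+1)` is counted in `X_j(t)` or `b % 2^n j` is dead at level `n j` (`S_N1`, second part, or
`node_mod` for the digits of `t`), and there are `2^(n(j+1) - n j) Dd (T j) U (n j) t` such `b`. -/
def S_GA1 : Prop := ∀ (U : S) (n T : ℕ → ℕ) (δ e : ℕ → ℝ), (∀ j, 0 < δ j) → (∀ j, 0 ≤ e j) →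
  (∀ j, n j < n (j + 1)) →
  (∀ j, (XX (n (j + 1)) (T (j + 1)) (n j) (T j) U : ℝ) ≤ e j * 4 ^ n (j + 1)) →
  (∀ b t, Gv (T 0) (node P2 (n 0) b t U)) → ∀ N : ℕ,
    (#{t ∈ range (2 ^ N) | ∃ j, n j ≤ N ∧
      (∑ i ∈ range j, δ i) * 2 ^ n j < (Dd (T j) U (n j) t : ℝ)} : ℝ) ≤
        (∑ i ∈ range N, e i / δ i) * 2 ^ N

open scoped Classical in
/-- GA: dead sections with respect to a slowly growing threshold, at all large levels at once. From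
`S_GA1`, `S_N1`, `S_N3` (both proved: `Pool.Agent.H155.PPX.n1`, .. in Pool/Agent/H558/PP/X.lean).
Proof. `M ≥ L0, 32, 2/ε`. `r i` with `(r i)^5 ≤ i < (r i + 1)^5` (like `d4_root` in PP/D4.lean), `l i = M + r i`
(nondecreasing), `B i` of `Stp` for `l i` (`4 B i ≤ l i`), `h i = l i - B i ≥ 3`, `n 0 = M`, `n (i+1) = n i + h i`
(so `n i ≥ M + i ≥ l i ≥ B i`). `T 0`: all `node P2 M b t U` are `Gv (T 0)` (`NZ`; finitely many, since `node`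
depends only on `b % 2^M`, `t % 2^M`); `v i = T i / 2^h i + 1`, `T (i+1) = v i + 4 * 8^l i`. `Stp` with
`i := n i - B i` and monotonicity in the last threshold (`T i ≤ 2^h i * v i`) give
`XX (n (i+1)) (T (i+1)) (n i) (T i) U ≤ eps (l i) * 4^n(i+1)`. For `L ≥ 32`: `eps L ≤ 1 / L^22`, since for
`λ = Nat.log 2 L ≥ 5`: `L^19 ≤ 2^(19 (λ+1)) ≤ 2^(λ^3)`. `S_GA1` with `e i = eps (l i)`, `δ i = 1/(l i)^11`:
`e i / δ i ≤ δ i ≤ 1 / (M (i+1)^2)`, since `l i ≥ M`, `l i ≥ r i + 1`, `(r i + 1)^10 ≥ (i+1)^2`; so both sums are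
`≤ 2 / M ≤ ε`. Thresholds: `T (i+1) ≤ T i / 8 + 1 + 4 * 8^l i`, so by induction `T i ≤ T 0 / 2^i + 8 * 8^l i`, and
`T i ≤ 8 * 8^l i` for `i ≥ T 0`. Now let `k ≥ k1`, `k ≤ J^4`, `n i < k ≤ n (i+1)` (so `i` is large,
`n (i+1) ≤ n i + l i ≤ 2 k ≤ N`). Then `J ≥ 2 l (i+1)`: otherwise `J < 2 (M + r) ≤ 4 r`, `r = r (i+1) ≥ M`, 257 and
`i < n i < J^4 ≤ 256 r^4 ≤ r^5 - 1 ≤ i`. If `b` is dead at level `k` for `8 * 8^J` then all the `2^(n(i+1) - k)`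
numbers `b' < 2^n(i+1)`, `b' % 2^k = b` are dead at level `n (i+1)` for `T (i+1)` (`S_N3`, `S_N1`:
`2^(n(i+1) - k) T (i+1) ≤ 2^l i * 8 * 8^l(i+1) ≤ 8 * 8^J`). So
`ε 2^k < Dd (8 * 8^J) U k t` implies `(∑ δ) 2^n(i+1) < Dd (T (i+1)) U (n (i+1)) t`. -/
def S_GA : Prop := ∀ L0 : ℕ, 6 ≤ L0 → Stp L0 → ∀ U : S, NZ U → ∀ ε : ℝ, 0 < ε → ∃ k1 : ℕ,
  ∀ N : ℕ, (#{t ∈ range (2 ^ N) | ∃ k J : ℕ, k1 ≤ k ∧ 2 * k ≤ N ∧ k ≤ J ^ 4 ∧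
    ε * 2 ^ k < (Dd (8 * 8 ^ J) U k t : ℝ)} : ℝ) ≤ ε * 2 ^ N

open scoped Classical in
/-- GD4: the mean over the levels of the part of the good sections, for all `K` at once. From `S_T3`,
`S_GA`, `S_D3`, `S_VAR`; compare Pool/Agent/H558/PP/D4.lean (theorem `Pool.Agent.H122.PPD4.d4`).
Proof. `L0`, `Stp L0` of `S_T3`; `m0 ≥ L0` with `1/(m0-1)^2 ≤ η/16`; `V = 8 * 8^m0`. `ε' = min (ε/2) (η/16)`, `k1` of
`S_GA` for `ε'`. For `i ∈ ℕ` let `J_i = 2^((i+3)/4)` (so `2^i ≤ J_i^4`, `J_i^2 ≤ 2^((i+3)/2)`),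
`Gl_i = Gl m0 J_i ≤ (m0+1) J_i^2`, `g_i ≤ Gl_i` of `S_D3`. `S_VAR` for
`f k t = Zf (8 * 8^m0) (8 * 8^(m0+J_i)) g_i U k t`, `g = Gl_i`, `c = η/16`, `θ = η/16`, `2^i` in place of `K`
(`2^i ≤ N`): all `t` but a set `E_i` of at most `4 Gl_i 256 / (η^2 2^i) 2^N` have
`∑_{k ∈ Ico Gl_i (2^i + 1)} Zf ≤ (η/8) 2^i`; the sum over `i ≥ i1` of these bounds is `≤ (ε/2) 2^N` for large `i1`
(`2^((i+3)/2 - i)`, geometric). Let `t` be outside all `E_i`, `i ≥ i1`, `2 * 2^i ≤ N`, and outside the set of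
`S_GA`. For `Gl_i ≤ k ≤ 2^i`, `k' = k - g_i`: `1 - Yf V U k t ≤ Zf + d4W` (`d4_split`) and
`d4W = Dd (8 * 8^(m0+J_i)) U k' t / 2^k' ≤ ε'` if `k' ≥ k1` (as `k' ≤ 2^i ≤ (m0+J_i)^4`). So
`∑_{k<2^i} (1 - Yf) ≤ Gl_i + (η/8) 2^i + (k1 + Gl_i) + ε' 2^i ≤ (η/2) 2^i` for `i ≥ i1`. For `K ≥ K1 = 2^i1` take
`2^(i-1) ≤ K < 2^i` (`2 * 2^i ≤ 4 K ≤ N`): `∑_{k<K} (1 - Yf) ≤ (η/2) 2^i ≤ η K`. -/
def S_GD4 : Prop := ∀ η : ℝ, 0 < η → ∃ V : ℕ, ∀ U : S, NZ U → ∀ ε : ℝ, 0 < ε → ∃ K1 : ℕ,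
  ∀ N : ℕ, (#{t ∈ range (2 ^ N) | ∃ K : ℕ, K1 ≤ K ∧ 8 * K ≤ N ∧
    ∑ k ∈ range K, Yf V U k t < (1 - η) * K} : ℝ) ≤ ε * 2 ^ N

open scoped Classical in
/-- GP: two series, mean over the scales, for all `K` at once. From `S_GD4`, `S_VAR`, `S_LOC`, `S_ADD`;
compare TWD5P (theorem `Pool.Agent.H16.TWD5P.d5p`, store h558_TW_D5P_done.lean) and PP/D5.lean.
Proof. `V` of `S_GD4` for `η = 1/12`, `j = V` (`V ≤ 2^V`), `J = j + 1`, `X = J`, `c = 2^(-2J-3)`.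
`B_k(t) = #{b < 2^k | G3 V k b t U0 U1}`, `β_k(t) = B_k(t) / 2^(k+J)`. `S_GD4` with `ε/6` for `U0`, `U1`, `U0 + U1`
(`S_ADD` for the nodes of the sum): outside a set of at most `(ε/2) 2^N` of the `t`, for all `K ≥ K1`, `8K ≤ N`:
`∑_{k<K} B_k / 2^k ≥ K - 3 K/12 = 3K/4`. For `b` good at `(k, t)` `S_LOC` for `H_i = node P2 k b t U_i` gives
`m_b < 2^J`; `n_b = b + 2^k m_b < 2^(k+J)`, `coeff n_b (U_i P2^t) = coeff m_b (H_i P2^((t / 2^k) % 2^J))`; for each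
`t % 2^k` at least one of the `2^J` next digits makes both values different from `w_i n_b`. Let
`Z_k(t) = #{b good | both values at n_b differ from w_i n_b} / 2^k ≤ 1`; it depends only on `t % 2^(k+J)`, `β_k` only
on `t % 2^k`, and for fixed `t % 2^k` the mean of `Z_k` is `≥ β_k`. `f k' t = (1 + β_{k'-J}(t) - Z_{k'-J}(t)) / 2` for
`k' ≥ J` (`0` for `k' < J`): `S_VAR` with `g = J`, `c = 1/2`, `θ = 2^(-J-4)` and `2^i + J - 1` in place of `K`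
(`2^i + J ≤ N`): all but `4 J / (θ² 2^i) 2^N` of the `t` have
`∑_{k<2^i} Z_k ≥ ∑_{k<2^i} β_k - 2θ 2^i - (1 + 2θ) J`; the sum of these bounds over `i ≥ i1` is `≤ (ε/2) 2^N`. So for
`i ≥ i1`, `8 * 2^i ≤ N`: `∑_{k<2^i} Z_k ≥ (3/4) 2^(i-J) - 2^(i-J-3) - 2J ≥ 2^(i-J-1)`. For `K ≥ K1`, `2^i ≤ K < 2^(i+1)`:
`∑_{k<K} N2 (2^(k+J)) / 2^(k+J) ≥ ∑_{k<2^i} Z_k / 2^J ≥ 2^(i-2J-1) ≥ c K`. -/
def S_GP : Prop := ∃ (X : ℕ) (c : ℝ), 0 < c ∧ ∀ U0 U1 : S, NZ U0 → NZ U1 → NZ (U0 + U1) →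
  ∀ ε : ℝ, 0 < ε → ∃ K1 : ℕ, ∀ (w0 w1 : ℕ → ZMod 2) (N : ℕ),
    (#{t ∈ range (2 ^ N) | ∃ K : ℕ, K1 ≤ K ∧ 8 * (K + X) ≤ N ∧
      ∑ k ∈ range K, (N2 (2 ^ (k + X)) U0 U1 w0 w1 t : ℝ) / 2 ^ (k + X) < c * K} : ℝ) ≤
    ε * 2 ^ N

open scoped Classical in
/-- GP1: one series and a set of density type `R`. From `S_GD4`, `S_VAR`: the proof of
`Pool.Agent.H997.PPD5.d5` (Pool/Agent/H558/PP/D5.lean) with `S_GD4` (`η = 1/2`) in place of `S_D4`; `S_VAR` is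
applied for all dyadic `K = 2^i`, `i ≥ i1`, and the exceptional sets are summed as in the proof of
`S_GP`. -/
def S_GP1 : Prop := ∀ R : ℕ, 1 ≤ R → ∃ (X : ℕ) (c : ℝ), 0 < c ∧ ∀ (U : S) (A' : ℕ → Prop),
  NZ U → Dn R A' → ∀ ε : ℝ, 0 < ε → ∃ K1 : ℕ, ∀ (w : ℕ → ZMod 2) (N : ℕ),
    (#{t ∈ range (2 ^ N) | ∃ K : ℕ, K1 ≤ K ∧ 8 * (K + X) ≤ N ∧
      ∑ k ∈ range K, (N1 P2 (2 ^ (k + X)) (U, w, A') t : ℝ) / 2 ^ (k + X) < c * K} : ℝ) ≤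
    ε * 2 ^ N

/-- the sum of the `1 / (n + 1)` over the `n ≤ x`, `n ≡ ρ` modulo `M`, at which the values of the patterns
`c`, `c'` of `P2 ^ t` are different from `w0 n` and `w1 n` -/
noncomputable def LG (M ρ : ℕ) {L : ℕ} (c c' : Fin (L + 1) → ZMod 2) (w0 w1 : ℕ → ZMod 2)
    (t x : ℕ) : ℝ :=
  ∑ n ∈ range (x + 1) with n % M = ρ % M ∧ pat c (P2 ^ t) n ≠ w0 n ∧ pat c' (P2 ^ t) n ≠ w1 n,
    1 / ((n : ℝ) + 1)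

/-- the same for 2-adic `t` -/
noncomputable def LZ (M ρ : ℕ) {L : ℕ} (c c' : Fin (L + 1) → ZMod 2) (w0 w1 : ℕ → ZMod 2)
    (t : ℤ_[2]) (x : ℕ) : ℝ :=
  ∑ n ∈ range (x + 1) with n % M = ρ % M ∧ ∑ i : Fin (L + 1), c i * pz t (n + i) ≠ w0 n ∧
    ∑ i : Fin (L + 1), c' i * pz t (n + i) ≠ w1 n, 1 / ((n : ℝ) + 1)

/-- one pattern -/
noncomputable def LG1 (M ρ : ℕ) {L : ℕ} (c : Fin (L + 1) → ZMod 2) (w : ℕ → ZMod 2)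
    (t x : ℕ) : ℝ :=
  ∑ n ∈ range (x + 1) with n % M = ρ % M ∧ pat c (P2 ^ t) n ≠ w n, 1 / ((n : ℝ) + 1)

/-- one pattern, 2-adic `t` -/
noncomputable def LZ1 (M ρ : ℕ) {L : ℕ} (c : Fin (L + 1) → ZMod 2) (w : ℕ → ZMod 2)
    (t : ℤ_[2]) (x : ℕ) : ℝ :=
  ∑ n ∈ range (x + 1) with n % M = ρ % M ∧ ∑ i : Fin (L + 1), c i * pz t (n + i) ≠ w n,
    1 / ((n : ℝ) + 1)

/-- GL: two patterns, residue classes, logarithmic mean. From `S_GP`, `S_ADD`, `S_NZC`; compare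
TWD6P (store h558_TW_D6P_done.lean), PP/D6.lean and TW/CLN.lean.
Proof. `X`, `c5` of `S_GP`; `b = b' + 1`, `κ = c5 / 2^(b+3)`, `β = (ρ + L) % 2^b`. For each odd `t₀ < 2^b`:
`U0 = node P2 b β t₀ (CC c)`, `U1 = node P2 b β t₀ (CC c')`, `U0 + U1 = node P2 b β t₀ (CC (c + c'))` (`S_ADD`),
all `NZ` (`S_NZC`); `S_GP` with `ε` gives `K1(t₀)`. For `t % 2^b = t₀`, `t' = t / 2^b < 2^(N-b)`, `L ≤ β + 2^b a`,
`n = β + 2^b a - L`: `n % 2^b' = ρ % 2^b'`, `pat c (P2^t) n = coeff a (U0 P2^t')` (`coeff_CC`, `coeff_node`,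
`node_mod`), the same for `c'`; `w0'(a) = w0 (β + 2^b a - L)` etc. If `a < 2^(K-b)` then `n ≤ 2^K` and
`1/(n+1) ≥ 1/(2^b (a+1))`. So `LG .. t (2^K) ≥ 2^(-b) (∑_{a < 2^(K-b), a counted in N2} 1/(a+1) - L)` (the `a` with
`β + 2^b a < L` are `< L`), and `∑_{k<K'} N2 (2^(k+X)) .. t' / 2^(k+X) ≤ 2 ∑_{a < 2^(K'+X), counted} 1/(a+1)`,
`K' = K - b - X` (`8 (K' + X) ≤ 8 K - 8 b ≤ N - b`). Hence `LG ≥ 2^(-b) (c5 K'/2 - L) ≥ κ K` for `K ≥ K1`, outside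
at most `ε 2^(N-b)` of the `t'` for each of the at most `2^b` odd `t₀`. -/
def S_GL : Prop := ∀ b' : ℕ, ∃ κ : ℝ, 0 < κ ∧ ∀ (ρ L : ℕ) (c c' : Fin (L + 1) → ZMod 2),
  c ≠ 0 → c' ≠ 0 → c + c' ≠ 0 → ∀ ε : ℝ, 0 < ε → ∃ K1 : ℕ, ∀ (w0 w1 : ℕ → ZMod 2) (N : ℕ),
    (Set.ncard {t : ℕ | t < 2 ^ N ∧ t % 2 = 1 ∧ ∃ K : ℕ, K1 ≤ K ∧ 8 * K ≤ N ∧
      LG (2 ^ b') ρ c c' w0 w1 t (2 ^ K) < κ * K} : ℝ) ≤ ε * 2 ^ N

/-- GL1: one pattern, all moduli. From `S_GP1`, `S_NZC`; compare PP/D6.lean.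
Proof. `M = 2^b' m`, `m` odd (`Nat.exists_eq_two_pow_mul_odd`), `b = b' + 1`, `R = m`; `X`, `c5` of `S_GP1`;
`κ = c5 / 2^(b+3)`, `β = (ρ + L) % 2^b`, `A'(a) : (β + 2^b a) % m = (ρ + L) % m`, `Dn m A'` by `Dn_odd`
(K7/H72/MT/K.lean). The rest as in the proof of `S_GL` with one series. -/
def S_GL1 : Prop := ∀ M : ℕ, 0 < M → ∃ κ : ℝ, 0 < κ ∧ ∀ (ρ L : ℕ) (c : Fin (L + 1) → ZMod 2),
  c ≠ 0 → ∀ ε : ℝ, 0 < ε → ∃ K1 : ℕ, ∀ (w : ℕ → ZMod 2) (N : ℕ),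
    (Set.ncard {t : ℕ | t < 2 ^ N ∧ t % 2 = 1 ∧ ∃ K : ℕ, K1 ≤ K ∧ 8 * K ≤ N ∧
      LG1 M ρ c w t (2 ^ K) < κ * K} : ℝ) ≤ ε * 2 ^ N

/-- GE: two patterns, lower logarithmic density for almost all 2-adic `t`. From `S_GL`; compare
PP/D7.lean, TWD7P (store h558_TW_D7P_done.lean), TW/AEU.lean.
Proof. `κ` of `S_GL`. Countable intersection over `(ρ, L, c, c')`. For fixed ones let
`B = {t | t.appr 1 = 1 ∧ ∀ K1, ∃ K ≥ K1, LZ .. t (2^K) < κ K}`. Given `ε`, `K1` of `S_GL`, enlarged to `≥ L + 1`: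
`B ⊆ ⋃_N B_N`, `B_N = {t | t.appr 1 = 1 ∧ ∃ K, K1 ≤ K ∧ 8 K ≤ N ∧ LZ .. t (2^K) < κ K}`, monotone in `N`. As
`2^K + L < 2^N`: `LZ .. t (2^K) = LG .. (t.appr N) (2^K)` (`pz_eq`, as `cZZ_eq` in AEN.lean), so `B_N` is contained
in `{t | t.appr N ∈ a set of at most ε 2^N residues}`, `μ B_N ≤ ε` (`measure_finset`), `μ B ≤ ε`
(`Monotone.measure_iUnion`), for all `ε`, so `μ B = 0`. If `t ∉ B`, for `x ≥ x₀`, `K = Nat.log 2 x`: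
`LZ .. x ≥ LZ .. (2^K) ≥ κ K ≥ κ (log x / log 2 - 1) ≥ κ log x`. -/
def S_GE : Prop := ∀ b' : ℕ, ∃ κ : ℝ, 0 < κ ∧ ∀ (w0 w1 : ℕ → ZMod 2) [MeasurableSpace ℤ_[2]]
  [BorelSpace ℤ_[2]] (μ : MeasureTheory.Measure ℤ_[2]) [MeasureTheory.IsProbabilityMeasure μ]
  [μ.IsAddLeftInvariant], ∀ᵐ t ∂μ, t.appr 1 = 1 →
    ∀ (ρ L : ℕ) (c c' : Fin (L + 1) → ZMod 2), c ≠ 0 → c' ≠ 0 → c + c' ≠ 0 →
      ∃ x₀ : ℕ, ∀ x : ℕ, x₀ ≤ x → κ * Real.log x ≤ LZ (2 ^ b') ρ c c' w0 w1 t x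

/-- GE1: one pattern, all moduli. From `S_GL1`; the same proof as `S_GE`. -/
def S_GE1 : Prop := ∀ M : ℕ, 0 < M → ∃ κ : ℝ, 0 < κ ∧ ∀ (w : ℕ → ZMod 2)
  [MeasurableSpace ℤ_[2]] [BorelSpace ℤ_[2]] (μ : MeasureTheory.Measure ℤ_[2])
  [MeasureTheory.IsProbabilityMeasure μ] [μ.IsAddLeftInvariant], ∀ᵐ t ∂μ, t.appr 1 = 1 →
    ∀ (ρ L : ℕ) (c : Fin (L + 1) → ZMod 2), c ≠ 0 →
      ∃ x₀ : ℕ, ∀ x : ℕ, x₀ ≤ x → κ * Real.log x ≤ LZ1 M ρ c w t x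

end Pool.Agent.H558.TW
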