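import Pool.Agent.H558.TW.Stm5

set_option autoImplicit false

/-!
# A positive proportion at most scales: the statements (helper558)
-/

namespace Pool.Agent.H558.TW

open PowerSeries Finset Pool.Agent.R836.PP Pool.Agent.H558.KK Pool.Agent.H558.PP
open Pool.Agent.K7.H72.MT hiding W few dis DD dis_stable dis_vary DD_stable DD_sum DD_block few_bad
  dis_le DD_le base count

open scoped Classical in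
/-- TRC: repeated trials, conditional version. The weight argument of TW/TR.lean (start at level 0):
`∑_{a < 2^(J i), ok i a} r^(-c i a) ≤ 2^(J i)`, `r = 1 - 1/2^J`, where `c i a` is the number of the `i' < i` with
`E i' (a % 2^(J i'))`; the `t` of the claim have weight `≥ r^(-M)`. -/
def S_TRC : Prop := ∀ (J M : ℕ), 1 ≤ J → ∀ E F : ℕ → ℕ → Prop,
  (∀ i < 2 * M, ∀ a < 2 ^ (J * i), E i a → ∃ s < 2 ^ J, F i (a + 2 ^ (J * i) * s)) →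
  (#{t ∈ range (2 ^ (J * (2 * M))) | M ≤ #{i ∈ range (2 * M) | E i (t % 2 ^ (J * i))} ∧
    ∀ i < 2 * M, ¬ (E i (t % 2 ^ (J * i)) ∧ F i (t % 2 ^ (J * (i + 1))))} : ℝ) ≤
      (1 - 1 / 2 ^ J) ^ M * 2 ^ (J * (2 * M))

open scoped Classical in
/-- HS: two series, most scales. From `S_GD4`, `S_VAR`, `S_ST`, `S_TRC`; compare TW/GP.lean.
Proof. `η = ε / 96`, `V` of `S_GD4`, `j = V`, `J = j + 1`, `M ≥ 1` with `(1 - 1/2^J)^M ≤ ε/8`, `g = J (2M)`,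
`δ = 2^(-J-1-g)`. For a level `k` and `i < 2M` let `E_i : 2^(k+Ji) / 2 ≤ #{b < 2^(k+Ji) | G3 V (k+Ji) b t U0 U1}`
(depends on `t % 2^(k+Ji)`) and `F_i : 2^(k+Ji) / 2^(J+1) ≤ N2 (2^(k+J(i+1))) U0 U1 w0 w1 t`. By `S_ST` for every
`a < 2^(k+Ji)` with `E_i` some `s < 2^J` gives `F_i`. Let `f_(k+g)(t) = 1` if at least `M` of the `E_i`, `i < 2M`,
hold and all `¬ (E_i ∧ F_i)`, else `0`: by `S_TRC` (for the digits after `t % 2^k`) its mean for fixed `t % 2^k` is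
`≤ (1 - 1/2^J)^M ≤ ε/8`. `S_VAR` with `g`, `c = θ = ε/8` for `2^i` in place of `K`, `i ≥ i1`:
`∑_{g ≤ k' ≤ 2^i} f_k' ≤ (ε/4) 2^i` for all `i ≥ i1` (`2^i ≤ N`), outside at most `(ε'/2) 2^N` of the `t`. `S_GD4` with
`ε'/6` for `U0, U1, U0 + U1`: `∑_{k<K} (1 - Yf) ≤ η K` each; the number of the levels `k < 2^i` with
`#{b good} < 2^k/2` is `≤ 2 * 3 η 2^i` (if two thirds..: `1 - #good/2^k ≤ ∑ (1 - Yf)` and it is `> 1/2`). If the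
scale `k+g` is bad (`N2 (2^(k+g)) < δ 2^(k+g) = 2^(-J-1) 2^k`) then all `F_i` fail, so `f_(k+g) = 1` or more than
`M` of the levels `k + Ji` have `¬ E_i`; the number of the latter `k ≤ 2^i` is
`≤ (1/M) 2M #{levels < 2^i without E} ≤ 12 η 2^i = (ε/8) 2^i`. So at most `g + (3ε/8) 2^i ≤ (ε/2) 2^i` of the `k < 2^i` are
bad, and for `2^(i-1) ≤ K < 2^i` at most `ε K` of the `k < K`. -/
def S_HS : Prop := ∀ ε : ℝ, 0 < ε → ∃ δ : ℝ, 0 < δ ∧ ∀ U0 U1 : S, NZ U0 → NZ U1 → NZ (U0 + U1) →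
  ∀ ε' : ℝ, 0 < ε' → ∃ K1 : ℕ, ∀ (w0 w1 : ℕ → ZMod 2) (N : ℕ),
    (#{t ∈ range (2 ^ N) | ∃ K : ℕ, K1 ≤ K ∧ 8 * K ≤ N ∧
      ε * K < (#{k ∈ range K | (N2 (2 ^ k) U0 U1 w0 w1 t : ℝ) < δ * 2 ^ k} : ℝ)} : ℝ) ≤ ε' * 2 ^ N

open scoped Classical in
/-- HS1: one series and a set `A'`, most scales. From `S_GD4`, `S_VAR`, `S_TRC`; the proof of `S_HS` with
the trials of TW/GP1.lean and PP/D5.lean (place `m_b < 2^J`, `A' (b + 2^k m_b)`, both values occur, so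
some `s < 2^J` has `#{b good} ≤ 2^J N1 P2 (2^(k+J)) (U, w, A') (a + 2^k s)`). -/
def S_HS1 : Prop := ∀ R : ℕ, 1 ≤ R → ∀ ε : ℝ, 0 < ε → ∃ δ : ℝ, 0 < δ ∧
  ∀ (U : S) (A' : ℕ → Prop), NZ U → Dn R A' → ∀ ε' : ℝ, 0 < ε' → ∃ K1 : ℕ,
  ∀ (w : ℕ → ZMod 2) (N : ℕ),
    (#{t ∈ range (2 ^ N) | ∃ K : ℕ, K1 ≤ K ∧ 8 * K ≤ N ∧
      ε * K < (#{k ∈ range K | (N1 P2 (2 ^ k) (U, w, A') t : ℝ) < δ * 2 ^ k} : ℝ)} : ℝ) ≤ ε' * 2 ^ N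

open scoped Classical in
/-- HC: two patterns, residue classes. From `S_HS`, `S_ADD`, `S_NZC`; compare TW/GL.lean, TW/CLN.lean.
Proof. `b = b' + 1`, `δ0` of `S_HS` for `ε/2`, `δ = δ0 / 2^(b+1)`; `β`, `U0`, `U1` as in the proof of `S_GL`;
`S_HS` with `ε'` for each odd `t₀ < 2^b`. `N2 (2^(k-b)) U0 U1 .. (t / 2^b) ≤ L + cPP (2^b') ρ c c' w0 w1 t (2^k)`
for `k ≥ b` (as in CLN.lean). So if `cPP .. (2^k) < δ 2^k`, `k ≥ k_L` (`L ≤ δ 2^k_L`), then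
`N2 (2^(k-b)) < 2 δ 2^k = δ0 2^(k-b)`, and `#{k < K | ..} ≤ k_L + b + (ε/2) (K - b) ≤ ε K` for `K ≥ K1`. -/
def S_HC : Prop := ∀ (b' : ℕ) (ε : ℝ), 0 < ε → ∃ δ : ℝ, 0 < δ ∧
  ∀ (ρ L : ℕ) (c c' : Fin (L + 1) → ZMod 2), c ≠ 0 → c' ≠ 0 → c + c' ≠ 0 →
  ∀ ε' : ℝ, 0 < ε' → ∃ K1 : ℕ, ∀ (w0 w1 : ℕ → ZMod 2) (N : ℕ),
    (Set.ncard {t : ℕ | t < 2 ^ N ∧ t % 2 = 1 ∧ ∃ K : ℕ, K1 ≤ K ∧ 8 * K ≤ N ∧
      ε * K < (#{k ∈ range K | (cPP (2 ^ b') ρ c c' w0 w1 t (2 ^ k) : ℝ) < δ * 2 ^ k} : ℝ)} : ℝ) ≤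
        ε' * 2 ^ N

open scoped Classical in
/-- HC1: one pattern, all moduli. From `S_HS1`, `S_NZC`; as `S_HC`, compare TW/GL1.lean, TW/CU1.lean. -/
def S_HC1 : Prop := ∀ M : ℕ, 0 < M → ∀ ε : ℝ, 0 < ε → ∃ δ : ℝ, 0 < δ ∧
  ∀ (ρ L : ℕ) (c : Fin (L + 1) → ZMod 2), c ≠ 0 →
  ∀ ε' : ℝ, 0 < ε' → ∃ K1 : ℕ, ∀ (w : ℕ → ZMod 2) (N : ℕ),
    (Set.ncard {t : ℕ | t < 2 ^ N ∧ t % 2 = 1 ∧ ∃ K : ℕ, K1 ≤ K ∧ 8 * K ≤ N ∧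
      ε * K < (#{k ∈ range K | (cntP M ρ c w t (2 ^ k) : ℝ) < δ * 2 ^ k} : ℝ)} : ℝ) ≤ ε' * 2 ^ N

open scoped Classical in
/-- HE: two patterns, almost all 2-adic `t`. From `S_HC`; the proof of `S_GE` (TW/GE.lean) with
`B = {t | t.appr 1 = 1 ∧ ∀ K0, ∃ K ≥ K0, ε K < #{k < K | cZZ .. t (2^k) < δ 2^k}}`. -/
def S_HE : Prop := ∀ (b' : ℕ) (ε : ℝ), 0 < ε → ∃ δ : ℝ, 0 < δ ∧ ∀ (w0 w1 : ℕ → ZMod 2)
  [MeasurableSpace ℤ_[2]] [BorelSpace ℤ_[2]] (μ : MeasureTheory.Measure ℤ_[2])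
  [MeasureTheory.IsProbabilityMeasure μ] [μ.IsAddLeftInvariant], ∀ᵐ t ∂μ, t.appr 1 = 1 →
    ∀ (ρ L : ℕ) (c c' : Fin (L + 1) → ZMod 2), c ≠ 0 → c' ≠ 0 → c + c' ≠ 0 →
      ∃ K0 : ℕ, ∀ K : ℕ, K0 ≤ K →
        (#{k ∈ range K | (cZZ (2 ^ b') ρ c c' w0 w1 t (2 ^ k) : ℝ) < δ * 2 ^ k} : ℝ) ≤ ε * K

open scoped Classical in
/-- HE1: one pattern, almost all 2-adic `t`. From `S_HC1`; the proof of `S_GE1` (TW/GE1.lean). -/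
def S_HE1 : Prop := ∀ M : ℕ, 0 < M → ∀ ε : ℝ, 0 < ε → ∃ δ : ℝ, 0 < δ ∧ ∀ (w : ℕ → ZMod 2)
  [MeasurableSpace ℤ_[2]] [BorelSpace ℤ_[2]] (μ : MeasureTheory.Measure ℤ_[2])
  [MeasureTheory.IsProbabilityMeasure μ] [μ.IsAddLeftInvariant], ∀ᵐ t ∂μ, t.appr 1 = 1 →
    ∀ (ρ L : ℕ) (c : Fin (L + 1) → ZMod 2), c ≠ 0 → ∃ K0 : ℕ, ∀ K : ℕ, K0 ≤ K →
      (#{k ∈ range K | (cntZ M ρ c w t (2 ^ k) : ℝ) < δ * 2 ^ k} : ℝ) ≤ ε * K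

end Pool.Agent.H558.TW
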